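import Pool.Agent.Q47.TB.Coef
import Pool.Agent.Q47.MM.Latt
import Pool.Agent.Q47.FJ.Fan

/-!
# Adjoint classes on the base of a toric bundle over a torus quotient
-/

set_option autoImplicit false

namespace Pool.Agent.U976.TBd

open Pool.Agent.W594.SYZ2 Pool.Agent.W594.SYZ2.TQ Pool.Agent.TH735.AQ Q47.MM MvPolynomial

variable {V : Type*} [NormedAddCommGroup V] [NormedSpace ℂ V]
  {Γ : Subgroup (V ≃ᵃ[ℂ] V)}

/-- The Chern form of `m (K_X + B)`, `B` effective, is nonnegative on each subspace which is spanned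
by lattice vectors and which is parallel to the ramification divisor. -/
theorem pair_sub [FiniteDimensional ℂ V] {ρ P : V → ℂ} {m : ℕ}
    {L : LineBundle Γ} {H : V → V → ℂ} (hρ : Differentiable ℂ ρ) (hρ1 : ∃ v, ρ v ≠ 0)
    (hP : Differentiable ℂ P)
    (hP0 : ∃ v, P v ≠ 0) (hL : Pool.Agent.TH735.AQ.IsLogPluricanonical L m ρ P)
    (hc : IsChernForm L H) (U : Submodule ℂ V)
    (hspan : Submodule.span ℝ ((latt Γ).comap U.subtype.toAddMonoidHom : Set U) = ⊤)
    (hU : ∀ v₀, ρ v₀ ≠ 0 → ∀ u ∈ U, ρ (v₀ + u) ≠ 0) {x : V} (hxU : x ∈ U) :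
    0 ≤ (H x x).re := by
  obtain ⟨hH, F, hF, hFe⟩ := hc
  have hpot : IsPot L H F := ⟨hF, hFe⟩
  obtain ⟨v₀, hv₀P, hv₀⟩ := exists_common hP hρ hP0 hρ1
  have hρ0 : ∀ u : U, ρ (v₀ + u) ≠ 0 := fun u => hU v₀ hv₀ u u.2
  have : ProperSpace U := FiniteDimensional.proper ℂ U
  have hin : Differentiable ℂ fun u : U => v₀ + (u : V) := U.subtypeL.differentiable.const_add v₀
  obtain ⟨g, hgd⟩ : ∃ g : U → ℂ, ∀ u : U,
      g u = P (v₀ + u) * (ρ (v₀ + u) ^ m)⁻¹ * Complex.exp (-F (v₀ + u)) := ⟨_, fun _ => rfl⟩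
  have hg : Differentiable ℂ g := by
    have h1 : Differentiable ℂ fun u : U => P (v₀ + (u : V)) := hP.comp hin
    have h2 : Differentiable ℂ fun u : U => (ρ (v₀ + (u : V)) ^ m)⁻¹ :=
      Differentiable.inv ((hρ.comp hin).pow m) fun u => pow_ne_zero _ (hρ0 u)
    have h3 : Differentiable ℂ fun u : U => Complex.exp (-F (v₀ + (u : V))) :=
      (hF.comp hin).neg.cexp
    rw [funext hgd]
    exact (h1.mul h2).mul h3
  have hgb : ∀ (b : U) (hb : (b : V) ∈ latt Γ) (u : U),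
      g (b + u) = tw L F (tr (b : V) hb) (v₀ + u) * g u := by
    intro b hb u
    have h1 := hL (tr (b : V) hb) (v₀ + u)
    have h2 : LinearMap.det (((tr (b : V) hb : Γ) : V ≃ᵃ[ℂ] V).linear : V →ₗ[ℂ] V) = 1 := by
      have h3 : (((tr (b : V) hb : Γ) : V ≃ᵃ[ℂ] V).linear : V →ₗ[ℂ] V) = LinearMap.id := by
        ext w
        exact tr_linear (b : V) hb w
      rw [h3, LinearMap.det_id]
    rw [h2, one_pow, mul_one, tr_apply] at h1
    have n1 := pow_ne_zero m (hρ0 u)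
    have n2 : ρ ((b : V) + (v₀ + u)) ^ m ≠ 0 := by
      have h4 := hρ0 (b + u)
      have h5 : v₀ + ((b + u : U) : V) = (b : V) + (v₀ + u) := by
        rw [Submodule.coe_add]
        abel
      rw [h5] at h4
      exact pow_ne_zero m h4
    have h6 : v₀ + ((b + u : U) : V) = (b : V) + (v₀ + u) := by
      rw [Submodule.coe_add]
      abel
    rw [hgd, hgd, h6, tw, tr_apply, Complex.exp_neg, Complex.exp_neg, Complex.exp_sub]
    have h5 : P ((b : V) + (v₀ + u)) * (ρ ((b : V) + (v₀ + u)) ^ m)⁻¹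
        = L.e (tr (b : V) hb) (v₀ + u) * (P (v₀ + u) * (ρ (v₀ + u) ^ m)⁻¹) := by
      rw [← div_eq_mul_inv, ← div_eq_mul_inv, div_eq_iff n2, ← mul_div_assoc,
        div_mul_eq_mul_div, eq_div_iff n1]
      exact h1
    rw [h5]
    have n3 := Complex.exp_ne_zero (F (v₀ + u))
    have n4 := Complex.exp_ne_zero (F ((b : V) + (v₀ + u)))
    field_simp
  obtain ⟨ψ, hψd⟩ : ∃ ψ : U → ℝ, ∀ u : U,
      ψ u = ‖g u‖ ^ 2 * Real.exp (-(Real.pi * (H (v₀ + u) (v₀ + u)).re)) := ⟨_, fun _ => rfl⟩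
  have hψc : Continuous ψ := by
    rw [funext hψd]
    exact (hg.continuous.norm.pow 2).mul (Real.continuous_exp.comp
      (((diag_continuous hH).comp hin.continuous).const_mul Real.pi).neg)
  have hψp : ∀ b ∈ (latt Γ).comap U.subtype.toAddMonoidHom, ∀ u, ψ (b + u) = ψ u := by
    intro b hb u
    have hb' : (b : V) ∈ latt Γ := hb
    have e1 : ‖g (b + u)‖ ^ 2 = ‖tw L F (tr (b : V) hb') (v₀ + u)‖ ^ 2 * ‖g u‖ ^ 2 := by
      rw [hgb b hb' u, norm_mul, mul_pow]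
    have h6 : v₀ + ((b + u : U) : V) = (b : V) + (v₀ + u) := by
      rw [Submodule.coe_add]
      abel
    rw [hψd, hψd, e1, tw_norm hpot, tr_apply, mul_sub, Real.exp_sub, h6, Real.exp_neg,
      Real.exp_neg]
    field_simp
  obtain ⟨C, hC⟩ := cobounded ((latt Γ).comap U.subtype.toAddMonoidHom) hspan
  have hK : IsCompact (Metric.closedBall (0 : U) C) := isCompact_closedBall _ _
  obtain ⟨R, hR⟩ := (isBounded_iff_forall_norm_le.1 (hK.image hψc).isBounded)
  have hbd : ∀ u, ψ u ≤ R := by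
    intro u
    obtain ⟨b, hb, hbC⟩ := hC u
    rw [← hψp b hb u]
    exact (le_abs_self _).trans (hR _ ⟨b + u, by rwa [mem_closedBall_zero_iff], rfl⟩)
  have hR0 : 0 ≤ R := by
    refine le_trans ?_ (hbd 0)
    rw [hψd]
    positivity
  obtain ⟨y, hy⟩ : ∃ y : U, (y : V) = x := ⟨⟨x, hxU⟩, rfl⟩
  have hzy : ∀ z : ℂ, ((z • y : U) : V) = z • x := fun z => by rw [Submodule.coe_smul, hy]
  by_contra hneg
  push Not at hneg
  obtain ⟨f, hfd⟩ : ∃ f : ℂ → ℂ, ∀ z, f z = g (z • y) * Complex.exp (-(Real.pi * (z * H x v₀))) :=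
    ⟨_, fun _ => rfl⟩
  have hline : Differentiable ℂ fun z : ℂ => z • y := differentiable_id.smul_const _
  have hf : Differentiable ℂ f := by
    rw [funext hfd]
    exact (hg.comp hline).mul
      (((differentiable_id.mul_const (H x v₀)).const_mul (Real.pi : ℂ)).neg).cexp
  have hest : ∀ z, ‖f z‖ ^ 2 ≤ R * Real.exp (Real.pi * (H v₀ v₀).re) *
      Real.exp (-(Real.pi * (-(H x x).re) * ‖z‖ ^ 2)) := by
    intro z
    have e1 : (H (v₀ + z • x) (v₀ + z • x)).re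
        = (H v₀ v₀).re + ‖z‖ ^ 2 * (H x x).re + 2 * (z * H x v₀).re := by
      rw [add_comm v₀, h_diag_add hH, h_diag_smul hH, hH.smul_left]
      ring
    have e2 : ‖Complex.exp (-(Real.pi * (z * H x v₀)))‖ ^ 2
        = Real.exp (-(2 * (Real.pi * (z * H x v₀).re))) := by
      rw [Complex.norm_exp, Complex.neg_re, Complex.re_ofReal_mul, ← Real.exp_nat_mul]
      congr 1
      push_cast
      ring
    have e3 : ‖f z‖ ^ 2 = ‖g (z • y)‖ ^ 2 * Real.exp (-(2 * (Real.pi * (z * H x v₀).re))) := by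
      rw [← e2, ← mul_pow, ← norm_mul, hfd]
    have e4 : ‖g (z • y)‖ ^ 2 ≤ R * Real.exp (Real.pi * (H (v₀ + z • x) (v₀ + z • x)).re) := by
      have e5 := hbd (z • y)
      rw [hψd, hzy, Real.exp_neg, ← div_eq_mul_inv, div_le_iff₀ (Real.exp_pos _)] at e5
      exact e5
    rw [e3]
    refine (mul_le_mul_of_nonneg_right e4 (Real.exp_pos _).le).trans (le_of_eq ?_)
    rw [mul_assoc, mul_assoc, ← Real.exp_add, ← Real.exp_add, e1]
    congr 2
    ring
  have h0 := zero_of_decay hf (mul_nonneg hR0 (Real.exp_pos _).le)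
    (mul_pos Real.pi_pos (neg_pos.2 hneg)) hest 0
  rw [hfd, zero_smul, hgd, Submodule.coe_zero, add_zero] at h0
  exact mul_ne_zero (mul_ne_zero (mul_ne_zero hv₀P (inv_ne_zero (pow_ne_zero _ hv₀)))
    (Complex.exp_ne_zero _)) (Complex.exp_ne_zero _) h0

/-- The Chern form of `m (K_X + B)`, `B` effective, is nonnegative on the vectors which are fixed by
all reflections. -/
theorem pair_fixed [FiniteDimensional ℂ V] (hΓ : IsTorusQuotient Γ) {ρ P : V → ℂ} {m : ℕ}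
    {L : LineBundle Γ} {H : V → V → ℂ} (hρ : IsRamification Γ ρ) (hP : Differentiable ℂ P)
    (hP0 : ∃ v, P v ≠ 0) (hL : Pool.Agent.TH735.AQ.IsLogPluricanonical L m ρ P)
    (hc : IsChernForm L H) {x : V} (hx : IsFixed Γ x) : 0 ≤ (H x x).re :=
  pair_sub hρ.holo (ram_ne_zero hρ) hP hP0 hL hc (fixSpace Γ) (fix_span hΓ)
    (fun v₀ hv₀ u hu h => not_onMirror_add hΓ (fun h => hv₀ ((hρ.zero_iff v₀).2 h)) hu
      ((hρ.zero_iff _).1 h)) hx

/-- If `V → X` is unramified in codimension one then the Chern form of `m (K_X + B)`, `B` effective, is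
nonnegative. -/
theorem pair_unram [FiniteDimensional ℂ V] (hΓ : IsTorusQuotient Γ) {ρ P : V → ℂ} {m : ℕ}
    {L : LineBundle Γ} {H : V → V → ℂ} (hρ : IsRamification Γ ρ) (h0 : ∀ v, ρ v ≠ 0)
    (hP : Differentiable ℂ P)
    (hP0 : ∃ v, P v ≠ 0) (hL : Pool.Agent.TH735.AQ.IsLogPluricanonical L m ρ P)
    (hc : IsChernForm L H) : IsNefForm H := by
  intro x
  refine pair_sub hρ.holo (ram_ne_zero hρ) hP hP0 hL hc ⊤ ?_ (fun _ _ _ _ => h0 _) trivial
  have hmap : (Submodule.span ℝ ((latt Γ).comap (⊤ : Submodule ℂ V).subtype.toAddMonoidHom :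
      Set (⊤ : Submodule ℂ V))).map ((⊤ : Submodule ℂ V).subtype.restrictScalars ℝ)
      = Submodule.span ℝ (latt Γ : Set V) := by
    rw [Submodule.map_span]
    congr 1
    ext x
    constructor
    · rintro ⟨y, hy, rfl⟩
      exact hy
    · intro hx
      exact ⟨⟨x, trivial⟩, hx, rfl⟩
  rw [hΓ.span_top] at hmap
  rw [eq_top_iff]
  rintro ⟨x, hx⟩ -
  have h1 : x ∈ (⊤ : Submodule ℝ V) := trivial
  rw [← hmap] at h1
  obtain ⟨y, hy, hyx⟩ := h1
  have h2 : y = ⟨x, hx⟩ := Subtype.ext hyx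
  rwa [← h2]

end Pool.Agent.U976.TBd
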