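import Pool.Agent.Q47.TB.Defs

/-!
# Toric bundles over torus quotients: positivity of line bundles

Notation as in `Pool.Agent.Q47.TB.Defs`: `X = V / Γ` is the quotient of a complex torus by a finite
group, `u` and `S` define a smooth complete fan in `ℤ^n`, `c i` are line bundles on `X`, and
`Y → X` is the toric bundle with the Cox coordinates `x i`. The line bundle `O_Y(d; L)` on `Y` is given
by the integers `d i` and the line bundle `L` on `X`; all line bundles on `Y` are of this form.
-/

set_option autoImplicit false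

namespace Pool.Agent.U976.TBd

open Pool.Agent.W594.SYZ2 Q47.TB MvPolynomial

variable {V : Type*} [NormedAddCommGroup V] [NormedSpace ℂ V] {Γ : Subgroup (V ≃ᵃ[ℂ] V)}
  {ι : Type*} [Fintype ι] {n : ℕ}

/-- For all torus invariant prime divisors over the general fibre of `Y → X`, the discrepancy of the
pair `(Y, Δ)`, `m Δ = div F`, is at least `-1` (this is so if `(Y, Δ)` is log canonical): for the prime
divisor given by the vector `∑ a_i u_i` in the cone `{i | a_i ≠ 0}` of the fan, the multiplicity of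
`div F` along it is the minimum of `∑ a_i α_i` over the monomials `x ^ α` of `F` (those whose
coefficient is not the zero function), and the log discrepancy of the toric variety is `∑ a_i`. -/
def ToricLC (S : Set (Set ι)) (m : ℕ) (F : V → MvPolynomial ι ℂ) : Prop :=
  ∀ a : ι → ℕ, {i | a i ≠ 0} ∈ S →
    ∃ α : ι →₀ ℕ, (∃ v, coeff α (F v) ≠ 0) ∧ ∑ i, a i * α i ≤ m * ∑ i, a i

/-- `G` is a global section of the `k`-th power of `O_Y(d; L)`. -/
def SecPow (u : ι → Fin n → ℤ) (c : ι → LineBundle Γ) (d : ι → ℤ) (L : LineBundle Γ) (k : ℕ)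
    (G : V → MvPolynomial ι ℂ) : Prop :=
  IsSection u c (fun i => k * d i) (fun γ v => L.e γ v ^ k) G

/-- `κ(Y, O_Y(d; L)) ≥ 0`: some positive power of the line bundle has a nonzero section. -/
def QEffective (u : ι → Fin n → ℤ) (c : ι → LineBundle Γ) (d : ι → ℤ) (L : LineBundle Γ) : Prop :=
  ∃ k : ℕ, 1 ≤ k ∧ ∃ G, SecPow u c d L k G ∧ ∃ v, G v ≠ 0

/-- `O_Y(d; L)` is semiample: some positive power is generated by global sections. (The points of `Y`
are the classes of the points `(v, x)` such that `{i | x_i = 0}` is a cone of the fan.) -/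
def Semiample (u : ι → Fin n → ℤ) (S : Set (Set ι)) (c : ι → LineBundle Γ) (d : ι → ℤ)
    (L : LineBundle Γ) : Prop :=
  ∃ k : ℕ, 1 ≤ k ∧ ∀ (v : V) (x : ι → ℂ), {i | x i = 0} ∈ S →
    ∃ G, SecPow u c d L k G ∧ eval x (G v) ≠ 0

/-- `O_Y(d; L)` is nef on the fibres of `Y → X` and on the sections `X → Y` which are invariant under
the torus: for each cone `σ` of the fan some positive multiple of the class of `∑ d_i D_i` contains an
effective divisor `∑ β_i D_i` with `β_i = 0` for `i ∈ σ`, and the restriction `L ^ k ⊗ ∏ c_i ^ (-β_i)`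
of the line bundle to the section `x_i = 0`, `i ∈ σ` (if `σ` is maximal), is nef. Here `H` and `Hc i`
are the Chern forms of `L` and `c i`. Nef line bundles on `Y` have this property. -/
def Nef (u : ι → Fin n → ℤ) (S : Set (Set ι)) (Hc : ι → V → V → ℂ) (d : ι → ℤ)
    (H : V → V → ℂ) : Prop :=
  ∀ σ ∈ S, ∃ k : ℕ, 1 ≤ k ∧ ∃ β : ι → ℕ, (∀ i ∈ σ, β i = 0) ∧
    LinEquiv u (fun i => (β i : ℤ)) (fun i => k * d i) ∧
      IsNefForm fun v w => (k : ℂ) * H v w - ∑ i, (β i : ℂ) * Hc i v w

/-- `O_Y(d; L)` is pseudo-effective: for some line bundle `A = O_Y(dA; LA)`, and for all `k ≥ 1`, some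
positive power of `O_Y(d; L) ^ k ⊗ A` has a nonzero section, so that the class of `O_Y(d; L)` is the
limit of the classes `(1 / k) (k c_1 + c_1(A))` of `ℚ`-effective divisors. (On a projective variety
each pseudo-effective line bundle has this property, for each ample line bundle `A`.) -/
def Psef (u : ι → Fin n → ℤ) (c : ι → LineBundle Γ) (d : ι → ℤ) (L : LineBundle Γ) : Prop :=
  ∃ (dA : ι → ℤ) (LA : LineBundle Γ) (HA : V → V → ℂ), IsChernForm LA HA ∧
    ∀ k : ℕ, 1 ≤ k → ∃ j : ℕ, 1 ≤ j ∧ ∃ G,
      IsSection u c (fun i => j * (k * d i + dA i))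
        (fun γ v => (L.e γ v ^ k * LA.e γ v) ^ j) G ∧ ∃ v, G v ≠ 0

end Pool.Agent.U976.TBd
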