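import Pool.Agent.U976.TBd.A
import Pool.Agent.U976.TBd.Defs

/-!
# Boundedness of the polytopes, and log pluricanonical divisors on the base for all multiples
-/

set_option autoImplicit false

namespace Pool.Agent.U976.TBd

open Pool.Agent.W594.SYZ2 Pool.Agent.W594.SYZ2.TQ Pool.Agent.TH735.AQ Q47.MM Q47.TB MvPolynomial

variable {ι : Type*} [Fintype ι] {n : ℕ}

/-- The polytope of a complete fan is bounded. -/
theorem real_bound {u : ι → Fin n → ℤ} {S : Set (Set ι)} (hS : IsSmoothFan u S) :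
    ∃ C : ℝ, 0 ≤ C ∧ ∀ (q : Fin n → ℝ) (D : ℝ), 0 ≤ D →
      (∀ i, -D ≤ ∑ k, q k * (u i k : ℝ)) → ∀ k, |q k| ≤ C * D := by
  classical
  choose a ha using fun k : Fin n => (hS.rep fun j => if j = k then 1 else 0).exists
  choose b hb using fun k : Fin n => (hS.rep fun j => if j = k then -1 else 0).exists
  refine ⟨∑ k, ∑ i, ((a k i : ℝ) + b k i), Finset.sum_nonneg fun k _ => Finset.sum_nonneg
    fun i _ => by positivity, fun q D hD h k => ?_⟩
  have h1 : q k = ∑ i, (a k i : ℝ) * ∑ j, q j * (u i j : ℝ) := by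
    have e1 : ∀ j, (if j = k then (1 : ℝ) else 0) = ∑ i, (a k i : ℝ) * (u i j : ℝ) := by
      intro j
      have := (ha k).2 j
      have e2 : ((∑ i, (a k i : ℤ) * u i j : ℤ) : ℝ) = ((if j = k then (1 : ℤ) else 0 : ℤ) : ℝ) := by
        rw [this]
      push_cast at e2
      rw [← e2]
    calc q k = ∑ j, q j * (if j = k then (1 : ℝ) else 0) := by simp
      _ = ∑ j, q j * ∑ i, (a k i : ℝ) * (u i j : ℝ) := by simp only [e1]
      _ = _ := by
        simp only [Finset.mul_sum]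
        rw [Finset.sum_comm]
        exact Finset.sum_congr rfl fun i _ => Finset.sum_congr rfl fun j _ => by ring
  have h2 : -q k = ∑ i, (b k i : ℝ) * ∑ j, q j * (u i j : ℝ) := by
    have e1 : ∀ j, (if j = k then (-1 : ℝ) else 0) = ∑ i, (b k i : ℝ) * (u i j : ℝ) := by
      intro j
      have := (hb k).2 j
      have e2 : ((∑ i, (b k i : ℤ) * u i j : ℤ) : ℝ) = ((if j = k then (-1 : ℤ) else 0 : ℤ) : ℝ) := by
        rw [this]
      push_cast at e2
      rw [← e2]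
    calc -q k = ∑ j, q j * (if j = k then (-1 : ℝ) else 0) := by simp
      _ = ∑ j, q j * ∑ i, (b k i : ℝ) * (u i j : ℝ) := by simp only [e1]
      _ = _ := by
        simp only [Finset.mul_sum]
        rw [Finset.sum_comm]
        exact Finset.sum_congr rfl fun i _ => Finset.sum_congr rfl fun j _ => by ring
  have hC : (∑ i, ((a k i : ℝ) + b k i)) * D ≤ (∑ k, ∑ i, ((a k i : ℝ) + b k i)) * D := by
    refine mul_le_mul_of_nonneg_right ?_ hD
    exact Finset.single_le_sum (f := fun k => ∑ i, ((a k i : ℝ) + b k i))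
      (fun k _ => Finset.sum_nonneg fun i _ => by positivity) (Finset.mem_univ k)
  have ha0 : ∀ (w : ι → ℕ), -((∑ i, (w i : ℝ)) * D) ≤ ∑ i, (w i : ℝ) * ∑ j, q j * (u i j : ℝ) := by
    intro w
    rw [Finset.sum_mul, ← Finset.sum_neg_distrib]
    refine Finset.sum_le_sum fun i _ => ?_
    have := mul_le_mul_of_nonneg_left (h i) (Nat.cast_nonneg (α := ℝ) (w i))
    linarith
  have hsa : (∑ i, (a k i : ℝ)) * D ≤ (∑ i, ((a k i : ℝ) + b k i)) * D :=
    mul_le_mul_of_nonneg_right (Finset.sum_le_sum fun i _ => by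
      have : (0 : ℝ) ≤ b k i := by positivity
      linarith) hD
  have hsb : (∑ i, (b k i : ℝ)) * D ≤ (∑ i, ((a k i : ℝ) + b k i)) * D :=
    mul_le_mul_of_nonneg_right (Finset.sum_le_sum fun i _ => by
      have : (0 : ℝ) ≤ a k i := by positivity
      linarith) hD
  rw [abs_le]
  constructor
  · have := ha0 (a k)
    rw [← h1] at this
    linarith
  · have := ha0 (b k)
    rw [← h2] at this
    linarith

/-- Only finitely many exponents are in a given class. -/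
theorem finite_class {u : ι → Fin n → ℤ} {S : Set (Set ι)} (hS : IsSmoothFan u S) (d : ι → ℤ) :
    {α : ι →₀ ℕ | LinEquiv u (fun i => (α i : ℤ)) d}.Finite := by
  classical
  obtain ⟨C, hC, h⟩ := real_bound hS
  obtain ⟨D, hD0, hD⟩ : ∃ D : ℝ, 0 ≤ D ∧ ∀ i, |(d i : ℝ)| ≤ D :=
    ⟨∑ i, |(d i : ℝ)|, Finset.sum_nonneg fun i _ => abs_nonneg _, fun i =>
      Finset.single_le_sum (f := fun i => |(d i : ℝ)|) (fun i _ => abs_nonneg _)
        (Finset.mem_univ i)⟩
  obtain ⟨B, hB⟩ : ∃ B : ℕ, ∀ i, D + ∑ k, C * D * |(u i k : ℝ)| ≤ B := by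
    obtain ⟨B, hB⟩ := exists_nat_ge (∑ i, (D + ∑ k, C * D * |(u i k : ℝ)|))
    refine ⟨B, fun i => le_trans ?_ hB⟩
    exact Finset.single_le_sum (f := fun i => D + ∑ k, C * D * |(u i k : ℝ)|)
      (fun i _ => add_nonneg hD0 (Finset.sum_nonneg fun k _ => by positivity)) (Finset.mem_univ i)
  refine (Set.finite_Icc (0 : ι →₀ ℕ) (Finsupp.equivFunOnFinite.symm fun _ => B)).subset ?_
  rintro α ⟨q, hq⟩
  refine ⟨fun i => Nat.zero_le _, fun i => ?_⟩
  rw [Finsupp.equivFunOnFinite_symm_apply_apply]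
  have hq' : ∀ i, (α i : ℝ) = d i + ∑ k, (q k : ℝ) * (u i k : ℝ) := by
    intro i
    have := hq i
    simp only at this
    have e2 : (((α i : ℕ) : ℤ) : ℝ) = ((d i + ∑ k, q k * u i k : ℤ) : ℝ) := by rw [this]
    push_cast at e2
    exact e2
  have hk := h (fun k => (q k : ℝ)) D hD0 (fun i => by
    have h1 := hq' i
    have h2 : (0 : ℝ) ≤ α i := by positivity
    have h3 := (abs_le.1 (hD i)).2
    linarith)
  have h4 : (α i : ℝ) ≤ B := by
    refine le_trans ?_ (hB i)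
    rw [hq' i]
    refine add_le_add ((le_abs_self _).trans (hD i)) (Finset.sum_le_sum fun k _ => ?_)
    calc (q k : ℝ) * (u i k : ℝ) ≤ |(q k : ℝ) * (u i k : ℝ)| := le_abs_self _
      _ = |(q k : ℝ)| * |(u i k : ℝ)| := abs_mul _ _
      _ ≤ _ := mul_le_mul_of_nonneg_right (hk k) (abs_nonneg _)
  exact_mod_cast h4

variable {V : Type*} [NormedAddCommGroup V] [NormedSpace ℂ V]
  {Γ : Subgroup (V ≃ᵃ[ℂ] V)}

/-- The exponents `β` in the class of `k (d - m)` give log pluricanonical divisors on the base. -/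
theorem base_pair [FiniteDimensional ℂ V] {u : ι → Fin n → ℤ} {S : Set (Set ι)}
    (hS : IsSmoothFan u S) {c : ι → LineBundle Γ} {m : ℕ} {ρ : V → ℂ} {d : ι → ℤ}
    {F : V → MvPolynomial ι ℂ} {L : LineBundle Γ}
    (hF : Q47.TB.IsLogPluricanonical u c m ρ d F L) (hw : ToricLC S m F)
    {k : ℕ} (hk : 1 ≤ k) {β : ι → ℕ}
    (hβ : LinEquiv u (fun i => (β i : ℤ)) (fun i => k * (d i - m))) :
    ∃ K : ℕ, 1 ≤ K ∧ ∃ P : V → ℂ, Differentiable ℂ P ∧ (∃ v, P v ≠ 0) ∧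
      Pool.Agent.TH735.AQ.IsLogPluricanonical (Q47.TB.tw (L.pow k) c K β) (m * k * K) ρ P := by
  classical
  have hfin : {α : ι →₀ ℕ | ∃ v, coeff α (F v) ≠ 0}.Finite := by
    refine (finite_class hS d).subset ?_
    rintro α ⟨v, hv⟩
    exact hF.deg v α (mem_support_iff.2 hv)
  let T₀ : Finset (ι →₀ ℕ) := hfin.toFinset
  have hT₀ : ∀ α, α ∈ T₀ ↔ ∃ v, coeff α (F v) ≠ 0 := fun α => by simp [T₀]
  let T : Finset (ι →₀ ℕ) := T₀.image fun α => k • α
  let dv : (ι →₀ ℕ) → ι →₀ ℕ := fun α => α.mapRange (· / k) (Nat.zero_div k)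
  have hdv : ∀ α : ι →₀ ℕ, dv (k • α) = α := by
    intro α
    ext i
    simp only [dv, Finsupp.mapRange_apply, Finsupp.smul_apply, smul_eq_mul]
    exact Nat.mul_div_cancel_left _ hk
  have hTm : ∀ α ∈ T, ∃ α₀, (∃ v, coeff α₀ (F v) ≠ 0) ∧ α = k • α₀ := by
    intro α hα
    obtain ⟨α₀, h0, rfl⟩ := Finset.mem_image.1 hα
    exact ⟨α₀, (hT₀ α₀).1 h0, rfl⟩
  refine exists_base_pair₀ (m := m * k) (d := fun i => k * d i) (L := L.pow k) hS T
    (fun α v => coeff (dv α) (F v) ^ k)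
    (fun α => (hF.holo _).pow k) ?_ ?_ ?_ ?_ ?_
  · intro α hα
    obtain ⟨α₀, ⟨v, hv⟩, rfl⟩ := hTm α hα
    exact ⟨v, by rw [hdv]; exact pow_ne_zero _ hv⟩
  · intro α hα
    obtain ⟨α₀, ⟨v, hv⟩, rfl⟩ := hTm α hα
    obtain ⟨q, hq⟩ := hF.deg v α₀ (mem_support_iff.2 hv)
    refine ⟨fun j => k * q j, fun i => ?_⟩
    have h1 : (α₀ i : ℤ) = d i + ∑ j, q j * u i j := hq i
    simp only [Finsupp.smul_apply, smul_eq_mul]
    push_cast
    rw [h1, mul_add, Finset.mul_sum]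
    congr 1
    exact Finset.sum_congr rfl fun j _ => by ring
  · intro α hα γ v
    obtain ⟨α₀, -, rfl⟩ := hTm α hα
    have h1 := coeff_of_eval (t := fun i => (c i).e γ v) (p := F ((γ : V ≃ᵃ[ℂ] V) v)) (q := F v)
      (a := ρ v ^ m) (b := L.e γ v * (LinearMap.det ((γ : V ≃ᵃ[ℂ] V).linear : V →ₗ[ℂ] V) *
        ∏ i, (c i).e γ v) ^ m * ρ ((γ : V ≃ᵃ[ℂ] V) v) ^ m) (fun x => by rw [hF.eq γ v x]; ring) α₀
    rw [hdv]
    have h2 : ∏ i, (c i).e γ v ^ (k • α₀) i = (∏ i, (c i).e γ v ^ α₀ i) ^ k := by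
      rw [← Finset.prod_pow]
      exact Finset.prod_congr rfl fun i _ => by
        rw [Finsupp.smul_apply, smul_eq_mul, mul_comm, pow_mul]
    have h3 : (L.pow k).e γ v = L.e γ v ^ k := rfl
    rw [h2, h3, pow_mul, pow_mul, pow_mul, ← mul_pow, ← mul_pow, h1]
    simp only [mul_pow]
  · intro a ha
    obtain ⟨α₀, h0, hle⟩ := hw a ha
    refine ⟨k • α₀, Finset.mem_image.2 ⟨α₀, (hT₀ α₀).2 h0, rfl⟩, ?_⟩
    have h1 : ∑ i, a i * (k • α₀) i = k * ∑ i, a i * α₀ i := by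
      rw [Finset.mul_sum]
      exact Finset.sum_congr rfl fun i _ => by
        rw [Finsupp.smul_apply, smul_eq_mul]; ring
    rw [h1]
    calc k * ∑ i, a i * α₀ i ≤ k * (m * ∑ i, a i) := Nat.mul_le_mul_left _ hle
      _ = _ := by ring
  · obtain ⟨q, hq⟩ := hβ
    refine ⟨q, fun i => ?_⟩
    have h1 : (β i : ℤ) = k * (d i - m) + ∑ j, q j * u i j := hq i
    simp only
    rw [h1]
    push_cast
    ring

end Pool.Agent.U976.TBd
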