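import Pool.Agent.U976.TBd.B
import Pool.Agent.Q47.KN.Main

/-!
# Nef adjoint line bundles on toric bundles are semiample
-/

set_option autoImplicit false

namespace Pool.Agent.U976.TBd

open Pool.Agent.W594.SYZ2 Pool.Agent.W594.SYZ2.TQ Pool.Agent.TH735.AQ Q47.MM Q47.TB Q47.EB
open MvPolynomial

variable {V : Type*} [NormedAddCommGroup V] [NormedSpace ℂ V] {Γ : Subgroup (V ≃ᵃ[ℂ] V)}
  {ι : Type*} [Fintype ι] {n : ℕ}

/-- The form `k H - ∑ β_i H_i`. -/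
def frm (Hc : ι → V → V → ℂ) (H : V → V → ℂ) (k : ℕ) (β : ι → ℕ) (v w : V) : ℂ :=
  (k : ℂ) * H v w - ∑ i, (β i : ℂ) * Hc i v w

theorem nat_re (K : ℕ) (z : ℂ) : ((K : ℂ) * z).re = K * z.re := by
  have : ((K : ℕ) : ℂ) = ((K : ℝ) : ℂ) := by push_cast; rfl
  rw [this, Complex.re_ofReal_mul]

theorem chern_pow' {L : LineBundle Γ} {H : V → V → ℂ} (hc : IsChernForm L H) (k : ℕ) :
    IsChernForm (L.pow k) (fun v w => (k : ℂ) * H v w) := Q47.KN.chern_pow hc k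

theorem chern_frm {L : LineBundle Γ} {c : ι → LineBundle Γ} {H : V → V → ℂ}
    {Hc : ι → V → V → ℂ} (hL : IsChernForm L H) (hc : ∀ i, IsChernForm (c i) (Hc i))
    (K k : ℕ) (β : ι → ℕ) :
    IsChernForm (Q47.TB.tw (L.pow k) c K β) fun v w => (K : ℂ) * frm Hc H k β v w :=
  chern_tw (chern_pow' hL k) hc K β

/-- The coefficients of the sections. -/
theorem coef_section {u : ι → Fin n → ℤ} {c : ι → LineBundle Γ} {D : ι → ℤ} {M : LineBundle Γ}
    {G : V → MvPolynomial ι ℂ} (hG : IsSection u c D M.e G) (α : ι →₀ ℕ) :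
    (Q47.TB.tw M c 1 α).IsSection fun v => coeff α (G v) := by
  refine ⟨hG.holo α, fun γ v => ?_⟩
  have h1 := coeff_of_eval (t := fun i => (c i).e γ v) (p := G ((γ : V ≃ᵃ[ℂ] V) v)) (q := G v)
    (a := 1) (b := M.e γ v) (fun x => by rw [mul_one]; exact hG.eq γ v x) α
  rw [mul_one] at h1
  change coeff α (G ((γ : V ≃ᵃ[ℂ] V) v))
    = M.e γ v ^ 1 * (∏ i, (c i).e γ v ^ (1 * α i))⁻¹ * coeff α (G v)
  simp only [one_mul, pow_one]
  have h2 : (∏ i, (c i).e γ v ^ α i) ≠ 0 :=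
    Finset.prod_ne_zero_iff.2 fun i _ => pow_ne_zero _ ((c i).ne_zero γ v)
  field_simp
  linear_combination h1

/-- Monomial sections. -/
theorem secPow_monomial {u : ι → Fin n → ℤ} {c : ι → LineBundle Γ} {d : ι → ℤ}
    {L : LineBundle Γ} {k K N M : ℕ} {β : ι → ℕ}
    (hβ : LinEquiv u (fun i => (β i : ℤ)) fun i => k * d i) {s : V → ℂ}
    (hs : ((Q47.TB.tw (L.pow k) c K β).pow N).IsSection s) (hM : M = k * (K * N)) :
    SecPow u c d L M
      (fun v => monomial (Finsupp.equivFunOnFinite.symm fun i => K * N * β i) (s v)) := by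
  have h1 := isSection_monomial hβ hs
  have e1 : (fun i => ((K * N : ℕ) : ℤ) * ((k : ℤ) * d i)) = fun i => (M : ℤ) * d i := by
    funext i
    rw [hM]
    push_cast
    ring
  have e2 : (fun (γ : Γ) (v : V) => (L.pow k).e γ v ^ (K * N)) = fun γ v => L.e γ v ^ M := by
    funext γ v
    rw [hM]
    exact (pow_mul (L.e γ v) k (K * N)).symm
  rw [SecPow, ← e1, ← e2]
  exact h1

/-- Powers of sections. -/
theorem section_pow {L : LineBundle Γ} {s : V → ℂ} (hs : L.IsSection s) (j : ℕ) :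
    (L.pow j).IsSection fun v => s v ^ j :=
  ⟨hs.holo.pow j, fun γ v => by rw [hs.eq, mul_pow]; rfl⟩

variable [FiniteDimensional ℂ V]

/-- Generation by monomial sections. -/
theorem gen {u : ι → Fin n → ℤ} {S : Set (Set ι)} (hΓ : IsTorusQuotient Γ) {ρ : V → ℂ}
    (hρ : IsRamification Γ ρ) (hS : IsSmoothFan u S) {c : ι → LineBundle Γ}
    {Hc : ι → V → V → ℂ} (hc : ∀ i, IsChernForm (c i) (Hc i)) {m : ℕ} {d : ι → ℤ}
    {F : V → MvPolynomial ι ℂ} {L : LineBundle Γ} {H : V → V → ℂ} (hL : IsChernForm L H)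
    (hF : Q47.TB.IsLogPluricanonical u c m ρ d F L) (hw : ToricLC S m F)
    {k : ℕ} (hk : 1 ≤ k) {β : ι → ℕ}
    (hβ : LinEquiv u (fun i => (β i : ℤ)) (fun i => k * (d i - m)))
    (hn : IsNefForm (frm Hc H k β)) :
    ∃ K : ℕ, 1 ≤ K ∧ GG ((Q47.TB.tw (L.pow k) c K β).pow (expo (Module.finrank ℂ V))) := by
  obtain ⟨K, hK, P, hP, hP0, hl⟩ := base_pair hS hF hw hk hβ
  refine ⟨K, hK, ?_⟩
  have hch := chern_frm hL hc K k β
  obtain ⟨hH, F', hF', hFe⟩ := hch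
  refine gg_of_pair hΓ hH ⟨hF', hFe⟩ hρ hP hP0 hl fun v => ?_
  rw [nat_re]
  exact mul_nonneg (Nat.cast_nonneg K) (hn v)

/-- The form is nonnegative on the vectors fixed by the reflections. -/
theorem frm_fixed {u : ι → Fin n → ℤ} {S : Set (Set ι)} (hΓ : IsTorusQuotient Γ) {ρ : V → ℂ}
    (hρ : IsRamification Γ ρ) (hS : IsSmoothFan u S) {c : ι → LineBundle Γ}
    {Hc : ι → V → V → ℂ} (hc : ∀ i, IsChernForm (c i) (Hc i)) {m : ℕ} {d : ι → ℤ}
    {F : V → MvPolynomial ι ℂ} {L : LineBundle Γ} {H : V → V → ℂ} (hL : IsChernForm L H)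
    (hF : Q47.TB.IsLogPluricanonical u c m ρ d F L) (hw : ToricLC S m F)
    {k : ℕ} (hk : 1 ≤ k) {β : ι → ℕ}
    (hβ : LinEquiv u (fun i => (β i : ℤ)) (fun i => k * (d i - m))) {x : V} (hx : IsFixed Γ x) :
    0 ≤ (frm Hc H k β x x).re := by
  obtain ⟨K, hK, P, hP, hP0, hl⟩ := base_pair hS hF hw hk hβ
  have h1 := pair_fixed hΓ hρ hP hP0 hl (chern_frm hL hc K k β) hx
  rw [nat_re] at h1
  have hK' : (0 : ℝ) < K := by exact_mod_cast hK
  exact nonneg_of_mul_nonneg_right h1 hK'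

omit [FiniteDimensional ℂ V] in
theorem pow_pow' (L : LineBundle Γ) (a b : ℕ) : (L.pow a).pow b = L.pow (a * b) := by
  have : (fun (γ : Γ) (v : V) => (L.e γ v ^ a) ^ b) = fun γ v => L.e γ v ^ (a * b) := by
    funext γ v
    rw [← pow_mul]
  cases L
  simp only [LineBundle.pow, LineBundle.mk.injEq]
  exact this

/-- Nef adjoint line bundles are semiample. -/
theorem semiample_of_nef {u : ι → Fin n → ℤ} {S : Set (Set ι)} (hΓ : IsTorusQuotient Γ)
    {ρ : V → ℂ}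
    (hρ : IsRamification Γ ρ) (hS : IsSmoothFan u S) {c : ι → LineBundle Γ}
    {Hc : ι → V → V → ℂ} (hc : ∀ i, IsChernForm (c i) (Hc i)) {m : ℕ} {d : ι → ℤ}
    {F : V → MvPolynomial ι ℂ} {L : LineBundle Γ} {H : V → V → ℂ} (hL : IsChernForm L H)
    (hF : Q47.TB.IsLogPluricanonical u c m ρ d F L) (hw : ToricLC S m F)
    (hn : Nef u S Hc (fun i => d i - m) H) : Semiample u S c (fun i => d i - m) L := by
  classical
  choose k hk β hβ0 hβ hnf using hn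
  choose K hK hgg using fun (σ : Set ι) (hσ : σ ∈ S) =>
    gen hΓ hρ hS hc hL hF hw (hk σ hσ) (hβ σ hσ) (hnf σ hσ)
  obtain ⟨E, hE⟩ : ∃ E, E = expo (Module.finrank ℂ V) := ⟨_, rfl⟩
  have hE1 : 1 ≤ E := hE ▸ expo_pos _
  let N : Set ι → ℕ := fun σ => if hσ : σ ∈ S then k σ hσ * (K σ hσ * E) else 1
  have hN : ∀ σ, 1 ≤ N σ := by
    intro σ
    by_cases hσ : σ ∈ S
    · simp only [N, dif_pos hσ]
      exact Nat.mul_pos (hk σ hσ) (Nat.mul_pos (hK σ hσ) hE1)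
    · simp only [N, dif_neg hσ, le_refl]
  refine ⟨∏ σ, N σ, Finset.one_le_prod' fun σ _ => hN σ, fun v x hx => ?_⟩
  obtain ⟨s, hs, hs0⟩ := hgg _ hx v
  rw [← hE] at hs
  obtain ⟨j, hj⟩ := Finset.dvd_prod_of_mem N (Finset.mem_univ {i | x i = 0})
  have hNσ : N {i | x i = 0} = k _ hx * (K _ hx * E) := by simp only [N, dif_pos hx]
  have hs' : ((Q47.TB.tw (L.pow (k _ hx)) c (K _ hx) (β _ hx)).pow (E * j)).IsSection
      fun v => s v ^ j := by
    rw [← pow_pow']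
    exact section_pow hs j
  refine ⟨_, secPow_monomial (hβ _ hx) hs' (by rw [hj, hNσ]; ring), ?_⟩
  rw [eval_monomial, Finsupp.prod_fintype _ _ fun i => pow_zero _]
  refine mul_ne_zero (pow_ne_zero _ hs0) (Finset.prod_ne_zero_iff.2 fun i _ => ?_)
  by_cases hi : x i = 0
  · rw [Finsupp.equivFunOnFinite_symm_apply_apply, hβ0 _ hx i hi, mul_zero, pow_zero]
    exact one_ne_zero
  · exact pow_ne_zero _ hi

/-- Sections give nef forms. -/
theorem nef_of_coef {u : ι → Fin n → ℤ} (hΓ : IsTorusQuotient Γ) {c : ι → LineBundle Γ}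
    {Hc : ι → V → V → ℂ} (hc : ∀ i, IsChernForm (c i) (Hc i)) {D : ι → ℤ}
    {M : LineBundle Γ} {H : V → V → ℂ} (hM : IsChernForm M H) {G : V → MvPolynomial ι ℂ}
    (hG : IsSection u c D M.e G) {α : ι →₀ ℕ} (hα : ∃ v, coeff α (G v) ≠ 0) :
    IsNefForm fun v w => H v w - ∑ i, (α i : ℂ) * Hc i v w := by
  have h1 := nef_of_section hΓ (chern_tw hM hc 1 α) (coef_section hG α) hα
  intro v
  have h2 : 0 ≤ (((1 : ℕ) : ℂ) * (H v v - ∑ i, (α i : ℂ) * Hc i v v)).re := h1 v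
  rw [Nat.cast_one, one_mul] at h2
  exact h2

omit [FiniteDimensional ℂ V] in
theorem exists_coef {p : MvPolynomial ι ℂ} {x : ι → ℂ} (h : eval x p ≠ 0) :
    ∃ α, coeff α p ≠ 0 ∧ ∀ i, x i = 0 → α i = 0 := by
  rw [eval_eq'] at h
  obtain ⟨α, hα, hne⟩ := Finset.exists_ne_zero_of_sum_ne_zero h
  refine ⟨α, mem_support_iff.1 hα, fun i hi => ?_⟩
  by_contra h0
  apply hne
  rw [Finset.prod_eq_zero (Finset.mem_univ i) (by rw [hi, zero_pow h0]), mul_zero]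

/-- Semiample line bundles are nef. -/
theorem nef_of_semiample {u : ι → Fin n → ℤ} {S : Set (Set ι)} (hΓ : IsTorusQuotient Γ)
    {c : ι → LineBundle Γ} {Hc : ι → V → V → ℂ} (hc : ∀ i, IsChernForm (c i) (Hc i))
    {d : ι → ℤ} {L : LineBundle Γ} {H : V → V → ℂ} (hL : IsChernForm L H)
    (hs : Semiample u S c d L) : Nef u S Hc d H := by
  classical
  obtain ⟨k, hk, h⟩ := hs
  intro σ hσ
  have hx : {i | (if i ∈ σ then (0 : ℂ) else 1) = 0} = σ := by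
    ext i
    by_cases hi : i ∈ σ <;> simp [hi]
  obtain ⟨G, hG, hG0⟩ := h 0 (fun i => if i ∈ σ then 0 else 1) (by rw [hx]; exact hσ)
  obtain ⟨α, hα, hα0⟩ := exists_coef hG0
  refine ⟨k, hk, α, fun i hi => hα0 i (if_pos hi), hG.deg 0 α (mem_support_iff.2 hα), ?_⟩
  exact nef_of_coef hΓ hc (chern_pow' hL k) (M := L.pow k) hG ⟨0, hα⟩

end Pool.Agent.U976.TBd
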