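import Pool.Agent.U976.TBd.GA3

/-!
# Generalised abundance for toric bundles over torus quotients
-/

set_option autoImplicit false

namespace Pool.Agent.U976.TBd

open Pool.Agent.W594.SYZ2 Pool.Agent.W594.SYZ2.TQ Pool.Agent.TH735.AQ Q47.MM Q47.TB Q47.EB
open MvPolynomial

variable {V : Type*} [NormedAddCommGroup V] [NormedSpace ℂ V] {Γ : Subgroup (V ≃ᵃ[ℂ] V)}
  {ι : Type*} [Fintype ι] {n : ℕ}

/-- Global generation from the vertices. -/
theorem semiample_of_gg {u : ι → Fin n → ℤ} {S : Set (Set ι)} {c : ι → LineBundle Γ}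
    {d : ι → ℤ} {L : LineBundle Γ}
    (h : ∀ σ ∈ S, ∃ k : ℕ, 1 ≤ k ∧ ∃ β : ι → ℕ, (∀ i ∈ σ, β i = 0) ∧
      LinEquiv u (fun i => (β i : ℤ)) (fun i => k * d i) ∧
        ∃ E : ℕ, 1 ≤ E ∧ GG ((Q47.TB.tw (L.pow k) c 1 β).pow E)) :
    Semiample u S c d L := by
  classical
  choose k hk β hβ0 hβ E hE hgg using h
  let N : Set ι → ℕ := fun σ => if hσ : σ ∈ S then k σ hσ * (1 * E σ hσ) else 1
  have hN : ∀ σ, 1 ≤ N σ := by
    intro σ
    by_cases hσ : σ ∈ S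
    · simp only [N, dif_pos hσ]
      exact Nat.mul_pos (hk σ hσ) (Nat.mul_pos one_pos (hE σ hσ))
    · simp only [N, dif_neg hσ, le_refl]
  refine ⟨∏ σ, N σ, Finset.one_le_prod' fun σ _ => hN σ, fun v x hx => ?_⟩
  obtain ⟨s, hs, hs0⟩ := hgg _ hx v
  obtain ⟨j, hj⟩ := Finset.dvd_prod_of_mem N (Finset.mem_univ {i | x i = 0})
  have hNσ : N {i | x i = 0} = k _ hx * (1 * E _ hx) := by simp only [N, dif_pos hx]
  have hs' : ((Q47.TB.tw (L.pow (k _ hx)) c 1 (β _ hx)).pow (E _ hx * j)).IsSection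
      fun v => s v ^ j := by
    rw [← pow_pow']
    exact section_pow hs j
  refine ⟨_, secPow_monomial (hβ _ hx) hs' (by rw [hj, hNσ]; ring), ?_⟩
  rw [eval_monomial, Finsupp.prod_fintype _ _ fun i => pow_zero _]
  refine mul_ne_zero (pow_ne_zero _ hs0) (Finset.prod_ne_zero_iff.2 fun i _ => ?_)
  by_cases hi : x i = 0
  · rw [Finsupp.equivFunOnFinite_symm_apply_apply, hβ0 _ hx i hi, mul_zero, pow_zero]
    exact one_ne_zero
  · exact pow_ne_zero _ hi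

/-- The characters of the torus. -/
theorem chars_root {u : ι → Fin n → ℤ} {S : Set (Set ι)} (hS : IsSmoothFan u S)
    {c : ι → LineBundle Γ} {Fc : ι → V → ℂ} {m : ℕ} {ρ : V → ℂ} {d : ι → ℤ}
    {F : V → MvPolynomial ι ℂ} {L₀ : LineBundle Γ} {F₀ : V → ℂ}
    (hF : Q47.TB.IsLogPluricanonical u c m ρ d F L₀) (hw : ToricKlt S m F)
    {kp : ℕ} (hkp : 1 ≤ kp) {b0 : ι → ℕ}
    (hb0 : LinEquiv u (fun i => (b0 i : ℤ)) (fun i => kp * (d i - m))) (p : Fin n → ℤ) :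
    ∃ K : ℕ, 1 ≤ K ∧ ∀ b : V, (∀ α : ι →₀ ℕ, (∃ v, coeff α (F v) ≠ 0) →
      chi (twz L₀ c fun i => (m : ℤ) - α i) (zp Fc F₀ fun i => (m : ℤ) - α i) b = 1) →
      ∏ i, chi (c i) (Fc i) b ^ ((K : ℤ) * ∑ l, p l * u i l) = 1 := by
  classical
  obtain ⟨T, hT⟩ := exists_expts hS hF
  obtain ⟨N, hN, hNw⟩ := hw
  have hTd : ∀ α ∈ T, LinEquiv u (fun i => (α i : ℤ)) d := by
    intro α hα
    obtain ⟨v, hv⟩ := (hT α).1 hα
    exact hF.deg v α (mem_support_iff.2 hv)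
  have hTw : ∀ a : ι → ℕ, {i | a i ≠ 0} ∈ S → ∃ α ∈ T,
      N * ∑ i, a i * α i + ∑ i, a i ≤ N * (m * ∑ i, a i) := by
    intro a ha
    obtain ⟨α, hα, hle⟩ := hNw a ha
    exact ⟨α, (hT α).2 hα, hle⟩
  obtain ⟨r', K, A, w, hK, hA, hw0, h⟩ := comb_diff hS T hTd hN hTw (k := kp) hkp
    (z := fun i => b0 i + kp * m) (by
      obtain ⟨q, hq⟩ := hb0
      refine ⟨q, fun i => ?_⟩
      have h1 : (b0 i : ℤ) = kp * (d i - m) + ∑ j, q j * u i j := hq i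
      simp only
      rw [h1]
      ring) (fun i => by
      have : (0 : ℤ) ≤ b0 i := Int.natCast_nonneg _
      linarith) p
  refine ⟨K, hK, fun b hb => ?_⟩
  have hne : ∀ i, chi (c i) (Fc i) b ≠ 0 := fun i => chi_ne_zero _ _ _
  have h1 : ∀ j, chi L₀ F₀ b * ∏ i, chi (c i) (Fc i) b ^ ((m : ℤ) - A j i) = 1 := by
    intro j
    have := hb (A j) ((hT _).1 (hA j))
    rwa [chi_twz] at this
  have h2 : ∏ j, (chi L₀ F₀ b * ∏ i, chi (c i) (Fc i) b ^ ((m : ℤ) - A j i)) ^ (-w j) = 1 :=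
    Finset.prod_eq_one fun j _ => by rw [h1 j, one_zpow]
  have hprod : ∀ (a : ℂ) (_ : a ≠ 0) (f : Fin r' → ℤ), ∏ j, a ^ f j = a ^ ∑ j, f j := by
    intro a ha f
    have : ∀ s : Finset (Fin r'), ∏ j ∈ s, a ^ f j = a ^ ∑ j ∈ s, f j := by
      intro s
      induction s using Finset.induction_on with
      | empty => simp
      | insert i s hi ih => rw [Finset.prod_insert hi, Finset.sum_insert hi, ih, zpow_add₀ ha]
    exact this _
  have h3 : ∏ j, (chi L₀ F₀ b * ∏ i, chi (c i) (Fc i) b ^ ((m : ℤ) - A j i)) ^ (-w j)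
      = chi L₀ F₀ b ^ (∑ j, -w j) *
        ∏ i, chi (c i) (Fc i) b ^ (∑ j, ((m : ℤ) - A j i) * (-w j)) := by
    simp only [mul_zpow, Finset.prod_mul_distrib, ← Finset.prod_zpow, ← zpow_mul]
    rw [hprod _ (chi_ne_zero _ _ _), Finset.prod_comm]
    congr 1
    exact Finset.prod_congr rfl fun i _ => hprod _ (hne i) _
  rw [h3, Finset.sum_neg_distrib, hw0, neg_zero, zpow_zero, one_mul] at h2
  rw [← h2]
  refine Finset.prod_congr rfl fun i _ => ?_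
  congr 1
  rw [h i]
  have h4 : ∑ j, ((m : ℤ) - A j i) * (-w j) = -(m * ∑ j, w j) + ∑ j, w j * A j i := by
    rw [Finset.mul_sum, ← Finset.sum_neg_distrib, ← Finset.sum_add_distrib]
    exact Finset.sum_congr rfl fun j _ => by ring
  rw [h4, hw0]
  ring

/-- Powers of potentials. -/
theorem pot_pow {L : LineBundle Γ} {H : V → V → ℂ} {F : V → ℂ} (h : IsPot L H F) (k : ℕ) :
    IsPot (L.pow k) (fun v w => (k : ℂ) * H v w) (fun v => (k : ℂ) * F v) := by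
  refine ⟨h.1.const_mul _, fun γ v => ?_⟩
  have h1 : ‖(L.pow k).e γ v‖ ^ 2 = (‖L.e γ v‖ ^ 2) ^ k := by
    change ‖L.e γ v ^ k‖ ^ 2 = _
    rw [norm_pow, ← pow_mul, ← pow_mul, mul_comm]
  rw [h1, h.2, ← Real.exp_nat_mul]
  simp only [nat_re]
  congr 1
  ring

theorem pot_flat {L R : LineBundle Γ} {H : V → V → ℂ} {F : V → ℂ} (h : IsPot L H F)
    (hR : IsFlat R) : IsPot (tensor L R) H F := by
  refine ⟨h.1, fun γ v => ?_⟩
  have h1 : ‖(tensor L R).e γ v‖ ^ 2 = ‖L.e γ v‖ ^ 2 := by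
    change ‖L.e γ v * R.e γ v‖ ^ 2 = _
    rw [norm_mul, hR.2 γ v, mul_one]
  rw [h1, h.2]

theorem chi_pow' (L : LineBundle Γ) (F : V → ℂ) (k : ℕ) (b : V) :
    chi (L.pow k) (fun v => (k : ℂ) * F v) b = chi L F b ^ k := by
  by_cases hb : b ∈ latt Γ
  · rw [chi_eq hb, chi_eq hb, TQ.tw, TQ.tw, mul_pow, ← Complex.exp_nat_mul]
    change L.e _ _ ^ k * _ = _
    congr 2
    ring
  · have h0 : ∀ (M : LineBundle Γ) (G : V → ℂ), chi M G b = 1 := fun M G => dif_neg hb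
    rw [h0, h0, one_pow]

theorem chi_tensor_flat (L R : LineBundle Γ) (F : V → ℂ) {b : V} (hb : b ∈ latt Γ) :
    chi (tensor L R) F b = chi L F b * R.e (tr b hb) 0 := by
  rw [chi_eq hb, chi_eq hb, TQ.tw, TQ.tw]
  change L.e _ _ * R.e _ _ * _ = _
  ring

theorem herm_smul {H : V → V → ℂ} (h : IsHermitian H) (k : ℕ) :
    IsHermitian (fun v w => (k : ℂ) * H v w) := by
  refine ⟨fun u v w => ?_, fun a v w => ?_, fun v w => ?_⟩
  · rw [h.add_left, mul_add]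
  · rw [h.smul_left]
    ring
  · rw [map_mul, ← h.symm, Complex.conj_natCast]

variable [FiniteDimensional ℂ V]

/-- Generalised abundance. -/
theorem gen_abundance (hΓ : IsTorusQuotient Γ) {ρ : V → ℂ}
    (hρ : IsRamification Γ ρ) {u : ι → Fin n → ℤ} {S : Set (Set ι)} (hS : IsSmoothFan u S)
    {c : ι → LineBundle Γ} {Hc : ι → V → V → ℂ} (hc : ∀ i, IsChernForm (c i) (Hc i))
    {m : ℕ} {d : ι → ℤ} {F : V → MvPolynomial ι ℂ} {L₀ : LineBundle Γ} {H₀ : V → V → ℂ}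
    (hL₀ : IsChernForm L₀ H₀)
    (hF : Q47.TB.IsLogPluricanonical u c m ρ d F L₀) (hw : ToricKlt S m F)
    {kp : ℕ} (hkp : 1 ≤ kp) {b0 : ι → ℕ}
    (hb0 : LinEquiv u (fun i => (b0 i : ℤ)) (fun i => kp * (d i - m)))
    {D : ι → ℤ} {L : LineBundle Γ} {H : V → V → ℂ} (hL : IsChernForm L H)
    (hDn : Nef u S Hc D H) {t : ℕ}
    (hn : Nef u S Hc (fun i => t * D i - (d i - m)) (fun v w => t * H v w - H₀ v w)) :
    ∃ (N : ℕ) (R : LineBundle Γ), 1 ≤ N ∧ IsFlat R ∧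
      Semiample u S c (fun i => N * D i) (tensor (L.pow N) R) := by
  classical
  obtain ⟨hH₀, F₀, hF₀, hFe₀⟩ := hL₀
  obtain ⟨hH, FL, hFL, hFLe⟩ := hL
  choose hHc Fc hFc hFce using hc
  have hp₀ : IsPot L₀ H₀ F₀ := ⟨hF₀, hFe₀⟩
  have hpL : IsPot L H FL := ⟨hFL, hFLe⟩
  have hpc : ∀ i, IsPot (c i) (Hc i) (Fc i) := fun i => ⟨hFc i, hFce i⟩
  have := finite_Lin hΓ
  have : Fintype (Lin Γ) := Fintype.ofFinite _
  have hG1 : 1 ≤ Nat.card (Lin Γ) := Nat.card_pos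
  -- the flat line bundle
  have hHD : IsHermitian (zf Hc H fun i => -D i) := herm_zf hH hHc _
  obtain ⟨ℓ, hℓ, hχ⟩ := exists_inv_real hΓ hHD (pot_twz hpL hpc fun i => -D i)
  obtain ⟨G, hG⟩ : ∃ G, G = Nat.card (Lin Γ) := ⟨_, rfl⟩
  rw [← hG] at hχ hG1
  have hℓ' : ∀ γ ∈ Γ, ∀ v, (-ℓ) (γ.linear v) = (-ℓ) v := fun γ hγ v => by
    rw [LinearMap.neg_apply, LinearMap.neg_apply, hℓ γ hγ]
  obtain ⟨R, hR⟩ : ∃ R, R = flat (-ℓ) hℓ' := ⟨_, rfl⟩
  have hRf : IsFlat R := hR ▸ flat_isFlat _ _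
  refine ⟨G, R, hG1, hRf, semiample_of_gg fun σ hσ => ?_⟩
  obtain ⟨k, hk, β, hβ0, hβ, hβn⟩ := hDn σ hσ
  obtain ⟨q, hq⟩ := id hβ
  have hq' : ∀ i, (β i : ℤ) = k * D i + ∑ l, q l * u i l := hq
  refine ⟨k, hk, fun i => G * β i, fun i hi => by simp only [hβ0 i hi, mul_zero], ⟨fun l => G * q l,
    fun i => ?_⟩, ?_⟩
  · have h1 := hq' i
    simp only
    rw [Nat.cast_mul, h1]
    have h2 : ∑ l, (G : ℤ) * q l * u i l = G * ∑ l, q l * u i l := by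
      rw [Finset.mul_sum]
      exact Finset.sum_congr rfl fun l _ => by ring
    rw [h2]
    ring
  -- the line bundle `B`
  rw [tw_eq_twz]
  obtain ⟨z, hz⟩ : ∃ z : ι → ℤ, z = fun i => -((G * β i : ℕ) : ℤ) := ⟨_, rfl⟩
  rw [← hz]
  obtain ⟨M₁, hM₁⟩ : ∃ M₁, M₁ = (tensor (L.pow G) R).pow k := ⟨_, rfl⟩
  obtain ⟨H₁, hH₁⟩ : ∃ H₁ : V → V → ℂ, H₁ = fun v w => (k : ℂ) * ((G : ℂ) * H v w) := ⟨_, rfl⟩
  obtain ⟨F₁, hF₁⟩ : ∃ F₁ : V → ℂ, F₁ = fun v => (k : ℂ) * ((G : ℂ) * FL v) := ⟨_, rfl⟩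
  have hp₁ : IsPot M₁ H₁ F₁ := by
    rw [hM₁, hH₁, hF₁]
    exact pot_pow (pot_flat (pot_pow hpL G) hRf) k
  have hherm₁ : IsHermitian H₁ := by
    rw [hH₁]
    exact herm_smul (herm_smul hH G) k
  rw [← hM₁]
  have hQ : IsHermitian (zf Hc H₁ z) := herm_zf hherm₁ hHc z
  have hpQ := pot_twz hp₁ hpc z
  have hQfrm : ∀ x y, zf Hc H₁ z x y = (G : ℂ) * frm Hc H k β x y := by
    intro x y
    rw [zf, hH₁, hz, frm, mul_sub, Finset.mul_sum, sub_eq_add_neg, ← Finset.sum_neg_distrib]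
    congr 1
    · ring
    · refine Finset.sum_congr rfl fun i _ => ?_
      push_cast
      ring
  have hG0 : (G : ℂ) ≠ 0 := by
    have : G ≠ 0 := by omega
    exact_mod_cast this
  have hk0 : (k : ℂ) ≠ 0 := by
    have : k ≠ 0 := by omega
    exact_mod_cast this
  have hQn : IsNefForm (zf Hc H₁ z) := by
    intro x
    rw [hQfrm, nat_re]
    exact mul_nonneg (Nat.cast_nonneg _) (hβn x)
  -- the space
  let U : Submodule ℂ V :=
    { carrier := {x | x ∈ ker hQ ∧ ∀ g ∈ Lin Γ, g x = x}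
      zero_mem' := ⟨(ker hQ).zero_mem, fun g _ => map_zero g⟩
      add_mem' := fun {a b} ha hb => ⟨(ker hQ).add_mem ha.1 hb.1, fun g hg => by
        rw [map_add, ha.2 g hg, hb.2 g hg]⟩
      smul_mem' := fun a x hx => ⟨(ker hQ).smul_mem a hx.1, fun g hg => by
        rw [map_smul, hx.2 g hg]⟩ }
  have hUspan : ∀ x ∈ U, x ∈ Submodule.span ℝ {b : V | b ∈ latt Γ ∧ b ∈ U} := fun x hx =>
    span_inv hΓ hQ hpQ hQn hx.1 hx.2
  have hforms : ∀ x ∈ U, (∀ α : ι →₀ ℕ, (∃ v, coeff α (F v) ≠ 0) →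
      ∀ y, zf Hc H₀ (fun i => (m : ℤ) - α i) x y = 0) ∧
      ∀ (p : Fin n → ℤ) (y : V), ∑ i, ((∑ l, p l * u i l : ℤ) : ℂ) * Hc i x y = 0 := by
    intro x hx
    refine forms_zero hΓ hρ hS hHc hpc hH₀ hp₀ hF hw hkp hb0 hn hk hβ hx.2 ?_
    have h1 : zf Hc H₁ z x x = 0 := hx.1 x
    rw [hQfrm, mul_eq_zero] at h1
    rw [h1.resolve_left hG0, Complex.zero_re]
  have hUD : ∀ x ∈ U, x ∈ ker hHD := by
    intro x hx y
    have h1 : zf Hc H₁ z x y = 0 := hx.1 y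
    rw [hQfrm, mul_eq_zero] at h1
    have h2 := h1.resolve_left hG0
    have h3 := (hforms x hx).2 q y
    have h4 : frm Hc H k β x y = k * zf Hc H (fun i => -D i) x y
        - ∑ i, ((∑ l, q l * u i l : ℤ) : ℂ) * Hc i x y := by
      rw [frm, zf, mul_add, Finset.mul_sum, add_sub_assoc, ← Finset.sum_sub_distrib,
        sub_eq_add_neg, ← Finset.sum_neg_distrib]
      congr 1
      refine Finset.sum_congr rfl fun i _ => ?_
      have h5 : ((β i : ℤ) : ℂ) = ((k * D i + ∑ l, q l * u i l : ℤ) : ℂ) := by rw [hq' i]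
      rw [Int.cast_add, Int.cast_mul, Int.cast_natCast, Int.cast_natCast] at h5
      rw [h5, Int.cast_neg]
      ring
    rw [h4, h3, sub_zero, mul_eq_zero] at h2
    exact h2.resolve_left hk0
  -- the characters
  obtain ⟨K, hK, hroot⟩ := chars_root (Fc := Fc) (F₀ := F₀) hS hF hw hkp hb0 q
  have hUone : ∀ b ∈ latt Γ, b ∈ U → chi (twz M₁ c z) (zp Fc F₁ z) b ^ K = 1 := by
    intro b hb hbU
    have h1 := hroot b fun α hα => chi_one hΓ hρ (hF.holo α) hα (coef_pluri hF α)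
      (herm_zf hH₀ hHc _) (pot_twz hp₀ hpc _) U hUspan (fun x hx g hg _ => hx.2 g hg)
      (fun x hx y => (hforms x hx).1 α hα y) hb hbU
    have h2 := hχ b hb (hUD b hbU)
    rw [chi_twz] at h2
    have h3 : R.e (tr b hb) 0 = Complex.exp (((-ℓ) b : ℝ) * Complex.I) := by
      rw [hR]
      change Complex.exp (((-ℓ) (((tr b hb : Γ) : V ≃ᵃ[ℂ] V) 0) : ℂ) * Complex.I) = _
      rw [tr_apply, add_zero]
    have h4 : Complex.exp ((ℓ b : ℂ) * Complex.I) * R.e (tr b hb) 0 = 1 := by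
      rw [h3, ← Complex.exp_add, LinearMap.neg_apply]
      push_cast
      rw [neg_mul, add_neg_cancel, Complex.exp_zero]
    rw [h2] at h4
    have hne : ∀ i, chi (c i) (Fc i) b ≠ 0 := fun i => chi_ne_zero _ _ _
    have h5 : chi M₁ F₁ b = (chi L FL b ^ G * R.e (tr b hb) 0) ^ k := by
      rw [hM₁, hF₁]
      rw [chi_pow' (tensor (L.pow G) R) (fun v => (G : ℂ) * FL v) k b, chi_tensor_flat _ _ _ hb,
        chi_pow']
    have h6 : chi L FL b ^ G * R.e (tr b hb) 0 = ∏ i, chi (c i) (Fc i) b ^ ((G : ℤ) * D i) := by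
      have e1 : ∏ i, chi (c i) (Fc i) b ^ ((G : ℤ) * D i)
          = ((∏ i, chi (c i) (Fc i) b ^ (-D i)) ^ G)⁻¹ := by
        rw [← Finset.prod_pow, ← Finset.prod_inv_distrib]
        refine Finset.prod_congr rfl fun i _ => ?_
        rw [← zpow_natCast, ← zpow_mul, ← zpow_neg]
        congr 1
        ring
      have e2 : (∏ i, chi (c i) (Fc i) b ^ (-D i)) ^ G ≠ 0 :=
        pow_ne_zero _ (Finset.prod_ne_zero_iff.2 fun i _ => zpow_ne_zero _ (hne i))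
      rw [e1]
      refine eq_inv_of_mul_eq_one_left ?_
      rw [← h4, mul_pow]
      ring
    rw [chi_twz, h5, h6, ← Finset.prod_pow, ← Finset.prod_mul_distrib, ← Finset.prod_pow]
    have h7 : ∏ i, chi (c i) (Fc i) b ^ ((K : ℤ) * ∑ l, q l * u i l) = 1 := h1
    have h8 : (∏ i, chi (c i) (Fc i) b ^ ((K : ℤ) * ∑ l, q l * u i l)) ^ (-(G : ℤ)) = 1 := by
      rw [h7, one_zpow]
    rw [← h8, ← Finset.prod_zpow]
    refine Finset.prod_congr rfl fun i _ => ?_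
    rw [← zpow_natCast, ← zpow_natCast, ← zpow_mul, ← zpow_mul, ← zpow_add₀ (hne i), ← zpow_mul]
    congr 1
    rw [hz]
    simp only
    have := hq' i
    push_cast
    rw [this]
    ring
  have hroot' : ∀ b ∈ latt Γ, b ∈ ker hQ → chi (twz M₁ c z) (zp Fc F₁ z) b ^ (G * K) = 1 := by
    intro b hb hbK
    obtain ⟨h1, h2, h3⟩ := chi_sum hΓ hQ hpQ hb hbK
    rw [← hG] at h3
    rw [pow_mul, ← h3]
    refine hUone _ h1 ⟨h2, fun g hg => ?_⟩
    rw [map_sum]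
    refine Fintype.sum_equiv (Equiv.mulLeft (⟨g, hg⟩ : Lin Γ)) _ _ ?_
    intro g'
    rfl
  have hGK : 1 ≤ G * K := Nat.mul_pos hG1 hK
  refine ⟨(G * K) * expo (Module.finrank ℂ V), Nat.mul_pos hGK (expo_pos _), ?_⟩
  rw [← pow_pow']
  refine gg_of_root hΓ (herm_smul hQ (G * K)) (pot_pow hpQ (G * K)) ?_ (N := 1) le_rfl
    (one_dvd _) ?_
  · intro x
    rw [nat_re]
    exact mul_nonneg (Nat.cast_nonneg _) (hQn x)
  · intro b hb hbK
    rw [pow_one, chi_pow']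
    refine hroot' b hb fun y => ?_
    have h1 : ((G * K : ℕ) : ℂ) * zf Hc H₁ z b y = 0 := hbK y
    have h2 : ((G * K : ℕ) : ℂ) ≠ 0 := by
      have : G * K ≠ 0 := by omega
      exact_mod_cast this
    exact (mul_eq_zero.1 h1).resolve_left h2

end Pool.Agent.U976.TBd
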