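import Pool.Agent.U976.TBd.B
import Mathlib.Combinatorics.Hall.Basic
import Mathlib.Algebra.Polynomial.Degree.TrailingDegree
import Mathlib.Analysis.Calculus.LineDeriv.Basic

/-!
# Normal crossing divisors on toric bundles are log canonical along the toric divisors
-/

set_option autoImplicit false

namespace Pool.Agent.U976.TBd

open Pool.Agent.W594.SYZ2 Pool.Agent.W594.SYZ2.TQ Pool.Agent.TH735.AQ Q47.MM Q47.TB MvPolynomial

section Low

variable {ι : Type*} [Fintype ι]

/-- Some monomial has weight at most `N`. -/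
def Low (a : ι → ℕ) (P : MvPolynomial ι ℂ) (N : ℕ) : Prop :=
  ∃ α : ι →₀ ℕ, coeff α P ≠ 0 ∧ ∑ i, a i * α i ≤ N

/-- The substitution `x_i ↦ x_i T ^ (a_i)`. -/
noncomputable def wsub (a : ι → ℕ) : MvPolynomial ι ℂ →ₐ[ℂ] Polynomial (MvPolynomial ι ℂ) :=
  aeval fun i => Polynomial.C (X i) * Polynomial.X ^ a i

theorem wsub_monomial (a : ι → ℕ) (α : ι →₀ ℕ) (c : ℂ) :
    wsub a (monomial α c) = Polynomial.C (monomial α c) * Polynomial.X ^ (∑ i, a i * α i) := by
  have h1 : (monomial α c : MvPolynomial ι ℂ) = C c * ∏ i, X i ^ α i := by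
    rw [monomial_eq, Finsupp.prod_fintype _ _ fun i => pow_zero _]
  rw [wsub, aeval_monomial, Finsupp.prod_fintype _ _ fun i => pow_zero _]
  simp only [mul_pow, Finset.prod_mul_distrib]
  rw [h1, map_mul, map_prod, ← Finset.prod_pow_eq_pow_sum, mul_assoc]
  congr 1
  congr 1
  · exact Finset.prod_congr rfl fun i _ => by rw [map_pow]
  · exact Finset.prod_congr rfl fun i _ => by rw [← pow_mul]

theorem coeff_wsub (a : ι → ℕ) (P : MvPolynomial ι ℂ) (n : ℕ) (α : ι →₀ ℕ) :
    coeff α ((wsub a P).coeff n) = if ∑ i, a i * α i = n then coeff α P else 0 := by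
  classical
  induction P using MvPolynomial.induction_on' with
  | monomial β c =>
    rw [wsub_monomial, Polynomial.coeff_C_mul, Polynomial.coeff_X_pow]
    by_cases hβ : β = α
    · subst hβ
      by_cases hn : n = ∑ i, a i * β i
      · rw [if_pos hn, if_pos hn.symm, mul_one]
      · rw [if_neg hn, if_neg (Ne.symm hn), mul_zero, coeff_zero]
    · have h0 : coeff α (monomial β c : MvPolynomial ι ℂ) = 0 := by
        rw [coeff_monomial, if_neg hβ]
      rw [h0, ite_self]
      by_cases hn : n = ∑ i, a i * β i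
      · rw [if_pos hn, mul_one, h0]
      · rw [if_neg hn, mul_zero, coeff_zero]
  | add p q hp hq =>
    rw [map_add, Polynomial.coeff_add, coeff_add, hp, hq, coeff_add]
    split_ifs
    · rfl
    · rw [add_zero]

theorem low_iff {a : ι → ℕ} {P : MvPolynomial ι ℂ} {N : ℕ} :
    Low a P N ↔ P ≠ 0 ∧ (wsub a P).natTrailingDegree ≤ N := by
  constructor
  · rintro ⟨α, hα, hN⟩
    refine ⟨fun h => hα (by rw [h, coeff_zero]), le_trans ?_ hN⟩
    refine Polynomial.natTrailingDegree_le_of_ne_zero fun h => hα ?_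
    have := coeff_wsub a P (∑ i, a i * α i) α
    rw [if_pos rfl, h, coeff_zero] at this
    exact this.symm
  · rintro ⟨hP, hN⟩
    obtain ⟨α, hα⟩ := ne_zero_iff.1 hP
    have h0 : wsub a P ≠ 0 := by
      intro h
      apply hα
      have := coeff_wsub a P (∑ i, a i * α i) α
      rw [if_pos rfl, h, Polynomial.coeff_zero, coeff_zero] at this
      exact this.symm
    have h1 : (wsub a P).coeff (wsub a P).natTrailingDegree ≠ 0 :=
      Polynomial.trailingCoeff_nonzero_iff_nonzero.2 h0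
    obtain ⟨β, hβ⟩ := ne_zero_iff.1 h1
    rw [coeff_wsub] at hβ
    by_cases h2 : ∑ i, a i * β i = (wsub a P).natTrailingDegree
    · rw [if_pos h2] at hβ
      exact ⟨β, hβ, h2 ▸ hN⟩
    · rw [if_neg h2] at hβ
      exact absurd rfl hβ

theorem wsub_ne_zero {a : ι → ℕ} {P : MvPolynomial ι ℂ} (h : P ≠ 0) : wsub a P ≠ 0 := by
  obtain ⟨α, hα⟩ := ne_zero_iff.1 h
  intro h
  apply hα
  have := coeff_wsub a P (∑ i, a i * α i) α
  rw [if_pos rfl, h, Polynomial.coeff_zero, coeff_zero] at this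
  exact this.symm

theorem low_mul {a : ι → ℕ} {P Q : MvPolynomial ι ℂ} {N N' : ℕ} (hP : Low a P N)
    (hQ : Low a Q N') : Low a (P * Q) (N + N') := by
  rw [low_iff] at *
  refine ⟨mul_ne_zero hP.1 hQ.1, ?_⟩
  rw [map_mul, Polynomial.natTrailingDegree_mul (wsub_ne_zero hP.1) (wsub_ne_zero hQ.1)]
  exact add_le_add hP.2 hQ.2

theorem low_one (a : ι → ℕ) : Low a (1 : MvPolynomial ι ℂ) 0 := by
  refine ⟨0, ?_, by simp⟩
  rw [coeff_zero_one]
  exact one_ne_zero

theorem low_pow {a : ι → ℕ} {P : MvPolynomial ι ℂ} {N : ℕ} (hP : Low a P N) (w : ℕ) :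
    Low a (P ^ w) (w * N) := by
  induction w with
  | zero =>
    rw [pow_zero, zero_mul]
    exact low_one a
  | succ w ih =>
    rw [pow_succ, Nat.succ_mul]
    exact low_mul ih hP

theorem low_prod {a : ι → ℕ} {κ : Type*} (s : Finset κ) {P : κ → MvPolynomial ι ℂ} {N : κ → ℕ}
    (hP : ∀ j ∈ s, Low a (P j) (N j)) : Low a (∏ j ∈ s, P j) (∑ j ∈ s, N j) := by
  classical
  induction s using Finset.induction_on with
  | empty =>
    rw [Finset.prod_empty, Finset.sum_empty]
    exact low_one a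
  | insert j s hj ih =>
    rw [Finset.prod_insert hj, Finset.sum_insert hj]
    exact low_mul (hP j (Finset.mem_insert_self j s))
      (ih fun k hk => hP k (Finset.mem_insert_of_mem hk))

end Low

section Gen

variable {V : Type*} [NormedAddCommGroup V] [NormedSpace ℂ V]

/-- A common point of non-vanishing of finitely many entire functions. -/
theorem exists_common_finset {κ : Type*} (s : Finset κ) (f : κ → V → ℂ)
    (hf : ∀ j ∈ s, Differentiable ℂ (f j)) (h0 : ∀ j ∈ s, ∃ v, f j v ≠ 0) {g : V → ℂ}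
    (hg : Differentiable ℂ g) (hg0 : ∃ v, g v ≠ 0) :
    ∃ v, g v ≠ 0 ∧ ∀ j ∈ s, f j v ≠ 0 := by
  classical
  have key : Differentiable ℂ (fun v => ∏ j ∈ s, f j v) ∧ ∃ v, ∏ j ∈ s, f j v ≠ 0 := by
    induction s using Finset.induction_on with
    | empty => exact ⟨by simp, 0, by simp⟩
    | insert j s hj ih =>
      obtain ⟨h1, h2⟩ := ih (fun k hk => hf k (Finset.mem_insert_of_mem hk))
        (fun k hk => h0 k (Finset.mem_insert_of_mem hk))
      simp only [Finset.prod_insert hj]
      refine ⟨(hf j (Finset.mem_insert_self j s)).mul h1, ?_⟩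
      obtain ⟨v, hv1, hv2⟩ := exists_common (hf j (Finset.mem_insert_self j s)) h1
        (h0 j (Finset.mem_insert_self j s)) h2
      exact ⟨v, mul_ne_zero hv1 hv2⟩
  obtain ⟨v, hv, hv'⟩ := exists_common hg key.1 hg0 key.2
  exact ⟨v, hv, fun j hj => (Finset.prod_ne_zero_iff.1 hv') j hj⟩

end Gen

end Pool.Agent.U976.TBd
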