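import Pool.Agent.Q47.TB.Defs

/-!
# Divisors with real coefficients on toric bundles over torus quotients

Notation as in `Pool.Agent.Q47.TB.Defs`: `Y → X = V / Γ` is the toric bundle given by `u`, `S` and
`c`, with Cox coordinates `x i`, and all line bundles on `Y` are of the form `O_Y(d; L)`. The effective
Cartier divisors `D_j`, `j = 1, ..., r`, are given by sections `F_j` of line bundles `O_Y(d_j; M_j)`, and
`B = ∑ b_j D_j` is a divisor with real coefficients.
-/

set_option autoImplicit false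

namespace Pool.Agent.U976.TBd

open Pool.Agent.W594.SYZ2 Q47.TB MvPolynomial

variable {V : Type*} [NormedAddCommGroup V] [NormedSpace ℂ V] {Γ : Subgroup (V ≃ᵃ[ℂ] V)}
  {ι : Type*} [Fintype ι] {n r : ℕ}

/-- The canonical bundle of `Y` is `O_Y(-1, ..., -1; K)`: for a local section `G` of this line bundle
the form `G ρ dv ∧ ω` is invariant, where `ω` is the form with values in the canonical bundle of the
toric variety, homogeneous of the class of `∑ D_i`. (`ρ` defines the ramification divisor of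
`V → X`.) -/
def IsCanonicalBundle (c : ι → LineBundle Γ) (ρ : V → ℂ) (K : LineBundle Γ) : Prop :=
  ∀ (γ : Γ) (v : V), K.e γ v * ρ ((γ : V ≃ᵃ[ℂ] V) v) *
    (LinearMap.det ((γ : V ≃ᵃ[ℂ] V).linear : V →ₗ[ℂ] V) * ∏ i, (c i).e γ v) = ρ v

/-- The discrepancies of the pair `(Y, ∑ b_j D_j)` at the torus invariant prime divisors over the
general fibre of `Y → X` are at least `-1` (this is so if the pair is log canonical, in particular if
it is klt): for the prime divisor given by the vector `∑ a_i u_i` in the cone `{i | a_i ≠ 0}` of the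
fan, the multiplicity of `D_j = div F_j` along it is the minimum of `∑ a_i α_i` over the monomials
`x ^ α` of `F_j` (those whose coefficient is not the zero function), and the log discrepancy of the
toric variety is `∑ a_i`. -/
def RealLC (S : Set (Set ι)) (F : Fin r → V → MvPolynomial ι ℂ) (b : Fin r → ℝ) : Prop :=
  ∀ a : ι → ℕ, {i | a i ≠ 0} ∈ S →
    ∃ α : Fin r → ι →₀ ℕ, (∀ j, ∃ v, coeff (α j) (F j v) ≠ 0) ∧
      ∑ j, b j * ∑ i, (a i : ℝ) * α j i ≤ ∑ i, (a i : ℝ)

/-- `K_Y + ∑ b_j D_j` is nef on the fibres of `Y → X` and on the sections `X → Y` which are invariant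
under the torus: for each cone `σ` of the fan the class of the restriction to the fibres contains an
effective `ℝ`-divisor `∑ β_i D_i` with `β_i = 0` for `i ∈ σ`, and the class
`c_1(K) + ∑ b_j c_1(M_j) - ∑ β_i c_1(c_i)` on `X`, which is the restriction to the section `x_i = 0`,
`i ∈ σ` (if `σ` is maximal), is nef. Here `HK`, `HM j` and `Hc i` are the Chern forms of `K`, `M j` and
`c i`. (Nef `ℝ`-divisors on `Y` have this property.) -/
def RealNef (u : ι → Fin n → ℤ) (S : Set (Set ι)) (Hc : ι → V → V → ℂ) (HK : V → V → ℂ)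
    (d : Fin r → ι → ℤ) (HM : Fin r → V → V → ℂ) (b : Fin r → ℝ) : Prop :=
  ∀ σ ∈ S, ∃ (β : ι → ℝ) (q : Fin n → ℝ), (∀ i, 0 ≤ β i) ∧ (∀ i ∈ σ, β i = 0) ∧
    (∀ i, β i = ∑ j, b j * d j i - 1 + ∑ l, q l * u i l) ∧
    ∀ v, 0 ≤ (HK v v).re + ∑ j, b j * (HM j v v).re - ∑ i, β i * (Hc i v v).re

/-- The divisor `m K_Y + ∑ w_j D_j` is semiample: some positive multiple is generated by global
sections. -/
def PieceSemiample (u : ι → Fin n → ℤ) (S : Set (Set ι)) (c : ι → LineBundle Γ)
    (K : LineBundle Γ) (d : Fin r → ι → ℤ) (M : Fin r → LineBundle Γ) (m : ℕ)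
    (w : Fin r → ℕ) : Prop :=
  ∃ q : ℕ, 1 ≤ q ∧ ∀ (v : V) (x : ι → ℂ), {i | x i = 0} ∈ S →
    ∃ G, IsSection u c (fun i => q * (∑ j, (w j : ℤ) * d j i - m))
      (fun γ v => (K.e γ v ^ m * ∏ j, (M j).e γ v ^ w j) ^ q) G ∧ eval x (G v) ≠ 0

/-- The `ℝ`-divisor `K_Y + ∑ b_j D_j` is semiample: it is a sum `∑ t_k (m_k K_Y + ∑ w_{k j} D_j)` of
positive real multiples of semiample divisors, with `m_k ≥ 1`. (So it is a convex combination of
semiample `ℚ`-divisors `K_Y + B_k`, where `B = ∑ s_k B_k`, `B_k ≥ 0`.) -/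
def RealSemiample (u : ι → Fin n → ℤ) (S : Set (Set ι)) (c : ι → LineBundle Γ)
    (K : LineBundle Γ) (d : Fin r → ι → ℤ) (M : Fin r → LineBundle Γ) (b : Fin r → ℝ) : Prop :=
  ∃ (N : ℕ) (t : Fin N → ℝ) (m : Fin N → ℕ) (w : Fin N → Fin r → ℕ),
    (∀ k, 0 < t k) ∧ (∀ k, 1 ≤ m k) ∧ (∑ k, t k * m k = 1) ∧ (∀ j, ∑ k, t k * w k j = b j) ∧
      ∀ k, PieceSemiample u S c K d M (m k) (w k)

end Pool.Agent.U976.TBd
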