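import Pool.Agent.U976.TBd.RD2
import Pool.Agent.U976.TBd.RDDefs
import Pool.Agent.U976.TBd.GA4
import Pool.Agent.U976.TBd.NC1

/-!
# Abundance for real divisors on toric bundles
-/

set_option autoImplicit false

namespace Pool.Agent.U976.TBd

open Pool.Agent.W594.SYZ2 Pool.Agent.W594.SYZ2.TQ Pool.Agent.TH735.AQ Q47.MM Q47.TB Q47.EB
open MvPolynomial

variable {V : Type*} [NormedAddCommGroup V] [NormedSpace ℂ V] {Γ : Subgroup (V ≃ᵃ[ℂ] V)}
  {ι : Type*} [Fintype ι] {n r : ℕ}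

/-- The products of the coefficients. -/
theorem piece_pair {u : ι → Fin n → ℤ} {c : ι → LineBundle Γ} {ρ : V → ℂ} {K : LineBundle Γ}
    (hK : IsCanonicalBundle c ρ K) {d : Fin r → ι → ℤ} {M : Fin r → LineBundle Γ}
    {F : Fin r → V → MvPolynomial ι ℂ} (hF : ∀ j, IsSection u c (d j) (M j).e (F j))
    {m : ℕ} {w : Fin r → ℕ} {β : ι → ℕ} (T : Fin r → Finset (ι →₀ ℕ))
    (hT : ∀ j, ∀ α ∈ T j, ∃ v, coeff α (F j v) ≠ 0) {lam : Fin r → (ι →₀ ℕ) → ℕ}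
    (hlam : ∀ j, ∑ α ∈ T j, lam j α = w j)
    (hβ : ∀ i, β i + m = ∑ j, ∑ α ∈ T j, lam j α * α i) :
    ∃ P : V → ℂ, Differentiable ℂ P ∧ (∃ v, P v ≠ 0) ∧
      Pool.Agent.TH735.AQ.IsLogPluricanonical (Q47.TB.tw ((adj K M m w).pow 1) c 1 β) m ρ P := by
  classical
  refine ⟨fun v => ∏ j, ∏ α ∈ T j, coeff α (F j v) ^ lam j α, ?_, ?_, fun γ v => ?_⟩
  · exact Q47.MM.prod_holo _ _ fun j _ => Q47.MM.prod_holo _ _ fun α _ =>
      ((hF j).holo α).pow _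
  · obtain ⟨v, -, hv⟩ := exists_common_finset (Finset.univ.sigma fun j => T j)
      (fun x v => coeff x.2 (F x.1 v)) (fun x _ => (hF x.1).holo x.2)
      (fun x hx => hT x.1 x.2 (Finset.mem_sigma.1 hx).2) (g := fun _ => 1)
      (differentiable_const _) ⟨0, one_ne_zero⟩
    exact ⟨v, Finset.prod_ne_zero_iff.2 fun j _ => Finset.prod_ne_zero_iff.2 fun α hα =>
      pow_ne_zero _ (hv ⟨j, α⟩ (Finset.mem_sigma.2 ⟨Finset.mem_univ j, hα⟩))⟩
  · have h1 : ∀ j α, coeff α (F j ((γ : V ≃ᵃ[ℂ] V) v)) * (∏ i, (c i).e γ v ^ α i)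
        = (M j).e γ v * coeff α (F j v) := by
      intro j α
      have h := coeff_of_eval (t := fun i => (c i).e γ v) (p := F j ((γ : V ≃ᵃ[ℂ] V) v))
        (q := F j v) (a := 1) (b := (M j).e γ v) (fun x => by rw [mul_one]; exact (hF j).eq γ v x) α
      rwa [mul_one] at h
    have h2 : (∏ j, ∏ α ∈ T j, coeff α (F j ((γ : V ≃ᵃ[ℂ] V) v)) ^ lam j α)
        * ∏ i, (c i).e γ v ^ (β i + m)
        = (∏ j, (M j).e γ v ^ w j) * ∏ j, ∏ α ∈ T j, coeff α (F j v) ^ lam j α := by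
      have e1 : ∏ i, (c i).e γ v ^ (β i + m)
          = ∏ j, ∏ α ∈ T j, (∏ i, (c i).e γ v ^ α i) ^ lam j α := by
        have e2 : ∀ i, (c i).e γ v ^ (β i + m)
            = ∏ j, ∏ α ∈ T j, ((c i).e γ v ^ α i) ^ lam j α := by
          intro i
          rw [hβ i, ← Finset.prod_pow_eq_pow_sum]
          refine Finset.prod_congr rfl fun j _ => ?_
          rw [← Finset.prod_pow_eq_pow_sum]
          exact Finset.prod_congr rfl fun α _ => by rw [← pow_mul, mul_comm]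
        rw [Finset.prod_congr rfl fun i _ => e2 i, Finset.prod_comm]
        refine Finset.prod_congr rfl fun j _ => ?_
        rw [Finset.prod_comm]
        exact Finset.prod_congr rfl fun α _ => Finset.prod_pow _ _ _
      rw [e1, ← Finset.prod_mul_distrib, ← Finset.prod_mul_distrib]
      refine Finset.prod_congr rfl fun j _ => ?_
      rw [← hlam j, ← Finset.prod_pow_eq_pow_sum, ← Finset.prod_mul_distrib,
        ← Finset.prod_mul_distrib]
      exact Finset.prod_congr rfl fun α _ => by rw [← mul_pow, h1, mul_pow]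
    have h3 : ∏ i, (c i).e γ v ^ (β i + m)
        = (∏ i, (c i).e γ v ^ (1 * β i)) * (∏ i, (c i).e γ v) ^ m := by
      rw [← Finset.prod_pow, ← Finset.prod_mul_distrib]
      exact Finset.prod_congr rfl fun i _ => by rw [pow_add, one_mul]
    have h4 := congrArg (· ^ m) (hK γ v)
    simp only [mul_pow] at h4
    change (∏ j, ∏ α ∈ T j, coeff α (F j ((γ : V ≃ᵃ[ℂ] V) v)) ^ lam j α) * ρ v ^ m
      = ((K.e γ v ^ m * ∏ j, (M j).e γ v ^ w j) ^ 1) ^ 1 * (∏ i, (c i).e γ v ^ (1 * β i))⁻¹ * _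
        * (∏ j, ∏ α ∈ T j, coeff α (F j v) ^ lam j α) * _
    have h5 : ∏ i, (c i).e γ v ^ (1 * β i) ≠ 0 :=
      Finset.prod_ne_zero_iff.2 fun i _ => pow_ne_zero _ ((c i).ne_zero γ v)
    have h6 : (∏ i, (c i).e γ v) ^ m ≠ 0 :=
      pow_ne_zero _ (Finset.prod_ne_zero_iff.2 fun i _ => (c i).ne_zero γ v)
    rw [h3] at h2
    rw [pow_one, pow_one]
    refine mul_right_cancel₀ (mul_ne_zero h5 h6) ?_
    rw [← h4]
    field_simp
    linear_combination (K.e γ v ^ m * ρ ((γ : V ≃ᵃ[ℂ] V) v) ^ m *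
      (LinearMap.det ((γ : V ≃ᵃ[ℂ] V).linear : V →ₗ[ℂ] V) ^ m)) * h2

/-- The real form. -/
def rform (HK : V → V → ℂ) (HM : Fin r → V → V → ℂ) (Hc : ι → V → V → ℂ) (b : Fin r → ℝ)
    (β : ι → ℝ) (v w : V) : ℂ :=
  HK v w + ∑ j, (b j : ℂ) * HM j v w - ∑ i, (β i : ℂ) * Hc i v w

theorem herm_rform {HK : V → V → ℂ} {HM : Fin r → V → V → ℂ} {Hc : ι → V → V → ℂ}
    (hK : IsHermitian HK) (hM : ∀ j, IsHermitian (HM j)) (hc : ∀ i, IsHermitian (Hc i))
    (b : Fin r → ℝ) (β : ι → ℝ) : IsHermitian (rform HK HM Hc b β) := by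
  refine ⟨fun u v w => ?_, fun a v w => ?_, fun v w => ?_⟩
  · simp only [rform, hK.add_left, (hM _).add_left, (hc _).add_left, mul_add,
      Finset.sum_add_distrib]
    ring
  · simp only [rform, hK.smul_left, (hM _).smul_left, (hc _).smul_left, mul_add, mul_sub,
      Finset.mul_sum]
    congr 1
    · congr 1
      exact Finset.sum_congr rfl fun i _ => by ring
    · exact Finset.sum_congr rfl fun i _ => by ring
  · simp only [rform, map_add, map_sub, map_mul, map_sum, Complex.conj_ofReal, ← hK.symm,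
      ← (hM _).symm, ← (hc _).symm]

omit [NormedAddCommGroup V] [NormedSpace ℂ V] in
theorem rform_re (HK : V → V → ℂ) (HM : Fin r → V → V → ℂ) (Hc : ι → V → V → ℂ) (b : Fin r → ℝ)
    (β : ι → ℝ) (v w : V) : (rform HK HM Hc b β v w).re
      = (HK v w).re + ∑ j, b j * (HM j v w).re - ∑ i, β i * (Hc i v w).re := by
  rw [rform, Complex.sub_re, Complex.add_re, Complex.re_sum, Complex.re_sum]
  congr 1
  · congr 1
    exact Finset.sum_congr rfl fun i _ => Complex.re_ofReal_mul _ _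
  · exact Finset.sum_congr rfl fun i _ => Complex.re_ofReal_mul _ _

omit [NormedAddCommGroup V] [NormedSpace ℂ V] in
theorem rform_im (HK : V → V → ℂ) (HM : Fin r → V → V → ℂ) (Hc : ι → V → V → ℂ) (b : Fin r → ℝ)
    (β : ι → ℝ) (v w : V) : (rform HK HM Hc b β v w).im
      = (HK v w).im + ∑ j, b j * (HM j v w).im - ∑ i, β i * (Hc i v w).im := by
  rw [rform, Complex.sub_im, Complex.add_im, Complex.im_sum, Complex.im_sum]
  congr 1
  · congr 1
    exact Finset.sum_congr rfl fun i _ => Complex.im_ofReal_mul _ _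
  · exact Finset.sum_congr rfl fun i _ => Complex.im_ofReal_mul _ _

variable [FiniteDimensional ℂ V]

/-- Real adjoint exponents are positive combinations of rational ones. -/
theorem real_core (hΓ : IsTorusQuotient Γ) {ρ : V → ℂ} (hρ : IsRamification Γ ρ)
    {u : ι → Fin n → ℤ} {S : Set (Set ι)} (hS : IsSmoothFan u S)
    {c : ι → LineBundle Γ} {Hc : ι → V → V → ℂ} (hc : ∀ i, IsChernForm (c i) (Hc i))
    {K : LineBundle Γ} (hK : IsCanonicalBundle c ρ K) {HK : V → V → ℂ} (hHK : IsChernForm K HK)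
    {d : Fin r → ι → ℤ} {M : Fin r → LineBundle Γ} {HM : Fin r → V → V → ℂ}
    (hM : ∀ j, IsChernForm (M j) (HM j))
    {F : Fin r → V → MvPolynomial ι ℂ} (hF : ∀ j, IsSection u c (d j) (M j).e (F j))
    {b : Fin r → ℝ} (hb : ∀ j, 0 ≤ b j) (hlc : RealLC S F b)
    {P : Type*} [Fintype P] (Z : P → Set ι) (β : P → ι → ℝ) (q : P → Fin n → ℝ)
    (hβ0 : ∀ p i, 0 ≤ β p i) (hβZ : ∀ p, ∀ i ∈ Z p, β p i = 0)
    (hβ : ∀ p i, β p i = ∑ j, b j * d j i - 1 + ∑ l, q p l * u i l)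
    {G : Type*} [Finite G] (nn : G → ℤ) (nj : Fin r → G → ℤ) (N : ι → G → ℤ)
    (htest : ∀ p g, 0 ≤ (nn g : ℝ) + ∑ j, b j * nj j g - ∑ i, β p i * N i g)
    (hgood : ∀ (m : ℕ) (w : Fin r → ℕ) (β' : ι → ℕ) (Q : V → ℂ), Differentiable ℂ Q →
      (∃ v, Q v ≠ 0) → Pool.Agent.TH735.AQ.IsLogPluricanonical
        (Q47.TB.tw ((adj K M m w).pow 1) c 1 β') m ρ Q →
      (∀ g, 0 ≤ (m : ℤ) * nn g + ∑ j, (w j : ℤ) * nj j g - ∑ i, (β' i : ℤ) * N i g) →
      IsNefForm fun v v' => ((1 : ℕ) : ℂ) * frm Hc (cls HK HM m fun j => w j) 1 β' v v') :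
    ∃ (κ : Type) (_ : Fintype κ) (t : κ → ℝ) (m : κ → ℕ) (w : κ → Fin r → ℕ),
      (∀ k, 0 < t k) ∧ (∀ k, 1 ≤ m k) ∧ (∑ k, t k * m k = 1) ∧ (∀ j, ∑ k, t k * w k j = b j) ∧
      ∀ k p, ∃ β' : ι → ℕ, (∀ i ∈ Z p, β' i = 0) ∧
        LinEquiv u (fun i => (β' i : ℤ)) (fun i => ∑ j, (w k j : ℤ) * d j i - m k) ∧
        GG ((Q47.TB.tw ((adj K M (m k) (w k)).pow 1) c 1 β').pow
          (expo (Module.finrank ℂ V))) := by
  classical
  have hfin : ∀ j, {α : ι →₀ ℕ | ∃ v, coeff α (F j v) ≠ 0}.Finite := fun j => by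
    refine (finite_class hS (d j)).subset ?_
    rintro α ⟨v, hv⟩
    exact (hF j).deg v α (mem_support_iff.2 hv)
  obtain ⟨T, hT⟩ : ∃ T : Fin r → Finset (ι →₀ ℕ), ∀ j α, α ∈ T j ↔ ∃ v, coeff α (F j v) ≠ 0 :=
    ⟨fun j => (hfin j).toFinset, fun j α => by simp⟩
  have hTd : ∀ j, ∀ α ∈ T j, LinEquiv u (fun i => (α i : ℤ)) (d j) := by
    intro j α hα
    obtain ⟨v, hv⟩ := (hT j α).1 hα
    exact (hF j).deg v α (mem_support_iff.2 hv)
  have hcomb := fun p => real_comb hS T hTd hb (fun a ha => by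
      obtain ⟨α, hα, hle⟩ := hlc a ha
      exact ⟨α, fun j => (hT j _).2 (hα j), hle⟩) (z := fun i => β p i + 1) (q := q p)
    (fun i => by
      rw [hβ p i]
      ring) (fun i => by
      have := hβ0 p i
      linarith)
  choose lam hlam0 hlam hz using hcomb
  obtain ⟨κ, hκ, t, m, w, β', lam', ht, hm1, hw1, hm, hall⟩ := rational_pieces (u := u) T d Z nn nj
    N hb q lam hlam0 hlam β hβ hβ0 hβZ hz htest
  refine ⟨κ, hκ, t, m, w, ht, hm, hm1, hw1, fun k p => ?_⟩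
  obtain ⟨hZ, hlin, hl1, hl2, htst⟩ := hall k p
  refine ⟨β' k p, hZ, hlin, ?_⟩
  obtain ⟨Q, hQ, hQ0, hl⟩ := piece_pair hK hF T (fun j α hα => (hT j α).1 hα) hl1 hl2
  have hch := chern_frm (chern_adj hHK hM (m k) (w k)) hc 1 1 (β' k p)
  have hnef := hgood (m k) (w k) (β' k p) Q hQ hQ0 hl htst
  obtain ⟨hH, F', hF', hFe⟩ := hch
  exact gg_of_pair hΓ hH ⟨hF', hFe⟩ hρ hQ hQ0 hl hnef

/-- Real adjoint exponents with nef forms are positive combinations of rational ones. -/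
theorem real_main (hΓ : IsTorusQuotient Γ) {ρ : V → ℂ} (hρ : IsRamification Γ ρ)
    {u : ι → Fin n → ℤ} {S : Set (Set ι)} (hS : IsSmoothFan u S)
    {c : ι → LineBundle Γ} {Hc : ι → V → V → ℂ} (hc : ∀ i, IsChernForm (c i) (Hc i))
    {K : LineBundle Γ} (hK : IsCanonicalBundle c ρ K) {HK : V → V → ℂ} (hHK : IsChernForm K HK)
    {d : Fin r → ι → ℤ} {M : Fin r → LineBundle Γ} {HM : Fin r → V → V → ℂ}
    (hM : ∀ j, IsChernForm (M j) (HM j))
    {F : Fin r → V → MvPolynomial ι ℂ} (hF : ∀ j, IsSection u c (d j) (M j).e (F j))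
    {b : Fin r → ℝ} (hb : ∀ j, 0 ≤ b j) (hlc : RealLC S F b)
    {P : Type*} [Fintype P] (Z : P → Set ι) (β : P → ι → ℝ) (q : P → Fin n → ℝ)
    (hβ0 : ∀ p i, 0 ≤ β p i) (hβZ : ∀ p, ∀ i ∈ Z p, β p i = 0)
    (hβ : ∀ p i, β p i = ∑ j, b j * d j i - 1 + ∑ l, q p l * u i l)
    (hn : ∀ p, ∀ a ∈ roots Γ, 0 ≤ (rform HK HM Hc b (β p) a a).re) :
    ∃ (κ : Type) (_ : Fintype κ) (t : κ → ℝ) (m : κ → ℕ) (w : κ → Fin r → ℕ),
      (∀ k, 0 < t k) ∧ (∀ k, 1 ≤ m k) ∧ (∑ k, t k * m k = 1) ∧ (∀ j, ∑ k, t k * w k j = b j) ∧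
      ∀ k p, ∃ β' : ι → ℕ, (∀ i ∈ Z p, β' i = 0) ∧
        LinEquiv u (fun i => (β' i : ℤ)) (fun i => ∑ j, (w k j : ℤ) * d j i - m k) ∧
        GG ((Q47.TB.tw ((adj K M (m k) (w k)).pow 1) c 1 β').pow
          (expo (Module.finrank ℂ V))) := by
  classical
  have := finite_Lin hΓ
  -- the tests
  obtain ⟨x, y, hx, hy, hxy⟩ := exists_tests hΓ
  have h1 : ∀ g, ∃ n : ℤ, (HK (x g) (y g)).im = n := fun g => by
    obtain ⟨hH, F', hF', hFe⟩ := hHK
    obtain ⟨n, hn⟩ := im_int hH ⟨hF', hFe⟩ (hx g) (hy g)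
    exact ⟨n, hn⟩
  have h2 : ∀ j g, ∃ n : ℤ, (HM j (x g) (y g)).im = n := fun j g => by
    obtain ⟨hH, F', hF', hFe⟩ := hM j
    obtain ⟨n, hn⟩ := im_int hH ⟨hF', hFe⟩ (hx g) (hy g)
    exact ⟨n, hn⟩
  have h3 : ∀ i g, ∃ n : ℤ, (Hc i (x g) (y g)).im = n := fun i g => by
    obtain ⟨hH, F', hF', hFe⟩ := hc i
    obtain ⟨n, hn⟩ := im_int hH ⟨hF', hFe⟩ (hx g) (hy g)
    exact ⟨n, hn⟩
  choose nn hnn using h1
  choose nj hnj using h2
  choose N hN using h3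
  refine real_core hΓ hρ hS hc hK hHK hM hF hb hlc Z β q hβ0 hβZ hβ nn nj N (fun p g => ?_)
    fun m w β' Q hQ hQ0 hl htst => ?_
  · have h5 := (hxy _ (herm_rform hHK.1 (fun j => (hM j).1) (fun i => (hc i).1) b (β p))).1
      (hn p) g
    rw [rform_im, hnn] at h5
    simp only [hnj, hN] at h5
    exact h5
  · have hch := chern_frm (chern_adj hHK hM m w) hc 1 1 β'
    have hI := inv_of_chern hch
    refine nef_of_roots hΓ hI (fun z hz => pair_fixed hΓ hρ hQ hQ0 hl hch hz)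
      ((hxy _ hI.herm).2 fun g => ?_)
    rw [Nat.cast_one, one_mul, frm_im, cls_im, hnn]
    simp only [hnj, hN]
    have h6 := htst g
    have h7 : ((0 : ℤ) : ℝ) ≤ (((m : ℤ) * nn g + ∑ j, (w j : ℤ) * nj j g
        - ∑ i, (β' i : ℤ) * N i g : ℤ) : ℝ) := by exact_mod_cast h6
    push_cast at h7 ⊢
    linarith

/-- The unramified case. -/
theorem real_unram (hΓ : IsTorusQuotient Γ) {ρ : V → ℂ} (hρ : IsRamification Γ ρ)
    (h0 : ∀ v, ρ v ≠ 0)
    {u : ι → Fin n → ℤ} {S : Set (Set ι)} (hS : IsSmoothFan u S)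
    {c : ι → LineBundle Γ} {Hc : ι → V → V → ℂ} (hc : ∀ i, IsChernForm (c i) (Hc i))
    {K : LineBundle Γ} (hK : IsCanonicalBundle c ρ K) {HK : V → V → ℂ} (hHK : IsChernForm K HK)
    {d : Fin r → ι → ℤ} {M : Fin r → LineBundle Γ} {HM : Fin r → V → V → ℂ}
    (hM : ∀ j, IsChernForm (M j) (HM j))
    {F : Fin r → V → MvPolynomial ι ℂ} (hF : ∀ j, IsSection u c (d j) (M j).e (F j))
    {b : Fin r → ℝ} (hb : ∀ j, 0 ≤ b j) (hlc : RealLC S F b)
    {P : Type*} [Fintype P] (Z : P → Set ι) (β : P → ι → ℝ) (q : P → Fin n → ℝ)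
    (hβ0 : ∀ p i, 0 ≤ β p i) (hβZ : ∀ p, ∀ i ∈ Z p, β p i = 0)
    (hβ : ∀ p i, β p i = ∑ j, b j * d j i - 1 + ∑ l, q p l * u i l) :
    ∃ (κ : Type) (_ : Fintype κ) (t : κ → ℝ) (m : κ → ℕ) (w : κ → Fin r → ℕ),
      (∀ k, 0 < t k) ∧ (∀ k, 1 ≤ m k) ∧ (∑ k, t k * m k = 1) ∧ (∀ j, ∑ k, t k * w k j = b j) ∧
      ∀ k p, ∃ β' : ι → ℕ, (∀ i ∈ Z p, β' i = 0) ∧
        LinEquiv u (fun i => (β' i : ℤ)) (fun i => ∑ j, (w k j : ℤ) * d j i - m k) ∧
        GG ((Q47.TB.tw ((adj K M (m k) (w k)).pow 1) c 1 β').pow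
          (expo (Module.finrank ℂ V))) := by
  refine real_core hΓ hρ hS hc hK hHK hM hF hb hlc Z β q hβ0 hβZ hβ (G := Fin 0) (fun _ => 0)
    (fun _ _ => 0) (fun _ _ => 0) (fun p g => g.elim0) fun m w β' Q hQ hQ0 hl _ => ?_
  exact pair_unram hΓ hρ h0 hQ hQ0 hl (chern_frm (chern_adj hHK hM m w) hc 1 1 β')

omit [FiniteDimensional ℂ V] [Fintype ι] in
theorem reindex {κ : Type} [Fintype κ] {t : κ → ℝ} {m : κ → ℕ} {w : κ → Fin r → ℕ} {b : Fin r → ℝ}
    {Pr : ℕ → (Fin r → ℕ) → Prop} (ht : ∀ k, 0 < t k) (hm : ∀ k, 1 ≤ m k)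
    (h1 : ∑ k, t k * m k = 1) (h2 : ∀ j, ∑ k, t k * w k j = b j) (h : ∀ k, Pr (m k) (w k)) :
    ∃ (N : ℕ) (t : Fin N → ℝ) (m : Fin N → ℕ) (w : Fin N → Fin r → ℕ),
      (∀ k, 0 < t k) ∧ (∀ k, 1 ≤ m k) ∧ (∑ k, t k * m k = 1) ∧ (∀ j, ∑ k, t k * w k j = b j) ∧
      ∀ k, Pr (m k) (w k) := by
  let e := Fintype.equivFin κ
  refine ⟨Fintype.card κ, fun k => t (e.symm k), fun k => m (e.symm k), fun k => w (e.symm k),
    fun k => ht _, fun k => hm _, ?_, fun j => ?_, fun k => h _⟩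
  · rw [← h1]
    exact Fintype.sum_equiv e.symm _ _ fun _ => rfl
  · rw [← h2 j]
    exact Fintype.sum_equiv e.symm _ _ fun _ => rfl

omit [FiniteDimensional ℂ V] [Fintype ι] in
theorem lin_one {u : ι → Fin n → ℤ} {β : ι → ℕ} {D : ι → ℤ}
    (h : LinEquiv u (fun i => (β i : ℤ)) D) :
    LinEquiv u (fun i => (β i : ℤ)) (fun i => ((1 : ℕ) : ℤ) * D i) := by
  obtain ⟨q, hq⟩ := h
  refine ⟨q, fun i => ?_⟩
  rw [hq i]
  push_cast
  ring

/-- Nef real adjoint divisors are semiample. -/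
theorem real_semiample_of_nef (hΓ : IsTorusQuotient Γ) {ρ : V → ℂ} (hρ : IsRamification Γ ρ)
    {u : ι → Fin n → ℤ} {S : Set (Set ι)} (hS : IsSmoothFan u S)
    {c : ι → LineBundle Γ} {Hc : ι → V → V → ℂ} (hc : ∀ i, IsChernForm (c i) (Hc i))
    {K : LineBundle Γ} (hK : IsCanonicalBundle c ρ K) {HK : V → V → ℂ} (hHK : IsChernForm K HK)
    {d : Fin r → ι → ℤ} {M : Fin r → LineBundle Γ} {HM : Fin r → V → V → ℂ}
    (hM : ∀ j, IsChernForm (M j) (HM j))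
    {F : Fin r → V → MvPolynomial ι ℂ} (hF : ∀ j, IsSection u c (d j) (M j).e (F j))
    {b : Fin r → ℝ} (hb : ∀ j, 0 ≤ b j) (hlc : RealLC S F b)
    (hn : RealNef u S Hc HK d HM b) : RealSemiample u S c K d M b := by
  classical
  have : Fintype {σ : Set ι // σ ∈ S} := Fintype.ofFinite _
  choose! β q hβ0 hβZ hβ hn using hn
  obtain ⟨κ, hκ, t, m, w, ht, hm, h1, h2, h3⟩ := real_main hΓ hρ hS hc hK hHK hM hF hb hlc
    (P := {σ : Set ι // σ ∈ S}) (fun σ => σ.1) (fun σ => β σ.1) (fun σ => q σ.1)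
    (fun σ => hβ0 σ.1 σ.2) (fun σ => hβZ σ.1 σ.2) (fun σ => hβ σ.1 σ.2)
    (fun σ a _ => by rw [rform_re]; exact hn σ.1 σ.2 a)
  refine reindex ht hm h1 h2 fun k => ?_
  refine semiample_of_gg (L := adj K M (m k) (w k)) fun σ hσ => ?_
  obtain ⟨β', hZ, hlin, hgg⟩ := h3 k ⟨σ, hσ⟩
  exact ⟨1, le_rfl, β', hZ, lin_one hlin, _, expo_pos _, hgg⟩

/-- In the unramified case it is enough that the divisor is nef on the fibres. -/
theorem real_semiample_of_unram (hΓ : IsTorusQuotient Γ) {ρ : V → ℂ} (hρ : IsRamification Γ ρ)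
    (h0 : ∀ v, ρ v ≠ 0)
    {u : ι → Fin n → ℤ} {S : Set (Set ι)} (hS : IsSmoothFan u S)
    {c : ι → LineBundle Γ} {Hc : ι → V → V → ℂ} (hc : ∀ i, IsChernForm (c i) (Hc i))
    {K : LineBundle Γ} (hK : IsCanonicalBundle c ρ K) {HK : V → V → ℂ} (hHK : IsChernForm K HK)
    {d : Fin r → ι → ℤ} {M : Fin r → LineBundle Γ} {HM : Fin r → V → V → ℂ}
    (hM : ∀ j, IsChernForm (M j) (HM j))
    {F : Fin r → V → MvPolynomial ι ℂ} (hF : ∀ j, IsSection u c (d j) (M j).e (F j))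
    {b : Fin r → ℝ} (hb : ∀ j, 0 ≤ b j) (hlc : RealLC S F b)
    (hn : ∀ σ ∈ S, ∃ (β : ι → ℝ) (q : Fin n → ℝ), (∀ i, 0 ≤ β i) ∧ (∀ i ∈ σ, β i = 0) ∧
      ∀ i, β i = ∑ j, b j * d j i - 1 + ∑ l, q l * u i l) : RealSemiample u S c K d M b := by
  classical
  have : Fintype {σ : Set ι // σ ∈ S} := Fintype.ofFinite _
  choose! β q hβ0 hβZ hβ using hn
  obtain ⟨κ, hκ, t, m, w, ht, hm, h1, h2, h3⟩ := real_unram hΓ hρ h0 hS hc hK hHK hM hF hb hlc
    (P := {σ : Set ι // σ ∈ S}) (fun σ => σ.1) (fun σ => β σ.1) (fun σ => q σ.1)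
    (fun σ => hβ0 σ.1 σ.2) (fun σ => hβZ σ.1 σ.2) (fun σ => hβ σ.1 σ.2)
  refine reindex ht hm h1 h2 fun k => ?_
  refine semiample_of_gg (L := adj K M (m k) (w k)) fun σ hσ => ?_
  obtain ⟨β', hZ, hlin, hgg⟩ := h3 k ⟨σ, hσ⟩
  exact ⟨1, le_rfl, β', hZ, lin_one hlin, _, expo_pos _, hgg⟩

/-- Semiample real divisors are nef. -/
theorem real_nef_of_semiample (hΓ : IsTorusQuotient Γ)
    {u : ι → Fin n → ℤ} {S : Set (Set ι)}
    {c : ι → LineBundle Γ} {Hc : ι → V → V → ℂ} (hc : ∀ i, IsChernForm (c i) (Hc i))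
    {K : LineBundle Γ} {HK : V → V → ℂ} (hHK : IsChernForm K HK)
    {d : Fin r → ι → ℤ} {M : Fin r → LineBundle Γ} {HM : Fin r → V → V → ℂ}
    (hM : ∀ j, IsChernForm (M j) (HM j)) {b : Fin r → ℝ}
    (h : RealSemiample u S c K d M b) : RealNef u S Hc HK d HM b := by
  classical
  obtain ⟨N, t, m, w, ht, hm, h1, h2, h3⟩ := h
  have h4 : ∀ k, Nef u S Hc (fun i => ∑ j, (w k j : ℤ) * d j i - m k)
      (cls HK HM (m k) fun j => w k j) := fun k =>
    nef_of_semiample hΓ hc (chern_adj hHK hM (m k) (w k)) (h3 k)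
  intro σ hσ
  choose p hp β hβ0 hβ hn using fun k => h4 k σ hσ
  choose q hq using hβ
  have hp0 : ∀ k, (0 : ℝ) < p k := fun k => by exact_mod_cast hp k
  have hβr : ∀ k i, (β k i : ℝ) = p k * (∑ j, (w k j : ℝ) * d j i - m k)
      + ∑ l, (q k l : ℝ) * u i l := by
    intro k i
    have e1 : (β k i : ℤ) = p k * (∑ j, (w k j : ℤ) * d j i - m k) + ∑ l, q k l * u i l := hq k i
    have e2 : (((β k i : ℕ) : ℤ) : ℝ) = ((p k * (∑ j, (w k j : ℤ) * d j i - m k)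
        + ∑ l, q k l * u i l : ℤ) : ℝ) := by rw [e1]
    push_cast at e2
    exact e2
  refine ⟨fun i => ∑ k, t k / p k * β k i, fun l => ∑ k, t k / p k * q k l, fun i => ?_,
    fun i hi => ?_, fun i => ?_, fun v => ?_⟩
  · exact Finset.sum_nonneg fun k _ => mul_nonneg (div_nonneg (ht k).le (hp0 k).le)
      (Nat.cast_nonneg _)
  · exact Finset.sum_eq_zero fun k _ => by rw [hβ0 k i hi, Nat.cast_zero, mul_zero]
  · simp only
    have e1 : ∀ k, t k / p k * β k i = t k * ∑ j, (w k j : ℝ) * d j i - t k * m k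
        + t k / p k * ∑ l, (q k l : ℝ) * u i l := by
      intro k
      rw [hβr]
      have := (hp0 k).ne'
      field_simp
    rw [Finset.sum_congr rfl fun k _ => e1 k, Finset.sum_add_distrib, Finset.sum_sub_distrib, h1]
    congr 1
    · congr 1
      have e2 : ∀ j, b j * (d j i : ℝ) = ∑ k, t k * (w k j * d j i) := by
        intro j
        rw [← h2 j, Finset.sum_mul]
        exact Finset.sum_congr rfl fun k _ => by ring
      rw [Finset.sum_congr rfl fun j _ => e2 j, Finset.sum_comm]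
      exact Finset.sum_congr rfl fun k _ => Finset.mul_sum _ _ _
    · simp only [Finset.mul_sum, Finset.sum_mul]
      rw [Finset.sum_comm]
      exact Finset.sum_congr rfl fun _ _ => Finset.sum_congr rfl fun _ _ => by ring
  · have e1 : ∀ k, 0 ≤ (p k : ℝ) * ((m k : ℝ) * (HK v v).re + ∑ j, (w k j : ℝ) * (HM j v v).re)
        - ∑ i, (β k i : ℝ) * (Hc i v v).re := by
      intro k
      have e2 := hn k v
      change 0 ≤ (frm Hc (cls HK HM (m k) fun j => w k j) (p k) (β k) v v).re at e2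
      rw [frm_re, cls_re] at e2
      exact e2
    have e3 : 0 ≤ ∑ k, t k / p k * ((p k : ℝ) * ((m k : ℝ) * (HK v v).re
        + ∑ j, (w k j : ℝ) * (HM j v v).re) - ∑ i, (β k i : ℝ) * (Hc i v v).re) :=
      Finset.sum_nonneg fun k _ => mul_nonneg (div_nonneg (ht k).le (hp0 k).le) (e1 k)
    have e4 : ∑ k, t k / p k * ((p k : ℝ) * ((m k : ℝ) * (HK v v).re
        + ∑ j, (w k j : ℝ) * (HM j v v).re) - ∑ i, (β k i : ℝ) * (Hc i v v).re)
        = (HK v v).re + ∑ j, b j * (HM j v v).re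
          - ∑ i, (∑ k, t k / p k * β k i) * (Hc i v v).re := by
      have e5 : ∀ k, t k / p k * ((p k : ℝ) * ((m k : ℝ) * (HK v v).re
        + ∑ j, (w k j : ℝ) * (HM j v v).re) - ∑ i, (β k i : ℝ) * (Hc i v v).re)
        = t k * m k * (HK v v).re + t k * ∑ j, (w k j : ℝ) * (HM j v v).re
          - t k / p k * ∑ i, (β k i : ℝ) * (Hc i v v).re := by
        intro k
        have := (hp0 k).ne'
        field_simp
      rw [Finset.sum_congr rfl fun k _ => e5 k, Finset.sum_sub_distrib, Finset.sum_add_distrib,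
        ← Finset.sum_mul, h1, one_mul]
      congr 1
      · congr 1
        have e2 : ∀ j, b j * (HM j v v).re = ∑ k, t k * (w k j * (HM j v v).re) := by
          intro j
          rw [← h2 j, Finset.sum_mul]
          exact Finset.sum_congr rfl fun k _ => by ring
        rw [Finset.sum_congr rfl fun j _ => e2 j, Finset.sum_comm]
        exact Finset.sum_congr rfl fun k _ => Finset.mul_sum _ _ _
      · simp only [Finset.mul_sum, Finset.sum_mul]
        rw [Finset.sum_comm]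
        exact Finset.sum_congr rfl fun _ _ => Finset.sum_congr rfl fun _ _ => by ring
    rw [e4] at e3
    exact e3

end Pool.Agent.U976.TBd
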