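import Pool.Agent.U976.TBd.CU3
import Pool.Agent.U976.TBd.RD3

/-!
# Metrics with semipositive curvature give real exponents
-/

set_option autoImplicit false

namespace Pool.Agent.U976.TBd

open Pool.Agent.W594.SYZ2 Pool.Agent.W594.SYZ2.TQ Pool.Agent.TH735.AQ Q47.MM Q47.TB Q47.EB
open MvPolynomial Filter Topology Metric

variable {V : Type*} [NormedAddCommGroup V] [NormedSpace ℂ V] {Γ : Subgroup (V ≃ᵃ[ℂ] V)}
  {ι : Type*} [Fintype ι] {n k : ℕ} {u : ι → Fin n → ℤ} {S : Set (Set ι)} {c : ι → LineBundle Γ}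
  {e : Fin k → ι → ℤ} {A : Fin k → LineBundle Γ} {m : Fin k → ℕ}
  {F : Fin k → V → MvPolynomial ι ℂ} {D : ι → ℤ} {L : LineBundle Γ}
  {w : V × (ι → ℂ) × (Fin k → ℂ) → ℝ}

variable [FiniteDimensional ℂ V]

/-- The weight is bounded on the orbits of the compact torus. -/
theorem bd_exists (hΓ : IsTorusQuotient Γ) (hS : IsSmoothFan u S) (hm : ∀ j, 1 ≤ m j)
    (hF : ∀ j, IsSection u c (fun i => m j * e j i) (fun γ v => (A j).e γ v ^ m j) (F j))
    (hw : IsCoverMetric u S c e A m F D L w) {φ : ι → V → ℝ} (hφ : ∀ i, Continuous (φ i))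
    (hφe : ∀ i (γ : Γ) (v : V), ‖(c i).e γ v‖ = Real.exp (φ i ((γ : V ≃ᵃ[ℂ] V) v) - φ i v))
    {ψ : V → ℝ} (hψ : Continuous ψ)
    (hψe : ∀ (γ : Γ) (v : V), ‖L.e γ v‖ = Real.exp (ψ ((γ : V ≃ᵃ[ℂ] V) v) - ψ v))
    (t : ι → ℝ) : ∃ s, Bd m F φ ψ w t s := by
  classical
  have : ProperSpace V := FiniteDimensional.proper ℂ V
  obtain ⟨C, hC⟩ := cobounded (latt Γ) hΓ.span_top
  have hK : IsCompact (closedBall (0 : V) C) := isCompact_closedBall _ _
  have hFd : ∀ j, Continuous fun p : V × (ι → ℂ) => eval p.2 (F j p.1) := fun j =>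
    (diff_eval hS (hF j)).continuous
  -- bounds
  have h1 : ∀ i, ∃ R : ℝ, ∀ v ∈ closedBall (0 : V) C, ‖Real.exp (t i + φ i v)‖ ≤ R := fun i =>
    hK.exists_bound_of_continuousOn (Real.continuous_exp.comp
      (continuous_const.add (hφ i))).continuousOn
  choose R hR using h1
  have hK2 : IsCompact (closedBall (0 : V) C ×ˢ Set.univ.pi fun i => closedBall (0 : ℂ) (R i)) :=
    hK.prod (isCompact_univ_pi fun i => isCompact_closedBall _ _)
  have h2 : ∀ j, ∃ B : ℝ, ∀ p ∈ closedBall (0 : V) C ×ˢ Set.univ.pi fun i => closedBall (0 : ℂ) (R i),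
      ‖eval p.2 (F j p.1)‖ ≤ B := fun j => hK2.exists_bound_of_continuousOn (hFd j).continuousOn
  choose B hB using h2
  obtain ⟨R', hR'⟩ := hK.exists_bound_of_continuousOn hψ.continuousOn
  let Q : Set (V × (ι → ℂ) × (Fin k → ℂ)) := {p | p.1 ∈ closedBall (0 : V) C ∧
    (∀ i, ‖p.2.1 i‖ = Real.exp (t i + φ i p.1)) ∧ ∀ j, p.2.2 j ^ m j = eval p.2.1 (F j p.1)}
  have hQc : IsCompact Q := by
    have h3 : Q ⊆ closedBall (0 : V) C ×ˢ ((Set.univ.pi fun i => closedBall (0 : ℂ) (R i)) ×ˢ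
        Set.univ.pi fun j => closedBall (0 : ℂ) (1 + |B j|)) := by
      rintro ⟨v, x, y⟩ ⟨hv, hx, hy⟩
      have hxR : x ∈ Set.univ.pi fun i => closedBall (0 : ℂ) (R i) := fun i _ => by
        rw [mem_closedBall_zero_iff, hx i]
        exact (le_abs_self _).trans (hR i v hv)
      refine ⟨hv, hxR, fun j _ => ?_⟩
      rw [mem_closedBall_zero_iff]
      have h2 : ‖y j‖ ^ m j ≤ |B j| := by
        rw [← norm_pow, hy j]
        exact (hB j (v, x) ⟨hv, hxR⟩).trans (le_abs_self _)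
      by_contra h3
      push Not at h3
      have h4 : 1 ≤ ‖y j‖ := by
        have := abs_nonneg (B j)
        linarith
      have h5 := le_self_pow₀ h4 (show m j ≠ 0 by have := hm j; omega)
      linarith
    have h4 : IsClosed Q := by
      have h5 : Q = {p | p.1 ∈ closedBall (0 : V) C} ∩
          ((⋂ i, {p : V × (ι → ℂ) × (Fin k → ℂ) | ‖p.2.1 i‖ = Real.exp (t i + φ i p.1)}) ∩
          ⋂ j, {p : V × (ι → ℂ) × (Fin k → ℂ) | p.2.2 j ^ m j = eval p.2.1 (F j p.1)}) := by
        ext p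
        simp [Q]
      rw [h5]
      refine (isClosed_closedBall.preimage continuous_fst).inter
        ((isClosed_iInter fun i => isClosed_eq ?_ ?_).inter
          (isClosed_iInter fun j => isClosed_eq ?_ ?_))
      · fun_prop
      · exact Real.continuous_exp.comp (continuous_const.add ((hφ i).comp continuous_fst))
      · fun_prop
      · exact (hFd j).comp (continuous_fst.prodMk (continuous_fst.comp continuous_snd))
    exact (hK.prod ((isCompact_univ_pi fun i => isCompact_closedBall _ _).prod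
      (isCompact_univ_pi fun j => isCompact_closedBall _ _))).of_isClosed_subset h4 h3
  have hQm : Q ⊆ CoverSet S m F := by
    rintro ⟨v, x, y⟩ ⟨hv, hx, hy⟩
    exact mem_cover hS hx hy
  obtain ⟨M', hM'⟩ := (hw.psh.usc.mono hQm).bddAbove_of_isCompact hQc
  refine ⟨Real.log (max M' 1) + R', fun v x y hx hy => ?_⟩
  obtain ⟨b, hb, hbC⟩ := hC v
  have hbv : ((tr b hb : Γ) : V ≃ᵃ[ℂ] V) v = b + v := tr_apply _ _ _
  have hmem := mem_cover hS hx hy
  have h5 := hw.lattice (tr b hb) v x y hmem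
  have hmemQ : (((tr b hb : Γ) : V ≃ᵃ[ℂ] V) v, (fun i => (c i).e (tr b hb) v * x i),
      fun j => (A j).e (tr b hb) v * y j) ∈ Q := by
    refine ⟨?_, fun i => ?_, fun j => ?_⟩
    · change ((tr b hb : Γ) : V ≃ᵃ[ℂ] V) v ∈ closedBall (0 : V) C
      rw [hbv, mem_closedBall_zero_iff]
      exact hbC
    · change ‖(c i).e (tr b hb) v * x i‖ = Real.exp (t i + φ i (((tr b hb : Γ) : V ≃ᵃ[ℂ] V) v))
      rw [norm_mul, hφe, hx i, ← Real.exp_add]
      congr 1
      ring
    · change ((A j).e (tr b hb) v * y j) ^ m j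
        = eval (fun i => (c i).e (tr b hb) v * x i) (F j (((tr b hb : Γ) : V ≃ᵃ[ℂ] V) v))
      rw [(hF j).eq, mul_pow, hy j]
  have h6 : w (((tr b hb : Γ) : V ≃ᵃ[ℂ] V) v, (fun i => (c i).e (tr b hb) v * x i),
      fun j => (A j).e (tr b hb) v * y j) ≤ M' := hM' ⟨_, hmemQ, rfl⟩
  rw [h5, hψe] at h6
  have h7 : -R' ≤ ψ (((tr b hb : Γ) : V ≃ᵃ[ℂ] V) v) := by
    have h8 := hR' (((tr b hb : Γ) : V ≃ᵃ[ℂ] V) v) (by
      rw [hbv, mem_closedBall_zero_iff]
      exact hbC)
    exact (abs_le.1 (by simpa using h8)).1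
  have h8 : w (v, x, y) ≤ max M' 1 * Real.exp (-(ψ (((tr b hb : Γ) : V ≃ᵃ[ℂ] V) v) - ψ v)) := by
    have h9 : w (v, x, y) = (Real.exp (ψ (((tr b hb : Γ) : V ≃ᵃ[ℂ] V) v) - ψ v) * w (v, x, y)) *
        Real.exp (-(ψ (((tr b hb : Γ) : V ≃ᵃ[ℂ] V) v) - ψ v)) := by
      rw [mul_comm (Real.exp _) (w _), mul_assoc, ← Real.exp_add, add_neg_cancel, Real.exp_zero,
        mul_one]
    rw [h9]
    exact mul_le_mul_of_nonneg_right (h6.trans (le_max_left _ _)) (Real.exp_pos _).le
  refine h8.trans ?_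
  have h9 : 0 < max M' 1 := lt_of_lt_of_le one_pos (le_max_right _ _)
  conv_lhs => rw [← Real.exp_log h9]
  rw [← Real.exp_add]
  refine Real.exp_le_exp.2 ?_
  linarith

/-- The weight is not zero on all orbits. -/
theorem exists_not_bd (hS : IsSmoothFan u S) (hm : ∀ j, 1 ≤ m j)
    (hF : ∀ j, Differentiable ℂ fun p : V × (ι → ℂ) => eval p.2 (F j p.1))
    (hw : IsCoverMetric u S c e A m F D L w) (φ : ι → V → ℝ) (ψ : V → ℝ) :
    ∃ t s, ¬ Bd m F φ ψ w t s := by
  classical
  by_contra hcon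
  push Not at hcon
  obtain ⟨⟨v, x, y⟩, hp, hne⟩ := hw.ne_zero
  have hzero : ∀ (x : ι → ℂ) (y : Fin k → ℂ), (∀ i, x i ≠ 0) →
      (∀ j, y j ^ m j = eval x (F j v)) → ∀ r : ℝ, w (v, x, y) ≤ Real.exp r := by
    intro x y hx hy r
    have h1 := hcon (fun i => Real.log ‖x i‖ - φ i v) (r - ψ v) v x y (fun i => by
      rw [sub_add_cancel, Real.exp_log (norm_pos_iff.2 (hx i))]) hy
    rwa [sub_add_cancel] at h1
  have hpos : 0 < w (v, x, y) := lt_of_le_of_ne (hw.psh.nonneg _ hp) (Ne.symm hne)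
  have hmain : ∀ r : ℝ, w (v, x, y) ≤ Real.exp r := by
    intro r
    let f : ℂ → V × (ι → ℂ) := fun z => (v, fun i => if x i = 0 then z else x i)
    have hf0 : f 0 = (v, x) := by
      simp only [f]
      refine Prod.ext rfl (funext fun i => ?_)
      by_cases hi : x i = 0
      · simp [hi]
      · simp [hi]
    have h1 := cover_max (S := S) (f := f) (P := fun _ => (r : ℂ)) hm hF hw.psh (fun z _ => by
        refine analyticAt_const.prod ?_
        rw [analyticAt_pi_iff]
        intro i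
        by_cases hi : x i = 0
        · simp only [hi, if_true]
          exact analyticAt_id
        · simp only [hi, if_false]
          exact analyticAt_const)
      (fun z _ => analyticAt_const) (fun z _ => by
        refine hS.face _ hp.1 _ fun i hi => ?_
        by_contra h0
        have h0' : x i ≠ 0 := h0
        have h2 : (if x i = 0 then z else x i) = 0 := hi
        rw [if_neg h0'] at h2
        exact h0' h2)
      (fun z hz y' hy' => by
        rw [Complex.ofReal_re]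
        refine hzero _ y' (fun i => ?_) hy' r
        change (if x i = 0 then z else x i) ≠ 0
        split_ifs with hi
        · intro h0
          rw [h0, norm_zero] at hz
          exact zero_ne_one hz
        · exact hi)
      (y := y) (fun j => by
        rw [hf0]
        exact hp.2 j)
    rw [hf0, Complex.ofReal_re] at h1
    exact h1
  have h1 := hmain (Real.log (w (v, x, y)) - 1)
  rw [Real.exp_sub, Real.exp_log hpos] at h1
  have h2 : w (v, x, y) / Real.exp 1 < w (v, x, y) := by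
    rw [div_lt_iff₀ (Real.exp_pos _)]
    have h3 : (1 : ℝ) < Real.exp 1 := by
      have := Real.add_one_lt_exp (one_ne_zero (α := ℝ))
      linarith
    nlinarith
  linarith

/-- A metric with semipositive curvature gives a real exponent. -/
theorem real_of_metric (hΓ : IsTorusQuotient Γ) (hS : IsSmoothFan u S)
    {Hc : ι → V → V → ℂ} (hc : ∀ i, IsChernForm (c i) (Hc i)) (hm : ∀ j, 1 ≤ m j)
    (hF : ∀ j, IsSection u c (fun i => m j * e j i) (fun γ v => (A j).e γ v ^ m j) (F j))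
    {H : V → V → ℂ} (hH : IsChernForm L H) (hw : IsCoverMetric u S c e A m F D L w) :
    ∃ q : Fin n → ℝ, (∀ i, 0 ≤ (D i : ℝ) + ∑ l, q l * (u i l : ℝ)) ∧
      ∀ v : V, ∑ i, ((D i : ℝ) + ∑ l, q l * (u i l : ℝ)) * (Hc i v v).re ≤ (H v v).re := by
  have hFd := fun j => diff_eval hS (hF j)
  obtain ⟨hHh, G, hG, hGe⟩ := hH
  choose hHc Gc hGc hGce using hc
  have hπ : 0 < Real.pi / 2 := by positivity
  have hcont : ∀ {H : V → V → ℂ} {G : V → ℂ}, IsHermitian H → Differentiable ℂ G →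
      Continuous (lw H G) := fun {H G} hH hG =>
    ((diag_continuous hH).const_mul (Real.pi / 2)).add (Complex.continuous_re.comp hG.continuous)
  obtain ⟨q, hq1, hq2⟩ := real_exponent hS (fun i => (D i : ℝ))
    (W := V) (fun z i => Real.pi / 2 * (Hc i z z).re) (fun z => Real.pi / 2 * (H z z).re)
    (fun a z ha => by
      refine ⟨((Real.sqrt a : ℝ) : ℂ) • z, ?_, ?_⟩
      · funext i
        rw [h_diag_smul (hHc i), Complex.norm_real, Real.norm_eq_abs, sq_abs, Real.sq_sqrt ha,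
          Pi.smul_apply, smul_eq_mul]
        ring
      · rw [h_diag_smul hHh, Complex.norm_real, Real.norm_eq_abs, sq_abs, Real.sq_sqrt ha]
        ring)
    (Bd m F (fun i => lw (Hc i) (Gc i)) (lw H G) w)
    (fun t s s' h hs v x y hx hy => (h v x y hx hy).trans (Real.exp_le_exp.2 (by linarith)))
    (fun t t' s h ht => bd_mono hS hm hFd hw.psh h ht)
    (fun t s μ hμ h => bd_torus hS hF hw h hμ)
    (fun t s z h => bd_horiz hS hm hFd hw.psh hHc hGc hHh hG z h)
    (fun t => bd_exists hΓ hS hm hF hw (fun i => hcont (hHc i) (hGc i))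
      (fun i => norm_e (hGce i)) (hcont hHh hG) (norm_e hGe) t)
    (exists_not_bd hS hm hFd hw _ _)
  refine ⟨q, hq1, fun v => ?_⟩
  have h1 := hq2 v
  have h2 : ∑ i, ((D i : ℝ) + ∑ l, q l * (u i l : ℝ)) * (Real.pi / 2 * (Hc i v v).re)
      = Real.pi / 2 * ∑ i, ((D i : ℝ) + ∑ l, q l * (u i l : ℝ)) * (Hc i v v).re := by
    rw [Finset.mul_sum]
    exact Finset.sum_congr rfl fun i _ => by ring
  rw [h2] at h1
  exact le_of_mul_le_mul_left h1 hπ

/-- Real exponents of adjoint line bundles give sections. -/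
theorem eff_of_real (hΓ : IsTorusQuotient Γ) {ρ : V → ℂ}
    (hρ : IsRamification Γ ρ) (hS : IsSmoothFan u S)
    {Hc : ι → V → V → ℂ} (hc : ∀ i, IsChernForm (c i) (Hc i)) {m : ℕ} {d : ι → ℤ}
    {F : V → MvPolynomial ι ℂ} {L : LineBundle Γ} {H : V → V → ℂ} (hL : IsChernForm L H)
    (hF : Q47.TB.IsLogPluricanonical u c m ρ d F L) (hw : ToricLC S m F) {q : Fin n → ℝ}
    (hq : ∀ i, 0 ≤ (((d i - m : ℤ)) : ℝ) + ∑ l, q l * (u i l : ℝ))
    (hn : ∀ v : V, ∑ i, (((d i - m : ℤ) : ℝ) + ∑ l, q l * (u i l : ℝ)) * (Hc i v v).re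
      ≤ (H v v).re) : QEffective u c (fun i => d i - m) L := by
  classical
  have := finite_Lin hΓ
  obtain ⟨x, y, nn, N, hnn, hN, htest, hcrit⟩ := exists_crit hΓ hρ hS hc hL hF hw
  obtain ⟨β, hβ⟩ : ∃ β : ι → ℝ, β = fun i => ((d i - m : ℤ) : ℝ) + ∑ l, q l * (u i l : ℝ) :=
    ⟨_, rfl⟩
  obtain ⟨k, β', hk, hβ', hg⟩ := rational_point (u := u) (fun i => d i - m) nn N
    ⟨q, hq, fun g => by
      have hherm : IsHermitian (rform H (fun j : Fin 0 => fun _ _ => 0) Hc (fun _ => 0) β) :=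
        herm_rform hL.1 (fun j => j.elim0) (fun i => (hc i).1) _ _
      have hnef : IsNefForm (rform H (fun j : Fin 0 => fun _ _ => 0) Hc (fun _ => 0) β) := by
        intro v
        rw [rform_re]
        simp only [Finset.univ_eq_empty, Finset.sum_empty, add_zero]
        have := hn v
        rw [hβ]
        linarith
      have h1 := htest _ hherm hnef g
      rw [rform_im, hnn] at h1
      simp only [Finset.univ_eq_empty, Finset.sum_empty, add_zero, hN] at h1
      rw [hβ] at h1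
      exact h1⟩
  exact eff_of_nef hΓ hρ hS hc hL hF hw hk hβ' (hcrit k β' hk hβ' hg)

/-- The canonical bundle of the Kummer cover: singular metrics give sections. -/
theorem kummer_eff_of_metric (hΓ : IsTorusQuotient Γ) {ρ : V → ℂ} (hρ : IsRamification Γ ρ)
    (hS : IsSmoothFan u S) {Hc : ι → V → V → ℂ} (hc : ∀ i, IsChernForm (c i) (Hc i))
    (hm : ∀ j, 1 ≤ m j)
    (hF : ∀ j, IsSection u c (fun i => m j * e j i) (fun γ v => (A j).e γ v ^ m j) (F j))
    (hnc : GenNormalCrossing S F) {p : ℕ} {L : LineBundle Γ}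
    (hL : IsCoverCanonical c A m p ρ L) {H : V → V → ℂ} (hH : IsChernForm L H)
    (h : CoverCurrentPsef u S c e A m F (canClass e m p) L) :
    CoverEffective u S c e A m F (canClass e m p) L := by
  classical
  obtain ⟨w, hw⟩ := h
  obtain ⟨q, hq1, hq2⟩ := real_of_metric hΓ hS hc hm hF hH hw
  have hT : (0 : ℝ) < deg' m := by exact_mod_cast deg_pos hm
  have hcl : ∀ i, ((totClass e m p i - ((p * deg' m : ℕ) : ℤ) : ℤ) : ℝ)
      + ∑ l, ((deg' m : ℝ) * q l) * (u i l : ℝ)
      = deg' m * ((canClass e m p i : ℝ) + ∑ l, q l * (u i l : ℝ)) := by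
    intro i
    rw [totClass_eq hm, mul_add, Finset.mul_sum]
    push_cast
    congr 1
    exact Finset.sum_congr rfl fun l _ => by ring
  obtain ⟨q', hq', G, hG, v, hv⟩ := eff_of_real hΓ hρ hS hc (chern_pow' hH (deg' m))
    (total_pair hF hL) (total_lc hS hF hnc p) (q := fun l => (deg' m : ℝ) * q l)
    (fun i => by
      rw [hcl i]
      exact mul_nonneg hT.le (hq1 i))
    (fun v => by
      simp only [hcl]
      rw [nat_re]
      have h1 : ∑ i, (deg' m : ℝ) * ((canClass e m p i : ℝ) + ∑ l, q l * (u i l : ℝ)) * (Hc i v v).re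
          = deg' m * ∑ i, ((canClass e m p i : ℝ) + ∑ l, q l * (u i l : ℝ)) * (Hc i v v).re := by
        rw [Finset.mul_sum]
        exact Finset.sum_congr rfl fun i _ => by ring
      rw [h1]
      exact mul_le_mul_of_nonneg_left (hq2 v) hT.le)
  refine ⟨q' * deg' m, Nat.mul_pos hq' (deg_pos hm), _, cover_of_section hm (isSection_congr hG
    (fun i => ?_) (fun γ v => ?_) fun v => rfl), pull_nonzero hS hm hv⟩
  · simp only [totClass_eq hm]
    push_cast
    ring
  · change (L.e γ v ^ deg' m) ^ q' = _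
    rw [← pow_mul, mul_comm]

end Pool.Agent.U976.TBd
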