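import Pool.Agent.U976.TBd.GA4
import Pool.Agent.U976.TBd.CU4

/-!
# Differences of a big multiple of an adjoint line bundle and an effective one

Let `δ = d - m` be the class of an adjoint line bundle on the toric bundle `Y`. If a real exponent in
the class of `δ` with nonnegative form is given then it is a positive combination of integral ones
(`rational_decomp`). A line bundle on `V / Γ` with nonnegative form whose character is torsion on the
invariant vectors of the kernel has globally generated powers (`gg_of_unit`).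
-/

set_option autoImplicit false

namespace Pool.Agent.U976.TBd

open Pool.Agent.W594.SYZ2 Pool.Agent.W594.SYZ2.TQ Pool.Agent.TH735.AQ Q47.MM Q47.TB Q47.EB
open MvPolynomial

section Poly

variable {ι : Type*} [Fintype ι] {n : ℕ}

/-- Real solutions are positive combinations of integral solutions. -/
theorem rational_decomp {u : ι → Fin n → ℤ} {J : Type*} [Finite J] (d : ι → ℤ) (nn : J → ℤ)
    (N : ι → J → ℤ) {q : Fin n → ℝ} (h1 : ∀ i, 0 ≤ (d i : ℝ) + ∑ l, q l * (u i l : ℝ))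
    (h2 : ∀ g, 0 ≤ (nn g : ℝ) - ∑ i, ((d i : ℝ) + ∑ l, q l * (u i l : ℝ)) * N i g) :
    ∃ (κ : Type) (_ : Fintype κ) (c : κ → ℝ) (k : κ → ℕ) (β : κ → ι → ℕ),
      (∀ x, 0 < c x) ∧ (∀ x, 1 ≤ k x) ∧ (∑ x, c x * k x = 1) ∧
      (∀ i, ∑ x, c x * β x i = (d i : ℝ) + ∑ l, q l * (u i l : ℝ)) ∧
      (∀ x, LinEquiv u (fun i => (β x i : ℤ)) (fun i => k x * d i)) ∧
      ∀ x g, 0 ≤ (k x : ℤ) * nn g - ∑ i, (β x i : ℤ) * N i g := by
  classical
  let rows : Unit ⊕ (ι ⊕ J) → Fin (n + 1) → ℤ :=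
    Sum.elim (fun _ => Fin.cons 1 0) (Sum.elim (fun i => Fin.cons (d i) (u i))
      (fun g => Fin.cons (nn g - ∑ i, d i * N i g) fun l => - ∑ i, u i l * N i g))
  have key : ∀ (t : ℝ) (p : Fin n → ℝ) (j : Unit ⊕ (ι ⊕ J)),
      ∑ i, (rows j i : ℝ) * (Fin.cons t p : Fin (n + 1) → ℝ) i =
        Sum.elim (fun _ => t) (Sum.elim (fun i => t * d i + ∑ l, p l * (u i l : ℝ))
          (fun g => t * nn g - ∑ i, (t * (d i : ℝ) + ∑ l, p l * (u i l : ℝ)) * N i g)) j := by
    rintro t p (j | i | g)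
    · rw [Fin.sum_univ_succ]
      simp [rows]
    · rw [Fin.sum_univ_succ]
      simp only [rows, Sum.elim_inr, Sum.elim_inl, Fin.cons_zero, Fin.cons_succ]
      rw [mul_comm]
      congr 1
      exact Finset.sum_congr rfl fun l _ => mul_comm _ _
    · rw [Fin.sum_univ_succ]
      simp only [rows, Sum.elim_inr, Fin.cons_zero, Fin.cons_succ]
      push_cast
      simp only [add_mul, Finset.sum_add_distrib, Finset.sum_mul, neg_mul, Finset.sum_neg_distrib]
      rw [Finset.sum_comm (s := Finset.univ) (t := Finset.univ)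
        (f := fun (l : Fin n) (i : ι) => (u i l : ℝ) * (N i g : ℝ) * p l)]
      have e1 : ∑ i, ∑ l, (u i l : ℝ) * (N i g : ℝ) * p l = ∑ i, ∑ l, p l * (u i l : ℝ) * N i g :=
        Finset.sum_congr rfl fun i _ => Finset.sum_congr rfl fun l _ => by ring
      have e2 : ∑ i, t * (d i : ℝ) * N i g = t * ∑ i, (d i : ℝ) * N i g := by
        rw [Finset.mul_sum]
        exact Finset.sum_congr rfl fun i _ => by ring
      rw [e1, e2]
      ring
  obtain ⟨κ, hκ, c, b, hc, hb, hbr⟩ := cone_decomp rows (Fin.cons 1 q) (by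
    intro j
    rw [key]
    rcases j with j | i | g
    · simp
    · simpa using h1 i
    · simpa using h2 g)
  have hbx : ∀ x j, ((∑ i, rows j i * b x i : ℤ) : ℝ) =
      Sum.elim (fun _ => (b x 0 : ℝ)) (Sum.elim
        (fun i => (b x 0 : ℝ) * d i + ∑ l, (b x (Fin.succ l) : ℝ) * (u i l : ℝ))
        (fun g => (b x 0 : ℝ) * nn g - ∑ i, ((b x 0 : ℝ) * (d i : ℝ) +
          ∑ l, (b x (Fin.succ l) : ℝ) * (u i l : ℝ)) * N i g)) j := by
    intro x j
    rw [← key]
    push_cast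
    refine Finset.sum_congr rfl fun i _ => ?_
    congr 1
    refine Fin.cases ?_ (fun i => ?_) i
    · simp
    · simp
  have h0 : ∀ x, 0 < b x 0 := by
    intro x
    have e1 := (hbr x (Sum.inl ())).2 (by rw [key]; simp)
    have e2 := hbx x (Sum.inl ())
    simp only [Sum.elim_inl] at e2
    have e3 : ∑ i, rows (Sum.inl ()) i * b x i = b x 0 := by exact_mod_cast e2
    rwa [e3] at e1
  have hpos : ∀ x i, 0 ≤ b x 0 * d i + ∑ l, b x (Fin.succ l) * u i l := by
    intro x i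
    have e1 := (hbr x (Sum.inr (Sum.inl i))).1
    have e2 := hbx x (Sum.inr (Sum.inl i))
    simp only [Sum.elim_inl, Sum.elim_inr] at e2
    have e3 : ∑ j, rows (Sum.inr (Sum.inl i)) j * b x j
        = b x 0 * d i + ∑ l, b x (Fin.succ l) * u i l := by exact_mod_cast e2
    rwa [e3] at e1
  have hk : ∀ x, (((b x 0).toNat : ℕ) : ℤ) = b x 0 := fun x => Int.toNat_of_nonneg (h0 x).le
  have hβ : ∀ x i, (((b x 0 * d i + ∑ l, b x (Fin.succ l) * u i l).toNat : ℕ) : ℤ)
      = b x 0 * d i + ∑ l, b x (Fin.succ l) * u i l := fun x i => Int.toNat_of_nonneg (hpos x i)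
  have hkr : ∀ x, (((b x 0).toNat : ℕ) : ℝ) = (b x 0 : ℝ) := fun x => by
    have := hk x
    exact_mod_cast congrArg (Int.cast : ℤ → ℝ) this
  have hβr : ∀ x i, (((b x 0 * d i + ∑ l, b x (Fin.succ l) * u i l).toNat : ℕ) : ℝ)
      = (b x 0 : ℝ) * d i + ∑ l, (b x (Fin.succ l) : ℝ) * (u i l : ℝ) := fun x i => by
    have := congrArg (Int.cast : ℤ → ℝ) (hβ x i)
    push_cast at this
    exact_mod_cast this
  have hb0 : ∑ x, c x * (b x 0 : ℝ) = 1 := by
    have := hb 0
    simpa using this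
  have hbs : ∀ l : Fin n, ∑ x, c x * (b x (Fin.succ l) : ℝ) = q l := by
    intro l
    have := hb (Fin.succ l)
    simpa using this
  refine ⟨κ, hκ, c, fun x => (b x 0).toNat,
    fun x i => (b x 0 * d i + ∑ l, b x (Fin.succ l) * u i l).toNat, hc, fun x => ?_, ?_,
    fun i => ?_, fun x => ⟨fun l => b x (Fin.succ l), fun i => ?_⟩, fun x g => ?_⟩
  · have := h0 x
    change 1 ≤ (b x 0).toNat
    omega
  · simp only [hkr]
    exact hb0
  · simp only [hβr, mul_add, Finset.sum_add_distrib]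
    congr 1
    · have e1 : (d i : ℝ) = (∑ x, c x * (b x 0 : ℝ)) * (d i : ℝ) := by rw [hb0, one_mul]
      have e2 : ∑ x, c x * ((b x 0 : ℝ) * (d i : ℝ)) = (∑ x, c x * (b x 0 : ℝ)) * (d i : ℝ) := by
        rw [Finset.sum_mul]
        exact Finset.sum_congr rfl fun x _ => by ring
      rw [e2, ← e1]
    · simp only [Finset.mul_sum]
      rw [Finset.sum_comm]
      refine Finset.sum_congr rfl fun l _ => ?_
      rw [← hbs l, Finset.sum_mul]
      exact Finset.sum_congr rfl fun x _ => by ring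
  · simp only
    rw [hβ x i, hk x]
  · have e1 := (hbr x (Sum.inr (Sum.inr g))).1
    have e2 := hbx x (Sum.inr (Sum.inr g))
    simp only [Sum.elim_inr] at e2
    have e3 : ∑ j, rows (Sum.inr (Sum.inr g)) j * b x j
        = b x 0 * nn g - ∑ i, (b x 0 * d i + ∑ l, b x (Fin.succ l) * u i l) * N i g := by
      exact_mod_cast e2
    rw [e3] at e1
    simp only [hβ x, hk x]
    exact e1

end Poly

variable {V : Type*} [NormedAddCommGroup V] [NormedSpace ℂ V] [FiniteDimensional ℂ V]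
  {Γ : Subgroup (V ≃ᵃ[ℂ] V)}

/-- A line bundle with nonnegative Chern form whose character is torsion on the invariant vectors of
the kernel of the form has a globally generated power. -/
theorem gg_of_unit (hΓ : IsTorusQuotient Γ) {M : LineBundle Γ} {Q : V → V → ℂ} {G : V → ℂ}
    (hQ : IsHermitian Q) (hpQ : IsPot M Q G) (hQn : IsNefForm Q) {K : ℕ} (hK : 1 ≤ K)
    (h : ∀ b ∈ latt Γ, b ∈ ker hQ → (∀ g ∈ Lin Γ, g b = b) → chi M G b ^ K = 1) :
    ∃ E : ℕ, 1 ≤ E ∧ GG (M.pow E) := by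
  classical
  have := finite_Lin hΓ
  have : Fintype (Lin Γ) := Fintype.ofFinite _
  have hG1 : 1 ≤ Nat.card (Lin Γ) := Nat.card_pos
  have hroot : ∀ b ∈ latt Γ, b ∈ ker hQ → chi M G b ^ (Nat.card (Lin Γ) * K) = 1 := by
    intro b hb hbK
    obtain ⟨h1, h2, h3⟩ := chi_sum hΓ hQ hpQ hb hbK
    rw [pow_mul, ← h3]
    refine h _ h1 h2 fun g hg => ?_
    rw [map_sum]
    refine Fintype.sum_equiv (Equiv.mulLeft (⟨g, hg⟩ : Lin Γ)) _ _ ?_
    intro g'
    rfl
  have hGK : 1 ≤ Nat.card (Lin Γ) * K := Nat.mul_pos hG1 hK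
  refine ⟨(Nat.card (Lin Γ) * K) * expo (Module.finrank ℂ V), Nat.mul_pos hGK (expo_pos _), ?_⟩
  rw [← pow_pow']
  refine gg_of_root hΓ (herm_smul hQ (Nat.card (Lin Γ) * K)) (pot_pow hpQ _) ?_ (N := 1) le_rfl
    (one_dvd _) ?_
  · intro x
    rw [nat_re]
    exact mul_nonneg (Nat.cast_nonneg _) (hQn x)
  · intro b hb hbK
    rw [pow_one, chi_pow']
    refine hroot b hb fun y => ?_
    have h1 : ((Nat.card (Lin Γ) * K : ℕ) : ℂ) * Q b y = 0 := hbK y
    have h2 : ((Nat.card (Lin Γ) * K : ℕ) : ℂ) ≠ 0 := by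
      have : Nat.card (Lin Γ) * K ≠ 0 := by omega
      exact_mod_cast this
    exact (mul_eq_zero.1 h1).resolve_left h2

/-- The invariant vectors of the kernel of a hermitian form. -/
def invKer (Γ : Subgroup (V ≃ᵃ[ℂ] V)) {Q : V → V → ℂ} (hQ : IsHermitian Q) : Submodule ℂ V where
  carrier := {x | x ∈ ker hQ ∧ ∀ g ∈ Lin Γ, g x = x}
  zero_mem' := ⟨(ker hQ).zero_mem, fun g _ => map_zero g⟩
  add_mem' := fun {a b} ha hb => ⟨(ker hQ).add_mem ha.1 hb.1, fun g hg => by
    rw [map_add, ha.2 g hg, hb.2 g hg]⟩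
  smul_mem' := fun a x hx => ⟨(ker hQ).smul_mem a hx.1, fun g hg => by
    rw [map_smul, hx.2 g hg]⟩

end Pool.Agent.U976.TBd
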