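import Pool.Agent.U976.TBd.CP1

/-!
# Differences of a big multiple of an adjoint line bundle and an effective one
-/

set_option autoImplicit false

namespace Pool.Agent.U976.TBd

open Pool.Agent.W594.SYZ2 Pool.Agent.W594.SYZ2.TQ Pool.Agent.TH735.AQ Q47.MM Q47.TB Q47.EB
open MvPolynomial

variable {V : Type*} [NormedAddCommGroup V] [NormedSpace ℂ V]
  {Γ : Subgroup (V ≃ᵃ[ℂ] V)} {ι : Type*} [Fintype ι] {n : ℕ}

/-- The tests at a real exponent with nonnegative form. -/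
theorem tests_of_real {J : Type*} {Hc : ι → V → V → ℂ} {H : V → V → ℂ} (hH : IsHermitian H)
    (hc : ∀ i, IsHermitian (Hc i)) {x y : J → V} {nn : J → ℤ} {N : ι → J → ℤ}
    (hnn : ∀ g, (H (x g) (y g)).im = nn g) (hN : ∀ i g, (Hc i (x g) (y g)).im = N i g)
    (htest : ∀ Q : V → V → ℂ, IsHermitian Q → IsNefForm Q → ∀ g, 0 ≤ (Q (x g) (y g)).im)
    {β : ι → ℝ} (hn : ∀ v : V, ∑ i, β i * (Hc i v v).re ≤ (H v v).re) (g : J) :
    0 ≤ (nn g : ℝ) - ∑ i, β i * N i g := by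
  have hherm : IsHermitian (rform H (fun _ : Fin 0 => fun _ _ => 0) Hc (fun _ => 0) β) :=
    herm_rform hH (fun j => j.elim0) hc _ _
  have hnef : IsNefForm (rform H (fun _ : Fin 0 => fun _ _ => 0) Hc (fun _ => 0) β) := by
    intro v
    rw [rform_re]
    simp only [Finset.univ_eq_empty, Finset.sum_empty, add_zero]
    have := hn v
    linarith
  have h1 := htest _ hherm hnef g
  rw [rform_im, hnn] at h1
  simp only [Finset.univ_eq_empty, Finset.sum_empty, add_zero, hN] at h1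
  exact h1

variable [FiniteDimensional ℂ V]

/-- Real exponents of adjoint line bundles with nonnegative forms are dominated by integral ones. -/
theorem dominate {u : ι → Fin n → ℤ} {S : Set (Set ι)} (hΓ : IsTorusQuotient Γ) {ρ : V → ℂ}
    (hρ : IsRamification Γ ρ) (hS : IsSmoothFan u S) {c : ι → LineBundle Γ}
    {Hc : ι → V → V → ℂ} (hc : ∀ i, IsChernForm (c i) (Hc i)) {m : ℕ} {d : ι → ℤ}
    {F : V → MvPolynomial ι ℂ} {L : LineBundle Γ} {H : V → V → ℂ} (hL : IsChernForm L H)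
    (hF : Q47.TB.IsLogPluricanonical u c m ρ d F L) (hw : ToricLC S m F) {q : Fin n → ℝ}
    (hq : ∀ i, 0 ≤ ((d i - m : ℤ) : ℝ) + ∑ l, q l * (u i l : ℝ))
    (hn : ∀ v : V, ∑ i, (((d i - m : ℤ) : ℝ) + ∑ l, q l * (u i l : ℝ)) * (Hc i v v).re
      ≤ (H v v).re) :
    ∃ (k : ℕ) (β : ι → ℕ) (C : ℝ), 1 ≤ k ∧ 0 ≤ C ∧
      LinEquiv u (fun i => (β i : ℤ)) (fun i => k * (d i - m)) ∧ IsNefForm (frm Hc H k β) ∧
      (∀ i, ((d i - m : ℤ) : ℝ) + ∑ l, q l * (u i l : ℝ) ≤ C * β i) ∧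
      ∀ v : V, (H v v).re - ∑ i, (((d i - m : ℤ) : ℝ) + ∑ l, q l * (u i l : ℝ)) * (Hc i v v).re
        ≤ C * (frm Hc H k β v v).re := by
  classical
  have := finite_Lin hΓ
  obtain ⟨x, y, nn, N, hnn, hN, htest, hcrit⟩ := exists_crit hΓ hρ hS hc hL hF hw
  obtain ⟨κ, hκ, cc, k, β, hcc, hk, hsum, hβq, hβ, hβg⟩ := rational_decomp (u := u)
    (fun i => d i - m) nn N hq (fun g => tests_of_real hL.1 (fun i => (hc i).1) hnn hN htest hn g)
  have hne : Nonempty κ := by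
    by_contra hcon
    rw [not_nonempty_iff] at hcon
    rw [Finset.univ_eq_empty, Finset.sum_empty] at hsum
    exact zero_ne_one hsum
  have hnef : ∀ x, IsNefForm (frm Hc H (k x) (β x)) := fun x =>
    hcrit (k x) (β x) (hk x) (hβ x) (hβg x)
  have hC : ∀ x, cc x ≤ ∑ y, cc y := fun x =>
    Finset.single_le_sum (f := cc) (fun y _ => (hcc y).le) (Finset.mem_univ x)
  have hfrm : ∀ v w, frm Hc H (∑ x, k x) (fun i => ∑ x, β x i) v w
      = ∑ x, frm Hc H (k x) (β x) v w := by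
    intro v w
    simp only [frm]
    push_cast
    rw [Finset.sum_sub_distrib, Finset.sum_mul]
    congr 1
    rw [Finset.sum_comm]
    exact Finset.sum_congr rfl fun i _ => by rw [Finset.sum_mul]
  refine ⟨∑ x, k x, fun i => ∑ x, β x i, ∑ x, cc x, ?_, Finset.sum_nonneg fun x _ => (hcc x).le,
    ?_, ?_, fun i => ?_, fun v => ?_⟩
  · obtain ⟨x⟩ := hne
    exact (hk x).trans (Finset.single_le_sum (f := k) (fun y _ => Nat.zero_le _)
      (Finset.mem_univ x))
  · choose q' hq' using hβ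
    refine ⟨fun l => ∑ x, q' x l, fun i => ?_⟩
    simp only
    push_cast
    have h1 : ∀ x, (β x i : ℤ) = k x * (d i - m) + ∑ l, q' x l * u i l := fun x => hq' x i
    simp only [h1, Finset.sum_add_distrib, Finset.sum_mul]
    congr 1
    exact Finset.sum_comm
  · intro v
    rw [hfrm, Complex.re_sum]
    exact Finset.sum_nonneg fun x _ => hnef x v
  · rw [← hβq i]
    push_cast
    rw [Finset.mul_sum]
    exact Finset.sum_le_sum fun x _ => mul_le_mul_of_nonneg_right (hC x) (Nat.cast_nonneg _)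
  · have h1 : (H v v).re - ∑ i, (((d i - m : ℤ) : ℝ) + ∑ l, q l * (u i l : ℝ)) * (Hc i v v).re
        = ∑ x, cc x * (frm Hc H (k x) (β x) v v).re := by
      simp only [← hβq, frm_re, mul_sub, Finset.sum_sub_distrib]
      congr 1
      · have e1 : ∑ x, cc x * ((k x : ℝ) * (H v v).re) = (∑ x, cc x * (k x : ℝ)) * (H v v).re := by
          rw [Finset.sum_mul]
          exact Finset.sum_congr rfl fun x _ => by ring
        rw [e1, hsum, one_mul]
      · simp only [Finset.sum_mul, Finset.mul_sum]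
        rw [Finset.sum_comm]
        exact Finset.sum_congr rfl fun x _ => Finset.sum_congr rfl fun i _ => by ring
    rw [h1, hfrm, Complex.re_sum, Finset.mul_sum]
    exact Finset.sum_le_sum fun x _ => mul_le_mul_of_nonneg_right (hC x) (hnef x v)

omit [FiniteDimensional ℂ V] in
/-- The coefficient functions of a section. -/
theorem coef_pair {u : ι → Fin n → ℤ} {c : ι → LineBundle Γ} {D : ι → ℤ} {M : LineBundle Γ}
    {G : V → MvPolynomial ι ℂ} (hG : IsSection u c D M.e G) (α : ι →₀ ℕ) (ρ : V → ℂ) :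
    Pool.Agent.TH735.AQ.IsLogPluricanonical (twz M c fun i => -(α i : ℤ)) 0 ρ
      fun v => coeff α (G v) := by
  intro γ v
  have h1 := (coef_section hG α).eq γ v
  rw [tw_eq_twz] at h1
  simp only [pow_zero, mul_one]
  exact h1

/-- Let `K` be the class of an adjoint line bundle `O_Y(d - m; L)` on the toric bundle `Y`, and
`t K = A + B` numerically, where `A = O_Y(a; La)` has a nonzero section and the class `B` has a real
exponent with nonnegative form. Then some `N K - k A`, `k ≥ 1`, has a nonzero section. -/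
theorem exists_diff {u : ι → Fin n → ℤ} {S : Set (Set ι)} (hΓ : IsTorusQuotient Γ) {ρ : V → ℂ}
    (hρ : IsRamification Γ ρ) (hS : IsSmoothFan u S) {c : ι → LineBundle Γ}
    {Hc : ι → V → V → ℂ} (hc : ∀ i, IsChernForm (c i) (Hc i)) {m : ℕ} {d : ι → ℤ}
    {F : V → MvPolynomial ι ℂ} {L : LineBundle Γ} {H : V → V → ℂ} (hL : IsChernForm L H)
    (hF : Q47.TB.IsLogPluricanonical u c m ρ d F L) (hw : ToricLC S m F)
    {a : ι → ℤ} {La : LineBundle Γ} {Ha : V → V → ℂ} (hLa : IsChernForm La Ha)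
    {G : V → MvPolynomial ι ℂ} (hG : IsSection u c a La.e G) (hG0 : ∃ v, G v ≠ 0)
    {b : ι → ℤ} {Hb : V → V → ℂ} {qB : Fin n → ℝ}
    (hb1 : ∀ i, 0 ≤ (b i : ℝ) + ∑ l, qB l * (u i l : ℝ))
    (hb2 : ∀ v : V, ∑ i, ((b i : ℝ) + ∑ l, qB l * (u i l : ℝ)) * (Hc i v v).re ≤ (Hb v v).re)
    {t : ℕ} (ht : 1 ≤ t) (hab : LinEquiv u (fun i => a i + b i) (fun i => t * (d i - m)))
    (hf : ∀ v : V, (Ha v v).re + (Hb v v).re = t * (H v v).re) :
    ∃ N k : ℕ, 1 ≤ N ∧ 1 ≤ k ∧ ∃ T : V → MvPolynomial ι ℂ,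
      IsSection u c (fun i => N * (d i - m) - k * a i)
        (fun γ v => L.e γ v ^ N * (La.e γ v ^ k)⁻¹) T ∧ ∃ v, T v ≠ 0 := by
  classical
  -- the exponent of the section
  obtain ⟨v₀, hv₀⟩ := hG0
  obtain ⟨α, hα⟩ : ∃ α, coeff α (G v₀) ≠ 0 := by
    by_contra hcon
    push Not at hcon
    exact hv₀ (MvPolynomial.ext _ _ fun α => by rw [hcon α, coeff_zero])
  obtain ⟨qA, hqA⟩ := hG.deg v₀ α (mem_support_iff.2 hα)
  have hqA' : ∀ i, (α i : ℤ) = a i + ∑ l, qA l * u i l := hqA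
  have hQA := nef_of_coef hΓ hc hLa hG ⟨v₀, hα⟩
  have hQA' : ∀ v, ∑ i, (α i : ℝ) * (Hc i v v).re ≤ (Ha v v).re := by
    intro v
    have h1 := hQA v
    rw [Complex.sub_re, Complex.re_sum] at h1
    simp only [nat_re] at h1
    linarith
  obtain ⟨r, hr⟩ := hab
  have hr' : ∀ i, a i + b i = t * (d i - m) + ∑ l, r l * u i l := hr
  have ht0 : (0 : ℝ) < t := by exact_mod_cast ht
  -- the real exponent
  obtain ⟨q, hqd⟩ : ∃ q : Fin n → ℝ, ∀ l, q l = ((r l : ℝ) + qA l + qB l) / t := ⟨_, fun l => rfl⟩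
  have hval : ∀ i, ((d i - m : ℤ) : ℝ) + ∑ l, q l * (u i l : ℝ)
      = ((α i : ℝ) + ((b i : ℝ) + ∑ l, qB l * (u i l : ℝ))) / t := by
    intro i
    have e1 := congrArg (Int.cast : ℤ → ℝ) (hqA' i)
    have e2 := congrArg (Int.cast : ℤ → ℝ) (hr' i)
    push_cast at e1 e2
    have e3 : ∑ l, q l * (u i l : ℝ) = (∑ l, (r l : ℝ) * u i l + ∑ l, (qA l : ℝ) * u i l
        + ∑ l, qB l * (u i l : ℝ)) / t := by
      rw [← Finset.sum_add_distrib, ← Finset.sum_add_distrib, Finset.sum_div]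
      exact Finset.sum_congr rfl fun l _ => by rw [hqd]; ring
    rw [e3, eq_div_iff ht0.ne', add_mul, div_mul_cancel₀ _ ht0.ne', e1]
    push_cast
    linarith
  have hq : ∀ i, 0 ≤ ((d i - m : ℤ) : ℝ) + ∑ l, q l * (u i l : ℝ) := by
    intro i
    rw [hval]
    exact div_nonneg (add_nonneg (Nat.cast_nonneg _) (hb1 i)) ht0.le
  have hsplit : ∀ v : V, ∑ i, (((d i - m : ℤ) : ℝ) + ∑ l, q l * (u i l : ℝ)) * (Hc i v v).re
      = (∑ i, (α i : ℝ) * (Hc i v v).re
        + ∑ i, ((b i : ℝ) + ∑ l, qB l * (u i l : ℝ)) * (Hc i v v).re) / t := by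
    intro v
    rw [← Finset.sum_add_distrib, Finset.sum_div]
    exact Finset.sum_congr rfl fun i _ => by rw [hval]; ring
  have hn : ∀ v : V, ∑ i, (((d i - m : ℤ) : ℝ) + ∑ l, q l * (u i l : ℝ)) * (Hc i v v).re
      ≤ (H v v).re := by
    intro v
    rw [hsplit, div_le_iff₀ ht0]
    have := hf v
    have := hQA' v
    have := hb2 v
    linarith
  obtain ⟨k0, β, C, hk0, hC, hβ, hnef, hC1, hC2⟩ := dominate hΓ hρ hS hc hL hF hw hq hn
  obtain ⟨R, hR⟩ := exists_nat_ge (C * t)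
  obtain ⟨R', hR'⟩ : ∃ R', R' = R + 1 := ⟨_, rfl⟩
  have hRR : C * t ≤ R' := by
    rw [hR']
    push_cast
    linarith
  have hR0 : (0 : ℝ) < R' := by
    rw [hR']
    push_cast
    positivity
  -- comparison of the exponents and the forms
  have hle : ∀ i, α i ≤ R' * β i := by
    intro i
    have h1 := hC1 i
    rw [hval, div_le_iff₀ ht0] at h1
    have h2 : C * β i * t ≤ R' * β i := by
      calc C * β i * t = C * t * β i := by ring
        _ ≤ _ := mul_le_mul_of_nonneg_right hRR (Nat.cast_nonneg _)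
    have h3 := hb1 i
    have h4 : (α i : ℝ) ≤ R' * β i := by linarith
    exact_mod_cast h4
  have hform : ∀ v : V, (Ha v v).re - ∑ i, (α i : ℝ) * (Hc i v v).re
      ≤ R' * (frm Hc H k0 β v v).re := by
    intro v
    have h1 := hC2 v
    rw [hsplit] at h1
    have h2 := hf v
    have h3 := hb2 v
    have h4 : C * (frm Hc H k0 β v v).re * t ≤ R' * (frm Hc H k0 β v v).re := by
      calc C * (frm Hc H k0 β v v).re * t = C * t * (frm Hc H k0 β v v).re := by ring
        _ ≤ _ := mul_le_mul_of_nonneg_right hRR (hnef v)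
    have h5 := mul_le_mul_of_nonneg_right h1 ht0.le
    rw [sub_mul, div_mul_cancel₀ _ ht0.ne'] at h5
    nlinarith
  -- the line bundle
  obtain ⟨N, hN⟩ : ∃ N, N = 2 * R' * k0 := ⟨_, rfl⟩
  obtain ⟨γ, hγ⟩ : ∃ γ : ι → ℕ, ∀ i, γ i = 2 * R' * β i - α i := ⟨_, fun i => rfl⟩
  have hγ' : ∀ i, (γ i : ℤ) = 2 * R' * β i - α i := by
    intro i
    have h1 := hle i
    have h2 : α i ≤ 2 * R' * β i := by
      calc α i ≤ R' * β i := h1
        _ ≤ 2 * R' * β i := by
          rw [mul_assoc]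
          exact Nat.le_mul_of_pos_left _ two_pos
    rw [hγ, Nat.cast_sub h2]
    push_cast
    ring
  obtain ⟨hHL, FL, hFL, hFLe⟩ := hL
  obtain ⟨hHa, Fa, hFa, hFae⟩ := hLa
  choose hHc Fc hFc hFce using hc
  have hpL : IsPot L H FL := ⟨hFL, hFLe⟩
  have hpa : IsPot La Ha Fa := ⟨hFa, hFae⟩
  have hpc : ∀ i, IsPot (c i) (Hc i) (Fc i) := fun i => ⟨hFc i, hFce i⟩
  obtain ⟨LN, hLN⟩ : ∃ LN, LN = twz (L.pow N) (fun _ : Unit => La) (fun _ => -1) := ⟨_, rfl⟩
  obtain ⟨HN, hHN⟩ : ∃ HN, HN = zf (fun _ : Unit => Ha) (fun v w => (N : ℂ) * H v w)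
    (fun _ => -1) := ⟨_, rfl⟩
  obtain ⟨FN, hFN⟩ : ∃ FN, FN = zp (fun _ : Unit => Fa) (fun v => (N : ℂ) * FL v)
    (fun _ => -1) := ⟨_, rfl⟩
  have hhN : IsHermitian HN := by
    rw [hHN]
    exact herm_zf (herm_smul hHL N) (fun _ => hHa) _
  have hpN : IsPot LN HN FN := by
    rw [hLN, hHN, hFN]
    exact pot_twz (pot_pow hpL N) (fun _ => hpa) _
  obtain ⟨z, hz⟩ : ∃ z : ι → ℤ, z = fun i => -(γ i : ℤ) := ⟨_, rfl⟩
  have hQ : IsHermitian (zf Hc HN z) := herm_zf hhN hHc z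
  have hpQ := pot_twz hpN hpc z
  have hre : ∀ v, (zf Hc HN z v v).re = 2 * R' * (frm Hc H k0 β v v).re
      - ((Ha v v).re - ∑ i, (α i : ℝ) * (Hc i v v).re) := by
    intro v
    have e1 : ∑ i, (z i : ℝ) * (Hc i v v).re
        = ∑ i, (α i : ℝ) * (Hc i v v).re - 2 * R' * ∑ i, (β i : ℝ) * (Hc i v v).re := by
      rw [Finset.mul_sum, ← Finset.sum_sub_distrib]
      refine Finset.sum_congr rfl fun i _ => ?_
      have e2 := congrArg (Int.cast : ℤ → ℝ) (hγ' i)
      push_cast at e2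
      rw [hz]
      push_cast
      rw [e2]
      ring
    rw [zf_re, hHN, zf_re, e1, frm_re, nat_re, hN]
    simp only [Finset.univ_unique, Finset.sum_singleton]
    push_cast
    ring
  have hQn : IsNefForm (zf Hc HN z) := by
    intro v
    rw [hre]
    have h1 := hform v
    have h2 := mul_nonneg hR0.le (hnef v)
    linarith
  have hker : ∀ x ∈ ker hQ, (frm Hc H k0 β x x).re = 0 ∧
      (Ha x x).re - ∑ i, (α i : ℝ) * (Hc i x x).re = 0 := by
    intro x hx
    have h0 : (zf Hc HN z x x).re = 0 := by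
      have h1 : zf Hc HN z x x = 0 := hx x
      rw [h1, Complex.zero_re]
    rw [hre] at h0
    have h1 := hform x
    have h2 := mul_nonneg hR0.le (hnef x)
    have h3 := hQA' x
    have h4 : (R' : ℝ) * (frm Hc H k0 β x x).re = 0 := by linarith
    exact ⟨(mul_eq_zero.1 h4).resolve_left hR0.ne', by linarith⟩
  obtain ⟨K, hK, P, hP, hP0, hPl⟩ := base_pair hS hF hw hk0 hβ
  have hPe : Q47.TB.tw (L.pow k0) c K β = (twz (L.pow k0) c fun i => -(β i : ℤ)).pow K := by
    refine line_ext fun g v => ?_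
    change (L.pow k0).e g v ^ K * (∏ i, (c i).e g v ^ (K * β i))⁻¹
      = ((L.pow k0).e g v * ∏ i, (c i).e g v ^ (-(β i : ℤ))) ^ K
    rw [mul_pow, ← Finset.prod_pow, ← Finset.prod_inv_distrib]
    congr 1
    refine Finset.prod_congr rfl fun i _ => ?_
    rw [zpow_neg, zpow_natCast, inv_pow, ← pow_mul, mul_comm]
  rw [hPe] at hPl
  have hfrmz : ∀ v w, zf Hc (fun v w => (k0 : ℂ) * H v w) (fun i => -(β i : ℤ)) v w
      = frm Hc H k0 β v w := by
    intro v w
    rw [zf, frm, sub_eq_add_neg, ← Finset.sum_neg_distrib]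
    congr 1
    exact Finset.sum_congr rfl fun i _ => by push_cast; ring
  have hhβ : IsHermitian (zf Hc (fun v w => (k0 : ℂ) * H v w) fun i => -(β i : ℤ)) :=
    herm_zf (herm_smul hHL k0) hHc _
  have hnβ : IsNefForm (zf Hc (fun v w => (k0 : ℂ) * H v w) fun i => -(β i : ℤ)) := by
    intro v
    rw [hfrmz]
    exact hnef v
  have hhα : IsHermitian (zf Hc Ha fun i => -(α i : ℤ)) := herm_zf hHa hHc _
  have hreα : ∀ v, (zf Hc Ha (fun i => -(α i : ℤ)) v v).re
      = (Ha v v).re - ∑ i, (α i : ℝ) * (Hc i v v).re := by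
    intro v
    rw [zf_re, sub_eq_add_neg, ← Finset.sum_neg_distrib]
    congr 1
    exact Finset.sum_congr rfl fun i _ => by push_cast; ring
  have hnα : IsNefForm (zf Hc Ha fun i => -(α i : ℤ)) := by
    intro v
    rw [hreα]
    have := hQA' v
    linarith
  obtain ⟨E, hE, hgg⟩ := gg_of_unit hΓ hQ hpQ hQn hK (by
    intro x hx hxK hxG
    have hU : x ∈ invKer Γ hQ := ⟨hxK, hxG⟩
    have hspan : ∀ y ∈ invKer Γ hQ, y ∈ Submodule.span ℝ {b : V | b ∈ latt Γ ∧ b ∈ invKer Γ hQ} :=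
      fun y hy => span_inv hΓ hQ hpQ hQn hy.1 hy.2
    have h1 := chi_one hΓ hρ hP hP0 hPl (herm_smul hhβ K)
      (pot_pow (pot_twz (pot_pow hpL k0) hpc fun i => -(β i : ℤ)) K) (invKer Γ hQ) hspan
      (fun y hy g hg _ => hy.2 g hg) (fun y hy w => by
        have h2 : zf Hc (fun v w => (k0 : ℂ) * H v w) (fun i => -(β i : ℤ)) y w = 0 :=
          h_isotropic hhβ hnβ y (by rw [hfrmz]; exact (hker y hy.1).1) w
        simp only [h2, mul_zero]) hx hU
    rw [chi_pow', chi_twz, chi_pow'] at h1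
    have h3 := chi_one hΓ hρ (hG.holo α) ⟨v₀, hα⟩ (coef_pair hG α ρ) hhα
      (pot_twz hpa hpc fun i => -(α i : ℤ)) (invKer Γ hQ) hspan
      (fun y hy g hg _ => hy.2 g hg) (fun y hy w =>
        h_isotropic hhα hnα y (by rw [hreα]; exact (hker y hy.1).2) w) hx hU
    rw [chi_twz] at h3
    rw [chi_twz, hLN, hFN, chi_twz, chi_pow']
    simp only [Finset.univ_unique, Finset.prod_singleton]
    have hne : ∀ i, chi (c i) (Fc i) x ≠ 0 := fun i => chi_ne_zero _ _ _
    have h4 : ∏ i, chi (c i) (Fc i) x ^ z i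
        = (∏ i, chi (c i) (Fc i) x ^ (-(β i : ℤ))) ^ (2 * R')
          * (∏ i, chi (c i) (Fc i) x ^ (-(α i : ℤ)))⁻¹ := by
      rw [← Finset.prod_pow, ← Finset.prod_inv_distrib, ← Finset.prod_mul_distrib]
      refine Finset.prod_congr rfl fun i _ => ?_
      rw [← zpow_natCast, ← zpow_mul, ← zpow_neg, ← zpow_add₀ (hne i)]
      congr 1
      rw [hz]
      simp only
      rw [hγ' i]
      push_cast
      ring
    have h5 : chi L FL x ^ N * chi La Fa x ^ (-1 : ℤ) * ∏ i, chi (c i) (Fc i) x ^ z i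
        = (chi L FL x ^ k0 * ∏ i, chi (c i) (Fc i) x ^ (-(β i : ℤ))) ^ (2 * R')
          * (chi La Fa x * ∏ i, chi (c i) (Fc i) x ^ (-(α i : ℤ)))⁻¹ := by
      rw [h4, hN, mul_comm (2 * R') k0, pow_mul, mul_pow, mul_inv, zpow_neg_one]
      ring
    rw [h5, h3, inv_one, mul_one, ← pow_mul, mul_comm (2 * R') K, pow_mul, h1, one_pow])
  obtain ⟨s, hs, hs0⟩ := hgg 0
  have hclass : LinEquiv u (fun i => (γ i : ℤ)) (fun i => N * (d i - m) - a i) := by
    obtain ⟨p, hp⟩ := hβ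
    refine ⟨fun l => 2 * R' * p l - qA l, fun i => ?_⟩
    have e1 : (β i : ℤ) = k0 * (d i - m) + ∑ l, p l * u i l := hp i
    simp only
    rw [hγ' i, e1, hqA' i, hN]
    have e2 : ∑ l, (2 * (R' : ℤ) * p l - qA l) * u i l
        = 2 * R' * ∑ l, p l * u i l - ∑ l, qA l * u i l := by
      rw [Finset.mul_sum, ← Finset.sum_sub_distrib]
      exact Finset.sum_congr rfl fun l _ => by ring
    rw [e2]
    push_cast
    ring
  rw [hz, ← tw_eq_twz] at hs
  have hfin := isSection_monomial (u := u) hclass hs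
  have hN1 : 1 ≤ N := by
    rw [hN]
    exact Nat.mul_pos (Nat.mul_pos two_pos (by omega)) hk0
  refine ⟨E * N, E, Nat.mul_pos hE hN1, hE, _, isSection_congr hfin (fun i => ?_)
    (fun g v => ?_) (fun v => rfl), 0, ?_⟩
  · push_cast
    ring
  · rw [hLN]
    change (L.e g v ^ N * ∏ _x : Unit, La.e g v ^ (-1 : ℤ)) ^ (1 * E) = _
    simp only [Finset.univ_unique, Finset.prod_singleton]
    rw [one_mul, zpow_neg_one, mul_pow, ← pow_mul, inv_pow, mul_comm N E]
  · rw [Ne, monomial_eq_zero]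
    exact hs0

end Pool.Agent.U976.TBd
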