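import Pool.Agent.U976.TBd.CU4
import Mathlib.Analysis.Complex.AbsMax

/-!
# Sections give metrics with semipositive curvature
-/

set_option autoImplicit false

namespace Pool.Agent.U976.TBd

open Pool.Agent.W594.SYZ2 Pool.Agent.W594.SYZ2.TQ Pool.Agent.TH735.AQ Q47.MM Q47.TB Q47.EB
open MvPolynomial Filter Topology Metric

variable {V : Type*} [NormedAddCommGroup V] [NormedSpace ℂ V] {Γ : Subgroup (V ≃ᵃ[ℂ] V)}
  {ι : Type*} [Fintype ι] {n k : ℕ} {u : ι → Fin n → ℤ} {S : Set (Set ι)} {c : ι → LineBundle Γ}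
  {e : Fin k → ι → ℤ} {A : Fin k → LineBundle Γ} {m : Fin k → ℕ}
  {F : Fin k → V → MvPolynomial ι ℂ} {D : ι → ℤ} {L : LineBundle Γ}

/-- The function of a section on the cover is holomorphic. -/
theorem diff_eval_cover (hS : IsSmoothFan u S) {d : ι → ℤ} {f : Γ → V → ℂ}
    {G : V → MvPolynomial (ι ⊕ Fin k) ℂ} (hG : IsCoverSection u c e A m d f G) :
    Differentiable ℂ fun p : V × (ι → ℂ) × (Fin k → ℂ) => eval (Sum.elim p.2.1 p.2.2) (G p.1) := by
  classical
  obtain ⟨T, hT⟩ : ∃ T : Finset ((ι ⊕ Fin k) →₀ ℕ), ∀ v, (G v).support ⊆ T := by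
    refine ⟨(finite_cover (m := m) (e := e) hS d).toFinset, fun v α hα => ?_⟩
    simp only [Set.Finite.mem_toFinset]
    exact ⟨fun j => hG.red v α hα j, hG.deg v α hα⟩
  have h1 : (fun p : V × (ι → ℂ) × (Fin k → ℂ) => eval (Sum.elim p.2.1 p.2.2) (G p.1))
      = fun p => ∑ α ∈ T, coeff α (G p.1) *
        ((∏ i, p.2.1 i ^ α (Sum.inl i)) * ∏ j, p.2.2 j ^ α (Sum.inr j)) := by
    funext p
    rw [eval_eq']
    rw [Finset.sum_subset (hT p.1) fun α _ hα => by
      rw [notMem_support_iff.1 hα, zero_mul]]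
    refine Finset.sum_congr rfl fun α _ => ?_
    rw [Fintype.prod_sum_type]
    rfl
  rw [h1]
  refine Differentiable.fun_sum fun α _ => ?_
  refine Differentiable.mul ((hG.holo α).comp differentiable_fst) (Differentiable.mul ?_ ?_)
  · refine diff_prod _ fun i _ => ?_
    have h1 : Differentiable ℂ fun p : V × (ι → ℂ) × (Fin k → ℂ) => p.2.1 i :=
      differentiable_pi.1 (differentiable_fst.comp differentiable_snd) i
    exact h1.pow _
  · refine diff_prod _ fun j _ => ?_
    have h1 : Differentiable ℂ fun p : V × (ι → ℂ) × (Fin k → ℂ) => p.2.2 j :=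
      differentiable_pi.1 (differentiable_snd.comp differentiable_snd) j
    exact h1.pow _

/-- A nonzero section gives a metric with semipositive curvature. -/
theorem metric_of_section [FiniteDimensional ℂ V] (hS : IsSmoothFan u S)
    (h : CoverEffective u S c e A m F D L) : CoverCurrentPsef u S c e A m F D L := by
  classical
  have hcomp := FiniteDimensional.complete ℂ V
  obtain ⟨q, hq, G, hG, v0, x0, y0, hx0, hy0, hne⟩ := h
  have hq0 : (0 : ℝ) < q := by exact_mod_cast hq
  have hqn : q ≠ 0 := by omega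
  have hd := diff_eval_cover hS hG
  let g : V × (ι → ℂ) × (Fin k → ℂ) → ℂ := fun p => eval (Sum.elim p.2.1 p.2.2) (G p.1)
  refine ⟨fun p => ‖g p‖ ^ (q : ℝ)⁻¹, ⟨⟨fun p _ => Real.rpow_nonneg (norm_nonneg _) _, ?_,
    ?_⟩, ⟨(v0, x0, y0), ⟨hx0, hy0⟩, ?_⟩, ?_, ?_⟩⟩
  · refine Continuous.upperSemicontinuous ?_ |>.upperSemicontinuousOn _
    exact hd.continuous.norm.rpow_const fun p => Or.inr (by positivity)
  · intro f P hf hP _ hb
    have h1 : ∀ z ∈ closedBall (0 : ℂ) 1,
        AnalyticAt ℂ (fun z => g (f z) * Complex.exp (-((q : ℂ) * P z))) z := by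
      intro z hz
      refine AnalyticAt.mul ?_ (AnalyticAt.cexp (analyticAt_const.mul (hP z hz)).neg)
      rw [Complex.analyticAt_iff_eventually_differentiableAt]
      filter_upwards [(hf z hz).eventually_analyticAt] with ζ hζ
      exact (hd (f ζ)).comp ζ hζ.differentiableAt
    have h2 : DiffContOnCl ℂ (fun z => g (f z) * Complex.exp (-((q : ℂ) * P z)))
        (ball (0 : ℂ) 1) := by
      refine DifferentiableOn.diffContOnCl fun z hz => ?_
      rw [closure_ball _ one_ne_zero] at hz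
      exact (h1 z hz).differentiableAt.differentiableWithinAt
    have hre : ∀ z, ‖g (f z) * Complex.exp (-((q : ℂ) * P z))‖
        = ‖g (f z)‖ * Real.exp (-(q * (P z).re)) := by
      intro z
      rw [norm_mul, Complex.norm_exp]
      congr 2
      have : ((q : ℂ)) = ((q : ℝ) : ℂ) := by push_cast; rfl
      rw [Complex.neg_re, this, Complex.re_ofReal_mul]
    have h3 := Complex.norm_le_of_forall_mem_frontier_norm_le (C := 1) isBounded_ball h2
      (fun z hz => by
        rw [frontier_ball _ one_ne_zero, mem_sphere_zero_iff_norm] at hz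
        rw [hre z]
        have h4 := hb z hz
        have h5 : ‖g (f z)‖ ≤ Real.exp (q * (P z).re) := by
          rw [Real.exp_nat_mul, ← Real.rpow_inv_natCast_pow (norm_nonneg (g (f z))) hqn]
          exact pow_le_pow_left₀ (Real.rpow_nonneg (norm_nonneg _) _) h4 _
        calc ‖g (f z)‖ * Real.exp (-(q * (P z).re))
            ≤ Real.exp (q * (P z).re) * Real.exp (-(q * (P z).re)) :=
              mul_le_mul_of_nonneg_right h5 (Real.exp_pos _).le
          _ = 1 := by rw [← Real.exp_add, add_neg_cancel, Real.exp_zero])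
      (z := 0) (subset_closure (mem_ball_self one_pos))
    rw [hre 0] at h3
    have h5 : ‖g (f 0)‖ ≤ Real.exp (P 0).re ^ q := by
      rw [← Real.exp_nat_mul]
      calc ‖g (f 0)‖ = ‖g (f 0)‖ * Real.exp (-(q * (P 0).re)) * Real.exp (q * (P 0).re) := by
            rw [mul_assoc, ← Real.exp_add, neg_add_cancel, Real.exp_zero, mul_one]
        _ ≤ 1 * Real.exp (q * (P 0).re) := mul_le_mul_of_nonneg_right h3 (Real.exp_pos _).le
        _ = _ := one_mul _
    calc ‖g (f 0)‖ ^ (q : ℝ)⁻¹ ≤ (Real.exp (P 0).re ^ q) ^ (q : ℝ)⁻¹ :=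
          Real.rpow_le_rpow (norm_nonneg _) h5 (by positivity)
      _ = _ := Real.pow_rpow_inv_natCast (Real.exp_pos _).le hqn
  · exact (Real.rpow_pos_of_pos (norm_pos_iff.2 hne) _).ne'
  · intro γ v x y _
    change ‖eval (Sum.elim (fun i => (c i).e γ v * x i) fun j => (A j).e γ v * y j)
      (G ((γ : V ≃ᵃ[ℂ] V) v))‖ ^ (q : ℝ)⁻¹ = _
    rw [hG.eq, norm_mul, norm_pow, Real.mul_rpow (pow_nonneg (norm_nonneg _) _) (norm_nonneg _),
      Real.pow_rpow_inv_natCast (norm_nonneg _) hqn]
  · intro t ht0 ht1 v x y _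
    have h1 : eval (Sum.elim (fun i => t i * x i) fun j => (∏ i, t i ^ e j i) * y j) (G v)
        = (∏ i, t i ^ D i) ^ q * eval (Sum.elim x y) (G v) := by
      rw [eval_eq', eval_eq', Finset.mul_sum]
      refine Finset.sum_congr rfl fun α hα => ?_
      have h2 := prod_zpow_lin (hG.deg v α hα) ht0 ht1
      rw [Fintype.prod_sum_type, Fintype.prod_sum_type]
      simp only [Sum.elim_inl, Sum.elim_inr, mul_pow, Finset.prod_mul_distrib]
      have h3 : (∏ i, t i ^ α (Sum.inl i)) * ∏ j, (∏ i, t i ^ e j i) ^ α (Sum.inr j)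
          = (∏ i, t i ^ D i) ^ q := by
        have h4 : ∏ i, t i ^ ((q : ℤ) * D i) = (∏ i, t i ^ D i) ^ q := by
          rw [← Finset.prod_pow]
          refine Finset.prod_congr rfl fun i _ => ?_
          rw [mul_comm, zpow_mul, zpow_natCast]
        have h5 : ∏ i, t i ^ ((α (Sum.inl i) : ℤ) + ∑ j, (α (Sum.inr j) : ℤ) * e j i)
            = (∏ i, t i ^ α (Sum.inl i)) * ∏ j, (∏ i, t i ^ e j i) ^ α (Sum.inr j) := by
          have h6 : ∀ i, t i ^ ((α (Sum.inl i) : ℤ) + ∑ j, (α (Sum.inr j) : ℤ) * e j i)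
              = t i ^ α (Sum.inl i) * ∏ j, (t i ^ e j i) ^ α (Sum.inr j) := by
            intro i
            rw [zpow_add₀ (ht0 i), zpow_sum' _ _ (ht0 i), zpow_natCast]
            congr 1
            refine Finset.prod_congr rfl fun j _ => ?_
            rw [mul_comm, zpow_mul, zpow_natCast]
          simp only [h6, Finset.prod_mul_distrib]
          congr 1
          rw [Finset.prod_comm]
          exact Finset.prod_congr rfl fun j _ => Finset.prod_pow _ _ _
        rw [← h5, h2, h4]
      rw [← h3]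
      ring
    change ‖eval (Sum.elim (fun i => t i * x i) fun j => (∏ i, t i ^ e j i) * y j) (G v)‖
      ^ (q : ℝ)⁻¹ = _
    rw [h1, norm_mul, norm_pow, Real.mul_rpow (pow_nonneg (norm_nonneg _) _) (norm_nonneg _),
      Real.pow_rpow_inv_natCast (norm_nonneg _) hqn]

end Pool.Agent.U976.TBd
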