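import Pool.Agent.U976.TBd.KPDefs
import Pool.Agent.U976.TBd.CU5

/-!
# Pairs on Kummer covers of toric bundles over torus quotients
-/

set_option autoImplicit false

namespace Pool.Agent.U976.TBd

open Pool.Agent.W594.SYZ2 Pool.Agent.W594.SYZ2.TQ Pool.Agent.TH735.AQ Q47.MM Q47.TB Q47.EB
open MvPolynomial

variable {V : Type*} [NormedAddCommGroup V] [NormedSpace ℂ V]
  {Γ : Subgroup (V ≃ᵃ[ℂ] V)} {ι : Type*} [Fintype ι] {n : ℕ}
  {u : ι → Fin n → ℤ} {S : Set (Set ι)} {c : ι → LineBundle Γ} {k : ℕ}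
  {e : Fin k → ι → ℤ} {A : Fin k → LineBundle Γ} {m : Fin k → ℕ}
  {F : Fin k → V → MvPolynomial ι ℂ}

/-- The pair `(Y, ∑ (1 - 1 / m_j) div F_j + (1 / p) div B)`. -/
theorem total_pair_bd
    (hF : ∀ j, IsSection u c (fun i => m j * e j i) (fun γ v => (A j).e γ v ^ m j) (F j))
    {p : ℕ} {ρ : V → ℂ} {b : ι → ℤ} {M L : LineBundle Γ} {B : V → MvPolynomial ι ℂ}
    (hB : IsSection u c b M.e B) (hL : IsCoverAdjoint c A m p ρ M L) :
    Q47.TB.IsLogPluricanonical u c (p * deg' m) ρ (fun i => totClass e m p i + deg' m * b i)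
      (fun v => (∏ j, F j v ^ wt' m p j) * B v ^ deg' m) (L.pow (deg' m)) := by
  have h := isSection_mul (isSection_prod Finset.univ fun j _ => isSection_pow (hF j) (wt' m p j))
    (isSection_pow hB (deg' m))
  refine ⟨h.holo, h.deg, fun γ v x => ?_⟩
  have h1 := h.eq γ v x
  have h2 : (L.pow (deg' m)).e γ v = L.e γ v ^ deg' m := rfl
  have h3 : ∏ j, ((A j).e γ v ^ m j) ^ wt' m p j
      = (∏ j, (A j).e γ v ^ (p * (m j - 1))) ^ deg' m := by
    rw [← Finset.prod_pow]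
    exact Finset.prod_congr rfl fun j _ => by rw [← pow_mul, ← pow_mul, mul_wt]
  rw [h3] at h1
  rw [h1, h2]
  have h4 := congrArg (· ^ deg' m) (hL γ v)
  simp only [mul_pow, ← pow_mul] at h4
  linear_combination -(eval x ((∏ j, F j v ^ wt' m p j) * B v ^ deg' m)) * h4

omit [Fintype ι] in
theorem adjClass_eq (hm : ∀ j, 1 ≤ m j) (p : ℕ) (b : ι → ℤ) (i : ι) :
    totClass e m p i + deg' m * b i - ((p * deg' m : ℕ) : ℤ) = deg' m * adjClass e m p b i := by
  have := totClass_eq (e := e) hm p i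
  rw [adjClass]
  linear_combination this

variable {T : ι → ℤ} {Mt : ℕ} {Ft : V → MvPolynomial ι ℂ} {D : ι → ℤ} {L : LineBundle Γ}
  {Hc : ι → V → V → ℂ} {H : V → V → ℂ} {ρ : V → ℂ}

variable [FiniteDimensional ℂ V]

/-- Nef adjoint line bundles on the Kummer cover are semiample. -/
theorem adj_semiample_iff (hΓ : IsTorusQuotient Γ) (hρ : IsRamification Γ ρ)
    (hS : IsSmoothFan u S) (hc : ∀ i, IsChernForm (c i) (Hc i)) (hm : ∀ j, 1 ≤ m j)
    (hF : ∀ j, IsSection u c (fun i => m j * e j i) (fun γ v => (A j).e γ v ^ m j) (F j))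
    (hH : IsChernForm L H)
    (hFt : Q47.TB.IsLogPluricanonical u c Mt ρ T Ft (L.pow (deg' m)))
    (hT : ∀ i, T i - (Mt : ℤ) = deg' m * D i) (hlc : ToricLC S Mt Ft) :
    CoverSemiample u S c e A m F D L ↔ Nef u S Hc D H := by
  rw [cover_semiample_iff hF hm]
  constructor
  · exact nef_of_semiample hΓ hc hH
  · intro hn
    refine semiample_of_pow (deg_pos hm) ?_
    have h1 := nef_mul hn (deg' m)
    have h2 : (fun i => (deg' m : ℤ) * D i) = fun i => T i - (Mt : ℤ) :=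
      funext fun i => (hT i).symm
    rw [h2] at h1 ⊢
    exact semiample_of_nef hΓ hρ hS hc (chern_pow' hH (deg' m)) hFt hlc h1

/-- Metrics with semipositive curvature on adjoint line bundles give sections from `Y`. -/
theorem adj_eff_of_metric (hΓ : IsTorusQuotient Γ) (hρ : IsRamification Γ ρ)
    (hS : IsSmoothFan u S) (hc : ∀ i, IsChernForm (c i) (Hc i)) (hm : ∀ j, 1 ≤ m j)
    (hF : ∀ j, IsSection u c (fun i => m j * e j i) (fun γ v => (A j).e γ v ^ m j) (F j))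
    (hH : IsChernForm L H)
    (hFt : Q47.TB.IsLogPluricanonical u c Mt ρ T Ft (L.pow (deg' m)))
    (hT : ∀ i, T i - (Mt : ℤ) = deg' m * D i) (hlc : ToricLC S Mt Ft)
    (h : CoverCurrentPsef u S c e A m F D L) :
    QEffective u c (fun i => T i - (Mt : ℤ)) (L.pow (deg' m)) := by
  classical
  obtain ⟨w, hw⟩ := h
  obtain ⟨q, hq1, hq2⟩ := real_of_metric hΓ hS hc hm hF hH hw
  have hTp : (0 : ℝ) < deg' m := by exact_mod_cast deg_pos hm
  have hcl : ∀ i, ((T i - (Mt : ℤ) : ℤ) : ℝ)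
      + ∑ l, ((deg' m : ℝ) * q l) * (u i l : ℝ)
      = deg' m * ((D i : ℝ) + ∑ l, q l * (u i l : ℝ)) := by
    intro i
    rw [hT, mul_add, Finset.mul_sum]
    push_cast
    congr 1
    exact Finset.sum_congr rfl fun l _ => by ring
  exact eff_of_real hΓ hρ hS hc (chern_pow' hH (deg' m)) hFt hlc (q := fun l => (deg' m : ℝ) * q l)
    (fun i => by
      rw [hcl i]
      exact mul_nonneg hTp.le (hq1 i))
    (fun v => by
      simp only [hcl]
      rw [nat_re]
      have h1 : ∑ i, (deg' m : ℝ) * ((D i : ℝ) + ∑ l, q l * (u i l : ℝ)) * (Hc i v v).re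
          = deg' m * ∑ i, ((D i : ℝ) + ∑ l, q l * (u i l : ℝ)) * (Hc i v v).re := by
        rw [Finset.mul_sum]
        exact Finset.sum_congr rfl fun i _ => by ring
      rw [h1]
      exact mul_le_mul_of_nonneg_left (hq2 v) hTp.le)

theorem cover_effective_of (hS : IsSmoothFan u S) (hm : ∀ j, 1 ≤ m j)
    (hT : ∀ i, T i - (Mt : ℤ) = deg' m * D i)
    (h : QEffective u c (fun i => T i - (Mt : ℤ)) (L.pow (deg' m))) :
    CoverEffective u S c e A m F D L := by
  obtain ⟨q', hq', G, hG, v, hv⟩ := h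
  refine ⟨q' * deg' m, Nat.mul_pos hq' (deg_pos hm), _, cover_of_section hm (isSection_congr hG
    (fun i => ?_) (fun γ v => ?_) fun v => rfl), pull_nonzero hS hm hv⟩
  · simp only [hT]
    push_cast
    ring
  · change (L.e γ v ^ deg' m) ^ q' = _
    rw [← pow_mul, mul_comm]

/-- Finitely many sections of one multiple of the adjoint line bundle compute the asymptotic orders of
the sections of its multiples, twisted with any line bundle. -/
theorem adj_sigma (hΓ : IsTorusQuotient Γ) (hρ : IsRamification Γ ρ)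
    (hS : IsSmoothFan u S) (hc : ∀ i, IsChernForm (c i) (Hc i)) (hm : ∀ j, 1 ≤ m j)
    (hF : ∀ j, IsSection u c (fun i => m j * e j i) (fun γ v => (A j).e γ v ^ m j) (F j))
    (hH : IsChernForm L H)
    (hFt : Q47.TB.IsLogPluricanonical u c Mt ρ T Ft (L.pow (deg' m)))
    (hT : ∀ i, T i - (Mt : ℤ) = deg' m * D i) (hlc : ToricLC S Mt Ft) :
    ∃ (M n0 : ℕ) (G : Fin n0 → V → MvPolynomial ι ℂ), 1 ≤ M ∧
      (∀ j, SecPow u c D L M (G j)) ∧
      (CoverCurrentPsef u S c e A m F D L → ∃ j v, G j v ≠ 0) ∧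
      ∀ (dB : ι → ℤ) (LB : LineBundle Γ) (HB : V → V → ℂ), IsChernForm LB HB →
        ∃ (K0 : ℕ) (W : V × (ι → ℂ) → ℝ), Continuous W ∧
          ∀ (q : ℕ) (G' : V → MvPolynomial (ι ⊕ Fin k) ℂ),
            IsCoverSection u c e A m (fun i => q * D i + dB i)
              (fun γ v => L.e γ v ^ q * LB.e γ v) G' →
            ∃ C : ℝ, 0 ≤ C ∧ ∀ (v : V) (x : ι → ℂ) (y : Fin k → ℂ),
              (∀ j, y j ^ m j = eval x (F j v)) →
              ‖eval (Sum.elim x y) (G' v)‖ ^ M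
                ≤ C * W (v, x) * (∑ j, ‖eval x (G j v)‖) ^ (q - K0) := by
  classical
  have hTp := deg_pos hm
  obtain ⟨M1, n0, G, hM1, hG, hps, hA⟩ := sigma_sections hΓ hρ hS hc (chern_pow' hH (deg' m))
    hFt hlc
  refine ⟨deg' m * M1, n0, G, Nat.mul_pos hTp hM1, fun j => isSection_congr (hG j)
    (fun i => ?_) (fun γ v => ?_) fun v => rfl, fun hp => hps (psef_of_eff
      (adj_eff_of_metric hΓ hρ hS hc hm hF hH hFt hT hlc hp)), fun dB LB HB hB => ?_⟩
  · simp only [hT]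
    push_cast
    ring
  · change (L.e γ v ^ deg' m) ^ M1 = _
    rw [← pow_mul]
  obtain ⟨K0, W, hWc, hW'⟩ := hA (fun i => deg' m * dB i) (LB.pow (deg' m)) _
    (chern_pow' hB (deg' m))
  refine ⟨K0, W, hWc, fun q G' hG' => ?_⟩
  have hone : ∀ α : (ι ⊕ Fin k) →₀ ℕ, ∃ R : ℝ, 0 ≤ R ∧ ∀ (v : V) (x : ι → ℂ) (y : Fin k → ℂ),
      (∀ j, y j ^ m j = eval x (F j v)) →
      (‖coeff α (G' v)‖ * ((∏ i, ‖x i‖ ^ α (Sum.inl i)) * ∏ j, ‖y j‖ ^ α (Sum.inr j)))
        ^ (deg' m * M1)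
        ≤ R * W (v, x) * (∑ j, ‖eval x (G j v)‖) ^ (q - K0) := by
    intro α
    by_cases hα : ∃ v, coeff α (G' v) ≠ 0
    · have h1 := section_of_cover hG' hF α hα (M := deg' m)
        (r := fun j => ∏ l ∈ Finset.univ.erase j, m l) (deg_eq m)
      obtain ⟨R, hR, hb⟩ := hW' q _ (isSection_congr h1 (fun i => by
          rw [hT]
          ring) (fun γ v => by
          change (L.e γ v ^ q * LB.e γ v) ^ deg' m = (L.e γ v ^ deg' m) ^ q * LB.e γ v ^ deg' m
          rw [mul_pow, ← pow_mul, ← pow_mul, mul_comm q]) fun v => rfl)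
      refine ⟨R, hR, fun v x y hy => ?_⟩
      refine le_trans (le_of_eq ?_) (hb v x)
      rw [pow_mul, map_mul, map_prod, norm_mul, norm_prod]
      congr 1
      have h2 : ‖eval x (monomial (Finsupp.equivFunOnFinite.symm fun i => deg' m * α (Sum.inl i))
          (coeff α (G' v) ^ deg' m))‖
          = (‖coeff α (G' v)‖ * ∏ i, ‖x i‖ ^ α (Sum.inl i)) ^ deg' m := by
        rw [norm_eval_monomial, norm_pow, mul_pow, ← Finset.prod_pow]
        congr 1
        exact Finset.prod_congr rfl fun i _ => by rw [← pow_mul, mul_comm]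
      have h3 : ∏ j, ‖eval x (F j v ^ ((∏ l ∈ Finset.univ.erase j, m l) * α (Sum.inr j)))‖
          = (∏ j, ‖y j‖ ^ α (Sum.inr j)) ^ deg' m := by
        rw [← Finset.prod_pow]
        refine Finset.prod_congr rfl fun j _ => ?_
        rw [map_pow, norm_pow, ← hy j, norm_pow, ← pow_mul, ← pow_mul, deg_eq m j]
        congr 1
        ring
      rw [h2, h3, ← mul_pow, mul_assoc]
    · push Not at hα
      refine ⟨0, le_rfl, fun v x y _ => ?_⟩
      rw [hα v, norm_zero, zero_mul, zero_mul, zero_mul,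
        zero_pow (Nat.one_le_iff_ne_zero.1 (Nat.mul_pos hTp hM1))]
  choose R hR0 hR using hone
  let P : Finset ((ι ⊕ Fin k) →₀ ℕ) := (finite_cover (m := m) (e := e) hS
    fun i => (q : ℤ) * D i + dB i).toFinset
  refine ⟨(P.card : ℝ) ^ (deg' m * M1) * ∑ α ∈ P, R α, mul_nonneg (by positivity)
    (Finset.sum_nonneg fun α _ => hR0 α), fun v x y hy => ?_⟩
  have h1 : ‖eval (Sum.elim x y) (G' v)‖ ≤ ∑ α ∈ P, ‖coeff α (G' v)‖ *
      ((∏ i, ‖x i‖ ^ α (Sum.inl i)) * ∏ j, ‖y j‖ ^ α (Sum.inr j)) := by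
    rw [eval_eq']
    refine (norm_sum_le _ _).trans ?_
    have h2 : (G' v).support ⊆ P := fun α hα => by
      simp only [P, Set.Finite.mem_toFinset]
      exact ⟨fun j => hG'.red v α hα j, hG'.deg v α hα⟩
    refine le_trans (le_of_eq (Finset.sum_congr rfl fun α _ => ?_))
      (Finset.sum_le_sum_of_subset_of_nonneg h2 fun α _ _ => mul_nonneg (norm_nonneg _)
        (mul_nonneg (Finset.prod_nonneg fun i _ => pow_nonneg (norm_nonneg _) _)
          (Finset.prod_nonneg fun i _ => pow_nonneg (norm_nonneg _) _)))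
    rw [norm_mul, norm_prod, Fintype.prod_sum_type]
    simp only [norm_pow, Sum.elim_inl, Sum.elim_inr]
  have hnn : ∀ α : (ι ⊕ Fin k) →₀ ℕ, 0 ≤ ‖coeff α (G' v)‖ *
      ((∏ i, ‖x i‖ ^ α (Sum.inl i)) * ∏ j, ‖y j‖ ^ α (Sum.inr j)) := fun α =>
    mul_nonneg (norm_nonneg _)
        (mul_nonneg (Finset.prod_nonneg fun i _ => pow_nonneg (norm_nonneg _) _)
          (Finset.prod_nonneg fun i _ => pow_nonneg (norm_nonneg _) _))
  calc ‖eval (Sum.elim x y) (G' v)‖ ^ (deg' m * M1)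
      ≤ (∑ α ∈ P, ‖coeff α (G' v)‖ *
        ((∏ i, ‖x i‖ ^ α (Sum.inl i)) * ∏ j, ‖y j‖ ^ α (Sum.inr j))) ^ (deg' m * M1) :=
        pow_le_pow_left₀ (norm_nonneg _) h1 _
    _ ≤ (P.card : ℝ) ^ (deg' m * M1) * ∑ α ∈ P, (‖coeff α (G' v)‖ *
        ((∏ i, ‖x i‖ ^ α (Sum.inl i)) * ∏ j, ‖y j‖ ^ α (Sum.inr j))) ^ (deg' m * M1) :=
        sum_pow_le P _ hnn (Nat.mul_pos hTp hM1)
    _ ≤ (P.card : ℝ) ^ (deg' m * M1) * ∑ α ∈ P,
          R α * W (v, x) * (∑ j, ‖eval x (G j v)‖) ^ (q - K0) :=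
        mul_le_mul_of_nonneg_left (Finset.sum_le_sum fun α _ => hR α v x y hy) (by positivity)
    _ = _ := by
        rw [← Finset.sum_mul, ← Finset.sum_mul]
        ring

end Pool.Agent.U976.TBd
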