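import Pool.Agent.U976.TBd.CPDefs
import Pool.Agent.U976.TBd.CP2
import Pool.Agent.U976.TBd.KP1

/-!
# The inequality of Campana and Peternell: multiplication with a section from `Y`
-/

set_option autoImplicit false

namespace Pool.Agent.U976.TBd

open Pool.Agent.W594.SYZ2 Pool.Agent.W594.SYZ2.TQ Pool.Agent.TH735.AQ Q47.MM Q47.TB Q47.EB
open MvPolynomial Filter Topology Metric

section Poly

variable {σ : Type*} [Fintype σ]

omit [Fintype σ] in
theorem eval_pow_vars (P : MvPolynomial σ ℂ) (k : ℕ) (g : σ → ℂ) :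
    eval g (aeval (fun i => (X i : MvPolynomial σ ℂ) ^ k) P) = eval (fun i => g i ^ k) P := by
  induction P using MvPolynomial.induction_on with
  | C a => simp
  | add p q hp hq => rw [map_add, map_add, map_add, hp, hq]
  | mul_X p i hp => rw [map_mul, map_mul, map_mul, hp]; simp

omit [Fintype σ] in
theorem pow_vars_ne_zero {P : MvPolynomial σ ℂ} (hP : P ≠ 0) {k : ℕ} (hk : 1 ≤ k) :
    aeval (fun i => (X i : MvPolynomial σ ℂ) ^ k) P ≠ 0 := by
  intro h
  apply hP
  refine MvPolynomial.funext fun z => ?_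
  choose y hy using fun j => IsAlgClosed.exists_pow_nat_eq (z j) (lt_of_lt_of_le Nat.zero_lt_one hk)
  have h1 := eval_pow_vars P k y
  rw [h, map_zero] at h1
  have h2 : (fun i => y i ^ k) = z := funext hy
  rw [h2] at h1
  rw [← h1, map_zero]

omit [Fintype σ] in
theorem pow_vars_homog {P : MvPolynomial σ ℂ} {d : ℕ} (hP : P.IsHomogeneous d) (k : ℕ) :
    (aeval (fun i => (X i : MvPolynomial σ ℂ) ^ k) P).IsHomogeneous (k * d) :=
  hP.aeval (n := k) _ fun i => isHomogeneous_X_pow i k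

theorem eval_homog {P : MvPolynomial σ ℂ} {d : ℕ} (hP : P.IsHomogeneous d) (z : ℂ) (g : σ → ℂ) :
    eval (fun i => g i * z) P = z ^ d * eval g P := by
  rw [eval_eq', eval_eq', Finset.mul_sum]
  refine Finset.sum_congr rfl fun α hα => ?_
  have h1 : ∑ i, α i = d := by
    have := hP.degree_eq_sum_deg_support hα
    rw [← Finsupp.degree_eq_sum]
    exact this.symm
  simp only [mul_pow, Finset.prod_mul_distrib]
  rw [Finset.prod_pow_eq_pow_sum, h1]
  ring

end Poly

variable {V : Type*} [NormedAddCommGroup V] [NormedSpace ℂ V] {Γ : Subgroup (V ≃ᵃ[ℂ] V)}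
  {ι : Type*} [Fintype ι] {n k : ℕ} {u : ι → Fin n → ℤ} {S : Set (Set ι)} {c : ι → LineBundle Γ}
  {e : Fin k → ι → ℤ} {A : Fin k → LineBundle Γ} {m : Fin k → ℕ}
  {F : Fin k → V → MvPolynomial ι ℂ}

section CoverPoly

omit [Fintype ι] in
theorem coverPoly_congr {d d' : ι → ℤ} {f f' : Γ → V → ℂ} {G G' : V → MvPolynomial (ι ⊕ Fin k) ℂ}
    (hG : IsCoverPoly u c e A d f G)
    (hd : ∀ i, d i = d' i) (he : ∀ γ v, f γ v = f' γ v) (h : ∀ v, G v = G' v) :
    IsCoverPoly u c e A d' f' G' := by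
  have h1 : d = d' := funext hd
  have h2 : f = f' := funext fun γ => funext fun v => he γ v
  have h3 : G = G' := funext h
  rwa [← h1, ← h2, ← h3]

omit [Fintype ι] in
theorem coverPoly_one : IsCoverPoly u c e A (fun _ => 0) (fun _ _ => 1)
    fun _ => (1 : MvPolynomial (ι ⊕ Fin k) ℂ) := by
  classical
  refine ⟨1, fun α => differentiable_const _, fun v α hα j => ?_, fun v α hα => ?_,
    fun γ v x y => ?_⟩
  · rw [mem_support_iff, coeff_one] at hα
    have : α = 0 := by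
      by_contra hne
      exact hα (if_neg (Ne.symm hne))
    simp [this]
  · refine ⟨0, fun i => ?_⟩
    rw [mem_support_iff, coeff_one] at hα
    have : α = 0 := by
      by_contra hne
      exact hα (if_neg (Ne.symm hne))
    simp [this]
  · rw [map_one, map_one, mul_one]

omit [Fintype ι] in
theorem coverPoly_mul {d d' : ι → ℤ} {f f' : Γ → V → ℂ} {G G' : V → MvPolynomial (ι ⊕ Fin k) ℂ}
    (hG : IsCoverPoly u c e A d f G) (hG' : IsCoverPoly u c e A d' f' G') :
    IsCoverPoly u c e A (fun i => d i + d' i) (fun γ v => f γ v * f' γ v) fun v => G v * G' v := by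
  classical
  obtain ⟨N, hG⟩ := hG
  obtain ⟨N', hG'⟩ := hG'
  refine ⟨N + N', fun α => ?_, fun v α hα j => ?_, fun v α hα => ?_, fun γ v x y => ?_⟩
  · simp only [coeff_mul]
    exact Differentiable.fun_sum fun p _ => (hG.holo p.1).mul (hG'.holo p.2)
  · obtain ⟨β, hβ, β', hβ', rfl⟩ := Finset.mem_add.1 (support_mul _ _ hα)
    have h1 := hG.red v β hβ j
    have h2 := hG'.red v β' hβ' j
    rw [Finsupp.add_apply]
    omega
  · obtain ⟨β, hβ, β', hβ', rfl⟩ := Finset.mem_add.1 (support_mul _ _ hα)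
    obtain ⟨q, hq⟩ := hG.deg v β hβ
    obtain ⟨q', hq'⟩ := hG'.deg v β' hβ'
    refine ⟨fun l => q l + q' l, fun i => ?_⟩
    have h1 : (β (Sum.inl i) : ℤ) + ∑ j, (β (Sum.inr j) : ℤ) * e j i = d i + ∑ l, q l * u i l :=
      hq i
    have h2 : (β' (Sum.inl i) : ℤ) + ∑ j, (β' (Sum.inr j) : ℤ) * e j i
        = d' i + ∑ l, q' l * u i l := hq' i
    simp only [Finsupp.add_apply, add_mul, Finset.sum_add_distrib]
    push_cast
    simp only [add_mul, Finset.sum_add_distrib]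
    linear_combination h1 + h2
  · rw [map_mul, map_mul, hG.eq, hG'.eq]
    ring

omit [Fintype ι] in
theorem coverPoly_pow {d : ι → ℤ} {f : Γ → V → ℂ} {G : V → MvPolynomial (ι ⊕ Fin k) ℂ}
    (hG : IsCoverPoly u c e A d f G) (w : ℕ) :
    IsCoverPoly u c e A (fun i => w * d i) (fun γ v => f γ v ^ w) fun v => G v ^ w := by
  induction w with
  | zero =>
    exact coverPoly_congr coverPoly_one (fun i => by simp) (fun γ v => by simp)
      (fun v => by simp)
  | succ w ih =>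
    exact coverPoly_congr (coverPoly_mul ih hG) (fun i => by push_cast; ring)
      (fun γ v => by rw [pow_succ]) (fun v => by rw [pow_succ])

omit [Fintype ι] in
theorem coverPoly_pull {d : ι → ℤ} {f : Γ → V → ℂ} {G : V → MvPolynomial ι ℂ}
    (hG : IsSection u c d f G) :
    IsCoverPoly u c e A d f fun v => rename (Sum.inl : ι → ι ⊕ Fin k) (G v) :=
  ⟨1, cover_of_section (fun _ => le_rfl) hG⟩

/-- Sections on `Y'` are holomorphic functions. -/
theorem coverPoly_diff (hS : IsSmoothFan u S) {d : ι → ℤ} {f : Γ → V → ℂ}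
    {G : V → MvPolynomial (ι ⊕ Fin k) ℂ} (hG : IsCoverPoly u c e A d f G) :
    Differentiable ℂ fun p : V × (ι → ℂ) × (Fin k → ℂ) => eval (Sum.elim p.2.1 p.2.2) (G p.1) := by
  obtain ⟨N, hG⟩ := hG
  exact diff_eval_cover hS hG

/-- The norm of a nonzero section on `Y'` gives a nonzero section of a multiple on `Y`. -/
theorem poly_norm (hm : ∀ j, 1 ≤ m j)
    (hF : ∀ j, IsSection u c (fun i => m j * e j i) (fun γ v => (A j).e γ v ^ m j) (F j))
    {d : ι → ℤ} {f : Γ → V → ℂ} {G : V → MvPolynomial (ι ⊕ Fin k) ℂ}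
    (hG : IsCoverPoly u c e A d f G) (h0 : NonzeroOn S m F G) :
    ∃ M : ℕ, 1 ≤ M ∧ ∃ G' : V → MvPolynomial ι ℂ,
      IsSection u c (fun i => M * d i) (fun γ v => f γ v ^ M) G' ∧ ∃ v, G' v ≠ 0 := by
  obtain ⟨N, hG⟩ := hG
  have hF' : ∀ j, IsSection u c (fun i => ((m j * (N + 1) : ℕ) : ℤ) * e j i)
      (fun γ v => (A j).e γ v ^ (m j * (N + 1))) (fun v => F j v ^ (N + 1)) := fun j =>
    isSection_congr (isSection_pow (hF j) (N + 1)) (fun i => by push_cast; ring)
      (fun γ v => by rw [← pow_mul]) fun v => rfl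
  have hG' : IsCoverSection u c e A (fun j => m j * (N + 1)) d f G :=
    ⟨hG.holo, fun v α hα j => by
      have h1 := hG.red v α hα j
      have h2 : 1 * (N + 1) ≤ m j * (N + 1) := Nat.mul_le_mul_right _ (hm j)
      omega, hG.deg, hG.eq⟩
  have h0' : NonzeroOn S (fun j => m j * (N + 1)) (fun j v => F j v ^ (N + 1)) G := by
    obtain ⟨v, x, y, hx, hy, hne⟩ := h0
    exact ⟨v, x, y, hx, fun j => by rw [pow_mul, hy j, map_pow], hne⟩
  obtain ⟨G1, h1, h2⟩ := exists_norm hF' hG' h0'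
  exact ⟨_, deg_pos fun j => Nat.mul_pos (hm j) (Nat.succ_pos N), G1, h1, h2⟩

end CoverPoly

theorem open_pow {m : ℕ} (hm : 1 ≤ m) : IsOpenMap fun z : ℂ => z ^ m := by
  have h1 : AnalyticOnNhd ℂ (fun z : ℂ => z ^ m) Set.univ := fun z _ => analyticAt_id.pow m
  rcases h1.is_constant_or_isOpenMap with ⟨w, hw⟩ | h
  · exfalso
    have h2 : (0 : ℂ) ^ m = w := hw 0
    have h3 : (1 : ℂ) ^ m = w := hw 1
    rw [zero_pow (by omega)] at h2
    rw [one_pow] at h3
    rw [← h2] at h3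
    exact one_ne_zero h3
  · exact h

/-- A function which is continuous and not zero at a point of `Y'` and a nonzero section from `Y` are
both not zero at some point of `Y'`. -/
theorem exists_near (hS : IsSmoothFan u S) (hm : ∀ j, 1 ≤ m j)
    (hFc : ∀ j, Continuous fun p : V × (ι → ℂ) => eval p.2 (F j p.1))
    {T : V → MvPolynomial ι ℂ} (hT : Differentiable ℂ fun p : V × (ι → ℂ) => eval p.2 (T p.1))
    (hT0 : ∃ v, T v ≠ 0) {Φ : V × (ι → ℂ) × (Fin k → ℂ) → ℂ} (hΦ : Continuous Φ)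
    {p : V × (ι → ℂ) × (Fin k → ℂ)} (hp : p ∈ CoverSet S m F) (h0 : Φ p ≠ 0) :
    ∃ p' ∈ CoverSet S m F, Φ p' ≠ 0 ∧ eval p'.2.1 (T p'.1) ≠ 0 := by
  classical
  obtain ⟨v0, x0, y0⟩ := p
  obtain ⟨hp1, hp2⟩ := hp
  simp only at hp1 hp2
  obtain ⟨ε, hε, hball⟩ := Metric.eventually_nhds_iff.1 (hΦ.continuousAt.eventually_ne h0)
  have e1 : ∀ᶠ q in 𝓝 ((v0, x0) : V × (ι → ℂ)), dist q (v0, x0) < ε :=
    Metric.eventually_nhds_iff.2 ⟨ε, hε, fun _ h => h⟩
  have e2 : ∀ᶠ q in 𝓝 ((v0, x0) : V × (ι → ℂ)), ∀ i, x0 i ≠ 0 → q.2 i ≠ 0 := by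
    refine Filter.eventually_all.2 fun i => ?_
    by_cases hi : x0 i = 0
    · exact Eventually.of_forall fun q h => absurd hi h
    · have h1 : Continuous fun q : V × (ι → ℂ) => q.2 i :=
        (continuous_apply i).comp continuous_snd
      filter_upwards [h1.continuousAt.eventually_ne (y := 0) hi] with q hq _
      exact hq
  have e3 : ∀ᶠ q in 𝓝 ((v0, x0) : V × (ι → ℂ)), ∀ j, ∃ z : ℂ, dist z (y0 j) < ε ∧
      z ^ m j = eval q.2 (F j q.1) := by
    refine Filter.eventually_all.2 fun j => ?_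
    have h1 : (fun z : ℂ => z ^ m j) '' ball (y0 j) ε ∈ 𝓝 (eval x0 (F j v0)) := by
      refine (open_pow (hm j) _ isOpen_ball).mem_nhds ⟨y0 j, mem_ball_self hε, hp2 j⟩
    have h2 := (hFc j).continuousAt (x := ((v0, x0) : V × (ι → ℂ)))
    filter_upwards [h2.eventually_mem h1] with q hq
    obtain ⟨z, hz, hz2⟩ := hq
    exact ⟨z, hz, hz2⟩
  have e4 : ∃ᶠ q in 𝓝 ((v0, x0) : V × (ι → ℂ)), eval q.2 (T q.1) ≠ 0 := by
    intro hcon
    simp only [not_not] at hcon
    obtain ⟨v1, hv1⟩ := hT0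
    obtain ⟨x1, hx1⟩ : ∃ x : ι → ℂ, eval x (T v1) ≠ 0 := by
      by_contra hc
      push Not at hc
      exact hv1 (MvPolynomial.funext fun x => by rw [hc x, map_zero])
    let L : ℂ → V × (ι → ℂ) := fun ζ => (v0, x0) + ζ • ((v1, x1) - (v0, x0))
    have hL : Differentiable ℂ L :=
      (differentiable_const _).add (differentiable_id.smul_const _)
    have hg : Differentiable ℂ fun ζ => eval (L ζ).2 (T (L ζ).1) := hT.comp hL
    have hL0 : Tendsto L (𝓝 0) (𝓝 (v0, x0)) := by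
      have h1 := hL.continuous.tendsto 0
      have h2 : L 0 = (v0, x0) := by simp [L]
      rwa [h2] at h1
    have h3 : (fun ζ => eval (L ζ).2 (T (L ζ).1)) =ᶠ[𝓝 0] 0 := hL0.eventually hcon
    have h4 := AnalyticOnNhd.eqOn_zero_of_preconnected_of_eventuallyEq_zero
      (fun z _ => hg.analyticAt z) isPreconnected_univ (Set.mem_univ 0) h3 (Set.mem_univ 1)
    have h5 : L 1 = (v1, x1) := by simp [L]
    simp only [h5, Pi.zero_apply] at h4
    exact hx1 h4
  obtain ⟨⟨v, x⟩, hq, h1, h2, h3⟩ := (e4.and_eventually (e1.and (e2.and e3))).exists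
  choose y hy1 hy2 using h3
  refine ⟨(v, x, y), ⟨hS.face _ hp1 _ fun i hi => ?_, hy2⟩, hball ?_, hq⟩
  · change x0 i = 0
    by_contra hne
    exact h2 i hne hi
  · rw [Prod.dist_eq, max_lt_iff] at h1 ⊢
    refine ⟨h1.1, ?_⟩
    rw [Prod.dist_eq, max_lt_iff]
    exact ⟨h1.2, (dist_pi_lt_iff hε).2 hy1⟩

/-- If `N D - k a` has a nonzero section on `Y` then the Iitaka dimension of `D` on `Y'` is at least
the Iitaka dimension of `a`. -/
theorem iitaka_of_diff (hS : IsSmoothFan u S) (hm : ∀ j, 1 ≤ m j)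
    (hF : ∀ j, IsSection u c (fun i => m j * e j i) (fun γ v => (A j).e γ v ^ m j) (F j))
    {a D : ι → ℤ} {La L : LineBundle Γ} {N k1 : ℕ} (hN : 1 ≤ N) (hk : 1 ≤ k1)
    {T : V → MvPolynomial ι ℂ}
    (hT : IsSection u c (fun i => N * D i - k1 * a i)
      (fun γ v => L.e γ v ^ N * (La.e γ v ^ k1)⁻¹) T) (hT0 : ∃ v, T v ≠ 0) {r : ℕ}
    (h : IitakaGE u S c e A m F a La r) : IitakaGE u S c e A m F D L r := by
  obtain ⟨q, hq, G, hG, hP⟩ := h
  refine ⟨q * N, Nat.mul_pos hq hN,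
    fun i v => G i v ^ k1 * (rename (Sum.inl : ι → ι ⊕ Fin k) (T v)) ^ q, fun i => ?_,
    fun d P hPd hP0 => ?_⟩
  · refine coverPoly_congr (coverPoly_mul (coverPoly_pow (hG i) k1)
      (coverPoly_pow (coverPoly_pull hT) q)) (fun i => ?_) (fun γ v => ?_) fun v => rfl
    · push_cast
      ring
    · have h1 : La.e γ v ≠ 0 := La.ne_zero γ v
      rw [mul_pow, inv_pow, ← pow_mul, ← pow_mul, ← pow_mul, mul_comm k1 q, mul_comm N q]
      field_simp
  · obtain ⟨p, hp, hne⟩ := hP _ _ (pow_vars_homog hPd k1) (pow_vars_ne_zero hP0 hk)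
    have hΦ : Continuous fun p : V × (ι → ℂ) × (Fin k → ℂ) =>
        eval (fun i => eval (Sum.elim p.2.1 p.2.2) (G i p.1))
          (aeval (fun i => (X i : MvPolynomial (Fin (r + 1)) ℂ) ^ k1) P) := by
      have h1 : ∀ i, Continuous fun p : V × (ι → ℂ) × (Fin k → ℂ) =>
          eval (Sum.elim p.2.1 p.2.2) (G i p.1) := fun i => (coverPoly_diff hS (hG i)).continuous
      exact (MvPolynomial.continuous_eval _).comp (continuous_pi h1)
    obtain ⟨p', hp', h1, h2⟩ := exists_near hS hm (fun j => (diff_eval hS (hF j)).continuous)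
      (diff_eval hS hT) hT0 hΦ hp hne
    refine ⟨p', hp', ?_⟩
    simp only [map_mul, map_pow, eval_rename]
    have h3 : (Sum.elim p'.2.1 p'.2.2 ∘ Sum.inl : ι → ℂ) = p'.2.1 := by
      funext i
      rfl
    rw [h3, eval_homog hPd]
    rw [eval_pow_vars] at h1
    exact mul_ne_zero (pow_ne_zero _ (pow_ne_zero _ h2)) h1

omit [Fintype ι] in
theorem nonzero_of_iitaka {a : ι → ℤ} {La : LineBundle Γ} {r : ℕ}
    (h : IitakaGE u S c e A m F a La r) :
    ∃ q : ℕ, 1 ≤ q ∧ ∃ G : V → MvPolynomial (ι ⊕ Fin k) ℂ,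
      IsCoverPoly u c e A (fun i => q * a i) (fun γ v => La.e γ v ^ q) G ∧ NonzeroOn S m F G := by
  obtain ⟨q, hq, G, hG, hP⟩ := h
  obtain ⟨p, hp, hne⟩ := hP 1 (X 0) (isHomogeneous_X _ _) (X_ne_zero _)
  rw [eval_X] at hne
  exact ⟨q, hq, G 0, hG 0, p.1, p.2.1, p.2.2, hp.1, hp.2, hne⟩

end Pool.Agent.U976.TBd
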