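import Pool.Agent.U976.TBd.CP3

/-!
# The inequality of Campana and Peternell on Kummer covers of toric bundles over torus quotients
-/

set_option autoImplicit false

namespace Pool.Agent.U976.TBd

open Pool.Agent.W594.SYZ2 Pool.Agent.W594.SYZ2.TQ Pool.Agent.TH735.AQ Q47.MM Q47.TB Q47.EB
open MvPolynomial

variable {V : Type*} [NormedAddCommGroup V] [NormedSpace ℂ V] [FiniteDimensional ℂ V]
  {Γ : Subgroup (V ≃ᵃ[ℂ] V)}
  {ι : Type*} [Fintype ι] {n k : ℕ} {u : ι → Fin n → ℤ} {S : Set (Set ι)} {c : ι → LineBundle Γ}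
  {e : Fin k → ι → ℤ} {A : Fin k → LineBundle Γ} {m : Fin k → ℕ}
  {F : Fin k → V → MvPolynomial ι ℂ}

/-- If a positive multiple of an adjoint line bundle is numerically the sum of `A`, `κ(A) ≥ 0`, and of
a pseudo-effective line bundle then a multiple is the sum of a positive multiple of `A` and an
effective line bundle, so that its Iitaka dimension is at least the one of `A`. -/
theorem cp_main {ρ : V → ℂ} {T : ι → ℤ} {Mt : ℕ} {Ft : V → MvPolynomial ι ℂ} {D : ι → ℤ}
    {L : LineBundle Γ} {Hc : ι → V → V → ℂ} {H : V → V → ℂ}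
    (hΓ : IsTorusQuotient Γ) (hρ : IsRamification Γ ρ)
    (hS : IsSmoothFan u S) (hc : ∀ i, IsChernForm (c i) (Hc i)) (hm : ∀ j, 1 ≤ m j)
    (hF : ∀ j, IsSection u c (fun i => m j * e j i) (fun γ v => (A j).e γ v ^ m j) (F j))
    (hH : IsChernForm L H)
    (hFt : Q47.TB.IsLogPluricanonical u c Mt ρ T Ft (L.pow (deg' m)))
    (hT : ∀ i, T i - (Mt : ℤ) = deg' m * D i) (hlc : ToricLC S Mt Ft)
    {a b : ι → ℤ} {La Lb : LineBundle Γ} {Ha Hb : V → V → ℂ} (hHa : IsChernForm La Ha)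
    (hHb : IsChernForm Lb Hb) {t : ℕ} (ht : 1 ≤ t)
    (hab : LinEquiv u (fun i => a i + b i) (fun i => t * D i))
    (hf : ∀ v, (Ha v v).re + (Hb v v).re = t * (H v v).re)
    (hB : CoverCurrentPsef u S c e A m F b Lb) {r : ℕ} (hA : IitakaGE u S c e A m F a La r) :
    IitakaGE u S c e A m F D L r ∧ ∃ N w : ℕ, 1 ≤ N ∧ 1 ≤ w ∧ ∃ G : V → MvPolynomial ι ℂ,
      IsSection u c (fun i => N * D i - w * a i)
        (fun γ v => L.e γ v ^ N * (La.e γ v ^ w)⁻¹) G ∧ ∃ v, G v ≠ 0 := by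
  classical
  have key : ∃ N w : ℕ, 1 ≤ N ∧ 1 ≤ w ∧ ∃ G : V → MvPolynomial ι ℂ,
      IsSection u c (fun i => N * D i - w * a i)
        (fun γ v => L.e γ v ^ N * (La.e γ v ^ w)⁻¹) G ∧ ∃ v, G v ≠ 0 := by
    obtain ⟨q, hq, G, hG, hG0⟩ := nonzero_of_iitaka hA
    obtain ⟨M', hM', G', hG', v, hv⟩ := poly_norm hm hF hG hG0
    obtain ⟨w, hw⟩ := hB
    obtain ⟨qB, hq1, hq2⟩ := real_of_metric hΓ hS hc hm hF hHb hw
    have hM := deg_pos hm
    obtain ⟨s, hs⟩ : ∃ s : ℕ, s = M' * q := ⟨_, rfl⟩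
    have hs1 : 1 ≤ s := hs ▸ Nat.mul_pos hM' hq
    have hW1 : 1 ≤ deg' m * s := Nat.mul_pos hM hs1
    have hWr : (0 : ℝ) ≤ ((deg' m * s : ℕ) : ℝ) := Nat.cast_nonneg _
    have hcl : ∀ i, (((deg' m * s : ℕ) : ℤ) * b i : ℤ) + ∑ l, (((deg' m * s : ℕ) : ℝ) * qB l) *
        (u i l : ℝ) = ((deg' m * s : ℕ) : ℝ) * ((b i : ℝ) + ∑ l, qB l * (u i l : ℝ)) := by
      intro i
      rw [mul_add, Finset.mul_sum]
      push_cast
      congr 1
      exact Finset.sum_congr rfl fun l _ => by ring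
    obtain ⟨N, k1, hN, hk1, G1, hG1, hG10⟩ := exists_diff hΓ hρ hS hc (chern_pow' hH (deg' m))
      hFt hlc (a := fun i => ((deg' m * s : ℕ) : ℤ) * a i) (La := La.pow (deg' m * s))
      (chern_pow' hHa (deg' m * s)) (G := fun v => G' v ^ deg' m)
      (isSection_congr (isSection_pow hG' (deg' m)) (fun i => by
        rw [hs]
        push_cast
        ring) (fun γ v => by
        change ((La.e γ v ^ q) ^ M') ^ deg' m = La.e γ v ^ (deg' m * s)
        rw [← pow_mul, ← pow_mul, hs]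
        congr 1
        ring) fun v => rfl) ⟨v, pow_ne_zero _ hv⟩
      (b := fun i => ((deg' m * s : ℕ) : ℤ) * b i)
      (Hb := fun v v' => ((deg' m * s : ℕ) : ℂ) * Hb v v')
      (qB := fun l => ((deg' m * s : ℕ) : ℝ) * qB l)
      (fun i => by
        rw [hcl i]
        exact mul_nonneg hWr (hq1 i))
      (fun v => by
        simp only [hcl]
        rw [nat_re]
        have h1 : ∑ i, ((deg' m * s : ℕ) : ℝ) * ((b i : ℝ) + ∑ l, qB l * (u i l : ℝ)) *
            (Hc i v v).re = ((deg' m * s : ℕ) : ℝ) *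
              ∑ i, ((b i : ℝ) + ∑ l, qB l * (u i l : ℝ)) * (Hc i v v).re := by
          rw [Finset.mul_sum]
          exact Finset.sum_congr rfl fun i _ => by ring
        rw [h1]
        exact mul_le_mul_of_nonneg_left (hq2 v) hWr)
      (t := s * t) (Nat.mul_pos hs1 ht)
      (by
        obtain ⟨r', hr'⟩ := hab
        refine ⟨fun l => ((deg' m * s : ℕ) : ℤ) * r' l, fun i => ?_⟩
        have h1 : a i + b i = t * D i + ∑ l, r' l * u i l := hr' i
        simp only
        rw [hT i]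
        have h2 : ∑ l, ((deg' m * s : ℕ) : ℤ) * r' l * u i l
            = ((deg' m * s : ℕ) : ℤ) * ∑ l, r' l * u i l := by
          rw [Finset.mul_sum]
          exact Finset.sum_congr rfl fun l _ => by ring
        rw [h2]
        push_cast
        linear_combination ((deg' m : ℤ) * s) * h1)
      (fun v => by
        have h1 := hf v
        rw [nat_re, nat_re, nat_re]
        push_cast
        linear_combination ((deg' m : ℝ) * s) * h1)
    refine ⟨N * deg' m, k1 * (deg' m * s), Nat.mul_pos hN hM, Nat.mul_pos hk1 hW1, G1,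
      isSection_congr hG1 (fun i => ?_) (fun γ v => ?_) fun v => rfl, hG10⟩
    · rw [hT]
      push_cast
      ring
    · change (L.e γ v ^ deg' m) ^ N * ((La.e γ v ^ (deg' m * s)) ^ k1)⁻¹ = _
      rw [← pow_mul, ← pow_mul, mul_comm (deg' m) N, mul_comm (deg' m * s) k1]
  obtain ⟨N, w, hN, hw, G, hG, hG0⟩ := key
  exact ⟨iitaka_of_diff hS hm hF hN hw hG hG0 hA, N, w, hN, hw, G, hG, hG0⟩

end Pool.Agent.U976.TBd
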