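import Pool.Agent.U976.TBd.KPDefs

/-!
# The Iitaka dimension of line bundles on Kummer covers of toric bundles over torus quotients
-/

set_option autoImplicit false

namespace Pool.Agent.U976.TBd

open Pool.Agent.W594.SYZ2 MvPolynomial

variable {V : Type*} [NormedAddCommGroup V] [NormedSpace ℂ V] {Γ : Subgroup (V ≃ᵃ[ℂ] V)}
  {ι : Type*} [Fintype ι] {n k : ℕ}


/-- `G` gives a section on `Y'` of the pullback of the line bundle `O_Y(d; f)` on `Y`: a polynomial
`G(v, x, y)` as in `IsCoverSection`, but of any degree in the `y_j` (less than a number `N`). Each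
section on `Y'` is given by such polynomials, products of them give the products of the sections, and
two of them give the same section if their difference is in the ideal generated by the
`y_j ^ m_j - F_j(v, x)`. -/
def IsCoverPoly (u : ι → Fin n → ℤ) (c : ι → LineBundle Γ) (e : Fin k → ι → ℤ)
    (A : Fin k → LineBundle Γ) (d : ι → ℤ) (f : Γ → V → ℂ)
    (G : V → MvPolynomial (ι ⊕ Fin k) ℂ) : Prop :=
  ∃ N : ℕ, IsCoverSection u c e A (fun _ => N) d f G

/-- The Iitaka dimension of the pullback of `O_Y(D; L)` to `Y'` is at least `r`: there are sections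
`G_0, ..., G_r` on `Y'` of a positive power of it such that no nonzero homogeneous polynomial in
`G_0, ..., G_r` is zero at all points of `Y'`, that is, the rational map `(G_0 : ... : G_r)` from `Y'`
to the projective space of dimension `r` is dominant. -/
def IitakaGE (u : ι → Fin n → ℤ) (S : Set (Set ι)) (c : ι → LineBundle Γ)
    (e : Fin k → ι → ℤ) (A : Fin k → LineBundle Γ) (m : Fin k → ℕ)
    (F : Fin k → V → MvPolynomial ι ℂ) (D : ι → ℤ) (L : LineBundle Γ) (r : ℕ) : Prop :=
  ∃ q : ℕ, 1 ≤ q ∧ ∃ G : Fin (r + 1) → V → MvPolynomial (ι ⊕ Fin k) ℂ,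
    (∀ i, IsCoverPoly u c e A (fun i => q * D i) (fun γ v => L.e γ v ^ q) (G i)) ∧
    ∀ (d : ℕ) (P : MvPolynomial (Fin (r + 1)) ℂ), P.IsHomogeneous d → P ≠ 0 →
      ∃ p ∈ CoverSet S m F, eval (fun i => eval (Sum.elim p.2.1 p.2.2) (G i p.1)) P ≠ 0

end Pool.Agent.U976.TBd
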