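import Pool.Agent.U976.TBd.CUDefs

/-!
# The maximum principle on branched covers of discs
-/

set_option autoImplicit false

namespace Pool.Agent.U976.TBd

open Pool.Agent.W594.SYZ2 MvPolynomial Filter Topology Metric

/-- Roots of holomorphic functions of `ζ ^ M`. -/
theorem root_lift {φ : ℂ → ℂ} (hφ : AnalyticAt ℂ φ 0) {m r : ℕ} (hm : 1 ≤ m) (hr : 1 ≤ r) {y : ℂ}
    (hy : y ^ m = φ 0) :
    ∃ η : ℂ → ℂ, AnalyticAt ℂ η 0 ∧ η 0 = y ∧ ∀ᶠ ζ in 𝓝 (0 : ℂ), η ζ ^ m = φ (ζ ^ (m * r)) := by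
  have hM : m * r ≠ 0 := (Nat.mul_pos hm hr).ne'
  have hpw : Tendsto (fun ζ : ℂ => ζ ^ (m * r)) (𝓝 0) (𝓝 0) := by
    have : Continuous fun ζ : ℂ => ζ ^ (m * r) := continuous_pow _
    have h := this.tendsto 0
    rwa [zero_pow hM] at h
  by_cases h0 : ∀ᶠ z in 𝓝 (0 : ℂ), φ z = 0
  · refine ⟨fun _ => 0, analyticAt_const, ?_, ?_⟩
    · have h1 : φ 0 = 0 := h0.self_of_nhds
      rw [h1] at hy
      exact (pow_eq_zero_iff (by omega)).1 hy |>.symm
    · filter_upwards [hpw.eventually h0] with ζ hζ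
      rw [hζ, zero_pow (by omega)]
  · obtain ⟨k, g, hg, hg0, hgk⟩ := hφ.exists_eventuallyEq_pow_smul_nonzero_iff.2 h0
    simp only [sub_zero, smul_eq_mul] at hgk
    obtain ⟨c, hc, hcy⟩ : ∃ c : ℂ, c ^ m = g 0 ∧ (k = 0 → c = y) := by
      by_cases hk : k = 0
      · refine ⟨y, ?_, fun _ => rfl⟩
        have h1 := hgk.self_of_nhds
        rw [hk, pow_zero, one_mul] at h1
        rw [hy, h1]
      · obtain ⟨c, hc⟩ := IsAlgClosed.exists_pow_nat_eq (g 0) (show 0 < m by omega)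
        exact ⟨c, hc, fun h => absurd h hk⟩
    have hgan : AnalyticAt ℂ (fun ζ : ℂ => g (ζ ^ (m * r)) / g 0) 0 := by
      refine AnalyticAt.div ?_ analyticAt_const hg0
      have h1 : AnalyticAt ℂ (fun ζ : ℂ => ζ ^ (m * r)) 0 := analyticAt_id.pow _
      refine AnalyticAt.fun_comp (g := g) ?_ h1
      rw [zero_pow hM]
      exact hg
    have h1 : g ((0 : ℂ) ^ (m * r)) / g 0 = 1 := by
      rw [zero_pow hM, div_self hg0]
    have hslit : ∀ᶠ ζ in 𝓝 (0 : ℂ), g (ζ ^ (m * r)) / g 0 ∈ Complex.slitPlane := by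
      refine hgan.continuousAt.eventually_mem ?_
      rw [h1]
      exact Complex.isOpen_slitPlane.mem_nhds Complex.one_mem_slitPlane
    refine ⟨fun ζ => ζ ^ (r * k) * (c * Complex.exp (Complex.log (g (ζ ^ (m * r)) / g 0) / m)),
      ?_, ?_, ?_⟩
    · refine (analyticAt_id.pow _).mul (analyticAt_const.mul ?_)
      refine AnalyticAt.cexp (AnalyticAt.div (AnalyticAt.clog hgan ?_) analyticAt_const ?_)
      · rw [h1]
        exact Complex.one_mem_slitPlane
      · exact_mod_cast (by omega : m ≠ 0)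
    · simp only [h1, Complex.log_one, zero_div, Complex.exp_zero, mul_one]
      by_cases hk : k = 0
      · rw [hk, mul_zero, pow_zero, one_mul, hcy hk]
      · have h2 : φ 0 = 0 := by
          have h3 := hgk.self_of_nhds
          rwa [zero_pow hk, zero_mul] at h3
        rw [zero_pow (Nat.mul_ne_zero (by omega) hk), zero_mul]
        rw [h2] at hy
        exact ((pow_eq_zero_iff (by omega)).1 hy).symm
    · filter_upwards [hpw.eventually hgk, hslit] with ζ h2 h3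
      have h4 : g (ζ ^ (m * r)) / g 0 ≠ 0 := Complex.slitPlane_ne_zero h3
      rw [h2, mul_pow, mul_pow, ← Complex.exp_nat_mul, mul_div_cancel₀ _
        (by exact_mod_cast (by omega : m ≠ 0)), Complex.exp_log h4, hc, mul_div_cancel₀ _ hg0]
      ring

variable {V : Type*} [NormedAddCommGroup V] [NormedSpace ℂ V] {Γ : Subgroup (V ≃ᵃ[ℂ] V)}
  {ι : Type*} [Fintype ι] {k : ℕ} {S : Set (Set ι)} {m : Fin k → ℕ}
  {F : Fin k → V → MvPolynomial ι ℂ}

/-- The composition with a holomorphic disc. -/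
theorem analytic_comp [FiniteDimensional ℂ V]
    (hF : ∀ j, Differentiable ℂ fun p : V × (ι → ℂ) => eval p.2 (F j p.1))
    {f : ℂ → V × (ι → ℂ)} {z : ℂ} (hf : AnalyticAt ℂ f z) (j : Fin k) :
    AnalyticAt ℂ (fun ζ => eval (f ζ).2 (F j (f ζ).1)) z := by
  have := FiniteDimensional.complete ℂ V
  rw [Complex.analyticAt_iff_eventually_differentiableAt]
  filter_upwards [hf.eventually_analyticAt] with ζ hζ
  exact (hF j (f ζ)).comp ζ hζ.differentiableAt

omit [Fintype ι] in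
theorem norm_sq_add (z w : ℂ) : ‖z + w‖ ^ 2 = ‖z‖ ^ 2 + 2 * ((starRingEnd ℂ) z * w).re + ‖w‖ ^ 2 := by
  rw [← Complex.normSq_eq_norm_sq, ← Complex.normSq_eq_norm_sq, ← Complex.normSq_eq_norm_sq,
    Complex.normSq_add]
  have : (z * (starRingEnd ℂ) w).re = ((starRingEnd ℂ) z * w).re := by
    simp [Complex.mul_re]
  rw [this]
  ring

/-- The maximum principle: a bound for all points over the circle holds for the points over the
centre. -/
theorem cover_max [FiniteDimensional ℂ V] (hm : ∀ j, 1 ≤ m j)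
    (hF : ∀ j, Differentiable ℂ fun p : V × (ι → ℂ) => eval p.2 (F j p.1))
    {w : V × (ι → ℂ) × (Fin k → ℂ) → ℝ} (hw : IsLogPsh (CoverSet S m F) w)
    {f : ℂ → V × (ι → ℂ)} (hf : AnalyticOnNhd ℂ f (closedBall 0 1)) {P : ℂ → ℂ}
    (hP : AnalyticOnNhd ℂ P (closedBall 0 1)) (hS : ∀ z, ‖z‖ ≤ 1 → {i | (f z).2 i = 0} ∈ S)
    (hb : ∀ z, ‖z‖ = 1 → ∀ y : Fin k → ℂ, (∀ j, y j ^ m j = eval (f z).2 (F j (f z).1)) →
      w ((f z).1, (f z).2, y) ≤ Real.exp (P z).re)
    {y : Fin k → ℂ} (hy : ∀ j, y j ^ m j = eval (f 0).2 (F j (f 0).1)) :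
    w ((f 0).1, (f 0).2, y) ≤ Real.exp (P 0).re := by
  classical
  by_contra hcon
  push Not at hcon
  -- the compact set
  let φ : Fin k → ℂ → ℂ := fun j z => eval (f z).2 (F j (f z).1)
  have hφ : ∀ j, AnalyticOnNhd ℂ (φ j) (closedBall 0 1) := fun j z hz =>
    analytic_comp hF (hf z hz) j
  let C : Set (ℂ × (Fin k → ℂ)) := {p | p.1 ∈ closedBall (0 : ℂ) 1 ∧ ∀ j, p.2 j ^ m j = φ j p.1}
  have hCc : IsCompact C := by
    have hb1 : ∀ j, ∃ B : ℝ, ∀ z ∈ closedBall (0 : ℂ) 1, ‖φ j z‖ ≤ B := fun j =>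
      (isCompact_closedBall (0 : ℂ) 1).exists_bound_of_continuousOn (hφ j).continuousOn
    choose B hB using hb1
    have h1 : C ⊆ closedBall (0 : ℂ) 1 ×ˢ (Set.univ.pi fun j => closedBall (0 : ℂ) (1 + |B j|)) := by
      rintro ⟨z, y⟩ ⟨hz, hy⟩
      refine ⟨hz, fun j _ => ?_⟩
      rw [mem_closedBall_zero_iff]
      have h2 : ‖y j‖ ^ m j ≤ |B j| := by
        rw [← norm_pow, hy j]
        exact (hB j z hz).trans (le_abs_self _)
      by_contra h3
      push Not at h3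
      have h4 : 1 ≤ ‖y j‖ := by
        have := abs_nonneg (B j)
        linarith
      have h5 := le_self_pow₀ h4 (show m j ≠ 0 by have := hm j; omega)
      linarith
    have h2 : IsClosed C := by
      have h3 : C = {p | p.1 ∈ closedBall (0 : ℂ) 1} ∩ ⋂ j,
          {p : ℂ × (Fin k → ℂ) | p.1 ∈ closedBall (0 : ℂ) 1 ∧ p.2 j ^ m j - φ j p.1 = 0} := by
        ext p
        simp only [Set.mem_inter_iff, Set.mem_iInter, Set.mem_ofPred_eq, C]
        constructor
        · rintro ⟨h4, h5⟩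
          exact ⟨h4, fun j => ⟨h4, sub_eq_zero.2 (h5 j)⟩⟩
        · rintro ⟨h4, h5⟩
          exact ⟨h4, fun j => sub_eq_zero.1 (h5 j).2⟩
      rw [h3]
      have h4 : IsClosed {p : ℂ × (Fin k → ℂ) | p.1 ∈ closedBall (0 : ℂ) 1} :=
        isClosed_closedBall.preimage continuous_fst
      refine h4.inter (isClosed_iInter fun j => ?_)
      have h5 : ContinuousOn (fun p : ℂ × (Fin k → ℂ) => p.2 j ^ m j - φ j p.1)
          {p | p.1 ∈ closedBall (0 : ℂ) 1} := by
        refine ContinuousOn.sub (Continuous.continuousOn (by fun_prop)) ?_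
        exact (hφ j).continuousOn.comp continuous_fst.continuousOn fun p hp => hp
      exact h5.preimage_isClosed_of_isClosed h4 isClosed_singleton
    exact ((isCompact_closedBall (0 : ℂ) 1).prod
      (isCompact_univ_pi fun j => isCompact_closedBall (0 : ℂ) (1 + |B j|))).of_isClosed_subset h2 h1
  -- choose ε
  obtain ⟨ε, hε, hε1⟩ : ∃ ε : ℝ, 0 < ε ∧
      Real.exp (P 0).re * Real.exp ε < w ((f 0).1, (f 0).2, y) := by
    have h1 : Tendsto (fun ε : ℝ => Real.exp (P 0).re * Real.exp ε) (𝓝[>] 0)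
        (𝓝 (Real.exp (P 0).re * Real.exp 0)) := by
      refine Tendsto.mono_left ?_ nhdsWithin_le_nhds
      exact ((continuous_const.mul Real.continuous_exp).tendsto 0)
    rw [Real.exp_zero, mul_one] at h1
    have h2 := h1.eventually_lt_const hcon
    obtain ⟨ε, h3, h4⟩ := (h2.and self_mem_nhdsWithin).exists
    exact ⟨ε, h4, h3⟩
  let q : ℂ × (Fin k → ℂ) → V × (ι → ℂ) × (Fin k → ℂ) := fun p => ((f p.1).1, (f p.1).2, p.2)
  have hqm : ∀ p ∈ C, q p ∈ CoverSet S m F := fun p hp =>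
    ⟨hS p.1 (by simpa using hp.1), hp.2⟩
  have hqc : ContinuousOn q C := by
    have h1 : ContinuousOn (fun p : ℂ × (Fin k → ℂ) => f p.1) C :=
      hf.continuousOn.comp continuous_fst.continuousOn fun p hp => hp.1
    exact (continuous_fst.comp_continuousOn h1).prodMk
      ((continuous_snd.comp_continuousOn h1).prodMk continuous_snd.continuousOn)
  let c : ℂ × (Fin k → ℂ) → ℝ := fun p => Real.exp (-(P p.1).re + ε * ‖p.1‖ ^ 2)
  have hcc : ContinuousOn c C := by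
    have h1 : ContinuousOn (fun p : ℂ × (Fin k → ℂ) => P p.1) C :=
      hP.continuousOn.comp continuous_fst.continuousOn fun p hp => hp.1
    refine Real.continuous_exp.comp_continuousOn (ContinuousOn.add ?_ ?_)
    · exact (Complex.continuous_re.comp_continuousOn h1).neg
    · exact Continuous.continuousOn (by fun_prop)
  have hc0 : ∀ p, 0 < c p := fun p => Real.exp_pos _
  have husc : UpperSemicontinuousOn (fun p => w (q p) * c p) C := by
    intro p hp a ha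
    have h1 : w (q p) < a / c p := (lt_div_iff₀ (hc0 p)).2 ha
    obtain ⟨b, hb1, hb2⟩ := exists_between h1
    have hb0 : 0 < b := lt_of_le_of_lt (hw.nonneg _ (hqm p hp)) hb1
    have h2 : c p < a / b := by
      rw [lt_div_iff₀ (hc0 p)] at hb2
      rw [lt_div_iff₀ hb0, mul_comm]
      exact hb2
    have h3 : UpperSemicontinuousOn (w ∘ q) C := hw.usc.comp hqc hqm
    have h4 := h3 p hp b hb1
    have h5 := (hcc p hp).eventually_lt_const h2
    filter_upwards [h4, h5] with p' h6 h7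
    calc w (q p') * c p' ≤ b * c p' := mul_le_mul_of_nonneg_right (le_of_lt h6) (hc0 p').le
      _ < b * (a / b) := mul_lt_mul_of_pos_left h7 hb0
      _ = a := mul_div_cancel₀ _ hb0.ne'
  have hmem : ((0 : ℂ), y) ∈ C := ⟨by simp, hy⟩
  obtain ⟨⟨z1, y1⟩, hz1, hmax⟩ := husc.exists_isMaxOn ⟨_, hmem⟩ hCc
  obtain ⟨M1, hM1⟩ : ∃ M1, M1 = w (q (z1, y1)) * c (z1, y1) := ⟨_, rfl⟩
  have hmax' : ∀ p ∈ C, w (q p) * c p ≤ M1 := fun p hp => by rw [hM1]; exact hmax hp
  have hbig : Real.exp ε < M1 := by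
    refine lt_of_lt_of_le ?_ (hmax' _ hmem)
    have h1 : c (0, y) = (Real.exp (P 0).re)⁻¹ := by
      simp [c, Real.exp_neg]
    rw [h1, ← div_eq_mul_inv, lt_div_iff₀ (Real.exp_pos _), mul_comm]
    exact hε1
  have hM1p : 0 < M1 := (Real.exp_pos _).trans hbig
  have hz1' : ‖z1‖ < 1 := by
    have h1 : ‖z1‖ ≤ 1 := by simpa using hz1.1
    refine lt_of_le_of_ne h1 fun h2 => ?_
    have h3 := hb z1 h2 y1 hz1.2
    have h4 : M1 ≤ Real.exp ε := by
      rw [hM1]
      have h5 : c (z1, y1) = (Real.exp (P z1).re)⁻¹ * Real.exp ε := by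
        simp only [c]
        rw [h2, one_pow, mul_one, Real.exp_add, Real.exp_neg]
      rw [h5, ← mul_assoc]
      refine mul_le_of_le_one_left (Real.exp_pos _).le ?_
      rw [← div_eq_mul_inv, div_le_one (Real.exp_pos _)]
      exact h3
    exact absurd hbig (not_lt.2 h4)
  -- the local disc
  obtain ⟨N, hN⟩ : ∃ N, N = ∏ j, m j := ⟨_, rfl⟩
  have hN1 : 1 ≤ N := hN ▸ Finset.one_le_prod' fun j _ => hm j
  have hlift : ∀ j, ∃ η : ℂ → ℂ, AnalyticAt ℂ η 0 ∧ η 0 = y1 j ∧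
      ∀ᶠ ζ in 𝓝 (0 : ℂ), η ζ ^ m j = φ j (z1 + ζ ^ N) := by
    intro j
    have h1 : AnalyticAt ℂ (fun z => φ j (z1 + z)) 0 := by
      refine AnalyticAt.fun_comp (g := φ j) ?_ (analyticAt_const.add analyticAt_id)
      simp only [id, add_zero]
      exact hφ j z1 hz1.1
    have h2 := root_lift (φ := fun z => φ j (z1 + z)) h1 (hm j)
      (r := ∏ l ∈ Finset.univ.erase j, m l) (Finset.one_le_prod' fun l _ => hm l) (y := y1 j) (by
        rw [add_zero]
        exact hz1.2 j)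
    rw [Finset.mul_prod_erase Finset.univ m (Finset.mem_univ j), ← hN] at h2
    exact h2
  choose η hη hη0 hηe using hlift
  have hall : ∀ᶠ ζ in 𝓝 (0 : ℂ), (∀ j, AnalyticAt ℂ (η j) ζ) ∧
      (∀ j, η j ζ ^ m j = φ j (z1 + ζ ^ N)) ∧ ‖z1 + ζ ^ N‖ < 1 := by
    refine (eventually_all.2 fun j => (hη j).eventually_analyticAt).and
      ((eventually_all.2 hηe).and ?_)
    have h1 : Continuous fun ζ : ℂ => ‖z1 + ζ ^ N‖ := by fun_prop
    have h2 := h1.tendsto 0
    simp only [zero_pow (show N ≠ 0 by omega), add_zero] at h2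
    exact h2.eventually_lt_const hz1'
  obtain ⟨r, hr, hrball⟩ := Metric.nhds_basis_closedBall.eventually_iff.1 hall
  have hrm : ∀ ζ : ℂ, ‖ζ‖ ≤ 1 → (r : ℂ) * ζ ∈ closedBall (0 : ℂ) r := by
    intro ζ hζ
    rw [mem_closedBall_zero_iff, norm_mul, Complex.norm_real, Real.norm_eq_abs, abs_of_pos hr]
    exact mul_le_of_le_one_right hr.le hζ
  let g : ℂ → ℂ := fun ζ => z1 + ((r : ℂ) * ζ) ^ N
  have hg : ∀ ζ, AnalyticAt ℂ g ζ := fun ζ =>
    analyticAt_const.add ((analyticAt_const.mul analyticAt_id).pow N)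
  have hg0 : g 0 = z1 := by simp [g, zero_pow (show N ≠ 0 by omega)]
  have hgb : ∀ ζ, ‖ζ‖ ≤ 1 → g ζ ∈ closedBall (0 : ℂ) 1 := fun ζ hζ => by
    rw [mem_closedBall_zero_iff]
    exact (hrball (hrm ζ hζ)).2.2.le
  let f' : ℂ → V × (ι → ℂ) × (Fin k → ℂ) :=
    fun ζ => ((f (g ζ)).1, (f (g ζ)).2, fun j => η j ((r : ℂ) * ζ))
  have hf' : AnalyticOnNhd ℂ f' (closedBall 0 1) := by
    intro ζ hζ
    rw [mem_closedBall_zero_iff] at hζ
    have h1 : AnalyticAt ℂ (fun ζ => f (g ζ)) ζ :=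
      AnalyticAt.fun_comp (g := f) (hf (g ζ) (hgb ζ hζ)) (hg ζ)
    refine (analyticAt_fst.fun_comp h1).prod ((analyticAt_snd.fun_comp h1).prod ?_)
    rw [analyticAt_pi_iff]
    intro j
    exact AnalyticAt.fun_comp (g := η j) ((hrball (hrm ζ hζ)).1 j) (analyticAt_const.mul analyticAt_id)
  let P' : ℂ → ℂ := fun ζ => P (g ζ) + ((Real.log M1 - ε * ‖z1‖ ^ 2 - ε * (r ^ N) ^ 2 : ℝ) : ℂ)
    - ((2 * ε : ℝ) : ℂ) * ((starRingEnd ℂ) z1 * ((r : ℂ) * ζ) ^ N)
  have hP' : AnalyticOnNhd ℂ P' (closedBall 0 1) := by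
    intro ζ hζ
    rw [mem_closedBall_zero_iff] at hζ
    have h1 : AnalyticAt ℂ (fun ζ => P (g ζ)) ζ :=
      AnalyticAt.fun_comp (g := P) (hP (g ζ) (hgb ζ hζ)) (hg ζ)
    exact (h1.add analyticAt_const).sub (analyticAt_const.mul (analyticAt_const.mul
      ((analyticAt_const.mul analyticAt_id).pow N)))
  have hP're : ∀ ζ, (P' ζ).re = (P (g ζ)).re + (Real.log M1 - ε * ‖z1‖ ^ 2 - ε * (r ^ N) ^ 2)
      - 2 * ε * ((starRingEnd ℂ) z1 * ((r : ℂ) * ζ) ^ N).re := by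
    intro ζ
    simp only [P']
    rw [Complex.sub_re, Complex.add_re, Complex.ofReal_re, Complex.re_ofReal_mul]
  have hf'Z : ∀ ζ, ‖ζ‖ ≤ 1 → f' ζ ∈ CoverSet S m F := fun ζ hζ =>
    ⟨hS (g ζ) (by simpa using hgb ζ hζ), fun j => (hrball (hrm ζ hζ)).2.1 j⟩
  have hfin := hw.disc f' P' hf' hP' hf'Z fun ζ hζ => by
    have h1 : (g ζ, fun j => η j ((r : ℂ) * ζ)) ∈ C :=
      ⟨hgb ζ hζ.le, fun j => (hrball (hrm ζ hζ.le)).2.1 j⟩
    have h2 := hmax' _ h1
    have h3 : w (q (g ζ, fun j => η j ((r : ℂ) * ζ)))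
        ≤ M1 * Real.exp ((P (g ζ)).re - ε * ‖g ζ‖ ^ 2) := by
      have h4 : c (g ζ, fun j => η j ((r : ℂ) * ζ))
          = (Real.exp ((P (g ζ)).re - ε * ‖g ζ‖ ^ 2))⁻¹ := by
        rw [← Real.exp_neg]
        simp only [c]
        congr 1
        ring
      rw [h4, ← div_eq_mul_inv, div_le_iff₀ (Real.exp_pos _)] at h2
      exact h2
    refine h3.trans (le_of_eq ?_)
    rw [hP're ζ]
    have h5 : ‖g ζ‖ ^ 2 = ‖z1‖ ^ 2 + 2 * ((starRingEnd ℂ) z1 * ((r : ℂ) * ζ) ^ N).re + (r ^ N) ^ 2 := by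
      simp only [g]
      rw [norm_sq_add, norm_pow, norm_mul, hζ, mul_one, Complex.norm_real, Real.norm_eq_abs,
        abs_of_pos hr]
    rw [h5]
    have h6 : M1 = Real.exp (Real.log M1) := (Real.exp_log hM1p).symm
    conv_lhs => rw [h6]
    rw [← Real.exp_add]
    congr 1
    ring
  have hf0 : f' 0 = q (z1, y1) := by
    simp only [f', q, hg0, mul_zero]
    have : (fun j => η j 0) = y1 := funext hη0
    rw [this]
  rw [hf0, hP're 0, hg0, mul_zero, zero_pow (show N ≠ 0 by omega), mul_zero, Complex.zero_re,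
    mul_zero, sub_zero] at hfin
  have h1 : w (q (z1, y1)) = M1 * Real.exp ((P z1).re - ε * ‖z1‖ ^ 2) := by
    have h4 : c (z1, y1) = (Real.exp ((P z1).re - ε * ‖z1‖ ^ 2))⁻¹ := by
      rw [← Real.exp_neg]
      simp only [c]
      congr 1
      ring
    rw [hM1, h4, mul_assoc, inv_mul_cancel₀ (Real.exp_pos _).ne', mul_one]
  rw [h1] at hfin
  have h6 : M1 = Real.exp (Real.log M1) := (Real.exp_log hM1p).symm
  conv_lhs at hfin => rw [h6]
  rw [← Real.exp_add, Real.exp_le_exp] at hfin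
  have h7 : 0 < ε * (r ^ N) ^ 2 := by positivity
  linarith

end Pool.Agent.U976.TBd
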