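import Pool.Agent.U976.TBd.K3
import Mathlib.Analysis.LocallyConvex.Separation

/-!
# Real exponents from a system of bounds
-/

set_option autoImplicit false

namespace Pool.Agent.U976.TBd

open Q47.TB Filter Topology

variable {ι : Type*} [Fintype ι] {n : ℕ}

/-- The vectors orthogonal to all relations between the rays are given by characters. -/
theorem char_of_orth {u : ι → Fin n → ℤ} {S : Set (Set ι)} (hS : IsSmoothFan u S) (b : ι → ℝ)
    (h : ∀ μ : ι → ℝ, (∀ l, ∑ i, μ i * (u i l : ℝ) = 0) → ∑ i, μ i * b i = 0) :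
    ∃ q : Fin n → ℝ, ∀ i, b i = ∑ l, q l * (u i l : ℝ) := by
  classical
  choose a ha using fun k : Fin n => (hS.rep fun j => if j = k then 1 else 0).exists
  have e1 : ∀ k j, ∑ i, (a k i : ℝ) * (u i j : ℝ) = if j = k then (1 : ℝ) else 0 := by
    intro k j
    have := (ha k).2 j
    have e2 : ((∑ i, (a k i : ℤ) * u i j : ℤ) : ℝ) = ((if j = k then (1 : ℤ) else 0 : ℤ) : ℝ) := by
      rw [this]
    push_cast at e2
    exact e2
  refine ⟨fun k => ∑ j, (a k j : ℝ) * b j, fun i => ?_⟩
  have h1 := h (fun j => (if j = i then 1 else 0) - ∑ k, (u i k : ℝ) * a k j) (fun l => by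
    simp only [sub_mul, Finset.sum_sub_distrib, Finset.sum_mul]
    rw [Finset.sum_comm]
    have h2 : ∀ k, ∑ j, (u i k : ℝ) * (a k j : ℝ) * (u j l : ℝ)
        = (u i k : ℝ) * if l = k then (1 : ℝ) else 0 := by
      intro k
      rw [← e1 k l, Finset.mul_sum]
      exact Finset.sum_congr rfl fun j _ => by ring
    simp only [h2]
    simp)
  simp only [sub_mul, Finset.sum_sub_distrib, ite_mul, one_mul, zero_mul, Finset.sum_ite_eq',
    Finset.mem_univ, if_true, Finset.sum_mul] at h1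
  rw [Finset.sum_comm] at h1
  have h2 : b i = ∑ k, ∑ j, (u i k : ℝ) * (a k j : ℝ) * b j := by linarith
  rw [h2]
  refine Finset.sum_congr rfl fun k _ => ?_
  rw [Finset.sum_mul]
  exact Finset.sum_congr rfl fun j _ => by ring

/-- A monotone system of bounds gives a real exponent. -/
theorem real_exponent {u : ι → Fin n → ℤ} {S : Set (Set ι)} (hS : IsSmoothFan u S) (D : ι → ℝ)
    {W : Type*} (h : W → ι → ℝ) (hL : W → ℝ)
    (hscale : ∀ (a : ℝ) (w : W), 0 ≤ a → ∃ w', h w' = a • h w ∧ hL w' = a * hL w)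
    (B : (ι → ℝ) → ℝ → Prop)
    (p1 : ∀ t s s', B t s → s ≤ s' → B t s')
    (p2 : ∀ t t' s, B t s → (∀ i, t' i ≤ t i) → B t' s)
    (p3 : ∀ t s (μ : ι → ℝ), (∀ l, ∑ i, μ i * (u i l : ℝ) = 0) → B t s →
      B (t + μ) (s + ∑ i, μ i * D i))
    (p4 : ∀ t s w, B (t - h w) s → B t (s + hL w))
    (p5 : ∀ t, ∃ s, B t s) (p6 : ∃ t s, ¬ B t s) :
    ∃ q : Fin n → ℝ, (∀ i, 0 ≤ D i + ∑ l, q l * (u i l : ℝ)) ∧
      ∀ w, ∑ i, (D i + ∑ l, q l * (u i l : ℝ)) * h w i ≤ hL w := by
  classical
  let G : Set ((ι → ℝ) × ℝ) := {p | (∃ a : ι → ℝ, (∀ i, 0 ≤ a i) ∧ p = (-a, 0)) ∨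
    (∃ μ : ι → ℝ, (∀ l, ∑ i, μ i * (u i l : ℝ) = 0) ∧ p = (μ, ∑ i, μ i * D i)) ∨
    ∃ w, p = (h w, hL w)}
  let C : AddSubmonoid ((ι → ℝ) × ℝ) := AddSubmonoid.closure G
  have hGC : ∀ p ∈ G, p ∈ C := fun p hp => AddSubmonoid.subset_closure hp
  have hCs : ∀ (a : ℝ), 0 ≤ a → ∀ p ∈ C, a • p ∈ C := by
    intro a ha p hp
    induction hp using AddSubmonoid.closure_induction with
    | mem p hp =>
      refine hGC _ ?_
      rcases hp with ⟨b, hb, rfl⟩ | ⟨μ, hμ, rfl⟩ | ⟨w, rfl⟩
      · refine Or.inl ⟨a • b, fun i => mul_nonneg ha (hb i), ?_⟩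
        ext <;> simp
      · refine Or.inr (Or.inl ⟨a • μ, fun l => ?_, ?_⟩)
        · simp only [Pi.smul_apply, smul_eq_mul, mul_assoc]
          rw [← Finset.mul_sum, hμ l, mul_zero]
        · refine Prod.ext rfl ?_
          simp only [Prod.smul_mk, Pi.smul_apply, smul_eq_mul, mul_assoc]
          rw [← Finset.mul_sum]
      · obtain ⟨w', h1, h2⟩ := hscale a w ha
        refine Or.inr (Or.inr ⟨w', ?_⟩)
        rw [h1, h2]
        rfl
    | zero => rw [smul_zero]; exact C.zero_mem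
    | add p p' _ _ h1 h2 => rw [smul_add]; exact C.add_mem h1 h2
  have hCB : ∀ p ∈ C, ∀ t s, B (t - p.1) s → B t (s + p.2) := by
    intro p hp
    induction hp using AddSubmonoid.closure_induction with
    | mem p hp =>
      intro t s hB
      rcases hp with ⟨b, hb, rfl⟩ | ⟨μ, hμ, rfl⟩ | ⟨w, rfl⟩
      · rw [add_zero]
        refine p2 _ _ _ hB fun i => ?_
        simp only [sub_neg_eq_add, Pi.add_apply]
        linarith [hb i]
      · have := p3 _ _ μ hμ hB
        rwa [sub_add_cancel] at this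
      · exact p4 _ _ _ hB
    | zero =>
      intro t s hB
      simpa using hB
    | add p p' _ _ h1 h2 =>
      intro t s hB
      have h3 : B (t - p.1 - p'.1) s := by
        rwa [Prod.fst_add, ← sub_sub] at hB
      have h4 := h1 _ _ (h2 _ _ h3)
      rwa [Prod.snd_add, add_comm p.2, ← add_assoc]
  -- the point (0, -1) is not in the closure
  have hconv : Convex ℝ (C : Set ((ι → ℝ) × ℝ)) := by
    intro x hx y hy a b ha hb _
    exact C.add_mem (hCs a ha x hx) (hCs b hb y hy)
  have hnot : ((0 : ι → ℝ), (-1 : ℝ)) ∉ closure (C : Set ((ι → ℝ) × ℝ)) := by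
    intro hcl
    obtain ⟨t, s, hts⟩ := p6
    obtain ⟨s1, hs1⟩ := p5 (t + fun _ => 1)
    obtain ⟨N, hN⟩ := exists_nat_gt (2 * (s1 - s))
    have hkey : ∀ N : ℕ, 0 < N → B t (s1 - N / 2) := by
      intro N hN0
      have hNr : (0 : ℝ) < N := by exact_mod_cast hN0
      obtain ⟨p, hpC, hp⟩ := Metric.mem_closure_iff.1 hcl (min (1 / N) (1 / 2)) (by positivity)
      rw [dist_comm, dist_eq_norm, Prod.norm_def, lt_min_iff, max_lt_iff, max_lt_iff] at hp
      obtain ⟨⟨hp1, -⟩, -, hp2⟩ := hp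
      have hstep : ∀ (t' : ι → ℝ) (s' : ℝ), B (t' + fun _ => 1 / (N : ℝ)) s' → B t' (s' - 1 / 2) := by
        intro t' s' hB
        have h1 : B (t' - p.1) s' := p2 _ _ _ hB fun i => by
          have h2 : |p.1 i| ≤ ‖p.1‖ := norm_le_pi_norm p.1 i
          have h3 : ‖p.1‖ < 1 / N := by simpa using hp1
          have h4 := (abs_le.1 h2).1
          simp only [Pi.sub_apply, Pi.add_apply]
          linarith
        refine p1 _ _ _ (hCB p hpC _ _ h1) ?_
        have h5 : |p.2 + 1| < 1 / 2 := by simpa using hp2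
        have := (abs_lt.1 h5).2
        linarith
      have hit : ∀ (j : ℕ) (t' : ι → ℝ) (s' : ℝ), B (t' + fun _ => (j : ℝ) * (1 / (N : ℝ))) s' →
          B t' (s' - j / 2) := by
        intro j
        induction j with
        | zero =>
          intro t' s' hB
          have h2 : (t' + fun _ => ((0 : ℕ) : ℝ) * (1 / (N : ℝ))) = t' := by
            funext i
            simp
          rw [h2] at hB
          simpa using hB
        | succ j ih =>
          intro t' s' hB
          have h1 : B ((t' + fun _ => 1 / (N : ℝ)) + fun _ => (j : ℝ) * (1 / N)) s' := by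
            have h2 : ((t' + fun _ => 1 / (N : ℝ)) + fun _ => (j : ℝ) * (1 / N))
                = t' + fun _ => ((j + 1 : ℕ) : ℝ) * (1 / N) := by
              funext i
              simp only [Pi.add_apply]
              push_cast
              ring
            rwa [h2]
          have h3 := hstep _ _ (ih _ _ h1)
          have h4 : s' - ((j + 1 : ℕ) : ℝ) / 2 = s' - j / 2 - 1 / 2 := by
            push_cast
            ring
          rwa [h4]
      refine hit N t s1 ?_
      have h2 : (fun _ : ι => (N : ℝ) * (1 / (N : ℝ))) = fun _ => 1 := by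
        funext i
        field_simp
      rwa [h2]
    have h1 := hkey (N + 1) (Nat.succ_pos N)
    refine hts (p1 _ _ _ h1 ?_)
    push_cast
    linarith
  obtain ⟨f, c, hf1, hf2⟩ := geometric_hahn_banach_point_closed hconv.closure isClosed_closure hnot
  have hc0 : c < 0 := by
    have := hf2 0 (subset_closure C.zero_mem)
    rwa [map_zero] at this
  have hfC : ∀ p ∈ C, 0 ≤ f p := by
    intro p hp
    by_contra hneg
    push Not at hneg
    have h1 := hf2 ((c / f p) • p) (subset_closure (hCs _ (div_nonneg_of_nonpos hc0.le hneg.le) p hp))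
    rw [map_smul, smul_eq_mul, div_mul_cancel₀ _ hneg.ne] at h1
    exact lt_irrefl _ h1
  obtain ⟨σ, hσ⟩ : ∃ σ, σ = f ((0 : ι → ℝ), (1 : ℝ)) := ⟨_, rfl⟩
  have hσ0 : 0 < σ := by
    have h1 : f ((0 : ι → ℝ), (-1 : ℝ)) = -σ := by
      rw [hσ, ← map_neg]
      congr 1
      ext <;> simp
    rw [h1] at hf1
    linarith
  let β : ι → ℝ := fun i => -f (Pi.single i 1, 0) / σ
  have hf : ∀ (a : ι → ℝ) (b : ℝ), f (a, b) = σ * (b - ∑ i, a i * β i) := by
    intro a b
    have h1 : (a, b) = (∑ i, a i • ((Pi.single i 1 : ι → ℝ), (0 : ℝ))) + b • ((0 : ι → ℝ), (1 : ℝ)) := by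
      refine Prod.ext ?_ ?_
      · simp only [Prod.fst_add, Prod.fst_sum, Prod.smul_mk, smul_zero, add_zero]
        funext j
        rw [Finset.sum_apply]
        simp [Pi.single_apply]
      · simp only [Prod.snd_add, Prod.snd_sum, Prod.smul_mk, smul_zero]
        simp
    rw [h1, map_add, map_sum, map_smul, ← hσ]
    simp only [map_smul, smul_eq_mul, β]
    rw [mul_sub, Finset.mul_sum]
    have h2 : ∀ i, σ * (a i * (-f (Pi.single i 1, 0) / σ)) = -(a i * f (Pi.single i 1, 0)) := by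
      intro i
      field_simp
    simp only [h2, Finset.sum_neg_distrib]
    ring
  have hβC : ∀ p ∈ G, ∑ i, p.1 i * β i ≤ p.2 := by
    intro p hp
    have h1 := hfC p (hGC p hp)
    rw [show p = (p.1, p.2) from rfl, hf] at h1
    have := nonneg_of_mul_nonneg_right h1 hσ0
    linarith
  have hβ0 : ∀ i, 0 ≤ β i := by
    intro i
    have h1 := hβC (-(Pi.single i 1), 0) (Or.inl ⟨Pi.single i 1, fun j => by
      rw [Pi.single_apply]; split_ifs <;> norm_num, rfl⟩)
    simp [Pi.single_apply] at h1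
    exact h1
  obtain ⟨q, hq⟩ := char_of_orth hS (fun i => β i - D i) fun μ hμ => by
    have h1 := hβC (μ, ∑ i, μ i * D i) (Or.inr (Or.inl ⟨μ, hμ, rfl⟩))
    have h2 := hβC (-μ, ∑ i, (-μ) i * D i) (Or.inr (Or.inl ⟨-μ, fun l => by
      simp only [Pi.neg_apply, neg_mul, Finset.sum_neg_distrib, hμ l, neg_zero], rfl⟩))
    simp only [Pi.neg_apply, neg_mul, Finset.sum_neg_distrib] at h2
    simp only [mul_sub, Finset.sum_sub_distrib]
    simp only at h1
    linarith
  have hβq : ∀ i, D i + ∑ l, q l * (u i l : ℝ) = β i := fun i => by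
    have := hq i
    linarith
  refine ⟨q, fun i => by rw [hβq]; exact hβ0 i, fun w => ?_⟩
  simp only [hβq]
  have h1 := hβC (h w, hL w) (Or.inr (Or.inr ⟨w, rfl⟩))
  simp only at h1
  calc ∑ i, β i * h w i = ∑ i, h w i * β i := Finset.sum_congr rfl fun i _ => mul_comm _ _
    _ ≤ _ := h1

end Pool.Agent.U976.TBd
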