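import Pool.Agent.U976.TBd.CU1
import Pool.Agent.U976.TBd.CU2

/-!
# Bounds for the weight of a metric on the torus orbits
-/

set_option autoImplicit false

namespace Pool.Agent.U976.TBd

open Pool.Agent.W594.SYZ2 Pool.Agent.W594.SYZ2.TQ Pool.Agent.TH735.AQ Q47.MM Q47.TB Q47.EB
open MvPolynomial Filter Topology Metric

section Torus

variable {ι : Type*} [Fintype ι] {n : ℕ}

theorem zpow_sum' {κ : Type*} (s : Finset κ) (f : κ → ℤ) {a : ℂ} (ha : a ≠ 0) :
    a ^ (∑ l ∈ s, f l) = ∏ l ∈ s, a ^ f l := by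
  classical
  induction s using Finset.induction_on with
  | empty => simp
  | insert j s hj ih => rw [Finset.sum_insert hj, Finset.prod_insert hj, zpow_add₀ ha, ih]

theorem prod_zpow_lin {u : ι → Fin n → ℤ} {a d : ι → ℤ} (h : LinEquiv u a d) {τ : ι → ℂ}
    (h0 : ∀ i, τ i ≠ 0) (h1 : ∀ l, ∏ i, τ i ^ u i l = 1) : ∏ i, τ i ^ a i = ∏ i, τ i ^ d i := by
  obtain ⟨q, hq⟩ := h
  have h2 : ∀ i, τ i ^ a i = τ i ^ d i * ∏ l, (τ i ^ u i l) ^ q l := by
    intro i
    rw [hq i, zpow_add₀ (h0 i), zpow_sum' _ _ (h0 i)]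
    congr 1
    refine Finset.prod_congr rfl fun l _ => ?_
    rw [mul_comm, zpow_mul]
  simp only [h2, Finset.prod_mul_distrib]
  rw [Finset.prod_comm]
  have h3 : ∀ l, ∏ i, (τ i ^ u i l) ^ q l = 1 := fun l => by
    rw [Finset.prod_zpow, h1 l, one_zpow]
  simp only [h3, Finset.prod_const_one, mul_one]

/-- Sections are homogeneous. -/
theorem eval_torus {u : ι → Fin n → ℤ} {d : ι → ℤ} {p : MvPolynomial ι ℂ}
    (hp : ∀ α ∈ p.support, LinEquiv u (fun i => (α i : ℤ)) d) {τ : ι → ℂ} (h0 : ∀ i, τ i ≠ 0)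
    (h1 : ∀ l, ∏ i, τ i ^ u i l = 1) (x : ι → ℂ) :
    eval (fun i => τ i * x i) p = (∏ i, τ i ^ d i) * eval x p := by
  rw [eval_eq', eval_eq', Finset.mul_sum]
  refine Finset.sum_congr rfl fun α hα => ?_
  have h2 := prod_zpow_lin (hp α hα) h0 h1
  simp only [zpow_natCast] at h2
  simp only [mul_pow, Finset.prod_mul_distrib]
  rw [h2]
  ring

end Torus

variable {V : Type*} [NormedAddCommGroup V] [NormedSpace ℂ V] {Γ : Subgroup (V ≃ᵃ[ℂ] V)}
  {ι : Type*} [Fintype ι] {n k : ℕ} {u : ι → Fin n → ℤ} {S : Set (Set ι)} {c : ι → LineBundle Γ}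
  {e : Fin k → ι → ℤ} {A : Fin k → LineBundle Γ} {m : Fin k → ℕ}
  {F : Fin k → V → MvPolynomial ι ℂ} {D : ι → ℤ} {L : LineBundle Γ}
  {w : V × (ι → ℂ) × (Fin k → ℂ) → ℝ}

/-- The logarithm of the weight of the metric of a line bundle. -/
noncomputable def lw (H : V → V → ℂ) (G : V → ℂ) (v : V) : ℝ :=
  Real.pi / 2 * (H v v).re + (G v).re

theorem norm_e {L : LineBundle Γ} {H : V → V → ℂ} {G : V → ℂ}
    (h : ∀ (γ : Γ) (v : V), ‖L.e γ v‖ ^ 2 =
      Real.exp (Real.pi * (H ((γ : V ≃ᵃ[ℂ] V) v) ((γ : V ≃ᵃ[ℂ] V) v)).re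
        + 2 * (G ((γ : V ≃ᵃ[ℂ] V) v)).re - (Real.pi * (H v v).re + 2 * (G v).re)))
    (γ : Γ) (v : V) : ‖L.e γ v‖ = Real.exp (lw H G ((γ : V ≃ᵃ[ℂ] V) v) - lw H G v) := by
  have h2 : ‖L.e γ v‖ ^ 2 = Real.exp (lw H G ((γ : V ≃ᵃ[ℂ] V) v) - lw H G v) ^ 2 := by
    rw [h, ← Real.exp_nat_mul]
    congr 1
    simp only [lw]
    push_cast
    ring
  exact (pow_left_inj₀ (norm_nonneg _) (Real.exp_pos _).le two_ne_zero).1 h2

/-- The bound `w ≤ e ^ s e ^ ψ` on the set `|x_i| = e ^ (t_i) e ^ (φ_i)`. -/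
def Bd (m : Fin k → ℕ) (F : Fin k → V → MvPolynomial ι ℂ) (φ : ι → V → ℝ) (ψ : V → ℝ)
    (w : V × (ι → ℂ) × (Fin k → ℂ) → ℝ) (t : ι → ℝ) (s : ℝ) : Prop :=
  ∀ (v : V) (x : ι → ℂ) (y : Fin k → ℂ), (∀ i, ‖x i‖ = Real.exp (t i + φ i v)) →
    (∀ j, y j ^ m j = eval x (F j v)) → w (v, x, y) ≤ Real.exp (s + ψ v)

variable {φ : ι → V → ℝ} {ψ : V → ℝ}

omit [NormedAddCommGroup V] [NormedSpace ℂ V] in
theorem mem_cover (hS : IsSmoothFan u S) {v : V} {x : ι → ℂ} {y : Fin k → ℂ} {t : ι → ℝ}
    (hx : ∀ i, ‖x i‖ = Real.exp (t i)) (hy : ∀ j, y j ^ m j = eval x (F j v)) :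
    (v, x, y) ∈ CoverSet S m F := by
  refine ⟨?_, hy⟩
  have : {i | x i = 0} = ∅ := by
    ext i
    simp only [Set.mem_ofPred_eq, Set.mem_empty_iff_false, iff_false]
    intro h
    have h1 := hx i
    rw [h, norm_zero] at h1
    exact (Real.exp_pos _).ne h1
  change {i | x i = 0} ∈ S
  rw [this]
  exact Q47.TB.IsSmoothFan.empty_mem hS

/-- The torus. -/
theorem bd_torus (hS : IsSmoothFan u S)
    (hF : ∀ j, IsSection u c (fun i => m j * e j i) (fun γ v => (A j).e γ v ^ m j) (F j))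
    (hw : IsCoverMetric u S c e A m F D L w) {t : ι → ℝ} {s : ℝ} (h : Bd m F φ ψ w t s)
    {μ : ι → ℝ} (hμ : ∀ l, ∑ i, μ i * (u i l : ℝ) = 0) :
    Bd m F φ ψ w (t + μ) (s + ∑ i, μ i * D i) := by
  intro v x y hx hy
  let τ : ι → ℂ := fun i => ((Real.exp (-μ i) : ℝ) : ℂ)
  have hτ0 : ∀ i, τ i ≠ 0 := fun i => by
    simp only [τ]
    exact_mod_cast (Real.exp_pos _).ne'
  have hz : ∀ i (a : ℤ), τ i ^ a = ((Real.exp (-(μ i * a)) : ℝ) : ℂ) := by
    intro i a
    simp only [τ]
    rw [← Complex.ofReal_zpow, ← Real.rpow_intCast, ← Real.exp_mul]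
    congr 2
    ring
  have hτ1 : ∀ l, ∏ i, τ i ^ u i l = 1 := by
    intro l
    simp only [hz]
    rw [← Complex.ofReal_prod, ← Real.exp_sum, Finset.sum_neg_distrib, hμ l]
    simp
  have hmem := mem_cover hS (t := fun i => (t + μ) i + φ i v) hx hy
  have h1 := hw.torus τ hτ0 hτ1 v x y hmem
  have h2 := h v (fun i => τ i * x i) (fun j => (∏ i, τ i ^ e j i) * y j) (fun i => by
    rw [norm_mul, hx i]
    have h3 : ‖τ i‖ = Real.exp (-μ i) := by
      simp only [τ]
      rw [Complex.norm_real, Real.norm_eq_abs, abs_of_pos (Real.exp_pos _)]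
    rw [h3, ← Real.exp_add]
    congr 1
    simp only [Pi.add_apply]
    ring) (fun j => by
    rw [eval_torus ((hF j).deg v) hτ0 hτ1 x, mul_pow, hy j]
    congr 1
    rw [← Finset.prod_pow]
    refine Finset.prod_congr rfl fun i _ => ?_
    rw [← zpow_natCast, ← zpow_mul, mul_comm])
  rw [h1] at h2
  have h3 : ‖∏ i, τ i ^ D i‖ = Real.exp (-∑ i, μ i * D i) := by
    simp only [hz]
    rw [← Complex.ofReal_prod, ← Real.exp_sum, Finset.sum_neg_distrib, Complex.norm_real,
      Real.norm_eq_abs, abs_of_pos (Real.exp_pos _)]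
  rw [h3] at h2
  have h4 : w (v, x, y) = Real.exp (∑ i, μ i * D i) * (Real.exp (-∑ i, μ i * D i) * w (v, x, y)) := by
    rw [← mul_assoc, ← Real.exp_add, add_neg_cancel, Real.exp_zero, one_mul]
  rw [h4]
  calc Real.exp (∑ i, μ i * D i) * (Real.exp (-∑ i, μ i * D i) * w (v, x, y))
      ≤ Real.exp (∑ i, μ i * D i) * Real.exp (s + ψ v) :=
        mul_le_mul_of_nonneg_left h2 (Real.exp_pos _).le
    _ = _ := by
        rw [← Real.exp_add]
        congr 1
        ring

variable [FiniteDimensional ℂ V]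

/-- Monotonicity in one coordinate. -/
theorem bd_single [DecidableEq ι] (hS : IsSmoothFan u S) (hm : ∀ j, 1 ≤ m j)
    (hF : ∀ j, Differentiable ℂ fun p : V × (ι → ℂ) => eval p.2 (F j p.1))
    (hw : IsLogPsh (CoverSet S m F) w) {t : ι → ℝ} {s : ℝ}
    (h : Bd m F φ ψ w t s) (i0 : ι) {a : ℝ} (ha : a ≤ t i0) :
    Bd m F φ ψ w (Function.update t i0 a) s := by
  rcases ha.eq_or_lt with rfl | hlt
  · rwa [Function.update_eq_self]
  intro v x y hx hy
  obtain ⟨R, hR⟩ : ∃ R, R = Real.exp (t i0 + φ i0 v) := ⟨_, rfl⟩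
  have hR0 : 0 < R := hR ▸ Real.exp_pos _
  obtain ⟨b, hb⟩ : ∃ b : ℂ, b = x i0 / (R : ℂ) := ⟨_, rfl⟩
  have hb1 : ‖b‖ < 1 := by
    have h1 := hx i0
    rw [Function.update_self] at h1
    rw [hb, norm_div, h1, Complex.norm_real, Real.norm_eq_abs, abs_of_pos hR0, div_lt_one hR0, hR]
    exact Real.exp_lt_exp.2 (by linarith)
  have hRb : (R : ℂ) * b = x i0 := by
    rw [hb, mul_div_cancel₀]
    exact_mod_cast hR0.ne'
  have hden : ∀ z : ℂ, ‖z‖ ≤ 1 → 1 + (starRingEnd ℂ) b * z ≠ 0 := by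
    intro z hz h0
    have h1 : (starRingEnd ℂ) b * z = -1 := by linear_combination h0
    have h2 : ‖(starRingEnd ℂ) b * z‖ = 1 := by rw [h1]; simp
    rw [norm_mul, RCLike.norm_conj] at h2
    have h3 : ‖b‖ * ‖z‖ ≤ ‖b‖ := mul_le_of_le_one_right (norm_nonneg _) hz
    linarith
  let g : ℂ → ℂ := fun z => R * (z + b) / (1 + (starRingEnd ℂ) b * z)
  have hg : ∀ z, ‖z‖ ≤ 1 → AnalyticAt ℂ g z := fun z hz =>
    (analyticAt_const.mul (analyticAt_id.add analyticAt_const)).div
      (analyticAt_const.add (analyticAt_const.mul analyticAt_id)) (hden z hz)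
  have hgn : ∀ z, ‖z‖ = 1 → ‖g z‖ = R := by
    intro z hz
    have h1 : ‖z + b‖ = ‖1 + (starRingEnd ℂ) b * z‖ := by
      refine (pow_left_inj₀ (norm_nonneg _) (norm_nonneg _) two_ne_zero).1 ?_
      rw [norm_sq_add, norm_sq_add, norm_mul, RCLike.norm_conj, hz, map_one, one_mul, norm_one]
      have h2 : ((starRingEnd ℂ) z * b).re = ((starRingEnd ℂ) b * z).re := by
        simp [Complex.mul_re]
        ring
      rw [h2]
      ring
    have h3 : ‖1 + (starRingEnd ℂ) b * z‖ ≠ 0 := norm_ne_zero_iff.2 (hden z hz.le)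
    simp only [g]
    rw [norm_div, norm_mul, h1, mul_div_cancel_right₀ _ h3, Complex.norm_real, Real.norm_eq_abs,
      abs_of_pos hR0]
  have h0 : Function.update x i0 (g 0) = x := by
    have : g 0 = x i0 := by
      simp only [g, mul_zero, add_zero, zero_add, div_one]
      exact hRb
    rw [this, Function.update_eq_self]
  have hmax := cover_max (S := S) (f := fun z => (v, Function.update x i0 (g z)))
    (P := fun _ => ((s + ψ v : ℝ) : ℂ)) hm hF hw (fun z hz => by
      rw [mem_closedBall_zero_iff] at hz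
      refine analyticAt_const.prod ?_
      rw [analyticAt_pi_iff]
      intro i
      by_cases hi : i = i0
      · subst hi
        simpa using hg z hz
      · simp only [Function.update_of_ne hi]
        exact analyticAt_const)
    (fun z _ => analyticAt_const) (fun z _ => by
      refine hS.face _ (hS.ray i0) _ fun i hi => ?_
      by_contra hne
      have hne' : i ≠ i0 := hne
      have h1 : x i = 0 := by
        have h2 : Function.update x i0 (g z) i = 0 := hi
        rwa [Function.update_of_ne hne'] at h2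
      have h2 := hx i
      rw [h1, norm_zero] at h2
      exact (Real.exp_pos _).ne h2)
    (fun z hz y' hy' => by
      rw [Complex.ofReal_re]
      refine h v _ y' (fun i => ?_) hy'
      by_cases hi : i = i0
      · subst hi
        simp only [Function.update_self]
        rw [hgn z hz, hR]
      · have h2 := hx i
        simp only [Function.update_of_ne hi] at h2 ⊢
        exact h2)
    (y := y) (fun j => by
      simp only [h0]
      exact hy j)
  simp only [h0, Complex.ofReal_re] at hmax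
  exact hmax

/-- Monotonicity. -/
theorem bd_mono (hS : IsSmoothFan u S) (hm : ∀ j, 1 ≤ m j)
    (hF : ∀ j, Differentiable ℂ fun p : V × (ι → ℂ) => eval p.2 (F j p.1))
    (hw : IsLogPsh (CoverSet S m F) w) {t t' : ι → ℝ} {s : ℝ}
    (h : Bd m F φ ψ w t s) (ht : ∀ i, t' i ≤ t i) : Bd m F φ ψ w t' s := by
  classical
  have h1 : ∀ T : Finset ι, Bd m F φ ψ w (fun i => if i ∈ T then t' i else t i) s := by
    intro T
    induction T using Finset.induction_on with
    | empty => simpa using h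
    | insert j T hj ih =>
      have h2 := bd_single hS hm hF hw ih j (a := t' j) (by
        simp only [if_neg hj]
        exact ht j)
      have h3 : Function.update (fun i => if i ∈ T then t' i else t i) j (t' j)
          = fun i => if i ∈ insert j T then t' i else t i := by
        funext i
        by_cases hi : i = j
        · subst hi
          simp
        · rw [Function.update_of_ne hi]
          simp [hi]
      rwa [h3] at h2
  have h2 := h1 Finset.univ
  simpa using h2

/-- Translations of the base. -/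
theorem bd_horiz (hS : IsSmoothFan u S) (hm : ∀ j, 1 ≤ m j)
    (hF : ∀ j, Differentiable ℂ fun p : V × (ι → ℂ) => eval p.2 (F j p.1))
    (hw : IsLogPsh (CoverSet S m F) w) {Hc : ι → V → V → ℂ} {Gc : ι → V → ℂ}
    (hHc : ∀ i, IsHermitian (Hc i)) (hGc : ∀ i, Differentiable ℂ (Gc i)) {H : V → V → ℂ}
    {G : V → ℂ} (hH : IsHermitian H) (hG : Differentiable ℂ G) {t : ι → ℝ} {s : ℝ} (z0 : V)
    (h : Bd m F (fun i => lw (Hc i) (Gc i)) (lw H G) w
      (t - fun i => Real.pi / 2 * (Hc i z0 z0).re) s) :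
    Bd m F (fun i => lw (Hc i) (Gc i)) (lw H G) w t (s + Real.pi / 2 * (H z0 z0).re) := by
  have hcomp := FiniteDimensional.complete ℂ V
  intro v x y hx hy
  have hdiag : ∀ {H : V → V → ℂ}, IsHermitian H → ∀ z : ℂ, (H (v + z • z0) (v + z • z0)).re
      = (H v v).re + ‖z‖ ^ 2 * (H z0 z0).re + 2 * (z * H z0 v).re := by
    intro H hH z
    rw [h_diag_add hH, h_diag_smul hH, h_smul_right hH]
    have h1 : ((starRingEnd ℂ) z * H v z0).re = (z * H z0 v).re := by
      rw [hH.symm v z0]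
      simp [Complex.mul_re]
    rw [h1]
  have han : ∀ {G : V → ℂ}, Differentiable ℂ G → ∀ z : ℂ,
      AnalyticAt ℂ (fun z : ℂ => G (v + z • z0)) z := by
    intro G hG z
    have h1 : Differentiable ℂ fun z : ℂ => G (v + z • z0) :=
      hG.comp ((differentiable_const v).add (differentiable_id.smul_const z0))
    exact h1.analyticAt z
  let f : ℂ → V × (ι → ℂ) := fun z => (v + z • z0, fun i =>
    x i * Complex.exp ((Real.pi : ℂ) * (z * Hc i z0 v) + (Gc i (v + z • z0) - Gc i v)))
  let P : ℂ → ℂ := fun z => ((s + Real.pi / 2 * (H z0 z0).re + Real.pi / 2 * (H v v).re : ℝ) : ℂ)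
    + ((Real.pi : ℂ) * (z * H z0 v) + G (v + z • z0))
  have hf0 : f 0 = (v, x) := by
    simp only [f]
    refine Prod.ext (by simp) ?_
    funext i
    simp
  have hmax := cover_max (S := S) (f := f) (P := P) hm hF hw (fun z _ => by
      refine (analyticAt_const.add (analyticAt_id.smul analyticAt_const)).prod ?_
      rw [analyticAt_pi_iff]
      intro i
      exact analyticAt_const.mul (AnalyticAt.cexp ((analyticAt_const.mul
        (analyticAt_id.mul analyticAt_const)).add ((han (hGc i) z).sub analyticAt_const))))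
    (fun z _ => analyticAt_const.add ((analyticAt_const.mul
        (analyticAt_id.mul analyticAt_const)).add (han hG z)))
    (fun z _ => by
      have h1 : {i | (f z).2 i = 0} = ∅ := by
        ext i
        simp only [f, Set.mem_ofPred_eq, Set.mem_empty_iff_false, iff_false]
        refine mul_ne_zero (fun h0 => ?_) (Complex.exp_ne_zero _)
        have h2 := hx i
        rw [h0, norm_zero] at h2
        exact (Real.exp_pos _).ne h2
      rw [h1]
      exact Q47.TB.IsSmoothFan.empty_mem hS)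
    (fun z hz y' hy' => by
      refine (h _ _ y' (fun i => ?_) hy').trans (le_of_eq ?_)
      · simp only [f, norm_mul, Complex.norm_exp, hx i]
        rw [← Real.exp_add]
        congr 1
        simp only [Pi.sub_apply, lw]
        rw [hdiag (hHc i) z, hz, Complex.add_re, Complex.sub_re, Complex.re_ofReal_mul]
        ring
      · congr 1
        simp only [f, P, lw]
        rw [hdiag hH z, hz, Complex.add_re, Complex.add_re, Complex.re_ofReal_mul,
          Complex.ofReal_re]
        ring)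
    (y := y) (fun j => by
      rw [hf0]
      exact hy j)
  rw [hf0] at hmax
  refine hmax.trans (le_of_eq ?_)
  congr 1
  simp only [P, lw]
  rw [Complex.add_re, Complex.add_re, Complex.ofReal_re]
  simp
  ring

end Pool.Agent.U976.TBd
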