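import Pool.Agent.U976.TBd.K3
import Mathlib.Topology.Semicontinuity.Basic
import Mathlib.Analysis.Complex.CauchyIntegral

/-!
# Singular hermitian metrics on line bundles on Kummer covers of toric bundles

`E` is a normed complex vector space, `Z` an analytic subset of an open subset of `E`.
-/

set_option autoImplicit false

namespace Pool.Agent.U976.TBd

open Pool.Agent.W594.SYZ2 MvPolynomial

/-- The function `log w` (with the values `-∞` where `w = 0`) is plurisubharmonic on `Z`: it is upper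
semicontinuous, and for each holomorphic map `f` of the closed unit disc to `Z` (that is, `f` is
holomorphic near the closed disc) the function `log w (f z)` is subharmonic or `-∞`: if it is at most
the harmonic function `Re P (z)` on the circle `|z| = 1`, `P` holomorphic near the closed disc, then
also at the centre. -/
structure IsLogPsh {E : Type*} [NormedAddCommGroup E] [NormedSpace ℂ E] (Z : Set E) (w : E → ℝ) :
    Prop where
  nonneg : ∀ p ∈ Z, 0 ≤ w p
  usc : UpperSemicontinuousOn w Z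
  disc : ∀ (f : ℂ → E) (P : ℂ → ℂ), AnalyticOnNhd ℂ f (Metric.closedBall 0 1) →
    AnalyticOnNhd ℂ P (Metric.closedBall 0 1) → (∀ z, ‖z‖ ≤ 1 → f z ∈ Z) →
    (∀ z, ‖z‖ = 1 → w (f z) ≤ Real.exp (P z).re) → w (f 0) ≤ Real.exp (P 0).re

variable {V : Type*} [NormedAddCommGroup V] [NormedSpace ℂ V] {Γ : Subgroup (V ≃ᵃ[ℂ] V)}
  {ι : Type*} [Fintype ι] {n k : ℕ}

omit [NormedAddCommGroup V] [NormedSpace ℂ V] [Fintype ι] in
/-- The set of all `(v, x, y)`, `y_j ^ m_j = F_j(v, x)`, such that `{i | x_i = 0}` is a cone of the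
fan. Its quotient is the Kummer cover `Y'`. -/
def CoverSet (S : Set (Set ι)) (m : Fin k → ℕ) (F : Fin k → V → MvPolynomial ι ℂ) :
    Set (V × (ι → ℂ) × (Fin k → ℂ)) :=
  {p | {i | p.2.1 i = 0} ∈ S ∧ ∀ j, p.2.2 j ^ m j = eval p.2.1 (F j p.1)}

/-- `‖s‖² = |s|² / w²` is a singular hermitian metric with semipositive curvature current on the
pullback of the line bundle `O_Y(D; L)` to `Y'`, in the coordinates `(v, x, y)`: the function `w` is
not identically zero, `log w` is plurisubharmonic, and `w` is transformed like `|s|`, `s` a section,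
by `Γ` and by the group of all `t ∈ (ℂ^*)^ι` with `∏ t_i ^ (u_i)_l = 1`, which acts by
`(v, x, y) ↦ (v, (t_i x_i), (t ^ (e_j) y_j))`. -/
structure IsCoverMetric (u : ι → Fin n → ℤ) (S : Set (Set ι)) (c : ι → LineBundle Γ)
    (e : Fin k → ι → ℤ) (A : Fin k → LineBundle Γ) (m : Fin k → ℕ)
    (F : Fin k → V → MvPolynomial ι ℂ) (D : ι → ℤ) (L : LineBundle Γ)
    (w : V × (ι → ℂ) × (Fin k → ℂ) → ℝ) : Prop where
  psh : IsLogPsh (CoverSet S m F) w
  ne_zero : ∃ p ∈ CoverSet S m F, w p ≠ 0
  lattice : ∀ (γ : Γ) (v : V) (x : ι → ℂ) (y : Fin k → ℂ), (v, x, y) ∈ CoverSet S m F →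
    w ((γ : V ≃ᵃ[ℂ] V) v, (fun i => (c i).e γ v * x i), fun j => (A j).e γ v * y j) =
      ‖L.e γ v‖ * w (v, x, y)
  torus : ∀ (t : ι → ℂ), (∀ i, t i ≠ 0) → (∀ l, ∏ i, t i ^ u i l = 1) →
    ∀ (v : V) (x : ι → ℂ) (y : Fin k → ℂ), (v, x, y) ∈ CoverSet S m F →
      w (v, (fun i => t i * x i), fun j => (∏ i, t i ^ e j i) * y j) =
        ‖∏ i, t i ^ D i‖ * w (v, x, y)

/-- The pullback of `O_Y(D; L)` to `Y'` is pseudo-effective: its first Chern class contains a closed
positive current, that is, it has a singular hermitian metric with semipositive curvature current. -/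
def CoverCurrentPsef (u : ι → Fin n → ℤ) (S : Set (Set ι)) (c : ι → LineBundle Γ)
    (e : Fin k → ι → ℤ) (A : Fin k → LineBundle Γ) (m : Fin k → ℕ)
    (F : Fin k → V → MvPolynomial ι ℂ) (D : ι → ℤ) (L : LineBundle Γ) : Prop :=
  ∃ w : V × (ι → ℂ) × (Fin k → ℂ) → ℝ, IsCoverMetric u S c e A m F D L w

end Pool.Agent.U976.TBd
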