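import Pool.Agent.U976.TBd.C

/-!
# Pseudo-effective adjoint line bundles on toric bundles are `ℚ`-effective
-/

set_option autoImplicit false

namespace Pool.Agent.U976.TBd

open Pool.Agent.W594.SYZ2 Pool.Agent.W594.SYZ2.TQ Pool.Agent.TH735.AQ Q47.MM Q47.TB Q47.EB
open MvPolynomial Filter Topology

section Poly

variable {ι : Type*} [Fintype ι] {n : ℕ}

/-- Limits of solutions of perturbed systems of linear inequalities. -/
theorem limit_point {u : ι → Fin n → ℤ} {S : Set (Set ι)} (hS : IsSmoothFan u S) {J : Type*}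
    (d dA : ι → ℝ) (nn a : J → ℝ) (N : ι → J → ℝ)
    (h : ∀ k : ℕ, ∃ q : Fin n → ℝ, (∀ i, 0 ≤ d i + dA i / (k + 1) + ∑ l, q l * (u i l : ℝ)) ∧
      ∀ g, 0 ≤ nn g + a g / (k + 1) -
        ∑ i, (d i + dA i / (k + 1) + ∑ l, q l * (u i l : ℝ)) * N i g) :
    ∃ q : Fin n → ℝ, (∀ i, 0 ≤ d i + ∑ l, q l * (u i l : ℝ)) ∧
      ∀ g, 0 ≤ nn g - ∑ i, (d i + ∑ l, q l * (u i l : ℝ)) * N i g := by
  classical
  choose q h1 h2 using h
  obtain ⟨C, hC, hb⟩ := real_bound hS
  obtain ⟨D, hD0, hD⟩ : ∃ D : ℝ, 0 ≤ D ∧ ∀ i, |d i| + |dA i| ≤ D :=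
    ⟨∑ i, (|d i| + |dA i|), Finset.sum_nonneg fun i _ => by positivity, fun i =>
      Finset.single_le_sum (f := fun i => |d i| + |dA i|) (fun i _ => by positivity)
        (Finset.mem_univ i)⟩
  have hbd : ∀ k l, |q k l| ≤ C * D := by
    intro k
    refine hb (q k) D hD0 fun i => ?_
    have h3 := h1 k i
    have h4 : |dA i / (k + 1)| ≤ |dA i| := by
      rw [abs_div]
      refine div_le_self (abs_nonneg _) ?_
      rw [abs_of_pos (by positivity)]
      linarith [Nat.cast_nonneg (α := ℝ) k]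
    have h5 := hD i
    have h6 := le_abs_self (d i)
    have h7 := le_abs_self (dA i / (k + 1))
    linarith
  have hbdd : Bornology.IsBounded (Metric.closedBall (0 : Fin n → ℝ) (C * D)) :=
    Metric.isBounded_closedBall
  obtain ⟨q0, -, φ, hφ, hlim⟩ := tendsto_subseq_of_bounded hbdd (x := q) fun k => by
    rw [mem_closedBall_zero_iff, pi_norm_le_iff_of_nonneg (by positivity)]
    intro l
    rw [Real.norm_eq_abs]
    exact hbd k l
  have hl : ∀ l, Tendsto (fun k => q (φ k) l) atTop (𝓝 (q0 l)) := fun l =>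
    ((continuous_apply l).tendsto q0).comp hlim
  have hinv : ∀ c : ℝ, Tendsto (fun k => c / ((φ k : ℝ) + 1)) atTop (𝓝 0) := by
    intro c
    have e1 : Tendsto (fun k : ℕ => c / ((k : ℝ) + 1)) atTop (𝓝 0) := by
      have := (tendsto_one_div_add_atTop_nhds_zero_nat (𝕜 := ℝ)).const_mul c
      simpa [div_eq_mul_inv] using this
    exact e1.comp hφ.tendsto_atTop
  have hβ : ∀ i, Tendsto (fun k => d i + dA i / ((φ k : ℝ) + 1) + ∑ l, q (φ k) l * (u i l : ℝ))
      atTop (𝓝 (d i + 0 + ∑ l, q0 l * (u i l : ℝ))) := fun i =>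
    (tendsto_const_nhds.add (hinv _)).add (tendsto_finsetSum _ fun l _ => (hl l).mul_const _)
  refine ⟨q0, fun i => ?_, fun g => ?_⟩
  · have := ge_of_tendsto' (hβ i) fun k => h1 (φ k) i
    rwa [add_zero] at this
  · have h3 : Tendsto (fun k => nn g + a g / ((φ k : ℝ) + 1) -
        ∑ i, (d i + dA i / ((φ k : ℝ) + 1) + ∑ l, q (φ k) l * (u i l : ℝ)) * N i g) atTop
        (𝓝 (nn g + 0 - ∑ i, (d i + 0 + ∑ l, q0 l * (u i l : ℝ)) * N i g)) :=
      (tendsto_const_nhds.add (hinv _)).sub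
        (tendsto_finsetSum _ fun i _ => (hβ i).mul_const _)
    have := ge_of_tendsto' h3 fun k => h2 (φ k) g
    simpa only [add_zero] using this

/-- Real solutions give rational solutions. -/
theorem rational_point {u : ι → Fin n → ℤ} {J : Type*} [Finite J] (d : ι → ℤ) (nn : J → ℤ)
    (N : ι → J → ℤ) (h : ∃ q : Fin n → ℝ, (∀ i, 0 ≤ (d i : ℝ) + ∑ l, q l * (u i l : ℝ)) ∧
      ∀ g, 0 ≤ (nn g : ℝ) - ∑ i, ((d i : ℝ) + ∑ l, q l * (u i l : ℝ)) * N i g) :
    ∃ (k : ℕ) (β : ι → ℕ), 1 ≤ k ∧ LinEquiv u (fun i => (β i : ℤ)) (fun i => k * d i) ∧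
      ∀ g, 0 ≤ (k : ℤ) * nn g - ∑ i, (β i : ℤ) * N i g := by
  classical
  obtain ⟨q, h1, h2⟩ := h
  let rows : Unit ⊕ (ι ⊕ J) → Fin (n + 1) → ℤ :=
    Sum.elim (fun _ => Fin.cons 1 0) (Sum.elim (fun i => Fin.cons (d i) (u i))
      (fun g => Fin.cons (nn g - ∑ i, d i * N i g) fun l => - ∑ i, u i l * N i g))
  have key : ∀ (t : ℝ) (p : Fin n → ℝ) (j : Unit ⊕ (ι ⊕ J)),
      ∑ i, (rows j i : ℝ) * (Fin.cons t p : Fin (n + 1) → ℝ) i =
        Sum.elim (fun _ => t) (Sum.elim (fun i => t * d i + ∑ l, p l * (u i l : ℝ))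
          (fun g => t * nn g - ∑ i, (t * (d i : ℝ) + ∑ l, p l * (u i l : ℝ)) * N i g)) j := by
    rintro t p (j | i | g)
    · rw [Fin.sum_univ_succ]
      simp [rows]
    · rw [Fin.sum_univ_succ]
      simp only [rows, Sum.elim_inr, Sum.elim_inl, Fin.cons_zero, Fin.cons_succ]
      rw [mul_comm]
      congr 1
      exact Finset.sum_congr rfl fun l _ => mul_comm _ _
    · rw [Fin.sum_univ_succ]
      simp only [rows, Sum.elim_inr, Fin.cons_zero, Fin.cons_succ]
      push_cast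
      simp only [add_mul, Finset.sum_add_distrib, Finset.sum_mul, neg_mul, Finset.sum_neg_distrib]
      rw [Finset.sum_comm (s := Finset.univ) (t := Finset.univ)
        (f := fun (l : Fin n) (i : ι) => (u i l : ℝ) * (N i g : ℝ) * p l)]
      have e1 : ∑ i, ∑ l, (u i l : ℝ) * (N i g : ℝ) * p l = ∑ i, ∑ l, p l * (u i l : ℝ) * N i g :=
        Finset.sum_congr rfl fun i _ => Finset.sum_congr rfl fun l _ => by ring
      have e2 : ∑ i, t * (d i : ℝ) * N i g = t * ∑ i, (d i : ℝ) * N i g := by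
        rw [Finset.mul_sum]
        exact Finset.sum_congr rfl fun i _ => by ring
      rw [e1, e2]
      ring
  obtain ⟨κ, hκ, c, b, hc, hb, hbr⟩ := cone_decomp rows (Fin.cons 1 q) (by
    intro j
    rw [key]
    rcases j with j | i | g
    · simp
    · simpa using h1 i
    · simpa using h2 g)
  have hne : Nonempty κ := by
    by_contra hcon
    rw [not_nonempty_iff] at hcon
    have := hb 0
    rw [Finset.univ_eq_empty, Finset.sum_empty] at this
    simp at this
  obtain ⟨x⟩ := hne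
  have hbx : ∀ j, ((∑ i, rows j i * b x i : ℤ) : ℝ) =
      Sum.elim (fun _ => (b x 0 : ℝ)) (Sum.elim
        (fun i => (b x 0 : ℝ) * d i + ∑ l, (b x (Fin.succ l) : ℝ) * (u i l : ℝ))
        (fun g => (b x 0 : ℝ) * nn g - ∑ i, ((b x 0 : ℝ) * (d i : ℝ) +
          ∑ l, (b x (Fin.succ l) : ℝ) * (u i l : ℝ)) * N i g)) j := by
    intro j
    rw [← key]
    push_cast
    refine Finset.sum_congr rfl fun i _ => ?_
    congr 1
    refine Fin.cases ?_ (fun i => ?_) i
    · simp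
    · simp
  have h0 : 0 < b x 0 := by
    have e1 := (hbr x (Sum.inl ())).2 (by rw [key]; simp)
    have e2 := hbx (Sum.inl ())
    simp only [Sum.elim_inl] at e2
    have e3 : ∑ i, rows (Sum.inl ()) i * b x i = b x 0 := by exact_mod_cast e2
    rwa [e3] at e1
  have hpos : ∀ i, 0 ≤ b x 0 * d i + ∑ l, b x (Fin.succ l) * u i l := by
    intro i
    have e1 := (hbr x (Sum.inr (Sum.inl i))).1
    have e2 := hbx (Sum.inr (Sum.inl i))
    simp only [Sum.elim_inl, Sum.elim_inr] at e2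
    have e3 : ∑ j, rows (Sum.inr (Sum.inl i)) j * b x j
        = b x 0 * d i + ∑ l, b x (Fin.succ l) * u i l := by exact_mod_cast e2
    rwa [e3] at e1
  have hk : (((b x 0).toNat : ℕ) : ℤ) = b x 0 := Int.toNat_of_nonneg h0.le
  have hβ : ∀ i, (((b x 0 * d i + ∑ l, b x (Fin.succ l) * u i l).toNat : ℕ) : ℤ)
      = b x 0 * d i + ∑ l, b x (Fin.succ l) * u i l := fun i => Int.toNat_of_nonneg (hpos i)
  refine ⟨(b x 0).toNat, fun i => (b x 0 * d i + ∑ l, b x (Fin.succ l) * u i l).toNat,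
    by omega, ⟨fun l => b x (Fin.succ l), fun i => ?_⟩, fun g => ?_⟩
  · simp only
    rw [hβ i, hk]
  · have e1 := (hbr x (Sum.inr (Sum.inr g))).1
    have e2 := hbx (Sum.inr (Sum.inr g))
    simp only [Sum.elim_inr] at e2
    have e3 : ∑ j, rows (Sum.inr (Sum.inr g)) j * b x j
        = b x 0 * nn g - ∑ i, (b x 0 * d i + ∑ l, b x (Fin.succ l) * u i l) * N i g := by
      exact_mod_cast e2
    rw [e3] at e1
    simp only [hβ, hk]
    exact e1

end Poly

end Pool.Agent.U976.TBd
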