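import Pool.Agent.U976.TBd.D

/-!
# Pseudo-effective adjoint line bundles on toric bundles are `ℚ`-effective
-/

set_option autoImplicit false

namespace Pool.Agent.U976.TBd

open Pool.Agent.W594.SYZ2 Pool.Agent.W594.SYZ2.TQ Pool.Agent.TH735.AQ Q47.MM Q47.TB Q47.EB
open MvPolynomial Filter Topology

variable {V : Type*} [NormedAddCommGroup V] [NormedSpace ℂ V] {Γ : Subgroup (V ≃ᵃ[ℂ] V)}
  {ι : Type*} [Fintype ι] {n : ℕ}

theorem inv_frm [FiniteDimensional ℂ V] {c : ι → LineBundle Γ} {L : LineBundle Γ}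
    {Hc : ι → V → V → ℂ} {H : V → V → ℂ} (hc : ∀ i, IsChernForm (c i) (Hc i))
    (hL : IsChernForm L H) (k : ℕ) (β : ι → ℕ) : Inv Γ (frm Hc H k β) := by
  have h1 := inv_of_chern (chern_frm hL hc 1 k β)
  have h2 : (fun v w => ((1 : ℕ) : ℂ) * frm Hc H k β v w) = frm Hc H k β := by
    funext v w
    rw [Nat.cast_one, one_mul]
  rwa [h2] at h1

omit [NormedAddCommGroup V] [NormedSpace ℂ V] in
theorem frm_im (Hc : ι → V → V → ℂ) (H : V → V → ℂ) (k : ℕ) (β : ι → ℕ) (v w : V) :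
    (frm Hc H k β v w).im = k * (H v w).im - ∑ i, (β i : ℝ) * (Hc i v w).im := by
  have h : ∀ (j : ℕ) (z : ℂ), ((j : ℂ) * z).im = j * z.im := fun j z => by
    have : ((j : ℕ) : ℂ) = ((j : ℝ) : ℂ) := by push_cast; rfl
    rw [this, Complex.im_ofReal_mul]
  rw [frm, Complex.sub_im, Complex.im_sum, h]
  congr 1
  exact Finset.sum_congr rfl fun i _ => h _ _

variable [FiniteDimensional ℂ V]

/-- The criterion: an adjoint exponent gives a nef form if and only if finitely many integral linear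
inequalities hold. -/
theorem exists_crit {u : ι → Fin n → ℤ} {S : Set (Set ι)} (hΓ : IsTorusQuotient Γ) {ρ : V → ℂ}
    (hρ : IsRamification Γ ρ) (hS : IsSmoothFan u S) {c : ι → LineBundle Γ}
    {Hc : ι → V → V → ℂ} (hc : ∀ i, IsChernForm (c i) (Hc i)) {m : ℕ} {d : ι → ℤ}
    {F : V → MvPolynomial ι ℂ} {L : LineBundle Γ} {H : V → V → ℂ} (hL : IsChernForm L H)
    (hF : Q47.TB.IsLogPluricanonical u c m ρ d F L) (hw : ToricLC S m F) :
    ∃ (x y : Refls Γ → V) (nn : Refls Γ → ℤ) (N : ι → Refls Γ → ℤ),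
      (∀ g, (H (x g) (y g)).im = nn g) ∧ (∀ i g, (Hc i (x g) (y g)).im = N i g) ∧
      (∀ Q : V → V → ℂ, IsHermitian Q → IsNefForm Q → ∀ g, 0 ≤ (Q (x g) (y g)).im) ∧
      ∀ (k : ℕ) (β : ι → ℕ), 1 ≤ k →
        LinEquiv u (fun i => (β i : ℤ)) (fun i => k * (d i - m)) →
        (∀ g, 0 ≤ (k : ℤ) * nn g - ∑ i, (β i : ℤ) * N i g) → IsNefForm (frm Hc H k β) := by
  obtain ⟨x, y, hx, hy, hxy⟩ := exists_tests hΓ
  have h1 : ∀ g, ∃ n : ℤ, (H (x g) (y g)).im = n := fun g => by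
    obtain ⟨hH, F', hF', hFe⟩ := hL
    obtain ⟨n, hn⟩ := im_int hH ⟨hF', hFe⟩ (hx g) (hy g)
    exact ⟨n, hn⟩
  have h2 : ∀ i g, ∃ n : ℤ, (Hc i (x g) (y g)).im = n := fun i g => by
    obtain ⟨hH, F', hF', hFe⟩ := hc i
    obtain ⟨n, hn⟩ := im_int hH ⟨hF', hFe⟩ (hx g) (hy g)
    exact ⟨n, hn⟩
  choose nn hnn using h1
  choose N hN using h2
  refine ⟨x, y, nn, N, hnn, hN, fun Q hQ hn g => (hxy Q hQ).1 (fun a _ => hn a) g,
    fun k β hk hβ h => ?_⟩
  have hI := inv_frm hc hL k β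
  refine nef_of_roots hΓ hI (fun z hz => frm_fixed hΓ hρ hS hc hL hF hw hk hβ hz)
    ((hxy _ hI.herm).2 fun g => ?_)
  rw [frm_im, hnn]
  simp only [hN]
  have := h g
  exact_mod_cast this

/-- Exponents with nef forms give sections. -/
theorem eff_of_nef {u : ι → Fin n → ℤ} {S : Set (Set ι)} (hΓ : IsTorusQuotient Γ) {ρ : V → ℂ}
    (hρ : IsRamification Γ ρ) (hS : IsSmoothFan u S) {c : ι → LineBundle Γ}
    {Hc : ι → V → V → ℂ} (hc : ∀ i, IsChernForm (c i) (Hc i)) {m : ℕ} {d : ι → ℤ}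
    {F : V → MvPolynomial ι ℂ} {L : LineBundle Γ} {H : V → V → ℂ} (hL : IsChernForm L H)
    (hF : Q47.TB.IsLogPluricanonical u c m ρ d F L) (hw : ToricLC S m F)
    {k : ℕ} (hk : 1 ≤ k) {β : ι → ℕ}
    (hβ : LinEquiv u (fun i => (β i : ℤ)) (fun i => k * (d i - m)))
    (hn : IsNefForm (frm Hc H k β)) : QEffective u c (fun i => d i - m) L := by
  obtain ⟨K, hK, hgg⟩ := gen hΓ hρ hS hc hL hF hw hk hβ hn
  obtain ⟨s, hs, hs0⟩ := hgg 0
  refine ⟨k * (K * expo (Module.finrank ℂ V)), Nat.mul_pos hk (Nat.mul_pos hK (expo_pos _)), _,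
    secPow_monomial hβ hs rfl, 0, ?_⟩
  simpa using hs0

/-- Pseudo-effective adjoint line bundles are `ℚ`-effective. -/
theorem eff_of_psef {u : ι → Fin n → ℤ} {S : Set (Set ι)} (hΓ : IsTorusQuotient Γ) {ρ : V → ℂ}
    (hρ : IsRamification Γ ρ) (hS : IsSmoothFan u S) {c : ι → LineBundle Γ}
    {Hc : ι → V → V → ℂ} (hc : ∀ i, IsChernForm (c i) (Hc i)) {m : ℕ} {d : ι → ℤ}
    {F : V → MvPolynomial ι ℂ} {L : LineBundle Γ} {H : V → V → ℂ} (hL : IsChernForm L H)
    (hF : Q47.TB.IsLogPluricanonical u c m ρ d F L) (hw : ToricLC S m F)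
    (hp : Psef u c (fun i => d i - m) L) : QEffective u c (fun i => d i - m) L := by
  classical
  have := finite_Lin hΓ
  obtain ⟨x, y, nn, N, hnn, hN, htest, hcrit⟩ := exists_crit hΓ hρ hS hc hL hF hw
  obtain ⟨dA, LA, HA, hA, hpk⟩ := hp
  obtain ⟨k, β, hk, hβ, hg⟩ := rational_point (u := u) (fun i => d i - m) nn N (by
    push_cast
    refine limit_point hS (fun i => (d i : ℝ) - m) (fun i => (dA i : ℝ)) (fun g => (nn g : ℝ))
      (fun g => (HA (x g) (y g)).im) (fun i g => (N i g : ℝ)) fun k => ?_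
    obtain ⟨j, hj, G, hG, v, hv⟩ := hpk (k + 1) (Nat.le_add_left 1 k)
    obtain ⟨α, hα⟩ : ∃ α, coeff α (G v) ≠ 0 := by
      by_contra hcon
      push Not at hcon
      exact hv (MvPolynomial.ext _ _ fun α => by rw [hcon α, coeff_zero])
    obtain ⟨q, hq⟩ := hG.deg v α (mem_support_iff.2 hα)
    -- the line bundle
    have hM : IsChernForm ((tensor (L.pow (k + 1)) LA).pow j)
        (fun v w => (j : ℂ) * (((k + 1 : ℕ) : ℂ) * H v w + HA v w)) :=
      chern_pow' (Q47.KN.chern_tensor hL hA (k + 1)) j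
    have hn := nef_of_coef (u := u) (D := fun i => (j : ℤ) * (((k + 1 : ℕ) : ℤ) * (d i - m) + dA i))
      hΓ hc hM (G := G) hG ⟨v, hα⟩
    have hj0 : (0 : ℝ) < j := by exact_mod_cast hj
    have hk0 : (0 : ℝ) < (k : ℝ) + 1 := by positivity
    have hαr : ∀ i, (α i : ℝ) = j * ((k + 1) * ((d i : ℝ) - m) + dA i)
        + ∑ l, (q l : ℝ) * (u i l : ℝ) := by
      intro i
      have e1 : (α i : ℤ) = j * (((k + 1 : ℕ) : ℤ) * (d i - m) + dA i) + ∑ l, q l * u i l := hq i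
      have e2 : (((α i : ℕ) : ℤ) : ℝ)
          = ((j * (((k + 1 : ℕ) : ℤ) * (d i - m) + dA i) + ∑ l, q l * u i l : ℤ) : ℝ) := by
        rw [e1]
      push_cast at e2
      exact e2
    have hQ : ∀ i, (d i : ℝ) - m + dA i / (k + 1) + ∑ l, (q l : ℝ) / (j * (k + 1)) * (u i l : ℝ)
        = (α i : ℝ) / (j * (k + 1)) := by
      intro i
      have e1 : ∑ l, (q l : ℝ) / (j * (k + 1)) * (u i l : ℝ)
          = (∑ l, (q l : ℝ) * (u i l : ℝ)) / (j * (k + 1)) := by
        rw [Finset.sum_div]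
        exact Finset.sum_congr rfl fun l _ => by ring
      rw [e1, hαr i]
      field_simp
    refine ⟨fun l => (q l : ℝ) / (j * (k + 1)), fun i => ?_, fun g => ?_⟩
    · rw [hQ i]
      positivity
    · simp only [hQ]
      have hherm : IsHermitian fun v w => (j : ℂ) * (((k + 1 : ℕ) : ℂ) * H v w + HA v w)
          - ∑ i, (α i : ℂ) * Hc i v w := by
        have h3 := (chern_tw hM hc 1 α).1
        have h4 : (fun v w => ((1 : ℕ) : ℂ) * ((j : ℂ) * (((k + 1 : ℕ) : ℂ) * H v w + HA v w)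
            - ∑ i, (α i : ℂ) * Hc i v w)) = fun v w =>
            (j : ℂ) * (((k + 1 : ℕ) : ℂ) * H v w + HA v w) - ∑ i, (α i : ℂ) * Hc i v w := by
          funext v w
          rw [Nat.cast_one, one_mul]
        rwa [h4] at h3
      have h3 := htest _ hherm hn g
      have hi : ∀ (j : ℕ) (z : ℂ), ((j : ℂ) * z).im = j * z.im := fun j z => by
        have : ((j : ℕ) : ℂ) = ((j : ℝ) : ℂ) := by push_cast; rfl
        rw [this, Complex.im_ofReal_mul]
      rw [Complex.sub_im, Complex.im_sum, hi, Complex.add_im, hi, hnn] at h3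
      simp only [hi, hN] at h3
      push_cast at h3
      have e2 : ∑ i, (α i : ℝ) / (j * (k + 1)) * (N i g : ℝ)
          = (∑ i, (α i : ℝ) * (N i g : ℝ)) / (j * (k + 1)) := by
        rw [Finset.sum_div]
        exact Finset.sum_congr rfl fun l _ => by ring
      rw [e2]
      have e3 : (nn g : ℝ) + (HA (x g) (y g)).im / (k + 1)
          - (∑ i, (α i : ℝ) * (N i g : ℝ)) / (j * (k + 1))
          = ((j : ℝ) * ((k + 1) * nn g + (HA (x g) (y g)).im) - ∑ i, (α i : ℝ) * (N i g : ℝ))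
            / (j * (k + 1)) := by
        field_simp
      rw [e3]
      positivity)
  exact eff_of_nef hΓ hρ hS hc hL hF hw hk hβ (hcrit k β hk hβ hg)

/-- If the base is not ramified in codimension one then all forms are nef. -/
theorem frm_unram {u : ι → Fin n → ℤ} {S : Set (Set ι)} (hΓ : IsTorusQuotient Γ) {ρ : V → ℂ}
    (hρ : IsRamification Γ ρ) (h0 : ∀ v, ρ v ≠ 0) (hS : IsSmoothFan u S) {c : ι → LineBundle Γ}
    {Hc : ι → V → V → ℂ} (hc : ∀ i, IsChernForm (c i) (Hc i)) {m : ℕ} {d : ι → ℤ}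
    {F : V → MvPolynomial ι ℂ} {L : LineBundle Γ} {H : V → V → ℂ} (hL : IsChernForm L H)
    (hF : Q47.TB.IsLogPluricanonical u c m ρ d F L) (hw : ToricLC S m F)
    {k : ℕ} (hk : 1 ≤ k) {β : ι → ℕ}
    (hβ : LinEquiv u (fun i => (β i : ℤ)) (fun i => k * (d i - m))) :
    IsNefForm (frm Hc H k β) := by
  obtain ⟨K, hK, P, hP, hP0, hl⟩ := base_pair hS hF hw hk hβ
  intro x
  have h1 := pair_unram hΓ hρ h0 hP hP0 hl (chern_frm hL hc K k β) x
  rw [nat_re] at h1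
  have hK' : (0 : ℝ) < K := by exact_mod_cast hK
  exact nonneg_of_mul_nonneg_right h1 hK'

/-- `ℚ`-effective line bundles have exponents with nef forms. -/
theorem nef_of_eff {u : ι → Fin n → ℤ} (hΓ : IsTorusQuotient Γ) {c : ι → LineBundle Γ}
    {Hc : ι → V → V → ℂ} (hc : ∀ i, IsChernForm (c i) (Hc i)) {d : ι → ℤ}
    {L : LineBundle Γ} {H : V → V → ℂ} (hL : IsChernForm L H) (he : QEffective u c d L) :
    ∃ k : ℕ, 1 ≤ k ∧ ∃ β : ι → ℕ, LinEquiv u (fun i => (β i : ℤ)) (fun i => k * d i) ∧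
      IsNefForm (frm Hc H k β) := by
  obtain ⟨k, hk, G, hG, v, hv⟩ := he
  obtain ⟨α, hα⟩ : ∃ α, coeff α (G v) ≠ 0 := by
    by_contra hcon
    push Not at hcon
    exact hv (MvPolynomial.ext _ _ fun α => by rw [hcon α, coeff_zero])
  exact ⟨k, hk, α, hG.deg v α (mem_support_iff.2 hα),
    nef_of_coef hΓ hc (chern_pow' hL k) (M := L.pow k) hG ⟨v, hα⟩⟩

omit [FiniteDimensional ℂ V] in
/-- `ℚ`-effective line bundles are pseudo-effective. -/
theorem psef_of_eff {u : ι → Fin n → ℤ} {c : ι → LineBundle Γ} {d : ι → ℤ} {L : LineBundle Γ}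
    (he : QEffective u c d L) : Psef u c d L := by
  classical
  obtain ⟨k, hk, G, hG, v, hv⟩ := he
  let T : LineBundle Γ := ⟨fun _ _ => 1, fun _ => differentiable_const 1, fun _ _ => one_ne_zero,
    fun _ _ _ => (mul_one 1).symm, fun _ _ _ => rfl⟩
  have hT : IsChernForm T fun _ _ => 0 := by
    refine ⟨⟨fun _ _ _ => (add_zero _).symm, fun _ _ _ => (mul_zero _).symm, fun _ _ => by simp⟩,
      fun _ => 0, differentiable_const 0, fun γ v => ?_⟩
    change ‖(1 : ℂ)‖ ^ 2 = _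
    simp
  refine ⟨fun _ => 0, T, fun _ _ => 0, hT, fun a _ => ⟨k, hk, ?_⟩⟩
  obtain ⟨α, hα⟩ : ∃ α, coeff α (G v) ≠ 0 := by
    by_contra hcon
    push Not at hcon
    exact hv (MvPolynomial.ext _ _ fun α => by rw [hcon α, coeff_zero])
  have hs := section_pow (coef_section (M := L.pow k) hG α) a
  have hβ := hG.deg v α (mem_support_iff.2 hα)
  have h1 := secPow_monomial (u := u) (c := c) (L := L) (K := 1) (β := α) hβ hs rfl
  have e1 : (fun i => (k : ℤ) * ((a : ℤ) * d i + 0)) = fun i => ((k * (1 * a) : ℕ) : ℤ) * d i := by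
    funext i
    push_cast
    ring
  have e2 : (fun (γ : Γ) (v : V) => (L.e γ v ^ a * T.e γ v) ^ k)
      = fun γ v => L.e γ v ^ (k * (1 * a)) := by
    funext γ v
    change (L.e γ v ^ a * 1) ^ k = _
    rw [mul_one, ← pow_mul]
    congr 1
    ring
  refine ⟨_, by rw [e1, e2]; exact h1, v, ?_⟩
  rw [Ne, monomial_eq_zero]
  exact pow_ne_zero _ hα

end Pool.Agent.U976.TBd
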