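import Pool.Agent.U976.TBd.E

/-!
# Finite generation of the monoid of the nef adjoint exponents
-/

set_option autoImplicit false

namespace Pool.Agent.U976.TBd

open Q47.TB

/-- Dickson's lemma: a set of vectors of natural numbers which is closed under subtraction is
generated by finitely many elements. -/
theorem gen_of_sub {J : Type*} [Finite J] (T : Set (J → ℕ))
    (hsub : ∀ w ∈ T, ∀ w' ∈ T, w' ≤ w → w - w' ∈ T) :
    ∃ M : Finset (J → ℕ), (∀ w ∈ M, w ∈ T ∧ w ≠ 0) ∧
      ∀ w ∈ T, ∃ c : (J → ℕ) → ℕ, w = ∑ g ∈ M, c g • g := by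
  classical
  have := Fintype.ofFinite J
  have hfin : {w : J → ℕ | Minimal (fun w => w ∈ T ∧ w ≠ 0) w}.Finite :=
    WellQuasiOrderedLE.finite_of_isAntichain (setOfPred_minimal_antichain _)
  refine ⟨hfin.toFinset, fun w hw => ?_, ?_⟩
  · have h : Minimal (fun w => w ∈ T ∧ w ≠ 0) w := hfin.mem_toFinset.1 hw
    exact h.prop
  suffices h : ∀ (N : ℕ) (w : J → ℕ), w ∈ T → ∑ j, w j = N →
      ∃ c : (J → ℕ) → ℕ, w = ∑ g ∈ hfin.toFinset, c g • g from fun w hw => h _ w hw rfl
  intro N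
  induction N using Nat.strong_induction_on with
  | _ N ih =>
    intro w hw hN
    by_cases h0 : w = 0
    · exact ⟨fun _ => 0, by simp [h0]⟩
    · obtain ⟨g, hgw, hg⟩ := exists_minimal_le_of_wellFoundedLT
        (fun w => w ∈ T ∧ w ≠ 0) w ⟨hw, h0⟩
      have hgM : g ∈ hfin.toFinset := hfin.mem_toFinset.2 hg
      have hsum : ∑ j, (w - g) j + ∑ j, g j = ∑ j, w j := by
        rw [← Finset.sum_add_distrib]
        exact Finset.sum_congr rfl fun j _ => Nat.sub_add_cancel (hgw j)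
      have hgpos : 0 < ∑ j, g j := by
        rw [Nat.pos_iff_ne_zero]
        intro h
        apply hg.prop.2
        funext j
        exact (Finset.sum_eq_zero_iff.1 h) j (Finset.mem_univ j)
      obtain ⟨c, hc⟩ := ih (∑ j, (w - g) j) (by omega) (w - g) (hsub w hw g hg.prop.1 hgw) rfl
      refine ⟨fun x => c x + if x = g then 1 else 0, ?_⟩
      have h1 : w = (w - g) + g := by
        funext j
        exact (Nat.sub_add_cancel (hgw j)).symm
      rw [h1]
      conv_lhs => rw [hc]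
      simp only [add_smul, ite_smul, one_smul, zero_smul, Finset.sum_add_distrib]
      rw [Finset.sum_ite_eq' _ g, if_pos hgM]

variable {ι : Type*} [Fintype ι] {n : ℕ}

omit [Fintype ι] in
theorem linEquiv_sub {u : ι → Fin n → ℤ} {α β α' β' : ι → ℤ} (h : LinEquiv u α β)
    (h' : LinEquiv u α' β') : LinEquiv u (fun i => α i - α' i) (fun i => β i - β' i) := by
  obtain ⟨q, hq⟩ := h
  obtain ⟨q', hq'⟩ := h'
  refine ⟨fun k => q k - q' k, fun i => ?_⟩
  simp only [sub_mul, Finset.sum_sub_distrib]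
  rw [hq i, hq' i]
  ring

theorem linEquiv_zero {u : ι → Fin n → ℤ} {S : Set (Set ι)} (hS : IsSmoothFan u S) {β : ι → ℕ}
    (h : LinEquiv u (fun i => (β i : ℤ)) fun _ => 0) : β = 0 := by
  obtain ⟨q, hq⟩ := h
  obtain ⟨C, -, hC⟩ := real_bound hS
  have hb : ∀ i, (β i : ℤ) = ∑ k, q k * u i k := fun i => by
    have := hq i
    rwa [zero_add] at this
  have h1 := hC (fun k => (q k : ℝ)) 0 le_rfl fun i => by
    have e1 : ((β i : ℤ) : ℝ) = ((∑ k, q k * u i k : ℤ) : ℝ) := by rw [hb i]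
    push_cast at e1
    rw [← e1]
    simp
  have h2 : ∀ k, q k = 0 := fun k => by
    have := h1 k
    rw [mul_zero] at this
    exact_mod_cast abs_nonpos_iff.1 this
  funext i
  have := hb i
  rw [Finset.sum_eq_zero fun k _ => by rw [h2 k, zero_mul]] at this
  exact_mod_cast this

/-- The monoid of the pairs `(k, β)` such that `β` is in the class of `k d` and satisfies the
inequalities `k nn g - ∑ β_i N_{i g} ≥ 0` is finitely generated. -/
theorem fg_monoid {u : ι → Fin n → ℤ} {S : Set (Set ι)} (hS : IsSmoothFan u S) {J : Type*}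
    [Finite J] (d : ι → ℤ) (nn : J → ℤ) (N : ι → J → ℤ) :
    ∃ (r : ℕ) (a : Fin r → ℕ) (b : Fin r → ι → ℕ),
      (∀ j, 1 ≤ a j ∧ LinEquiv u (fun i => (b j i : ℤ)) (fun i => a j * d i) ∧
        ∀ g, 0 ≤ (a j : ℤ) * nn g - ∑ i, (b j i : ℤ) * N i g) ∧
      ∀ (k : ℕ) (β : ι → ℕ), LinEquiv u (fun i => (β i : ℤ)) (fun i => k * d i) →
        (∀ g, 0 ≤ (k : ℤ) * nn g - ∑ i, (β i : ℤ) * N i g) →
        ∃ e : Fin r → ℕ, k = ∑ j, e j * a j ∧ ∀ i, β i = ∑ j, e j * b j i := by
  classical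
  let T : Set ((Unit ⊕ (ι ⊕ J)) → ℕ) := {w |
    LinEquiv u (fun i => (w (Sum.inr (Sum.inl i)) : ℤ)) (fun i => w (Sum.inl ()) * d i) ∧
    ∀ g, (w (Sum.inr (Sum.inr g)) : ℤ)
      = w (Sum.inl ()) * nn g - ∑ i, (w (Sum.inr (Sum.inl i)) : ℤ) * N i g}
  obtain ⟨M, hM, hgen⟩ := gen_of_sub T (by
    rintro w ⟨h1, h2⟩ w' ⟨h1', h2'⟩ hle
    have hc : ∀ j, (((w - w') j : ℕ) : ℤ) = w j - w' j := fun j => Int.ofNat_sub (hle j)
    refine ⟨?_, fun g => ?_⟩
    · simp only [hc, sub_mul]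
      exact linEquiv_sub h1 h1'
    · simp only [hc, sub_mul, Finset.sum_sub_distrib]
      rw [h2 g, h2' g]
      ring)
  let e := M.equivFin.symm
  refine ⟨M.card, fun j => (e j).1 (Sum.inl ()), fun j i => (e j).1 (Sum.inr (Sum.inl i)),
    fun j => ?_, fun k β hβ hg => ?_⟩
  · obtain ⟨⟨h1, h2⟩, h0⟩ := hM _ (e j).2
    refine ⟨?_, h1, fun g => ?_⟩
    · rw [Nat.one_le_iff_ne_zero]
      intro hk
      apply h0
      have hk' : (e j).1 (Sum.inl ()) = 0 := hk
      have hb : (fun i => (e j).1 (Sum.inr (Sum.inl i))) = 0 := linEquiv_zero hS (by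
        simpa only [hk', Nat.cast_zero, zero_mul] using h1)
      funext x
      rcases x with x | i | g
      · exact hk
      · exact congrFun hb i
      · have h3 := h2 g
        have hb' : ∀ i, (e j).1 (Sum.inr (Sum.inl i)) = 0 := fun i => congrFun hb i
        simp only [hk', hb', Nat.cast_zero, zero_mul, Finset.sum_const_zero, sub_zero] at h3
        exact_mod_cast h3
    · rw [← h2 g]
      exact Int.natCast_nonneg _
  · let w : (Unit ⊕ (ι ⊕ J)) → ℕ := Sum.elim (fun _ => k) (Sum.elim β fun g =>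
      ((k : ℤ) * nn g - ∑ i, (β i : ℤ) * N i g).toNat)
    have hw : w ∈ T := ⟨hβ, fun g => Int.toNat_of_nonneg (hg g)⟩
    obtain ⟨c, hc⟩ := hgen w hw
    have key : ∀ x, w x = ∑ j, c (e j).1 * (e j).1 x := by
      intro x
      have h1 := congrFun hc x
      rw [Finset.sum_apply] at h1
      rw [h1, ← Finset.sum_coe_sort M]
      exact (Equiv.sum_comp e (fun g : M => (c g.1 • g.1) x)).symm
    exact ⟨fun j => c (e j).1, key (Sum.inl ()), fun i => key (Sum.inr (Sum.inl i))⟩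

end Pool.Agent.U976.TBd
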