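import Pool.Agent.U976.TBd.G1

/-!
# Metric estimates for sections
-/

set_option autoImplicit false

namespace Pool.Agent.U976.TBd

open Pool.Agent.W594.SYZ2 Pool.Agent.W594.SYZ2.TQ Pool.Agent.TH735.AQ Q47.MM Q47.TB Q47.EB
open MvPolynomial Filter Topology

variable {V : Type*} [NormedAddCommGroup V] [NormedSpace ℂ V] {Γ : Subgroup (V ≃ᵃ[ℂ] V)}
  {ι : Type*} [Fintype ι] {n : ℕ}

/-- `w` is the weight of a metric of the line bundle. -/
structure IsWeight (L : LineBundle Γ) (w : V → ℝ) : Prop where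
  cont : Continuous w
  pos : ∀ v, 0 < w v
  eq : ∀ (γ : Γ) (v : V), ‖L.e γ v‖ ^ 2 * w v = w ((γ : V ≃ᵃ[ℂ] V) v)

theorem exists_weight [FiniteDimensional ℂ V] {L : LineBundle Γ} {H : V → V → ℂ}
    (hc : IsChernForm L H) : ∃ w, IsWeight L w := by
  obtain ⟨hH, F, hF, hFe⟩ := hc
  refine ⟨fun v => Real.exp (Real.pi * (H v v).re + 2 * (F v).re), ?_, fun v => Real.exp_pos _,
    fun γ v => ?_⟩
  · exact Real.continuous_exp.comp (((diag_continuous hH).const_mul Real.pi).add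
      ((Complex.continuous_re.comp hF.continuous).const_mul 2))
  · rw [hFe, ← Real.exp_add]
    congr 1
    ring

/-- The weight of `L ^ k ⊗ ∏ c_i ^ (-β_i)`. -/
noncomputable def wt (w : V → ℝ) (wc : ι → V → ℝ) (k : ℕ) (β : ι → ℕ) (v : V) : ℝ :=
  w v ^ k * (∏ i, wc i v ^ β i)⁻¹

omit [NormedSpace ℂ V] in
theorem wt_cont {w : V → ℝ} {wc : ι → V → ℝ} (hw : Continuous w) (hc : ∀ i, Continuous (wc i))
    (hc0 : ∀ i v, 0 < wc i v) (k : ℕ) (β : ι → ℕ) : Continuous (wt w wc k β) := by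
  refine (hw.pow k).mul (Continuous.inv₀ (continuous_finsetProd _ fun i _ => (hc i).pow _)
    fun v => ?_)
  exact (Finset.prod_pos fun i _ => pow_pos (hc0 i v) _).ne'

omit [NormedAddCommGroup V] [NormedSpace ℂ V] in
theorem wt_pos {w : V → ℝ} {wc : ι → V → ℝ} (hw : ∀ v, 0 < w v)
    (hc0 : ∀ i v, 0 < wc i v) (k : ℕ) (β : ι → ℕ) (v : V) : 0 < wt w wc k β v :=
  mul_pos (pow_pos (hw v) _) (inv_pos.2 (Finset.prod_pos fun i _ => pow_pos (hc0 i v) _))

omit [NormedAddCommGroup V] [NormedSpace ℂ V] in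
/-- The weights are multiplicative. -/
theorem wt_sum (w : V → ℝ) (wc : ι → V → ℝ) {r : ℕ} (e a : Fin r → ℕ) (b : Fin r → ι → ℕ)
    {k : ℕ} {β : ι → ℕ} (hk : k = ∑ j, e j * a j) (hβ : ∀ i, β i = ∑ j, e j * b j i) (v : V) :
    wt w wc k β v = ∏ j, wt w wc (a j) (b j) v ^ e j := by
  simp only [wt, mul_pow, Finset.prod_mul_distrib]
  congr 1
  · rw [hk, ← Finset.prod_pow_eq_pow_sum]
    exact Finset.prod_congr rfl fun j _ => by rw [← pow_mul, mul_comm]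
  · have h1 : ∏ i, wc i v ^ β i = ∏ j, (∏ i, wc i v ^ b j i) ^ e j := by
      calc ∏ i, wc i v ^ β i = ∏ i, ∏ j, wc i v ^ (e j * b j i) := by
            refine Finset.prod_congr rfl fun i _ => ?_
            rw [hβ i, Finset.prod_pow_eq_pow_sum]
        _ = ∏ j, ∏ i, wc i v ^ (e j * b j i) := Finset.prod_comm
        _ = _ := by
            refine Finset.prod_congr rfl fun j _ => ?_
            rw [← Finset.prod_pow]
            exact Finset.prod_congr rfl fun i _ => by rw [← pow_mul, mul_comm]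
    rw [h1, ← Finset.prod_inv_distrib]
    exact Finset.prod_congr rfl fun j _ => (inv_pow _ _).symm

theorem pow_id (a q : ℝ) (k K E : ℕ) :
    (((a ^ k) ^ K * (q ^ K)⁻¹) ^ E) ^ 2 = ((a ^ 2) ^ k * (q ^ 2)⁻¹) ^ (K * E) := by
  rw [← inv_pow, ← mul_pow, ← inv_pow, ← pow_mul a 2 k, mul_comm 2 k, pow_mul a k 2, ← mul_pow,
    ← pow_mul, ← pow_mul, ← pow_mul]
  congr 1
  ring

theorem weight_tw {L : LineBundle Γ} {c : ι → LineBundle Γ} {w : V → ℝ} {wc : ι → V → ℝ}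
    (hw : IsWeight L w) (hc : ∀ i, IsWeight (c i) (wc i)) (K E k : ℕ) (β : ι → ℕ) :
    IsWeight ((Q47.TB.tw (L.pow k) c K β).pow E) fun v => wt w wc k β v ^ (K * E) := by
  refine ⟨(wt_cont hw.cont (fun i => (hc i).cont) (fun i => (hc i).pos) k β).pow _,
    fun v => pow_pos (wt_pos hw.pos (fun i => (hc i).pos) k β v) _, fun γ v => ?_⟩
  have h1 : ‖((Q47.TB.tw (L.pow k) c K β).pow E).e γ v‖ ^ 2
      = (((‖L.e γ v‖ ^ 2) ^ k) * (∏ i, (‖(c i).e γ v‖ ^ 2) ^ β i)⁻¹) ^ (K * E) := by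
    change ‖((L.e γ v ^ k) ^ K * (∏ i, (c i).e γ v ^ (K * β i))⁻¹) ^ E‖ ^ 2 = _
    have h2 : ∏ i, (c i).e γ v ^ (K * β i) = (∏ i, (c i).e γ v ^ β i) ^ K := by
      rw [← Finset.prod_pow]
      exact Finset.prod_congr rfl fun i _ => by rw [← pow_mul, mul_comm]
    have h3 : ∏ i, (‖(c i).e γ v‖ ^ 2) ^ β i = ‖∏ i, (c i).e γ v ^ β i‖ ^ 2 := by
      rw [norm_prod, ← Finset.prod_pow]
      exact Finset.prod_congr rfl fun i _ => by rw [norm_pow, ← pow_mul, ← pow_mul, mul_comm]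
    rw [h2, h3, norm_pow, norm_mul, norm_pow, norm_pow, norm_inv, norm_pow]
    exact pow_id _ _ _ _ _
  rw [h1, ← mul_pow]
  congr 1
  simp only [wt]
  rw [← hw.eq γ v]
  have h3 : ∏ i, wc i ((γ : V ≃ᵃ[ℂ] V) v) ^ β i
      = (∏ i, (‖(c i).e γ v‖ ^ 2) ^ β i) * ∏ i, wc i v ^ β i := by
    rw [← Finset.prod_mul_distrib]
    exact Finset.prod_congr rfl fun i _ => by rw [← (hc i).eq γ v, mul_pow]
  rw [h3, mul_pow, mul_inv]
  ring

variable [FiniteDimensional ℂ V]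

/-- Invariant continuous functions are bounded by constants. -/
theorem bdd_of_inv (hΓ : IsTorusQuotient Γ) {φ : V → ℝ} (hφ : Continuous φ)
    (hp : ∀ (γ : Γ) (v : V), φ ((γ : V ≃ᵃ[ℂ] V) v) = φ v) : ∃ R, ∀ v, φ v ≤ R := by
  have : ProperSpace V := FiniteDimensional.proper ℂ V
  obtain ⟨C, hC⟩ := cobounded (latt Γ) hΓ.span_top
  have hK : IsCompact (Metric.closedBall (0 : V) C) := isCompact_closedBall _ _
  obtain ⟨R, hR⟩ := (isBounded_iff_forall_norm_le.1 (hK.image hφ).isBounded)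
  refine ⟨R, fun v => ?_⟩
  obtain ⟨b, hb, hbC⟩ := hC v
  rw [← hp (tr b hb) v, tr_apply]
  exact (le_abs_self _).trans (hR _ ⟨b + v, by rwa [mem_closedBall_zero_iff], rfl⟩)

/-- Sections are bounded with respect to the metric. -/
theorem upper_bound (hΓ : IsTorusQuotient Γ) {L : LineBundle Γ} {w : V → ℝ}
    (hw : IsWeight L w) {s : V → ℂ} (hs : L.IsSection s) :
    ∃ C : ℝ, 0 ≤ C ∧ ∀ v, ‖s v‖ ^ 2 ≤ C * w v := by
  obtain ⟨R, hR⟩ := bdd_of_inv hΓ (φ := fun v => ‖s v‖ ^ 2 / w v)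
    ((hs.holo.continuous.norm.pow 2).div hw.cont fun v => (hw.pos v).ne') (fun γ v => by
      have h1 := hw.pos v
      have h2 := hw.pos ((γ : V ≃ᵃ[ℂ] V) v)
      have h3 : 0 < ‖L.e γ v‖ ^ 2 := by
        have := norm_pos_iff.2 (L.ne_zero γ v)
        positivity
      rw [hs.eq, norm_mul, mul_pow, ← hw.eq γ v]
      exact mul_div_mul_left _ _ h3.ne')
  refine ⟨max R 0, le_max_right _ _, fun v => ?_⟩
  have h1 := hR v
  rw [div_le_iff₀ (hw.pos v)] at h1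
  exact h1.trans (mul_le_mul_of_nonneg_right (le_max_left _ _) (hw.pos v).le)

/-- Finitely many sections without common zeros bound the metric. -/
theorem lower_bound (hΓ : IsTorusQuotient Γ) {L : LineBundle Γ} {w : V → ℝ}
    (hw : IsWeight L w) (hg : GG L) :
    ∃ (r : ℕ) (s : Fin r → V → ℂ) (C : ℝ), 0 ≤ C ∧ (∀ l, L.IsSection (s l)) ∧
      ∀ v, ∃ l, w v ≤ C * ‖s l v‖ ^ 2 := by
  classical
  have : ProperSpace V := FiniteDimensional.proper ℂ V
  choose s hs hs0 using hg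
  obtain ⟨C, hC⟩ := cobounded (latt Γ) hΓ.span_top
  have hK : IsCompact (Metric.closedBall (0 : V) C) := isCompact_closedBall _ _
  obtain ⟨t, ht⟩ := hK.elim_finite_subcover (fun p : V => {v | s p v ≠ 0})
    (fun p => isOpen_ne_fun (hs p).holo.continuous continuous_const)
    (fun v _ => Set.mem_iUnion.2 ⟨v, hs0 v⟩)
  have hcont : Continuous fun v => ∑ p ∈ t, ‖s p v‖ ^ 2 :=
    continuous_finsetSum _ fun p _ => (hs p).holo.continuous.norm.pow 2
  have hinv : ∀ (γ : Γ) (v : V), ∑ p ∈ t, ‖s p ((γ : V ≃ᵃ[ℂ] V) v)‖ ^ 2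
      = ‖L.e γ v‖ ^ 2 * ∑ p ∈ t, ‖s p v‖ ^ 2 := by
    intro γ v
    rw [Finset.mul_sum]
    exact Finset.sum_congr rfl fun p _ => by rw [(hs p).eq, norm_mul, mul_pow]
  have hpos : ∀ v, 0 < ∑ p ∈ t, ‖s p v‖ ^ 2 := by
    intro v
    obtain ⟨b, hb, hbC⟩ := hC v
    have h1 := ht (mem_closedBall_zero_iff.2 hbC)
    simp only [Set.mem_iUnion] at h1
    obtain ⟨p, hp, hne⟩ := h1
    have hne' : s p (b + v) ≠ 0 := hne
    have h2 : 0 < ∑ p ∈ t, ‖s p (b + v)‖ ^ 2 := by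
      refine Finset.sum_pos' (fun _ _ => sq_nonneg _) ⟨p, hp, ?_⟩
      have := norm_pos_iff.2 hne'
      positivity
    have h3 := hinv (tr b hb) v
    rw [tr_apply] at h3
    rw [h3] at h2
    exact (pos_iff_pos_of_mul_pos h2).1 (by
      have := norm_pos_iff.2 (L.ne_zero (tr b hb) v)
      positivity)
  obtain ⟨R, hR⟩ := bdd_of_inv hΓ (φ := fun v => w v / ∑ p ∈ t, ‖s p v‖ ^ 2)
    (hw.cont.div hcont fun v => (hpos v).ne') (fun γ v => by
      have h3 : 0 < ‖L.e γ v‖ ^ 2 := by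
        have := norm_pos_iff.2 (L.ne_zero γ v)
        positivity
      have h4 := hpos v
      rw [hinv, ← hw.eq γ v]
      exact mul_div_mul_left _ _ h3.ne')
  let e := t.equivFin.symm
  refine ⟨t.card, fun l => s (e l).1, max R 0 * t.card, by positivity, fun l => hs _, fun v => ?_⟩
  have hne : t.Nonempty := by
    by_contra hcon
    rw [Finset.not_nonempty_iff_eq_empty] at hcon
    have := hpos v
    rw [hcon, Finset.sum_empty] at this
    exact lt_irrefl _ this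
  obtain ⟨p, hp, hmax⟩ := Finset.exists_max_image t (fun p => ‖s p v‖ ^ 2) hne
  refine ⟨e.symm ⟨p, hp⟩, ?_⟩
  change w v ≤ max R 0 * t.card * ‖s (e (e.symm ⟨p, hp⟩)).1 v‖ ^ 2
  rw [Equiv.apply_symm_apply]
  have h1 := hR v
  rw [div_le_iff₀ (hpos v)] at h1
  have h2 : ∑ p ∈ t, ‖s p v‖ ^ 2 ≤ t.card * ‖s p v‖ ^ 2 := by
    have := Finset.sum_le_card_nsmul t (fun p => ‖s p v‖ ^ 2) _ hmax
    rwa [nsmul_eq_mul] at this
  calc w v ≤ R * ∑ p ∈ t, ‖s p v‖ ^ 2 := h1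
    _ ≤ max R 0 * ∑ p ∈ t, ‖s p v‖ ^ 2 :=
      mul_le_mul_of_nonneg_right (le_max_left _ _) (hpos v).le
    _ ≤ max R 0 * (t.card * ‖s p v‖ ^ 2) := mul_le_mul_of_nonneg_left h2 (le_max_right _ _)
    _ = _ := by ring

end Pool.Agent.U976.TBd
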