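import Pool.Agent.U976.TBd.G2

/-!
# Finitely many sections compute all asymptotic orders
-/

set_option autoImplicit false

namespace Pool.Agent.U976.TBd

open Pool.Agent.W594.SYZ2 Pool.Agent.W594.SYZ2.TQ Pool.Agent.TH735.AQ Q47.MM Q47.TB Q47.EB
open MvPolynomial Filter Topology

theorem sum_pow_le {α : Type*} (s : Finset α) (f : α → ℝ) (hf : ∀ i, 0 ≤ f i) {M : ℕ}
    (hM : 1 ≤ M) : (∑ i ∈ s, f i) ^ M ≤ (s.card : ℝ) ^ M * ∑ i ∈ s, f i ^ M := by
  classical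
  rcases s.eq_empty_or_nonempty with h | h
  · subst h
    simp [Nat.one_le_iff_ne_zero.1 hM]
  · obtain ⟨p, hp, hmax⟩ := Finset.exists_max_image s f h
    have h1 : ∑ i ∈ s, f i ≤ s.card * f p := by
      have := Finset.sum_le_card_nsmul s f _ hmax
      rwa [nsmul_eq_mul] at this
    calc (∑ i ∈ s, f i) ^ M ≤ (s.card * f p) ^ M :=
          pow_le_pow_left₀ (Finset.sum_nonneg fun i _ => hf i) h1 M
      _ = (s.card : ℝ) ^ M * f p ^ M := mul_pow _ _ _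
      _ ≤ _ := by
          refine mul_le_mul_of_nonneg_left ?_ (by positivity)
          exact Finset.single_le_sum (f := fun i => f i ^ M) (fun i _ => pow_nonneg (hf i) M) hp

variable {V : Type*} [NormedAddCommGroup V] [NormedSpace ℂ V] {Γ : Subgroup (V ≃ᵃ[ℂ] V)}
  {ι : Type*} [Fintype ι] {n : ℕ}

theorem norm_eval_monomial (β : ι → ℕ) (z : ℂ) (x : ι → ℂ) :
    ‖eval x (monomial (Finsupp.equivFunOnFinite.symm β) z)‖ = ‖z‖ * ∏ i, ‖x i‖ ^ β i := by
  rw [eval_monomial, Finsupp.prod_fintype _ _ fun i => pow_zero _, norm_mul, norm_prod]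
  congr 1
  exact Finset.prod_congr rfl fun i _ => by
    rw [Finsupp.equivFunOnFinite_symm_apply_apply, norm_pow]

/-- The exponents multiply. -/
theorem prod_sum_exp (t : ι → ℝ) {r : ℕ} (e : Fin r → ℕ) (b : Fin r → ι → ℕ) {β : ι → ℕ}
    (hβ : ∀ i, β i = ∑ j, e j * b j i) :
    ∏ i, t i ^ β i = ∏ j, (∏ i, t i ^ b j i) ^ e j := by
  calc ∏ i, t i ^ β i = ∏ i, ∏ j, t i ^ (e j * b j i) := by
        refine Finset.prod_congr rfl fun i _ => ?_
        rw [hβ i, Finset.prod_pow_eq_pow_sum]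
    _ = ∏ j, ∏ i, t i ^ (e j * b j i) := Finset.prod_comm
    _ = _ := by
        refine Finset.prod_congr rfl fun j _ => ?_
        rw [← Finset.prod_pow]
        exact Finset.prod_congr rfl fun i _ => by rw [← pow_mul, mul_comm]

/-- The estimate for one generator. -/
theorem gen_bound {r M : ℕ} (a K R : Fin r → ℕ) {E : ℕ} (hM : ∀ j, M = a j * (K j * (E * R j)))
    (W X CC : Fin r → ℝ) (hW : ∀ j, 0 < W j) (hX : ∀ j, 0 ≤ X j) (hC : ∀ j, 0 ≤ CC j) {Φ : ℝ}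
    (hΦ : 0 ≤ Φ)
    (h : ∀ j, ∃ z : ℝ, 0 ≤ z ∧ W j ^ (K j * E) ≤ CC j * z ^ 2 ∧
      z ^ R j * X j ^ (K j * (E * R j)) ≤ Φ) (e : Fin r → ℕ) {k : ℕ} (hk : k = ∑ j, e j * a j) :
    (∏ j, (W j * X j ^ 2) ^ e j) ^ M ≤ (∏ j, (CC j ^ R j) ^ (a j * e j)) * (Φ ^ k) ^ 2 := by
  have hA : ∀ j, (W j * X j ^ 2) ^ (K j * (E * R j)) ≤ CC j ^ R j * Φ ^ 2 := by
    intro j
    obtain ⟨z, hz, h1, h2⟩ := h j
    have h3 : W j ^ (K j * (E * R j)) ≤ CC j ^ R j * (z ^ R j) ^ 2 := by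
      calc W j ^ (K j * (E * R j)) = (W j ^ (K j * E)) ^ R j := by rw [← pow_mul, mul_assoc]
        _ ≤ (CC j * z ^ 2) ^ R j := pow_le_pow_left₀ (pow_nonneg (hW j).le _) h1 _
        _ = _ := by rw [mul_pow, ← pow_mul, ← pow_mul, mul_comm 2]
    calc (W j * X j ^ 2) ^ (K j * (E * R j))
        = W j ^ (K j * (E * R j)) * (X j ^ (K j * (E * R j))) ^ 2 := by
          rw [mul_pow, ← pow_mul, ← pow_mul, mul_comm 2]
      _ ≤ CC j ^ R j * (z ^ R j) ^ 2 * (X j ^ (K j * (E * R j))) ^ 2 :=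
          mul_le_mul_of_nonneg_right h3 (sq_nonneg _)
      _ = CC j ^ R j * (z ^ R j * X j ^ (K j * (E * R j))) ^ 2 := by rw [mul_pow, mul_assoc]
      _ ≤ CC j ^ R j * Φ ^ 2 := by
          refine mul_le_mul_of_nonneg_left ?_ (pow_nonneg (hC j) _)
          exact pow_le_pow_left₀ (mul_nonneg (pow_nonneg hz _) (pow_nonneg (hX j) _)) h2 2
  have hB : ∀ j, (W j * X j ^ 2) ^ M ≤ (CC j ^ R j * Φ ^ 2) ^ a j := by
    intro j
    have h1 : (W j * X j ^ 2) ^ M = ((W j * X j ^ 2) ^ (K j * (E * R j))) ^ a j := by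
      rw [← pow_mul]
      congr 1
      rw [hM j, mul_comm]
    rw [h1]
    exact pow_le_pow_left₀ (pow_nonneg (mul_nonneg (hW j).le (sq_nonneg _)) _) (hA j) _
  calc (∏ j, (W j * X j ^ 2) ^ e j) ^ M = ∏ j, ((W j * X j ^ 2) ^ M) ^ e j := by
        rw [← Finset.prod_pow]
        exact Finset.prod_congr rfl fun j _ => by rw [← pow_mul, ← pow_mul, mul_comm (e j) M]
    _ ≤ ∏ j, ((CC j ^ R j * Φ ^ 2) ^ a j) ^ e j := by
        refine Finset.prod_le_prod (fun j _ => ?_) fun j _ => ?_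
        · exact pow_nonneg (pow_nonneg (mul_nonneg (hW j).le (sq_nonneg _)) _) _
        · exact pow_le_pow_left₀ (pow_nonneg (mul_nonneg (hW j).le (sq_nonneg _)) _) (hB j) _
    _ = ∏ j, ((CC j ^ R j) ^ (a j * e j) * (Φ ^ 2) ^ (e j * a j)) := by
        refine Finset.prod_congr rfl fun j _ => ?_
        rw [← pow_mul, mul_pow, mul_comm (e j) (a j)]
    _ = (∏ j, (CC j ^ R j) ^ (a j * e j)) * (Φ ^ k) ^ 2 := by
        rw [Finset.prod_mul_distrib, Finset.prod_pow_eq_pow_sum, ← hk, ← pow_mul, ← pow_mul,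
          mul_comm 2]

variable [FiniteDimensional ℂ V]

/-- Finitely many sections of one multiple bound the sections of all multiples. -/
theorem fin_sections {u : ι → Fin n → ℤ} {S : Set (Set ι)} (hΓ : IsTorusQuotient Γ) {ρ : V → ℂ}
    (hρ : IsRamification Γ ρ) (hS : IsSmoothFan u S) {c : ι → LineBundle Γ}
    {Hc : ι → V → V → ℂ} (hc : ∀ i, IsChernForm (c i) (Hc i)) {m : ℕ} {d : ι → ℤ}
    {F : V → MvPolynomial ι ℂ} {L : LineBundle Γ} {H : V → V → ℂ} (hL : IsChernForm L H)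
    (hF : Q47.TB.IsLogPluricanonical u c m ρ d F L) (hw : ToricLC S m F) :
    ∃ (M N : ℕ) (G : Fin N → V → MvPolynomial ι ℂ), 1 ≤ M ∧
      (∀ j, SecPow u c (fun i => d i - m) L M (G j)) ∧
      ∀ (k : ℕ) (G' : V → MvPolynomial ι ℂ), 1 ≤ k → SecPow u c (fun i => d i - m) L k G' →
        ∃ C : ℝ, ∀ (v : V) (x : ι → ℂ),
          ‖eval x (G' v)‖ ^ M ≤ C * (∑ j, ‖eval x (G j v)‖) ^ k := by
  classical
  have := finite_Lin hΓ
  obtain ⟨x0, y0, nn, N, hnn, hN, htest, hcrit⟩ := exists_crit hΓ hρ hS hc hL hF hw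
  obtain ⟨r, a, b, hab, hgen⟩ := fg_monoid hS (fun i => d i - m) nn N
  obtain ⟨w, hwt⟩ := exists_weight hL
  choose wc hwc using fun i => exists_weight (hc i)
  choose K hK hgg using fun j => gen hΓ hρ hS hc hL hF hw (hab j).1 (hab j).2.1
    (hcrit (a j) (b j) (hab j).1 (hab j).2.1 (hab j).2.2)
  obtain ⟨E, hE⟩ : ∃ E, E = expo (Module.finrank ℂ V) := ⟨_, rfl⟩
  have hE1 : 1 ≤ E := hE ▸ expo_pos _
  rw [← hE] at hgg
  choose rr s CC hCC hsec hlow using fun j =>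
    lower_bound hΓ (weight_tw hwt hwc (K j) E (a j) (b j)) (hgg j)
  obtain ⟨M, hMd⟩ : ∃ M, M = ∏ j, a j * (K j * E) := ⟨_, rfl⟩
  have hM1 : 1 ≤ M := by
    rw [hMd]
    exact Finset.one_le_prod' fun j _ =>
      Nat.mul_pos (hab j).1 (Nat.mul_pos (hK j) hE1)
  have hR : ∀ j, ∃ R, M = a j * (K j * (E * R)) := by
    intro j
    obtain ⟨R, hR⟩ := Finset.dvd_prod_of_mem (fun j => a j * (K j * E)) (Finset.mem_univ j)
    exact ⟨R, by rw [hMd, hR]; ring⟩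
  choose R hR using hR
  -- the sections
  let I := Σ j : Fin r, Fin (rr j)
  let G : I → V → MvPolynomial ι ℂ := fun p v =>
    monomial (Finsupp.equivFunOnFinite.symm fun i => K p.1 * (E * R p.1) * b p.1 i)
      (s p.1 p.2 v ^ R p.1)
  have hG : ∀ p, SecPow u c (fun i => d i - m) L M (G p) := by
    rintro ⟨j, l⟩
    have h1 : ((Q47.TB.tw (L.pow (a j)) c (K j) (b j)).pow (E * R j)).IsSection
        fun v => s j l v ^ R j := by
      rw [← pow_pow']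
      exact section_pow (hsec j l) (R j)
    exact secPow_monomial (hab j).2.1 h1 (hR j)
  have hGn : ∀ (p : I) (v : V) (x : ι → ℂ), ‖eval x (G p v)‖
      = ‖s p.1 p.2 v‖ ^ R p.1 * (∏ i, ‖x i‖ ^ b p.1 i) ^ (K p.1 * (E * R p.1)) := by
    intro p v x
    simp only [G]
    rw [norm_eval_monomial, norm_pow, ← Finset.prod_pow]
    congr 1
    exact Finset.prod_congr rfl fun i _ => by rw [← pow_mul, mul_comm]
  let e := Fintype.equivFin I
  refine ⟨M, Fintype.card I, fun j => G (e.symm j), hM1, fun j => hG _,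
    fun k G' hk hG' => ?_⟩
  have hΦe : ∀ (v : V) (x : ι → ℂ), ∑ j, ‖eval x (G (e.symm j) v)‖ = ∑ p, ‖eval x (G p v)‖ :=
    fun v x => Equiv.sum_comp e.symm fun p => ‖eval x (G p v)‖
  -- one coefficient
  have hone : ∀ α : ι →₀ ℕ, ∃ D : ℝ, ∀ (v : V) (x : ι → ℂ),
      (‖coeff α (G' v)‖ * ∏ i, ‖x i‖ ^ α i) ^ M ≤ D * (∑ p, ‖eval x (G p v)‖) ^ k := by
    intro α
    by_cases hα : ∃ v, coeff α (G' v) ≠ 0
    · have hα' := hα
      obtain ⟨v₀, hv₀⟩ := hα'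
      have hcls := hG'.deg v₀ α (mem_support_iff.2 hv₀)
      have hnef : IsNefForm (frm Hc H k α) := nef_of_coef hΓ hc (chern_pow' hL k)
        (M := L.pow k) hG' hα
      have hI := inv_frm hc hL k α
      obtain ⟨ex, hex1, hex2⟩ := hgen k α hcls fun g => by
        have h1 := htest _ hI.herm hnef g
        rw [frm_im, hnn] at h1
        simp only [hN] at h1
        exact_mod_cast h1
      obtain ⟨C', hC', hup⟩ := upper_bound hΓ (weight_tw hwt hwc 1 1 k α) (L :=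
        (Q47.TB.tw (L.pow k) c 1 α).pow 1) (s := fun v => coeff α (G' v)) (by
          have h1 := section_pow (coef_section (M := L.pow k) hG' α) 1
          simpa only [pow_one] using h1)
      refine ⟨Real.sqrt (C' ^ M * ∏ j, (CC j ^ R j) ^ (a j * ex j)), fun v x => ?_⟩
      obtain ⟨Φ, hΦ⟩ : ∃ Φ, Φ = ∑ p, ‖eval x (G p v)‖ := ⟨_, rfl⟩
      have hΦ0 : 0 ≤ Φ := hΦ ▸ Finset.sum_nonneg fun p _ => norm_nonneg _
      rw [← hΦ]
      have hb := gen_bound a K R hR (fun j => wt w wc (a j) (b j) v)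
        (fun j => ∏ i, ‖x i‖ ^ b j i) CC (fun j => wt_pos hwt.pos (fun i => (hwc i).pos) _ _ v)
        (fun j => Finset.prod_nonneg fun i _ => pow_nonneg (norm_nonneg _) _) hCC hΦ0 (fun j => by
          obtain ⟨l, hl⟩ := hlow j v
          refine ⟨‖s j l v‖, norm_nonneg _, hl, ?_⟩
          rw [hΦ, ← hGn ⟨j, l⟩ v x]
          exact Finset.single_le_sum (f := fun p => ‖eval x (G p v)‖)
            (fun p _ => norm_nonneg _) (Finset.mem_univ _)) ex hex1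
      have h2 := hup v
      rw [mul_one, pow_one, wt_sum w wc ex a b hex1 hex2] at h2
      have h3 : (‖coeff α (G' v)‖ * ∏ i, ‖x i‖ ^ α i) ^ 2
          ≤ C' * ∏ j, (wt w wc (a j) (b j) v * (∏ i, ‖x i‖ ^ b j i) ^ 2) ^ ex j := by
        rw [mul_pow, prod_sum_exp (fun i => ‖x i‖) ex b hex2, ← Finset.prod_pow]
        have e1 : ∏ j, (wt w wc (a j) (b j) v * (∏ i, ‖x i‖ ^ b j i) ^ 2) ^ ex j
            = (∏ j, wt w wc (a j) (b j) v ^ ex j) * ∏ j, ((∏ i, ‖x i‖ ^ b j i) ^ ex j) ^ 2 := by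
          rw [← Finset.prod_mul_distrib]
          exact Finset.prod_congr rfl fun j _ => by
            rw [mul_pow, ← pow_mul, ← pow_mul, mul_comm 2]
        rw [e1, ← mul_assoc]
        exact mul_le_mul_of_nonneg_right h2 (Finset.prod_nonneg fun j _ => sq_nonneg _)
      have h0 : 0 ≤ ‖coeff α (G' v)‖ * ∏ i, ‖x i‖ ^ α i :=
        mul_nonneg (norm_nonneg _) (Finset.prod_nonneg fun i _ => pow_nonneg (norm_nonneg _) _)
      have h4 : ((‖coeff α (G' v)‖ * ∏ i, ‖x i‖ ^ α i) ^ M) ^ 2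
          ≤ (C' ^ M * ∏ j, (CC j ^ R j) ^ (a j * ex j)) * (Φ ^ k) ^ 2 := by
        calc ((‖coeff α (G' v)‖ * ∏ i, ‖x i‖ ^ α i) ^ M) ^ 2
            = ((‖coeff α (G' v)‖ * ∏ i, ‖x i‖ ^ α i) ^ 2) ^ M := by
              rw [← pow_mul, ← pow_mul, mul_comm M 2]
          _ ≤ (C' * ∏ j, (wt w wc (a j) (b j) v * (∏ i, ‖x i‖ ^ b j i) ^ 2) ^ ex j) ^ M :=
              pow_le_pow_left₀ (sq_nonneg _) h3 _
          _ = C' ^ M * (∏ j, (wt w wc (a j) (b j) v * (∏ i, ‖x i‖ ^ b j i) ^ 2) ^ ex j) ^ M :=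
              mul_pow _ _ _
          _ ≤ C' ^ M * ((∏ j, (CC j ^ R j) ^ (a j * ex j)) * (Φ ^ k) ^ 2) :=
              mul_le_mul_of_nonneg_left hb (pow_nonneg hC' _)
          _ = _ := by ring
      have h5 := Real.sqrt_le_sqrt h4
      rw [Real.sqrt_sq (pow_nonneg h0 _), Real.sqrt_mul' _ (sq_nonneg _),
        Real.sqrt_sq (pow_nonneg hΦ0 _)] at h5
      exact h5
    · push Not at hα
      refine ⟨0, fun v x => ?_⟩
      rw [hα v, norm_zero, zero_mul, zero_mul, zero_pow (Nat.one_le_iff_ne_zero.1 hM1)]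
  choose D hD using hone
  -- the sum
  let A : Finset (ι →₀ ℕ) := (finite_class hS fun i => (k : ℤ) * (d i - m)).toFinset
  refine ⟨(A.card : ℝ) ^ M * ∑ α ∈ A, D α, fun v x => ?_⟩
  simp only [hΦe]
  have h1 : ‖eval x (G' v)‖ ≤ ∑ α ∈ A, ‖coeff α (G' v)‖ * ∏ i, ‖x i‖ ^ α i := by
    rw [eval_eq']
    refine (norm_sum_le _ _).trans ?_
    have h2 : (G' v).support ⊆ A := fun α hα => by
      simp only [A, Set.Finite.mem_toFinset]
      exact hG'.deg v α hα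
    refine le_trans (le_of_eq (Finset.sum_congr rfl fun α _ => ?_))
      (Finset.sum_le_sum_of_subset_of_nonneg h2 fun α _ _ => mul_nonneg (norm_nonneg _)
        (Finset.prod_nonneg fun i _ => pow_nonneg (norm_nonneg _) _))
    rw [norm_mul, norm_prod]
    simp only [norm_pow]
  calc ‖eval x (G' v)‖ ^ M ≤ (∑ α ∈ A, ‖coeff α (G' v)‖ * ∏ i, ‖x i‖ ^ α i) ^ M :=
        pow_le_pow_left₀ (norm_nonneg _) h1 _
    _ ≤ (A.card : ℝ) ^ M * ∑ α ∈ A, (‖coeff α (G' v)‖ * ∏ i, ‖x i‖ ^ α i) ^ M :=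
        sum_pow_le A _ (fun α => mul_nonneg (norm_nonneg _)
          (Finset.prod_nonneg fun i _ => pow_nonneg (norm_nonneg _) _)) hM1
    _ ≤ (A.card : ℝ) ^ M * ∑ α ∈ A, D α * (∑ p, ‖eval x (G p v)‖) ^ k :=
        mul_le_mul_of_nonneg_left (Finset.sum_le_sum fun α _ => hD α v x) (by positivity)
    _ = _ := by rw [← Finset.sum_mul, mul_assoc]

end Pool.Agent.U976.TBd
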