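import Pool.Agent.U976.TBd.NC1

/-!
# Normal crossing divisors on toric bundles are log canonical along the toric divisors
-/

set_option autoImplicit false

namespace Pool.Agent.U976.TBd

open Pool.Agent.W594.SYZ2 Pool.Agent.W594.SYZ2.TQ Pool.Agent.TH735.AQ Q47.MM Q47.TB MvPolynomial

variable {V : Type*} [NormedAddCommGroup V] [NormedSpace ℂ V]
  {Γ : Subgroup (V ≃ᵃ[ℂ] V)} {ι : Type*} [Fintype ι] {n : ℕ}

/-- The divisors `F_j = 0` on the general fibres of `Y → X` are smooth and have normal crossings: for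
all `v` outside of the zero set of an entire function `g`, at each point `(v, x)` the differentials of
those `F_j` which vanish at the point are linearly independent. (This is so if the subvariety
`y_j ^ m_j = F_j` of the total space of the direct sum of the corresponding line bundles is smooth, or
only its general fibre over `X` is smooth.) -/
def GenNormalCrossing (S : Set (Set ι)) {k : ℕ} (F : Fin k → V → MvPolynomial ι ℂ) : Prop :=
  ∃ g : V → ℂ, Differentiable ℂ g ∧ (∃ v, g v ≠ 0) ∧
    ∀ (v : V) (x : ι → ℂ), g v ≠ 0 → {i | x i = 0} ∈ S →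
      LinearIndependent ℂ fun j : {j : Fin k // eval x (F j v) = 0} =>
        fderiv ℂ (fun p : V × (ι → ℂ) => eval p.2 (F j p.1)) (v, x)

/-- The exponents which occur in a section. -/
theorem exists_exps {u : ι → Fin n → ℤ} {S : Set (Set ι)} (hS : IsSmoothFan u S)
    {c : ι → LineBundle Γ} {d : ι → ℤ} {e : Γ → V → ℂ} {F : V → MvPolynomial ι ℂ}
    (hF : IsSection u c d e F) :
    ∃ T : Finset (ι →₀ ℕ), ∀ v x, eval x (F v) = ∑ α ∈ T, coeff α (F v) * ∏ i, x i ^ α i := by
  classical
  refine ⟨(finite_class hS d).toFinset, fun v x => ?_⟩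
  rw [eval_eq']
  refine Finset.sum_subset (fun α hα => ?_) fun α _ hα => ?_
  · rw [Set.Finite.mem_toFinset]
    exact hF.deg v α hα
  · rw [notMem_support_iff.1 hα, zero_mul]

theorem diff_prod {E : Type*} [NormedAddCommGroup E] [NormedSpace ℂ E] {κ : Type*} (s : Finset κ)
    {f : κ → E → ℂ} (hf : ∀ i ∈ s, Differentiable ℂ (f i)) :
    Differentiable ℂ fun p => ∏ i ∈ s, f i p := by
  classical
  induction s using Finset.induction_on with
  | empty => simp
  | insert j s hj ih =>
    simp only [Finset.prod_insert hj]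
    exact (hf j (Finset.mem_insert_self j s)).mul
      (ih fun k hk => hf k (Finset.mem_insert_of_mem hk))

/-- The function of a section is holomorphic. -/
theorem diff_eval {u : ι → Fin n → ℤ} {S : Set (Set ι)} (hS : IsSmoothFan u S)
    {c : ι → LineBundle Γ} {d : ι → ℤ} {e : Γ → V → ℂ} {F : V → MvPolynomial ι ℂ}
    (hF : IsSection u c d e F) :
    Differentiable ℂ fun p : V × (ι → ℂ) => eval p.2 (F p.1) := by
  classical
  obtain ⟨T, hT⟩ := exists_exps hS hF
  simp only [hT]
  refine Differentiable.fun_sum fun α _ => ?_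
  refine Differentiable.mul ((hF.holo α).comp differentiable_fst) ?_
  refine diff_prod _ fun i _ => ?_
  have h1 : Differentiable ℂ fun p : V × (ι → ℂ) => p.2 i :=
    differentiable_pi.1 differentiable_snd i
  exact h1.pow _

/-- A nonzero derivative in a normal direction comes from a monomial which is linear in the normal
directions. -/
theorem exists_linear {u : ι → Fin n → ℤ} {S : Set (Set ι)} (hS : IsSmoothFan u S)
    {c : ι → LineBundle Γ} {d : ι → ℤ} {e : Γ → V → ℂ} {F : V → MvPolynomial ι ℂ}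
    (hF : IsSection u c d e F) {v : V} {x : ι → ℂ} {i : ι} (hi : x i = 0) [DecidableEq ι]
    (h : fderiv ℂ (fun p : V × (ι → ℂ) => eval p.2 (F p.1)) (v, x)
      ((0 : V), Pi.single i (1 : ℂ)) ≠ 0) :
    ∃ α, coeff α (F v) ≠ 0 ∧ α i = 1 ∧ ∀ j, x j = 0 → j ≠ i → α j = 0 := by
  by_contra hcon
  push Not at hcon
  apply h
  rw [← (diff_eval hS hF (v, x)).lineDeriv_eq_fderiv, lineDeriv]
  obtain ⟨T, hT⟩ := exists_exps hS hF
  have h1 : ∀ t : ℂ, ((v, x) + t • ((0 : V), Pi.single i (1 : ℂ)) : V × (ι → ℂ))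
      = (v, fun j => x j + t * if j = i then 1 else 0) := by
    intro t
    ext1
    · simp
    · funext j
      simp only [Prod.smul_mk, smul_zero, Prod.mk_add_mk, Pi.add_apply, Pi.smul_apply,
        smul_eq_mul, Pi.single_apply]
  simp only [h1, hT]
  have h2 : HasDerivAt (fun t : ℂ => ∑ α ∈ T, coeff α (F v) *
      ∏ j, (x j + t * if j = i then 1 else 0) ^ α j) (∑ α ∈ T, 0) 0 := by
    refine HasDerivAt.fun_sum fun α _ => ?_
    by_cases hα : coeff α (F v) = 0
    · simp only [hα, zero_mul]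
      exact hasDerivAt_const _ _
    have h3 : ∀ t : ℂ, ∏ j, (x j + t * if j = i then 1 else 0) ^ α j
        = t ^ α i * ∏ j ∈ Finset.univ.erase i, x j ^ α j := by
      intro t
      rw [← Finset.mul_prod_erase Finset.univ _ (Finset.mem_univ i)]
      congr 1
      · rw [if_pos rfl, hi, zero_add, mul_one]
      · exact Finset.prod_congr rfl fun j hj => by
          rw [if_neg (Finset.ne_of_mem_erase hj), mul_zero, add_zero]
    simp only [h3]
    by_cases h4 : α i = 1
    · obtain ⟨j, hj, hji, hj0⟩ := hcon α hα h4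
      have h5 : ∏ j ∈ Finset.univ.erase i, x j ^ α j = 0 :=
        Finset.prod_eq_zero (Finset.mem_erase.2 ⟨hji, Finset.mem_univ j⟩)
          (by rw [hj, zero_pow hj0])
      simp only [h5, mul_zero]
      exact hasDerivAt_const _ _
    · have h5 : HasDerivAt (fun t : ℂ => t ^ α i) 0 0 := by
        have h6 := hasDerivAt_pow (α i) (0 : ℂ)
        have h7 : ((α i : ℕ) : ℂ) * (0 : ℂ) ^ (α i - 1) = 0 := by
          rcases Nat.lt_or_ge (α i) 1 with h8 | h8
          · have : α i = 0 := by omega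
            rw [this, Nat.cast_zero, zero_mul]
          · rw [zero_pow (by omega), mul_zero]
        rwa [h7] at h6
      have h6 := (h5.mul_const (∏ j ∈ Finset.univ.erase i, x j ^ α j)).const_mul (coeff α (F v))
      rwa [zero_mul, mul_zero] at h6
  have h3 := h2.deriv
  rw [Finset.sum_const_zero] at h3
  exact h3

/-- If a function vanishes on a stratum, then its derivative depends on the normal directions only. -/
theorem deriv_tangent {u : ι → Fin n → ℤ} {S : Set (Set ι)} (hS : IsSmoothFan u S)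
    {c : ι → LineBundle Γ} {d : ι → ℤ} {e : Γ → V → ℂ} {F : V → MvPolynomial ι ℂ}
    (hF : IsSection u c d e F) {σ : Set ι}
    (h0 : ∀ v (x : ι → ℂ), (∀ i ∈ σ, x i = 0) → eval x (F v) = 0) {v : V} {x : ι → ℂ}
    (hx : ∀ i ∈ σ, x i = 0) (w : V) {z : ι → ℂ} (hz : ∀ i ∈ σ, z i = 0) :
    fderiv ℂ (fun p : V × (ι → ℂ) => eval p.2 (F p.1)) (v, x) (w, z) = 0 := by
  rw [← (diff_eval hS hF (v, x)).lineDeriv_eq_fderiv, lineDeriv]
  have h1 : (fun t : ℂ => eval ((v, x) + t • (w, z)).2 (F ((v, x) + t • (w, z)).1))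
      = fun _ => 0 := by
    funext t
    refine h0 _ _ fun i hi => ?_
    simp [hx i hi, hz i hi]
  rw [h1, deriv_const]

/-- A normal crossing divisor is log canonical along the toric divisors. -/
theorem nc_low {u : ι → Fin n → ℤ} {S : Set (Set ι)} (hS : IsSmoothFan u S)
    {c : ι → LineBundle Γ} {k : ℕ} {D : Fin k → ι → ℤ} {e : Fin k → Γ → V → ℂ}
    {F : Fin k → V → MvPolynomial ι ℂ} (hF : ∀ j, IsSection u c (D j) (e j) (F j))
    (hnc : GenNormalCrossing S F) {a : ι → ℕ} (ha : {i | a i ≠ 0} ∈ S) :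
    ∃ (v : V) (N : Fin k → ℕ), (∀ j, Low a (F j v) (N j)) ∧ ∑ j, N j ≤ ∑ i, a i := by
  classical
  obtain ⟨σ, hσd⟩ : ∃ σ : Set ι, σ = {i | a i ≠ 0} := ⟨_, rfl⟩
  rw [← hσd] at ha
  -- the divisors which contain the stratum
  obtain ⟨J, hJ⟩ : ∃ J : Finset (Fin k), ∀ j, j ∈ J ↔
      ∀ (v : V) (α : ι →₀ ℕ), (∀ i ∈ σ, α i = 0) → coeff α (F j v) = 0 :=
    ⟨Finset.univ.filter fun j => ∀ (v : V) (α : ι →₀ ℕ), (∀ i ∈ σ, α i = 0) →
      coeff α (F j v) = 0, fun j => by simp⟩
  have hJn : ∀ j ∈ Jᶜ, ∃ α : ι →₀ ℕ, (∀ i ∈ σ, α i = 0) ∧ ∃ v, coeff α (F j v) ≠ 0 := by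
    intro j hj
    rw [Finset.mem_compl, hJ] at hj
    push Not at hj
    obtain ⟨v, α, h1, h2⟩ := hj
    exact ⟨α, h1, v, h2⟩
  choose! A hA0 hA1 using hJn
  obtain ⟨g, hg, hg0, hnc⟩ := hnc
  obtain ⟨v, hgv, hv⟩ := exists_common_finset Jᶜ (fun j v => coeff (A j) (F j v))
    (fun j _ => (hF j).holo _) hA1 hg hg0
  -- the restrictions to the stratum
  let R : Fin k → MvPolynomial ι ℂ := fun j =>
    ∑ α ∈ (F j v).support.filter (fun α => ∀ i ∈ σ, α i = 0), monomial α (coeff α (F j v))
  have hR0 : ∀ j ∈ Jᶜ, R j ≠ 0 := by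
    intro j hj h
    apply hv j hj
    have h1 : coeff (A j) (R j) = coeff (A j) (F j v) := by
      simp only [R, coeff_sum, coeff_monomial]
      rw [Finset.sum_ite_eq' , if_pos]
      rw [Finset.mem_filter, mem_support_iff]
      exact ⟨hv j hj, hA0 j hj⟩
    rw [← h1, h, coeff_zero]
  have hRe : ∀ j (x' : ι → ℂ), eval (fun i => if i ∈ σ then 0 else x' i) (F j v) = eval x' (R j) := by
    intro j x'
    simp only [R, map_sum, eval_monomial]
    rw [eval_eq', Finset.sum_filter]
    refine Finset.sum_congr rfl fun α _ => ?_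
    rw [Finsupp.prod_fintype _ _ fun i => pow_zero _]
    by_cases h : ∀ i ∈ σ, α i = 0
    · rw [if_pos h]
      congr 1
      refine Finset.prod_congr rfl fun i _ => ?_
      by_cases hi : i ∈ σ
      · rw [h i hi, pow_zero, pow_zero]
      · rw [if_neg hi]
    · rw [if_neg h]
      push Not at h
      obtain ⟨i, hi, hi0⟩ := h
      rw [Finset.prod_eq_zero (Finset.mem_univ i) (by rw [if_pos hi, zero_pow hi0]), mul_zero]
  obtain ⟨x', hx'⟩ : ∃ x' : ι → ℂ, eval x' ((∏ j ∈ Jᶜ, R j) * ∏ i, X i) ≠ 0 := by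
    by_contra hcon
    push Not at hcon
    have h1 : ((∏ j ∈ Jᶜ, R j) * ∏ i, X i : MvPolynomial ι ℂ) = 0 :=
      MvPolynomial.funext fun x => by rw [hcon x, map_zero]
    refine mul_ne_zero (Finset.prod_ne_zero_iff.2 hR0)
      (Finset.prod_ne_zero_iff.2 fun i _ => X_ne_zero i) h1
  rw [map_mul, map_prod, map_prod] at hx'
  have hx1 : ∀ j ∈ Jᶜ, eval x' (R j) ≠ 0 :=
    Finset.prod_ne_zero_iff.1 (left_ne_zero_of_mul hx')
  have hx2 : ∀ i, x' i ≠ 0 := fun i => by
    have := Finset.prod_ne_zero_iff.1 (right_ne_zero_of_mul hx') i (Finset.mem_univ i)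
    rwa [eval_X] at this
  obtain ⟨x, hx⟩ : ∃ x : ι → ℂ, x = fun i => if i ∈ σ then 0 else x' i := ⟨_, rfl⟩
  have hxσ : {i | x i = 0} = σ := by
    ext i
    rw [hx]
    by_cases hi : i ∈ σ
    · simp [hi]
    · simp [hi, hx2 i]
  have hxi : ∀ i, x i = 0 ↔ i ∈ σ := fun i => by
    rw [← hxσ]
    rfl
  -- the functions which vanish on the stratum
  have hvan : ∀ j ∈ J, ∀ (v : V) (x : ι → ℂ), (∀ i ∈ σ, x i = 0) → eval x (F j v) = 0 := by
    intro j hj v x hx
    rw [eval_eq']
    refine Finset.sum_eq_zero fun α _ => ?_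
    by_cases h : ∀ i ∈ σ, α i = 0
    · rw [(hJ j).1 hj v α h, zero_mul]
    · push Not at h
      obtain ⟨i, hi, hi0⟩ := h
      rw [Finset.prod_eq_zero (Finset.mem_univ i) (by rw [hx i hi, zero_pow hi0]), mul_zero]
  have hli := hnc v x hgv (by rw [hxσ]; exact ha)
  obtain ⟨f, hf⟩ : ∃ f : Fin k → (V × (ι → ℂ)) →L[ℂ] ℂ, ∀ j,
      f j = fderiv ℂ (fun p : V × (ι → ℂ) => eval p.2 (F j p.1)) (v, x) := ⟨_, fun _ => rfl⟩
  simp only [← hf] at hli
  have hJv : ∀ j ∈ J, eval x (F j v) = 0 := fun j hj =>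
    hvan j hj v x fun i hi => (hxi i).2 hi
  -- the differentials are given by the matrix of the normal derivatives
  obtain ⟨M, hM⟩ : ∃ M : Fin k → ι → ℂ, ∀ j i, M j i = f j ((0 : V), Pi.single i (1 : ℂ)) :=
    ⟨_, fun _ _ => rfl⟩
  have hfM : ∀ j ∈ J, ∀ (w : V) (z : ι → ℂ), f j (w, z)
      = ∑ i, (if i ∈ σ then z i else 0) * M j i := by
    intro j hj w z
    have h1 : ((w, z) : V × (ι → ℂ)) = (w, fun i => if i ∈ σ then 0 else z i)
        + ∑ i, (if i ∈ σ then z i else 0) • ((0 : V), Pi.single i (1 : ℂ)) := by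
      have h2 : ∑ i, (if i ∈ σ then z i else 0) • ((0 : V), Pi.single i (1 : ℂ))
          = (((0 : V), fun i => if i ∈ σ then z i else 0) : V × (ι → ℂ)) := by
        refine Prod.ext ?_ (funext fun l => ?_)
        · rw [Prod.fst_sum]
          exact Finset.sum_eq_zero fun i _ => smul_zero _
        · rw [Prod.snd_sum, Finset.sum_apply]
          have h3 : ∀ i, ((if i ∈ σ then z i else 0) • ((0 : V), (Pi.single i (1 : ℂ) : ι → ℂ))).2 l
              = (if i ∈ σ then z i else 0) * (Pi.single i (1 : ℂ) : ι → ℂ) l := fun i => rfl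
          rw [Finset.sum_eq_single l]
          · rw [h3, Pi.single_eq_same, mul_one]
          · intro i _ hi
            rw [h3, Pi.single_eq_of_ne hi.symm, mul_zero]
          · intro h
            exact absurd (Finset.mem_univ _) h
      rw [h2]
      ext1
      · simp
      · funext l
        by_cases hl : l ∈ σ <;> simp [hl]
    have h0 : f j (w, fun i => if i ∈ σ then 0 else z i) = 0 := by
      rw [hf]
      exact deriv_tangent hS (hF j) (hvan j hj) (fun i hi => (hxi i).2 hi) w
        fun i hi => if_pos hi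
    calc f j (w, z) = f j ((w, fun i => if i ∈ σ then 0 else z i)
        + ∑ i, (if i ∈ σ then z i else 0) • ((0 : V), Pi.single i (1 : ℂ))) := by rw [← h1]
      _ = _ := by
        rw [map_add, h0, zero_add, map_sum]
        refine Finset.sum_congr rfl fun i _ => ?_
        rw [map_smul, hM, smul_eq_mul]
  -- Hall's theorem
  let I : J → Finset ι := fun j => Finset.univ.filter fun i => i ∈ σ ∧ M j i ≠ 0
  have hall : ∀ s : Finset J, s.card ≤ (s.biUnion I).card := by
    intro s
    have hinj : Function.Injective fun j : s =>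
        (⟨j.1.1, hJv _ j.1.2⟩ : {j : Fin k // eval x (F j v) = 0}) := by
      intro j j' h
      exact Subtype.ext (Subtype.ext (congrArg (fun y => y.1) h))
    have h1 := hli.comp _ hinj
    have h2 : LinearIndependent ℂ fun j : s => fun i : (s.biUnion I : Finset ι) => M j.1.1 i.1 := by
      rw [Fintype.linearIndependent_iff] at h1 ⊢
      intro g hg
      refine h1 g (ContinuousLinearMap.ext fun p => ?_)
      obtain ⟨w, z⟩ := p
      have h3 : (∑ j, g j • (f j.1.1) : (V × (ι → ℂ)) →L[ℂ] ℂ) (w, z)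
          = ∑ i, (if i ∈ σ then z i else 0) * ∑ j, g j * M j.1.1 i := by
        rw [sum_apply]
        simp only [smul_apply, smul_eq_mul, Finset.mul_sum]
        rw [Finset.sum_comm]
        refine Finset.sum_congr rfl fun j _ => ?_
        rw [hfM j.1.1 j.1.2, Finset.mul_sum]
        exact Finset.sum_congr rfl fun i _ => by ring
      refine Eq.trans h3 ?_
      refine Finset.sum_eq_zero fun i _ => ?_
      by_cases hi : i ∈ σ
      · by_cases hiU : i ∈ s.biUnion I
        · have h4 := congrFun hg ⟨i, hiU⟩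
          rw [Finset.sum_apply] at h4
          have h5 : ∑ j, g j * M j.1.1 i = 0 := h4
          rw [h5, mul_zero]
        · have h5 : ∀ j : s, M j.1.1 i = 0 := by
            intro j
            by_contra hne
            apply hiU
            rw [Finset.mem_biUnion]
            exact ⟨j.1, j.2, by simp [I, hi, hne]⟩
          rw [Finset.sum_eq_zero fun j _ => by rw [h5 j, mul_zero], mul_zero]
      · rw [if_neg hi, zero_mul]
    have h3 := h2.fintype_card_le_finrank
    rw [Module.finrank_pi, Fintype.card_coe, Fintype.card_coe] at h3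
    exact h3
  obtain ⟨φ, hφi, hφ⟩ := (Finset.all_card_le_biUnion_card_iff_exists_injective I).1 hall
  have hlow1 : ∀ j : J, Low a (F j v) (a (φ j)) := by
    intro j
    have h1 := hφ j
    simp only [I, Finset.mem_filter, Finset.mem_univ, true_and] at h1
    obtain ⟨α, hα, h2, h3⟩ := exists_linear hS (hF j) (v := v) (x := x) (i := φ j)
      ((hxi _).2 h1.1) (by rw [← hf, ← hM]; exact h1.2)
    refine ⟨α, hα, le_of_eq ?_⟩
    rw [Finset.sum_eq_single (φ j)]
    · rw [h2, mul_one]
    · intro i _ hi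
      by_cases hiσ : i ∈ σ
      · rw [h3 i ((hxi i).2 hiσ) hi, mul_zero]
      · rw [hσd] at hiσ
        have : a i = 0 := by
          by_contra hne
          exact hiσ hne
        rw [this, zero_mul]
    · intro h
      exact absurd (Finset.mem_univ _) h
  have hlow2 : ∀ j ∈ Jᶜ, Low a (F j v) 0 := by
    intro j hj
    refine ⟨A j, hv j hj, le_of_eq ?_⟩
    refine Finset.sum_eq_zero fun i _ => ?_
    by_cases hiσ : i ∈ σ
    · rw [hA0 j hj i hiσ, mul_zero]
    · rw [hσd] at hiσ
      have : a i = 0 := by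
        by_contra hne
        exact hiσ hne
      rw [this, zero_mul]
  refine ⟨v, fun j => if h : j ∈ J then a (φ ⟨j, h⟩) else 0, fun j => ?_, ?_⟩
  · by_cases h : j ∈ J
    · simp only [dif_pos h]
      exact hlow1 ⟨j, h⟩
    · simp only [dif_neg h]
      exact hlow2 j (Finset.mem_compl.2 h)
  · rw [← Finset.sum_subset (Finset.subset_univ J) fun j _ hj => dif_neg hj]
    rw [← Finset.sum_attach J]
    have h1 : ∑ j ∈ J.attach, (if h : j.1 ∈ J then a (φ ⟨j.1, h⟩) else 0)
        = ∑ j ∈ J.attach, a (φ j) :=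
      Finset.sum_congr rfl fun j _ => by rw [dif_pos j.2]
    rw [h1, ← Finset.sum_image (f := a) (g := φ) fun j _ j' _ h => hφi h]
    exact Finset.sum_le_sum_of_subset (Finset.subset_univ _)

/-- The product of powers of the equations of the components of a normal crossing divisor. -/
theorem toricLC_of_nc {u : ι → Fin n → ℤ} {S : Set (Set ι)} (hS : IsSmoothFan u S)
    {c : ι → LineBundle Γ} {k : ℕ} {D : Fin k → ι → ℤ} {e : Fin k → Γ → V → ℂ}
    {F : Fin k → V → MvPolynomial ι ℂ} (hF : ∀ j, IsSection u c (D j) (e j) (F j))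
    (hnc : GenNormalCrossing S F) {m : ℕ} {w : Fin k → ℕ} (hw : ∀ j, w j ≤ m) :
    ToricLC S m fun v => ∏ j, F j v ^ w j := by
  intro a ha
  obtain ⟨v, N, hN, hle⟩ := nc_low hS hF hnc ha
  obtain ⟨α, hα, hα1⟩ := low_prod Finset.univ fun j _ => low_pow (hN j) (w j)
  refine ⟨α, ⟨v, hα⟩, hα1.trans ?_⟩
  calc ∑ j, w j * N j ≤ ∑ j, m * N j := Finset.sum_le_sum fun j _ => Nat.mul_le_mul_right _ (hw j)
    _ = m * ∑ j, N j := by rw [Finset.mul_sum]
    _ ≤ _ := Nat.mul_le_mul_left _ hle

end Pool.Agent.U976.TBd
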