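import Pool.Agent.U976.TBd.G3
import Pool.Agent.U976.TBd.NC2

/-!
# The numerical Zariski decomposition of adjoint line bundles on toric bundles
-/

set_option autoImplicit false

namespace Pool.Agent.U976.TBd

open Pool.Agent.W594.SYZ2 Pool.Agent.W594.SYZ2.TQ Pool.Agent.TH735.AQ Q47.MM Q47.TB Q47.EB
open MvPolynomial Filter Topology

section Module

variable {ι : Type*} [Fintype ι] {n : ℕ}

/-- The solutions of the inhomogeneous system are sums of finitely many of them and of solutions of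
the homogeneous system. -/
theorem fg_module {u : ι → Fin n → ℤ} {J : Type*} [Finite J] (d dA : ι → ℤ) (nn nA : J → ℤ)
    (N : ι → J → ℤ) :
    ∃ (s : ℕ) (a0 : Fin s → ℕ) (b0 : Fin s → ι → ℕ),
      ∀ (k : ℕ) (β : ι → ℕ), LinEquiv u (fun i => (β i : ℤ)) (fun i => k * d i + dA i) →
        (∀ g, 0 ≤ (k : ℤ) * nn g + nA g - ∑ i, (β i : ℤ) * N i g) →
        ∃ (l : Fin s) (k1 : ℕ) (β1 : ι → ℕ), k = a0 l + k1 ∧ (∀ i, β i = b0 l i + β1 i) ∧
          LinEquiv u (fun i => (β1 i : ℤ)) (fun i => k1 * d i) ∧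
          ∀ g, 0 ≤ (k1 : ℤ) * nn g - ∑ i, (β1 i : ℤ) * N i g := by
  classical
  have := Fintype.ofFinite J
  let T : Set ((Unit ⊕ (ι ⊕ J)) → ℕ) := {w |
    LinEquiv u (fun i => (w (Sum.inr (Sum.inl i)) : ℤ)) (fun i => w (Sum.inl ()) * d i + dA i) ∧
    ∀ g, (w (Sum.inr (Sum.inr g)) : ℤ)
      = w (Sum.inl ()) * nn g + nA g - ∑ i, (w (Sum.inr (Sum.inl i)) : ℤ) * N i g}
  have hfin : {w : (Unit ⊕ (ι ⊕ J)) → ℕ | Minimal (fun w => w ∈ T) w}.Finite :=
    WellQuasiOrderedLE.finite_of_isAntichain (setOfPred_minimal_antichain _)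
  let e := hfin.toFinset.equivFin.symm
  refine ⟨hfin.toFinset.card, fun j => (e j).1 (Sum.inl ()),
    fun j i => (e j).1 (Sum.inr (Sum.inl i)), fun k β hβ hg => ?_⟩
  let w : (Unit ⊕ (ι ⊕ J)) → ℕ := Sum.elim (fun _ => k) (Sum.elim β fun g =>
      ((k : ℤ) * nn g + nA g - ∑ i, (β i : ℤ) * N i g).toNat)
  have hw : w ∈ T := ⟨hβ, fun g => Int.toNat_of_nonneg (hg g)⟩
  obtain ⟨w0, hw0w, hw0⟩ := exists_minimal_le_of_wellFoundedLT (fun w => w ∈ T) w hw
  have hmem : w0 ∈ hfin.toFinset := hfin.mem_toFinset.2 hw0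
  obtain ⟨l, hl⟩ : ∃ l, e l = ⟨w0, hmem⟩ := ⟨e.symm ⟨w0, hmem⟩, Equiv.apply_symm_apply _ _⟩
  have hl' : (e l).1 = w0 := congrArg Subtype.val hl
  obtain ⟨h1', h2'⟩ := hw0.prop
  obtain ⟨h1, h2⟩ := hw
  have hc : ∀ j, (((w - w0) j : ℕ) : ℤ) = w j - w0 j := fun j => Int.ofNat_sub (hw0w j)
  refine ⟨l, (w - w0) (Sum.inl ()), fun i => (w - w0) (Sum.inr (Sum.inl i)), ?_, fun i => ?_,
    ?_, fun g => ?_⟩
  · simp only [hl']
    exact (Nat.add_sub_cancel' (hw0w (Sum.inl ()))).symm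
  · simp only [hl']
    exact (Nat.add_sub_cancel' (hw0w (Sum.inr (Sum.inl i)))).symm
  · have h3 := linEquiv_sub h1 h1'
    simp only [hc]
    have h4 : (fun i => (w (Sum.inl ()) : ℤ) * d i + dA i - ((w0 (Sum.inl ()) : ℤ) * d i + dA i))
        = fun i => ((w (Sum.inl ()) : ℤ) - w0 (Sum.inl ())) * d i := by
      funext i
      ring
    rwa [h4] at h3
  · have h3 := h2 g
    have h4 := h2' g
    have h5 : (w0 (Sum.inr (Sum.inr g)) : ℤ) ≤ w (Sum.inr (Sum.inr g)) := by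
      exact_mod_cast hw0w (Sum.inr (Sum.inr g))
    simp only [hc, sub_mul, Finset.sum_sub_distrib]
    rw [h3, h4] at h5
    linarith

end Module

variable {V : Type*} [NormedAddCommGroup V] [NormedSpace ℂ V] {Γ : Subgroup (V ≃ᵃ[ℂ] V)}
  {ι : Type*} [Fintype ι] {n : ℕ}

/-- The weight of a tensor product. -/
theorem weight_tensor {L LA : LineBundle Γ} {w wA : V → ℝ} (hw : IsWeight L w)
    (hA : IsWeight LA wA) (k : ℕ) :
    IsWeight (tensor (L.pow k) LA) fun v => w v ^ k * wA v := by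
  refine ⟨(hw.cont.pow k).mul hA.cont, fun v => mul_pos (pow_pos (hw.pos v) k) (hA.pos v),
    fun γ v => ?_⟩
  change ‖L.e γ v ^ k * LA.e γ v‖ ^ 2 * (w v ^ k * wA v) = _
  rw [← hw.eq γ v, ← hA.eq γ v, norm_mul, norm_pow]
  ring

variable [FiniteDimensional ℂ V]

/-- The sections which bound the metrics of all adjoint exponents with nef forms. -/
theorem core {u : ι → Fin n → ℤ} {S : Set (Set ι)} (hΓ : IsTorusQuotient Γ) {ρ : V → ℂ}
    (hρ : IsRamification Γ ρ) (hS : IsSmoothFan u S) {c : ι → LineBundle Γ}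
    {Hc : ι → V → V → ℂ} (hc : ∀ i, IsChernForm (c i) (Hc i)) {m : ℕ} {d : ι → ℤ}
    {F : V → MvPolynomial ι ℂ} {L : LineBundle Γ} {H : V → V → ℂ} (hL : IsChernForm L H)
    (hF : Q47.TB.IsLogPluricanonical u c m ρ d F L) (hw : ToricLC S m F)
    {J : Type*} [Finite J] {nn : J → ℤ} {N : ι → J → ℤ}
    (hcrit : ∀ (k : ℕ) (β : ι → ℕ), 1 ≤ k →
        LinEquiv u (fun i => (β i : ℤ)) (fun i => k * (d i - m)) →
        (∀ g, 0 ≤ (k : ℤ) * nn g - ∑ i, (β i : ℤ) * N i g) → IsNefForm (frm Hc H k β))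
    {w : V → ℝ} (hwt : IsWeight L w) {wc : ι → V → ℝ} (hwc : ∀ i, IsWeight (c i) (wc i)) :
    ∃ (M n0 : ℕ) (G : Fin n0 → V → MvPolynomial ι ℂ), 1 ≤ M ∧
      (∀ j, SecPow u c (fun i => d i - m) L M (G j)) ∧
      ∀ (k : ℕ) (β : ι → ℕ), LinEquiv u (fun i => (β i : ℤ)) (fun i => k * (d i - m)) →
        (∀ g, 0 ≤ (k : ℤ) * nn g - ∑ i, (β i : ℤ) * N i g) →
        ∃ D : ℝ, 0 ≤ D ∧ ∀ (v : V) (x : ι → ℂ),
          (wt w wc k β v * (∏ i, ‖x i‖ ^ β i) ^ 2) ^ M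
            ≤ D * ((∑ j, ‖eval x (G j v)‖) ^ k) ^ 2 := by
  classical
  obtain ⟨r, a, b, hab, hgen⟩ := fg_monoid hS (fun i => d i - m) nn N
  choose K hK hgg using fun j => gen hΓ hρ hS hc hL hF hw (hab j).1 (hab j).2.1
    (hcrit (a j) (b j) (hab j).1 (hab j).2.1 (hab j).2.2)
  obtain ⟨E, hE⟩ : ∃ E, E = expo (Module.finrank ℂ V) := ⟨_, rfl⟩
  have hE1 : 1 ≤ E := hE ▸ expo_pos _
  rw [← hE] at hgg
  choose rr s CC hCC hsec hlow using fun j =>
    lower_bound hΓ (weight_tw hwt hwc (K j) E (a j) (b j)) (hgg j)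
  obtain ⟨M, hMd⟩ : ∃ M, M = ∏ j, a j * (K j * E) := ⟨_, rfl⟩
  have hM1 : 1 ≤ M := by
    rw [hMd]
    exact Finset.one_le_prod' fun j _ =>
      Nat.mul_pos (hab j).1 (Nat.mul_pos (hK j) hE1)
  have hR : ∀ j, ∃ R, M = a j * (K j * (E * R)) := by
    intro j
    obtain ⟨R, hR⟩ := Finset.dvd_prod_of_mem (fun j => a j * (K j * E)) (Finset.mem_univ j)
    exact ⟨R, by rw [hMd, hR]; ring⟩
  choose R hR using hR
  let I := Σ j : Fin r, Fin (rr j)
  let G : I → V → MvPolynomial ι ℂ := fun p v =>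
    monomial (Finsupp.equivFunOnFinite.symm fun i => K p.1 * (E * R p.1) * b p.1 i)
      (s p.1 p.2 v ^ R p.1)
  have hG : ∀ p, SecPow u c (fun i => d i - m) L M (G p) := by
    rintro ⟨j, l⟩
    have h1 : ((Q47.TB.tw (L.pow (a j)) c (K j) (b j)).pow (E * R j)).IsSection
        fun v => s j l v ^ R j := by
      rw [← pow_pow']
      exact section_pow (hsec j l) (R j)
    exact secPow_monomial (hab j).2.1 h1 (hR j)
  have hGn : ∀ (p : I) (v : V) (x : ι → ℂ), ‖eval x (G p v)‖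
      = ‖s p.1 p.2 v‖ ^ R p.1 * (∏ i, ‖x i‖ ^ b p.1 i) ^ (K p.1 * (E * R p.1)) := by
    intro p v x
    simp only [G]
    rw [norm_eval_monomial, norm_pow, ← Finset.prod_pow]
    congr 1
    exact Finset.prod_congr rfl fun i _ => by rw [← pow_mul, mul_comm]
  let e := Fintype.equivFin I
  refine ⟨M, Fintype.card I, fun j => G (e.symm j), hM1, fun j => hG _,
    fun k β hβ hg => ?_⟩
  obtain ⟨ex, hex1, hex2⟩ := hgen k β hβ hg
  refine ⟨∏ j, (CC j ^ R j) ^ (a j * ex j),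
    Finset.prod_nonneg fun j _ => pow_nonneg (pow_nonneg (hCC j) _) _, fun v x => ?_⟩
  have hΦe : ∑ j, ‖eval x (G (e.symm j) v)‖ = ∑ p, ‖eval x (G p v)‖ :=
    Equiv.sum_comp e.symm fun p => ‖eval x (G p v)‖
  rw [hΦe]
  obtain ⟨Φ, hΦ⟩ : ∃ Φ, Φ = ∑ p, ‖eval x (G p v)‖ := ⟨_, rfl⟩
  have hΦ0 : 0 ≤ Φ := hΦ ▸ Finset.sum_nonneg fun p _ => norm_nonneg _
  rw [← hΦ]
  have hb := gen_bound a K R hR (fun j => wt w wc (a j) (b j) v)
    (fun j => ∏ i, ‖x i‖ ^ b j i) CC (fun j => wt_pos hwt.pos (fun i => (hwc i).pos) _ _ v)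
    (fun j => Finset.prod_nonneg fun i _ => pow_nonneg (norm_nonneg _) _) hCC hΦ0 (fun j => by
      obtain ⟨l, hl⟩ := hlow j v
      refine ⟨‖s j l v‖, norm_nonneg _, hl, ?_⟩
      rw [hΦ, ← hGn ⟨j, l⟩ v x]
      exact Finset.single_le_sum (f := fun p => ‖eval x (G p v)‖)
        (fun p _ => norm_nonneg _) (Finset.mem_univ _)) ex hex1
  have h1 : wt w wc k β v * (∏ i, ‖x i‖ ^ β i) ^ 2
      = ∏ j, (wt w wc (a j) (b j) v * (∏ i, ‖x i‖ ^ b j i) ^ 2) ^ ex j := by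
    rw [wt_sum w wc ex a b hex1 hex2, prod_sum_exp (fun i => ‖x i‖) ex b hex2, ← Finset.prod_pow,
      ← Finset.prod_mul_distrib]
    exact Finset.prod_congr rfl fun j _ => by
      rw [mul_pow, ← pow_mul, ← pow_mul, mul_comm 2]
  rw [h1]
  exact hb

omit [FiniteDimensional ℂ V] in
theorem le_sum_mono {α : Type*} {s : Finset α} {f : α → ℝ} (hf : ∀ i ∈ s, 0 ≤ f i) {i : α}
    (hi : i ∈ s) : f i ≤ ∑ j ∈ s, f j := Finset.single_le_sum hf hi

/-- Comparison of powers. -/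
theorem pow_shift {Φ : ℝ} (h : 0 ≤ Φ) {k k1 a K0 : ℕ} (hk : k = a + k1) (ha : a ≤ K0) :
    Φ ^ k1 ≤ (1 + Φ) ^ K0 * Φ ^ (k - K0) := by
  have h1 : k - K0 ≤ k1 := by omega
  obtain ⟨t, ht⟩ := Nat.exists_eq_add_of_le h1
  have h2 : t ≤ K0 := by omega
  rw [ht, pow_add, mul_comm]
  refine mul_le_mul_of_nonneg_right ?_ (pow_nonneg h _)
  calc Φ ^ t ≤ (1 + Φ) ^ t := pow_le_pow_left₀ h (by linarith) t
    _ ≤ (1 + Φ) ^ K0 := pow_le_pow_right₀ (by linarith) h2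

/-- The criterion, with integrality of the values of all Chern forms. -/
theorem exists_crit2 {u : ι → Fin n → ℤ} {S : Set (Set ι)} (hΓ : IsTorusQuotient Γ) {ρ : V → ℂ}
    (hρ : IsRamification Γ ρ) (hS : IsSmoothFan u S) {c : ι → LineBundle Γ}
    {Hc : ι → V → V → ℂ} (hc : ∀ i, IsChernForm (c i) (Hc i)) {m : ℕ} {d : ι → ℤ}
    {F : V → MvPolynomial ι ℂ} {L : LineBundle Γ} {H : V → V → ℂ} (hL : IsChernForm L H)
    (hF : Q47.TB.IsLogPluricanonical u c m ρ d F L) (hw : ToricLC S m F) :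
    ∃ (x y : Refls Γ → V) (nn : Refls Γ → ℤ) (N : ι → Refls Γ → ℤ),
      (∀ g, (H (x g) (y g)).im = nn g) ∧ (∀ i g, (Hc i (x g) (y g)).im = N i g) ∧
      (∀ Q : V → V → ℂ, IsHermitian Q → IsNefForm Q → ∀ g, 0 ≤ (Q (x g) (y g)).im) ∧
      (∀ (LA : LineBundle Γ) (HA : V → V → ℂ), IsChernForm LA HA → ∀ g,
        ∃ z : ℤ, (HA (x g) (y g)).im = z) ∧
      ∀ (k : ℕ) (β : ι → ℕ), 1 ≤ k →
        LinEquiv u (fun i => (β i : ℤ)) (fun i => k * (d i - m)) →
        (∀ g, 0 ≤ (k : ℤ) * nn g - ∑ i, (β i : ℤ) * N i g) → IsNefForm (frm Hc H k β) := by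
  obtain ⟨x, y, hx, hy, hxy⟩ := exists_tests hΓ
  have h0 : ∀ (LA : LineBundle Γ) (HA : V → V → ℂ), IsChernForm LA HA → ∀ g,
        ∃ z : ℤ, (HA (x g) (y g)).im = z := fun LA HA hA g => by
    obtain ⟨hH, F', hF', hFe⟩ := hA
    obtain ⟨n, hn⟩ := im_int hH ⟨hF', hFe⟩ (hx g) (hy g)
    exact ⟨n, hn⟩
  choose nn hnn using h0 L H hL
  choose N hN using fun i => h0 (c i) (Hc i) (hc i)
  refine ⟨x, y, nn, N, hnn, hN, fun Q hQ hn g => (hxy Q hQ).1 (fun a _ => hn a) g, h0,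
    fun k β hk hβ h => ?_⟩
  have hI := inv_frm hc hL k β
  refine nef_of_roots hΓ hI (fun z hz => frm_fixed hΓ hρ hS hc hL hF hw hk hβ hz)
    ((hxy _ hI.herm).2 fun g => ?_)
  rw [frm_im, hnn]
  simp only [hN]
  have := h g
  exact_mod_cast this

omit [FiniteDimensional ℂ V] [NormedSpace ℂ V] [NormedAddCommGroup V] in
theorem wt_add (w : V → ℝ) (wc : ι → V → ℝ) {k k0 k1 : ℕ} {β β0 β1 : ι → ℕ} (hk : k = k0 + k1)
    (hβ : ∀ i, β i = β0 i + β1 i) (v : V) :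
    wt w wc k β v = wt w wc k0 β0 v * wt w wc k1 β1 v := by
  simp only [wt, hk, hβ, pow_add, Finset.prod_mul_distrib, mul_inv]
  ring

/-- Finitely many sections of one multiple compute the asymptotic orders of the sections of
`k N + A`, for all `A`. -/
theorem sigma_sections {u : ι → Fin n → ℤ} {S : Set (Set ι)} (hΓ : IsTorusQuotient Γ) {ρ : V → ℂ}
    (hρ : IsRamification Γ ρ) (hS : IsSmoothFan u S) {c : ι → LineBundle Γ}
    {Hc : ι → V → V → ℂ} (hc : ∀ i, IsChernForm (c i) (Hc i)) {m : ℕ} {d : ι → ℤ}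
    {F : V → MvPolynomial ι ℂ} {L : LineBundle Γ} {H : V → V → ℂ} (hL : IsChernForm L H)
    (hF : Q47.TB.IsLogPluricanonical u c m ρ d F L) (hw : ToricLC S m F) :
    ∃ (M n0 : ℕ) (G : Fin n0 → V → MvPolynomial ι ℂ), 1 ≤ M ∧
      (∀ j, SecPow u c (fun i => d i - m) L M (G j)) ∧
      (Psef u c (fun i => d i - m) L → ∃ j v, G j v ≠ 0) ∧
      ∀ (dA : ι → ℤ) (LA : LineBundle Γ) (HA : V → V → ℂ), IsChernForm LA HA →
        ∃ (K0 : ℕ) (B : V × (ι → ℂ) → ℝ), Continuous B ∧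
          ∀ (k : ℕ) (G' : V → MvPolynomial ι ℂ),
            IsSection u c (fun i => k * (d i - m) + dA i) (fun γ v => L.e γ v ^ k * LA.e γ v) G' →
            ∃ C : ℝ, 0 ≤ C ∧ ∀ (v : V) (x : ι → ℂ),
              ‖eval x (G' v)‖ ^ M ≤ C * B (v, x) * (∑ j, ‖eval x (G j v)‖) ^ (k - K0) := by
  classical
  have := finite_Lin hΓ
  obtain ⟨x0, y0, nn, N, hnn, hN, htest, hint, hcrit⟩ := exists_crit2 hΓ hρ hS hc hL hF hw
  obtain ⟨w, hwt⟩ := exists_weight hL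
  choose wc hwc using fun i => exists_weight (hc i)
  obtain ⟨M, n0, G, hM1, hG, hcore⟩ := core hΓ hρ hS hc hL hF hw hcrit hwt hwc
  refine ⟨M, n0, G, hM1, hG, fun hp => ?_, fun dA LA HA hA => ?_⟩
  · by_contra hcon
    push Not at hcon
    obtain ⟨q, hq, β, hβ, hn⟩ := nef_of_eff hΓ hc hL (eff_of_psef hΓ hρ hS hc hL hF hw hp)
    obtain ⟨D, hD, hb⟩ := hcore q β hβ fun g => by
      have h1 := htest _ (inv_frm hc hL q β).herm hn g
      rw [frm_im, hnn] at h1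
      simp only [hN] at h1
      exact_mod_cast h1
    have h1 := hb 0 fun _ => 1
    have h2 : ∑ j, ‖eval (fun _ => (1 : ℂ)) (G j (0 : V))‖ = 0 :=
      Finset.sum_eq_zero fun j _ => by rw [hcon j 0, map_zero, norm_zero]
    rw [h2, zero_pow (Nat.one_le_iff_ne_zero.1 hq), zero_pow two_ne_zero, mul_zero] at h1
    have h3 : 0 < wt w wc q β 0 := wt_pos hwt.pos (fun i => (hwc i).pos) _ _ _
    simp only [norm_one, one_pow, Finset.prod_const_one, mul_one] at h1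
    exact absurd h1 (not_le.2 (pow_pos h3 M))
  obtain ⟨wA, hwA⟩ := exists_weight hA
  choose nA hnA using hint LA HA hA
  obtain ⟨s, a0, b0, hmod⟩ := fg_module (u := u) (fun i => d i - m) dA nn nA N
  obtain ⟨K0, hK0⟩ : ∃ K0, K0 = ∑ l, a0 l := ⟨_, rfl⟩
  obtain ⟨W0, hW0⟩ : ∃ W0 : Fin s → V × (ι → ℂ) → ℝ, ∀ l p, W0 l p
      = wt w wc (a0 l) (b0 l) p.1 * wA p.1 * (∏ i, ‖p.2 i‖ ^ b0 l i) ^ 2 := ⟨_, fun _ _ => rfl⟩
  have hW0n : ∀ l p, 0 ≤ W0 l p := fun l p => by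
    rw [hW0]
    exact mul_nonneg (mul_nonneg (wt_pos hwt.pos (fun i => (hwc i).pos) _ _ _).le
      (hwA.pos _).le) (sq_nonneg _)
  obtain ⟨Φ, hΦ⟩ : ∃ Φ : V × (ι → ℂ) → ℝ, ∀ p, Φ p = ∑ j, ‖eval p.2 (G j p.1)‖ :=
    ⟨_, fun _ => rfl⟩
  have hΦ0 : ∀ p, 0 ≤ Φ p := fun p => hΦ p ▸ Finset.sum_nonneg fun j _ => norm_nonneg _
  refine ⟨K0, fun p => (∑ l, Real.sqrt (W0 l p ^ M)) * (1 + Φ p) ^ K0, ?_, fun k G' hG' => ?_⟩
  · have h1 : Continuous Φ := by
      rw [funext hΦ]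
      exact continuous_finsetSum _ fun j _ => (diff_eval hS (hG j)).continuous.norm
    have h2 : ∀ l, Continuous (W0 l) := fun l => by
      rw [funext (hW0 l)]
      refine Continuous.mul (Continuous.mul ?_ ?_) (Continuous.pow ?_ 2)
      · exact (wt_cont hwt.cont (fun i => (hwc i).cont) (fun i => (hwc i).pos) _ _).comp
          continuous_fst
      · exact hwA.cont.comp continuous_fst
      · refine continuous_finsetProd _ fun i _ => Continuous.pow ?_ _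
        exact ((continuous_apply i).comp continuous_snd).norm
    refine Continuous.mul (continuous_finsetSum _ fun l _ => ?_) ((continuous_const.add h1).pow _)
    exact Real.continuous_sqrt.comp ((h2 l).pow M)
  have hone : ∀ α : ι →₀ ℕ, ∃ D : ℝ, 0 ≤ D ∧ ∀ (v : V) (x : ι → ℂ),
      (‖coeff α (G' v)‖ * ∏ i, ‖x i‖ ^ α i) ^ M
        ≤ D * ((∑ l, Real.sqrt (W0 l (v, x) ^ M)) * (1 + Φ (v, x)) ^ K0) * Φ (v, x) ^ (k - K0) := by
    intro α
    by_cases hα : ∃ v, coeff α (G' v) ≠ 0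
    · obtain ⟨v₀, hv₀⟩ := id hα
      have hcls := hG'.deg v₀ α (mem_support_iff.2 hv₀)
      have hM := Q47.KN.chern_tensor hL hA k
      have hnef := nef_of_coef hΓ hc hM (M := tensor (L.pow k) LA) hG' hα
      have hherm : IsHermitian fun v w => ((k : ℂ) * H v w + HA v w)
          - ∑ i, (α i : ℂ) * Hc i v w := by
        have h3 := (chern_tw hM hc 1 α).1
        have h4 : (fun v w => ((1 : ℕ) : ℂ) * (((k : ℂ) * H v w + HA v w)
            - ∑ i, (α i : ℂ) * Hc i v w)) = fun v w =>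
            ((k : ℂ) * H v w + HA v w) - ∑ i, (α i : ℂ) * Hc i v w := by
          funext v w
          rw [Nat.cast_one, one_mul]
        rwa [h4] at h3
      obtain ⟨l, k1, β1, hk, hβ, hcl1, hg1⟩ := hmod k α hcls fun g => by
        have h1 := htest _ hherm hnef g
        have hi : ∀ (j : ℕ) (z : ℂ), ((j : ℂ) * z).im = j * z.im := fun j z => by
          have : ((j : ℕ) : ℂ) = ((j : ℝ) : ℂ) := by push_cast; rfl
          rw [this, Complex.im_ofReal_mul]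
        rw [Complex.sub_im, Complex.im_sum, Complex.add_im, hi, hnn, hnA] at h1
        simp only [hi, hN] at h1
        exact_mod_cast h1
      obtain ⟨D, hD, hb⟩ := hcore k1 β1 hcl1 hg1
      have hsec : (Q47.TB.tw ((tensor (L.pow k) LA).pow 1) c 1 α).IsSection
          fun v => coeff α (G' v) := by
        refine coef_section (u := u) (D := fun i => k * (d i - m) + dA i) ?_ α
        refine ⟨hG'.holo, hG'.deg, fun γ v x => ?_⟩
        rw [hG'.eq]
        change _ = (L.e γ v ^ k * LA.e γ v) ^ 1 * _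
        rw [pow_one]
      obtain ⟨C', hC', hup⟩ := upper_bound hΓ
        (weight_tw (weight_tensor hwt hwA k) hwc 1 1 1 α) (L :=
        (Q47.TB.tw ((tensor (L.pow k) LA).pow 1) c 1 α).pow 1)
        (s := fun v => coeff α (G' v)) (by
          have h1 := section_pow hsec 1
          simpa only [pow_one] using h1)
      refine ⟨Real.sqrt (C' ^ M * D), Real.sqrt_nonneg _, fun v x => ?_⟩
      have h2 := hup v
      have h2' : wt (fun v => w v ^ k * wA v) wc 1 α v ^ (1 * 1)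
          = wt w wc (a0 l) (b0 l) v * wA v * wt w wc k1 β1 v := by
        rw [mul_one, pow_one]
        have h3 := wt_add w wc hk hβ v
        simp only [wt] at h3 ⊢
        rw [pow_one]
        linear_combination (wA v) * h3
      rw [h2'] at h2
      obtain ⟨X0, hX0⟩ : ∃ X0, X0 = ∏ i, ‖x i‖ ^ b0 l i := ⟨_, rfl⟩
      obtain ⟨X1, hX1⟩ : ∃ X1, X1 = ∏ i, ‖x i‖ ^ β1 i := ⟨_, rfl⟩
      have hXα : ∏ i, ‖x i‖ ^ α i = X0 * X1 := by
        rw [hX0, hX1, ← Finset.prod_mul_distrib]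
        exact Finset.prod_congr rfl fun i _ => by rw [hβ i, pow_add]
      have hX0n : 0 ≤ X0 := hX0 ▸ Finset.prod_nonneg fun i _ => pow_nonneg (norm_nonneg _) _
      have hX1n : 0 ≤ X1 := hX1 ▸ Finset.prod_nonneg fun i _ => pow_nonneg (norm_nonneg _) _
      have hW := hW0 l (v, x)
      simp only at hW
      rw [← hX0] at hW
      have hb' := hb v x
      rw [← hX1, ← hΦ (v, x)] at hb'
      have h3 : (‖coeff α (G' v)‖ * (X0 * X1)) ^ 2
          ≤ C' * (W0 l (v, x) * (wt w wc k1 β1 v * X1 ^ 2)) := by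
        rw [hW]
        calc (‖coeff α (G' v)‖ * (X0 * X1)) ^ 2
            = ‖coeff α (G' v)‖ ^ 2 * (X0 ^ 2 * X1 ^ 2) := by ring
          _ ≤ C' * (wt w wc (a0 l) (b0 l) v * wA v * wt w wc k1 β1 v) * (X0 ^ 2 * X1 ^ 2) :=
              mul_le_mul_of_nonneg_right h2 (by positivity)
          _ = _ := by ring
      have h0 : 0 ≤ ‖coeff α (G' v)‖ * (X0 * X1) :=
        mul_nonneg (norm_nonneg _) (mul_nonneg hX0n hX1n)
      have h4 : ((‖coeff α (G' v)‖ * (X0 * X1)) ^ M) ^ 2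
          ≤ ((C' ^ M * D) * W0 l (v, x) ^ M) * (Φ (v, x) ^ k1) ^ 2 := by
        calc ((‖coeff α (G' v)‖ * (X0 * X1)) ^ M) ^ 2
            = ((‖coeff α (G' v)‖ * (X0 * X1)) ^ 2) ^ M := by
              rw [← pow_mul, ← pow_mul, mul_comm M 2]
          _ ≤ (C' * (W0 l (v, x) * (wt w wc k1 β1 v * X1 ^ 2))) ^ M :=
              pow_le_pow_left₀ (sq_nonneg _) h3 _
          _ = (C' ^ M * W0 l (v, x) ^ M) * (wt w wc k1 β1 v * X1 ^ 2) ^ M := by
              rw [mul_pow, mul_pow]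
              ring
          _ ≤ (C' ^ M * W0 l (v, x) ^ M) * (D * (Φ (v, x) ^ k1) ^ 2) :=
              mul_le_mul_of_nonneg_left hb' (mul_nonneg (pow_nonneg hC' _)
                (pow_nonneg (hW0n l _) _))
          _ = _ := by ring
      have h5 := Real.sqrt_le_sqrt h4
      rw [Real.sqrt_sq (pow_nonneg h0 _), Real.sqrt_mul' _ (sq_nonneg _),
        Real.sqrt_sq (pow_nonneg (hΦ0 _) _), Real.sqrt_mul' _ (pow_nonneg (hW0n l _) _)] at h5
      rw [hXα]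
      refine h5.trans ?_
      have h6 : Real.sqrt (W0 l (v, x) ^ M) ≤ ∑ l, Real.sqrt (W0 l (v, x) ^ M) :=
        Finset.single_le_sum (f := fun l => Real.sqrt (W0 l (v, x) ^ M))
          (fun _ _ => Real.sqrt_nonneg _) (Finset.mem_univ l)
      have h7 : Φ (v, x) ^ k1 ≤ (1 + Φ (v, x)) ^ K0 * Φ (v, x) ^ (k - K0) :=
        pow_shift (hΦ0 _) hk (by
          rw [hK0]
          exact Finset.single_le_sum (fun _ _ => Nat.zero_le _) (Finset.mem_univ l))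
      calc Real.sqrt (C' ^ M * D) * Real.sqrt (W0 l (v, x) ^ M) * Φ (v, x) ^ k1
          ≤ Real.sqrt (C' ^ M * D) * (∑ l, Real.sqrt (W0 l (v, x) ^ M)) *
            ((1 + Φ (v, x)) ^ K0 * Φ (v, x) ^ (k - K0)) :=
            mul_le_mul (mul_le_mul_of_nonneg_left h6 (Real.sqrt_nonneg _)) h7
              (pow_nonneg (hΦ0 _) _) (mul_nonneg (Real.sqrt_nonneg _)
                (Finset.sum_nonneg fun _ _ => Real.sqrt_nonneg _))
        _ = _ := by ring
    · push Not at hα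
      refine ⟨0, le_rfl, fun v x => ?_⟩
      rw [hα v, norm_zero, zero_mul, zero_mul, zero_mul,
        zero_pow (Nat.one_le_iff_ne_zero.1 hM1)]
  choose D hD0 hD using hone
  let A : Finset (ι →₀ ℕ) := (finite_class hS fun i => (k : ℤ) * (d i - m) + dA i).toFinset
  refine ⟨(A.card : ℝ) ^ M * ∑ α ∈ A, D α, mul_nonneg (by positivity)
    (Finset.sum_nonneg fun α _ => hD0 α), fun v x => ?_⟩
  have h1 : ‖eval x (G' v)‖ ≤ ∑ α ∈ A, ‖coeff α (G' v)‖ * ∏ i, ‖x i‖ ^ α i := by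
    rw [eval_eq']
    refine (norm_sum_le _ _).trans ?_
    have h2 : (G' v).support ⊆ A := fun α hα => by
      simp only [A, Set.Finite.mem_toFinset]
      exact hG'.deg v α hα
    refine le_trans (le_of_eq (Finset.sum_congr rfl fun α _ => ?_))
      (Finset.sum_le_sum_of_subset_of_nonneg h2 fun α _ _ => mul_nonneg (norm_nonneg _)
        (Finset.prod_nonneg fun i _ => pow_nonneg (norm_nonneg _) _))
    rw [norm_mul, norm_prod]
    simp only [norm_pow]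
  have h2 := hΦ (v, x)
  simp only at h2
  rw [← h2]
  calc ‖eval x (G' v)‖ ^ M ≤ (∑ α ∈ A, ‖coeff α (G' v)‖ * ∏ i, ‖x i‖ ^ α i) ^ M :=
        pow_le_pow_left₀ (norm_nonneg _) h1 _
    _ ≤ (A.card : ℝ) ^ M * ∑ α ∈ A, (‖coeff α (G' v)‖ * ∏ i, ‖x i‖ ^ α i) ^ M :=
        sum_pow_le A _ (fun α => mul_nonneg (norm_nonneg _)
          (Finset.prod_nonneg fun i _ => pow_nonneg (norm_nonneg _) _)) hM1
    _ ≤ (A.card : ℝ) ^ M * ∑ α ∈ A,
          D α * ((∑ l, Real.sqrt (W0 l (v, x) ^ M)) * (1 + Φ (v, x)) ^ K0) *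
            Φ (v, x) ^ (k - K0) :=
        mul_le_mul_of_nonneg_left (Finset.sum_le_sum fun α _ => hD α v x) (by positivity)
    _ = _ := by
        rw [← Finset.sum_mul, ← Finset.sum_mul]
        ring

end Pool.Agent.U976.TBd
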