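import Pool.Agent.U976.TBd.NC2
import Pool.Agent.U976.TBd.E

/-!
# Kummer covers of toric bundles over torus quotients

Let `Y → X = V / Γ` be the toric bundle given by `u`, `S` and `c`, and let `F_j`, `j = 1, ..., k`, be
sections of the line bundles `O_Y(m_j e_j; A_j ^ m_j)`. The Kummer cover `Y'` of `Y` with the equations
`y_j ^ m_j = F_j` is a subvariety of the total space of the direct sum of the line bundles
`O_Y(e_j; A_j)`. Its points are the classes of the points `(v, x, y)` with `y_j ^ m_j = F_j(v, x)`.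
-/

set_option autoImplicit false

namespace Pool.Agent.U976.TBd

open Pool.Agent.W594.SYZ2 Pool.Agent.W594.SYZ2.TQ Pool.Agent.TH735.AQ Q47.MM Q47.TB MvPolynomial

variable {V : Type*} [NormedAddCommGroup V] [NormedSpace ℂ V]
  {Γ : Subgroup (V ≃ᵃ[ℂ] V)} {ι : Type*} [Fintype ι] {n : ℕ}

/-- `G` is a section on `Y'` of the pullback of the line bundle `O_Y(d; f)` on `Y`: a polynomial
`G(v, x, y)` in the Cox coordinates `x` and the coordinates `y_j` of the line bundles `O_Y(e_j; A_j)`,
with entire coefficients, of degree less than `m_j` in `y_j`, homogeneous of the class of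
`∑ d_i D_i` (where `y_j` has the class `e_j`), with
`G(γ v, c(γ, v) x, A(γ, v) y) = f(γ, v) G(v, x, y)`. (The direct image of the structure sheaf of `Y'`
is the direct sum of the `O_Y(-∑ b_j e_j; ∏ A_j ^ (-b_j)) y ^ b`, `0 ≤ b_j < m_j`, so each section on
`Y'` is given by exactly one such polynomial.) -/
structure IsCoverSection (u : ι → Fin n → ℤ) (c : ι → LineBundle Γ) {k : ℕ} (e : Fin k → ι → ℤ)
    (A : Fin k → LineBundle Γ) (m : Fin k → ℕ) (d : ι → ℤ) (f : Γ → V → ℂ)
    (G : V → MvPolynomial (ι ⊕ Fin k) ℂ) : Prop where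
  holo : ∀ α, Differentiable ℂ fun v => (G v).coeff α
  red : ∀ v, ∀ α ∈ (G v).support, ∀ j, α (Sum.inr j) < m j
  deg : ∀ v, ∀ α ∈ (G v).support,
    LinEquiv u (fun i => (α (Sum.inl i) : ℤ) + ∑ j, (α (Sum.inr j) : ℤ) * e j i) d
  eq : ∀ (γ : Γ) (v : V) (x : ι → ℂ) (y : Fin k → ℂ),
    eval (Sum.elim (fun i => (c i).e γ v * x i) fun j => (A j).e γ v * y j)
      (G ((γ : V ≃ᵃ[ℂ] V) v)) = f γ v * eval (Sum.elim x y) (G v)

/-- `O_{Y'}(p K_{Y'})` is the pullback of `O_Y(D; L)`, `D = p (∑ (m_j - 1) e_j - (1, ..., 1))`: for a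
local section `G` of the pullback the `p`-canonical form
`G ρ ^ p (dv ∧ ω / ∏ y_j ^ (m_j - 1)) ^ p` is invariant under `Γ`, where `ω` is the form with values in
the canonical bundle of the toric variety, homogeneous of the class of `∑ D_i`. (`ρ` defines the
ramification divisor of `V → X`, and `dv ∧ ω / ∏ y_j ^ (m_j - 1)` is a regular form without zeros.) -/
def IsCoverCanonical (c : ι → LineBundle Γ) {k : ℕ} (A : Fin k → LineBundle Γ) (m : Fin k → ℕ)
    (p : ℕ) (ρ : V → ℂ) (L : LineBundle Γ) : Prop :=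
  ∀ (γ : Γ) (v : V), L.e γ v * ρ ((γ : V ≃ᵃ[ℂ] V) v) ^ p *
    (LinearMap.det ((γ : V ≃ᵃ[ℂ] V).linear : V →ₗ[ℂ] V) * ∏ i, (c i).e γ v) ^ p =
      ρ v ^ p * ∏ j, (A j).e γ v ^ (p * (m j - 1))

/-- The class `D = p (∑ (m_j - 1) e_j - (1, ..., 1))` of the canonical bundle of `Y'`. -/
def canClass {k : ℕ} (e : Fin k → ι → ℤ) (m : Fin k → ℕ) (p : ℕ) (i : ι) : ℤ :=
  p * (∑ j, ((m j : ℤ) - 1) * e j i - 1)

/-- The pullback of `O_Y(D; L)` to `Y'` is semiample: some positive power is generated by its global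
sections. -/
def CoverSemiample (u : ι → Fin n → ℤ) (S : Set (Set ι)) (c : ι → LineBundle Γ) {k : ℕ}
    (e : Fin k → ι → ℤ) (A : Fin k → LineBundle Γ) (m : Fin k → ℕ)
    (F : Fin k → V → MvPolynomial ι ℂ) (D : ι → ℤ) (L : LineBundle Γ) : Prop :=
  ∃ q : ℕ, 1 ≤ q ∧ ∀ (v : V) (x : ι → ℂ) (y : Fin k → ℂ), {i | x i = 0} ∈ S →
    (∀ j, y j ^ m j = eval x (F j v)) →
    ∃ G, IsCoverSection u c e A m (fun i => q * D i) (fun γ v => L.e γ v ^ q) G ∧
      eval (Sum.elim x y) (G v) ≠ 0

section Alg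

omit [Fintype ι] in
theorem isSection_one (u : ι → Fin n → ℤ) (c : ι → LineBundle Γ) :
    IsSection u c (fun _ => 0) (fun _ _ => 1) fun _ => (1 : MvPolynomial ι ℂ) := by
  classical
  refine ⟨fun α => ?_, fun v α hα => ?_, fun γ v x => ?_⟩
  · exact differentiable_const _
  · refine ⟨0, fun i => ?_⟩
    rw [mem_support_iff, coeff_one] at hα
    have : α = 0 := by
      by_contra hne
      exact hα (if_neg (Ne.symm hne))
    simp [this]
  · rw [map_one, map_one, mul_one]

omit [Fintype ι] in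
theorem isSection_mul {u : ι → Fin n → ℤ} {c : ι → LineBundle Γ} {d d' : ι → ℤ}
    {e e' : Γ → V → ℂ} {F F' : V → MvPolynomial ι ℂ} (hF : IsSection u c d e F)
    (hF' : IsSection u c d' e' F') :
    IsSection u c (fun i => d i + d' i) (fun γ v => e γ v * e' γ v) fun v => F v * F' v := by
  classical
  refine ⟨fun α => ?_, fun v α hα => ?_, fun γ v x => ?_⟩
  · simp only [coeff_mul]
    exact Differentiable.fun_sum fun p _ => (hF.holo p.1).mul (hF'.holo p.2)
  · obtain ⟨β, hβ, β', hβ', rfl⟩ := Finset.mem_add.1 (support_mul _ _ hα)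
    obtain ⟨q, hq⟩ := hF.deg v β hβ
    obtain ⟨q', hq'⟩ := hF'.deg v β' hβ'
    refine ⟨fun l => q l + q' l, fun i => ?_⟩
    have h1 : (β i : ℤ) = d i + ∑ l, q l * u i l := hq i
    have h2 : (β' i : ℤ) = d' i + ∑ l, q' l * u i l := hq' i
    simp only [Finsupp.add_apply, add_mul, Finset.sum_add_distrib]
    push_cast
    rw [h1, h2]
    ring
  · rw [map_mul, map_mul, hF.eq, hF'.eq]
    ring

omit [Fintype ι] in
theorem isSection_congr {u : ι → Fin n → ℤ} {c : ι → LineBundle Γ} {d d' : ι → ℤ}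
    {e e' : Γ → V → ℂ} {F F' : V → MvPolynomial ι ℂ} (hF : IsSection u c d e F)
    (hd : ∀ i, d i = d' i) (he : ∀ γ v, e γ v = e' γ v) (h : ∀ v, F v = F' v) :
    IsSection u c d' e' F' := by
  have h1 : d = d' := funext hd
  have h2 : e = e' := funext fun γ => funext fun v => he γ v
  have h3 : F = F' := funext h
  rwa [← h1, ← h2, ← h3]

omit [Fintype ι] in
theorem isSection_pow {u : ι → Fin n → ℤ} {c : ι → LineBundle Γ} {d : ι → ℤ}
    {e : Γ → V → ℂ} {F : V → MvPolynomial ι ℂ} (hF : IsSection u c d e F) (w : ℕ) :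
    IsSection u c (fun i => w * d i) (fun γ v => e γ v ^ w) fun v => F v ^ w := by
  induction w with
  | zero =>
    exact isSection_congr (isSection_one u c) (fun i => by simp) (fun γ v => by simp)
      (fun v => by simp)
  | succ w ih =>
    exact isSection_congr (isSection_mul ih hF) (fun i => by push_cast; ring)
      (fun γ v => by rw [pow_succ]) (fun v => by rw [pow_succ])

omit [Fintype ι] in
theorem isSection_prod {u : ι → Fin n → ℤ} {c : ι → LineBundle Γ} {κ : Type*} (s : Finset κ)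
    {d : κ → ι → ℤ} {e : κ → Γ → V → ℂ} {F : κ → V → MvPolynomial ι ℂ}
    (hF : ∀ j ∈ s, IsSection u c (d j) (e j) (F j)) :
    IsSection u c (fun i => ∑ j ∈ s, d j i) (fun γ v => ∏ j ∈ s, e j γ v)
      fun v => ∏ j ∈ s, F j v := by
  classical
  induction s using Finset.induction_on with
  | empty =>
    exact isSection_congr (isSection_one u c) (fun i => by simp) (fun γ v => by simp)
      (fun v => by simp)
  | insert j s hj ih =>
    exact isSection_congr (isSection_mul (hF j (Finset.mem_insert_self j s))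
      (ih fun k hk => hF k (Finset.mem_insert_of_mem hk)))
      (fun i => by rw [Finset.sum_insert hj]) (fun γ v => by rw [Finset.prod_insert hj])
      (fun v => by rw [Finset.prod_insert hj])

end Alg

section Cover

variable {u : ι → Fin n → ℤ} {S : Set (Set ι)} {c : ι → LineBundle Γ} {k : ℕ}
  {e : Fin k → ι → ℤ} {A : Fin k → LineBundle Γ} {m : Fin k → ℕ}
  {F : Fin k → V → MvPolynomial ι ℂ}

omit [Fintype ι] in
/-- Pullback of sections. -/
theorem cover_of_section {d : ι → ℤ} {f : Γ → V → ℂ} {G : V → MvPolynomial ι ℂ}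
    (hm : ∀ j, 1 ≤ m j) (hG : IsSection u c d f G) :
    IsCoverSection u c e A m d f fun v => rename Sum.inl (G v) := by
  classical
  refine ⟨fun α => ?_, fun v α hα j => ?_, fun v α hα => ?_, fun γ v x y => ?_⟩
  · by_cases h : ∃ β : ι →₀ ℕ, β.mapDomain Sum.inl = α
    · obtain ⟨β, rfl⟩ := h
      simp only [coeff_rename_mapDomain _ Sum.inl_injective]
      exact hG.holo β
    · push Not at h
      have h1 : ∀ v, coeff α (rename (Sum.inl : ι → ι ⊕ Fin k) (G v)) = 0 := fun v =>
        coeff_rename_eq_zero _ _ _ fun β hβ => absurd hβ (h β)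
      simp only [h1]
      exact differentiable_const _
  · rw [mem_support_iff] at hα
    obtain ⟨β, rfl, hβ⟩ := coeff_rename_ne_zero _ _ _ hα
    rw [Finsupp.mapDomain_of_notMem_range _ _ (by simp)]
    exact hm j
  · rw [mem_support_iff] at hα
    obtain ⟨β, rfl, hβ⟩ := coeff_rename_ne_zero _ _ _ hα
    obtain ⟨q, hq⟩ := hG.deg v β (mem_support_iff.2 hβ)
    refine ⟨q, fun i => ?_⟩
    have h1 : (β i : ℤ) = d i + ∑ l, q l * u i l := hq i
    have h2 : ∀ j, (β.mapDomain (Sum.inl : ι → ι ⊕ Fin k)) (Sum.inr j) = 0 := fun j =>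
      Finsupp.mapDomain_of_notMem_range _ _ (by simp)
    simp only [h2, Finsupp.mapDomain_apply Sum.inl_injective, h1]
    simp
  · rw [eval_rename, eval_rename]
    exact hG.eq γ v x

/-- The monomials in a section on `Y'`. -/
theorem exists_cover_coef {p : MvPolynomial (ι ⊕ Fin k) ℂ} {x : ι → ℂ} {y : Fin k → ℂ}
    (h : eval (Sum.elim x y) p ≠ 0) :
    ∃ α, coeff α p ≠ 0 ∧ (∀ i, x i = 0 → α (Sum.inl i) = 0) ∧
      ∀ j, y j = 0 → α (Sum.inr j) = 0 := by
  rw [eval_eq'] at h
  obtain ⟨α, hα, hne⟩ := Finset.exists_ne_zero_of_sum_ne_zero h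
  refine ⟨α, mem_support_iff.1 hα, fun i hi => ?_, fun j hj => ?_⟩
  · by_contra h0
    apply hne
    rw [Finset.prod_eq_zero (Finset.mem_univ (Sum.inl i))
      (by rw [Sum.elim_inl, hi, zero_pow h0]), mul_zero]
  · by_contra h0
    apply hne
    rw [Finset.prod_eq_zero (Finset.mem_univ (Sum.inr j))
      (by rw [Sum.elim_inr, hj, zero_pow h0]), mul_zero]

theorem cover_coef_eq {d : ι → ℤ} {f : Γ → V → ℂ} {G : V → MvPolynomial (ι ⊕ Fin k) ℂ}
    (hG : IsCoverSection u c e A m d f G) (α : (ι ⊕ Fin k) →₀ ℕ) (γ : Γ) (v : V) :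
    coeff α (G ((γ : V ≃ᵃ[ℂ] V) v)) * ((∏ i, (c i).e γ v ^ α (Sum.inl i)) *
      ∏ j, (A j).e γ v ^ α (Sum.inr j)) = f γ v * coeff α (G v) := by
  have h1 := coeff_of_eval (t := Sum.elim (fun i => (c i).e γ v) fun j => (A j).e γ v)
    (p := G ((γ : V ≃ᵃ[ℂ] V) v)) (q := G v)
    (a := 1) (b := f γ v) (fun z => by
      rw [mul_one]
      have h2 := hG.eq γ v (z ∘ Sum.inl) (z ∘ Sum.inr)
      rw [Sum.elim_comp_inl_inr] at h2
      rw [← h2]
      congr 1
      congr 1
      funext i
      rcases i with i | j <;> rfl) α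
  rw [mul_one, Fintype.prod_sum_type] at h1
  exact h1

/-- The norm of a monomial of a section on `Y'`. -/
theorem section_of_cover {d : ι → ℤ} {f : Γ → V → ℂ} {G : V → MvPolynomial (ι ⊕ Fin k) ℂ}
    (hG : IsCoverSection u c e A m d f G)
    (hF : ∀ j, IsSection u c (fun i => m j * e j i) (fun γ v => (A j).e γ v ^ m j) (F j))
    (α : (ι ⊕ Fin k) →₀ ℕ) (h0 : ∃ v, coeff α (G v) ≠ 0) {M : ℕ} {r : Fin k → ℕ}
    (hr : ∀ j, M = m j * r j) :
    IsSection u c (fun i => M * d i) (fun γ v => f γ v ^ M) fun v =>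
      monomial (Finsupp.equivFunOnFinite.symm fun i => M * α (Sum.inl i)) (coeff α (G v) ^ M) *
        ∏ j, F j v ^ (r j * α (Sum.inr j)) := by
  classical
  obtain ⟨v₀, hv₀⟩ := h0
  obtain ⟨q, hq⟩ := hG.deg v₀ α (mem_support_iff.2 hv₀)
  have h1 : IsSection u c (fun i => M * (d i - ∑ j, (α (Sum.inr j) : ℤ) * e j i))
      (fun γ v => f γ v ^ M * (∏ j, (A j).e γ v ^ (M * α (Sum.inr j)))⁻¹)
      fun v => monomial (Finsupp.equivFunOnFinite.symm fun i => M * α (Sum.inl i))
        (coeff α (G v) ^ M) := by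
    refine ⟨fun β => ?_, fun v β hβ => ?_, fun γ v x => ?_⟩
    · simp only [coeff_monomial]
      split_ifs with h
      · exact (hG.holo α).pow M
      · exact differentiable_const _
    · rw [mem_support_iff, coeff_monomial] at hβ
      have h1 : (Finsupp.equivFunOnFinite.symm fun i => M * α (Sum.inl i)) = β := by
        by_contra hne
        rw [if_neg hne] at hβ
        exact hβ rfl
      refine ⟨fun l => M * q l, fun i => ?_⟩
      rw [← h1]
      have h2 : (α (Sum.inl i) : ℤ) + ∑ j, (α (Sum.inr j) : ℤ) * e j i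
          = d i + ∑ l, q l * u i l := hq i
      simp only [Finsupp.equivFunOnFinite_symm_apply_apply]
      push_cast
      have h3 : ∑ l, (M : ℤ) * q l * u i l = M * ∑ l, q l * u i l := by
        rw [Finset.mul_sum]
        exact Finset.sum_congr rfl fun l _ => by ring
      rw [h3]
      linear_combination (M : ℤ) * h2
    · rw [eval_monomial, eval_monomial, Finsupp.prod_fintype _ _ fun i => pow_zero _,
        Finsupp.prod_fintype _ _ fun i => pow_zero _]
      simp only [Finsupp.equivFunOnFinite_symm_apply_apply, mul_pow, Finset.prod_mul_distrib]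
      have h3 := congrArg (· ^ M) (cover_coef_eq hG α γ v)
      simp only [mul_pow, ← Finset.prod_pow, ← pow_mul] at h3
      have h4 : ∀ i, (c i).e γ v ^ (α (Sum.inl i) * M) = (c i).e γ v ^ (M * α (Sum.inl i)) :=
        fun i => by rw [mul_comm]
      have h5 : ∀ j, (A j).e γ v ^ (α (Sum.inr j) * M) = (A j).e γ v ^ (M * α (Sum.inr j)) :=
        fun j => by rw [mul_comm]
      simp only [h4, h5] at h3
      have h6 : ∏ j, (A j).e γ v ^ (M * α (Sum.inr j)) ≠ 0 :=
        Finset.prod_ne_zero_iff.2 fun j _ => pow_ne_zero _ ((A j).ne_zero γ v)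
      field_simp
      linear_combination (∏ i, x i ^ (M * α (Sum.inl i))) * h3
  have h2 := isSection_mul h1 (isSection_prod Finset.univ fun j _ =>
    isSection_pow (hF j) (r j * α (Sum.inr j)))
  refine isSection_congr h2 (fun i => ?_) (fun γ v => ?_) fun v => rfl
  · have h3 : ∑ j, ((r j * α (Sum.inr j) : ℕ) : ℤ) * (m j * e j i)
        = M * ∑ j, (α (Sum.inr j) : ℤ) * e j i := by
      rw [Finset.mul_sum]
      refine Finset.sum_congr rfl fun j _ => ?_
      have h4 : (M : ℤ) = m j * r j := by exact_mod_cast hr j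
      rw [h4]
      push_cast
      ring
    rw [h3]
    ring
  · have h3 : ∏ j, ((A j).e γ v ^ m j) ^ (r j * α (Sum.inr j))
        = ∏ j, (A j).e γ v ^ (M * α (Sum.inr j)) :=
      Finset.prod_congr rfl fun j _ => by rw [← pow_mul, hr j]; ring
    have h6 : ∏ j, (A j).e γ v ^ (M * α (Sum.inr j)) ≠ 0 :=
      Finset.prod_ne_zero_iff.2 fun j _ => pow_ne_zero _ ((A j).ne_zero γ v)
    rw [h3]
    field_simp

/-- Semiampleness on `Y` and on `Y'`. -/
theorem cover_semiample_iff
    (hF : ∀ j, IsSection u c (fun i => m j * e j i) (fun γ v => (A j).e γ v ^ m j) (F j))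
    (hm : ∀ j, 1 ≤ m j) (D : ι → ℤ) (L : LineBundle Γ) :
    CoverSemiample u S c e A m F D L ↔ Semiample u S c D L := by
  classical
  constructor
  · rintro ⟨q, hq, h⟩
    have hM : 1 ≤ ∏ j, m j := Finset.one_le_prod' fun j _ => hm j
    refine ⟨q * ∏ j, m j, Nat.mul_pos hq hM, fun v x hx => ?_⟩
    choose y hy using fun j => IsAlgClosed.exists_pow_nat_eq (eval x (F j v))
      (lt_of_lt_of_le Nat.zero_lt_one (hm j))
    obtain ⟨G, hG, hG0⟩ := h v x y hx hy
    obtain ⟨α, hα, hα1, hα2⟩ := exists_cover_coef hG0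
    have h1 := section_of_cover hG hF α ⟨v, hα⟩ (M := ∏ j, m j)
      (r := fun j => ∏ l ∈ Finset.univ.erase j, m l)
      fun j => (Finset.mul_prod_erase Finset.univ m (Finset.mem_univ j)).symm
    refine ⟨_, isSection_congr h1 (fun i => ?_) (fun γ v => ?_) fun v => rfl, ?_⟩
    · push_cast
      ring
    · rw [← pow_mul]
    · rw [map_mul, eval_monomial, Finsupp.prod_fintype _ _ fun i => pow_zero _, map_prod]
      refine mul_ne_zero (mul_ne_zero (pow_ne_zero _ hα)
        (Finset.prod_ne_zero_iff.2 fun i _ => ?_)) (Finset.prod_ne_zero_iff.2 fun j _ => ?_)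
      · by_cases hi : x i = 0
        · rw [Finsupp.equivFunOnFinite_symm_apply_apply, hα1 i hi, mul_zero, pow_zero]
          exact one_ne_zero
        · exact pow_ne_zero _ hi
      · rw [map_pow]
        by_cases hj : y j = 0
        · rw [hα2 j hj, mul_zero, pow_zero]
          exact one_ne_zero
        · refine pow_ne_zero _ ?_
          rw [← hy j]
          exact pow_ne_zero _ hj
  · rintro ⟨q, hq, h⟩
    refine ⟨q, hq, fun v x y hx _ => ?_⟩
    obtain ⟨G, hG, hG0⟩ := h v x hx
    refine ⟨_, cover_of_section hm hG, ?_⟩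
    rw [eval_rename]
    exact hG0

end Cover

end Pool.Agent.U976.TBd
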