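import Pool.Agent.U976.TBd.NC2
import Pool.Agent.U976.TBd.K1

/-!
# Exponents as combinations of exponents of the boundary and of a nef divisor
-/

set_option autoImplicit false

namespace Pool.Agent.U976.TBd

open Q47.TB MvPolynomial

variable {ι : Type*} [Fintype ι] {n : ℕ}

/-- Combinations of the exponents of a class `d` and of the vertices of a nef class `dM`. -/
theorem comb2 {u : ι → Fin n → ℤ} {S : Set (Set ι)} (hS : IsSmoothFan u S)
    (T : Finset (ι →₀ ℕ)) {d dM : ι → ℤ} (hT : ∀ α ∈ T, LinEquiv u (fun i => (α i : ℤ)) d)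
    (g : Set ι → ι → ℕ) (l : Set ι → ℕ)
    (hg : ∀ σ ∈ S, 1 ≤ l σ ∧ (∀ i ∈ σ, g σ i = 0) ∧
      LinEquiv u (fun i => (g σ i : ℤ)) (fun i => l σ * dM i))
    {r s : ℕ} {z : ι → ℤ} (hz : LinEquiv u z (fun i => r * d i + s * dM i))
    (hw : ∀ a : ι → ℕ, {i | a i ≠ 0} ∈ S → ∃ α ∈ T,
      (r : ℤ) * ∑ i, (a i : ℤ) * α i ≤ ∑ i, (a i : ℤ) * z i) :
    ∃ (r' : ℕ) (K : ℕ) (A : Fin r' → (ι →₀ ℕ)) (σ : Fin r' → Set ι) (w t : Fin r' → ℕ), 1 ≤ K ∧
      (∀ j, A j ∈ T) ∧ (∀ j, σ j ∈ S) ∧ ∑ j, w j = K * r ∧ ∑ j, t j * l (σ j) = K * s ∧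
      ∀ i, (K : ℤ) * z i = ∑ j, (w j : ℤ) * A j i + ∑ j, (t j : ℤ) * g (σ j) i := by
  classical
  choose mα hmα using fun α : T => hT α α.2
  choose! hl hg0 hgc using hg
  choose mg hmg using fun τ : {τ : Set ι // τ ∈ S} => hgc τ τ.2
  obtain ⟨mz, hmz⟩ := hz
  have hle : ∀ τ : {τ : Set ι // τ ∈ S}, ∃ e : ℕ, (∏ τ : {τ : Set ι // τ ∈ S}, l τ) = l τ * e :=
    fun τ => Finset.dvd_prod_of_mem (fun τ : {τ : Set ι // τ ∈ S} => l τ) (Finset.mem_univ τ)
  choose e he using hle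
  obtain ⟨P, hP⟩ : ∃ P, P = ∏ τ : {τ : Set ι // τ ∈ S}, l τ := ⟨_, rfl⟩
  simp only [← hP] at he
  have hP1 : 1 ≤ P := by
    rw [hP]
    exact Finset.one_le_prod' fun τ _ => hl τ τ.2
  have he' : ∀ τ : {τ : Set ι // τ ∈ S}, (P : ℤ) = l τ * e τ := fun τ => by
    exact_mod_cast he τ
  let q : T × {τ : Set ι // τ ∈ S} → Fin n → ℤ := fun p k =>
    r * P * mα p.1 k + s * e p.2 * mg p.2 k - P * mz k
  have hq : ∀ (p : T × {τ : Set ι // τ ∈ S}) (i : ι),
      r * P * ((p.1 : ι →₀ ℕ) i : ℤ) + s * e p.2 * g p.2 i - P * z i = ∑ k, q p k * u i k := by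
    intro p i
    have h1 : ((p.1 : ι →₀ ℕ) i : ℤ) = d i + ∑ k, mα p.1 k * u i k := hmα p.1 i
    have h2 : (g p.2 i : ℤ) = l p.2 * dM i + ∑ k, mg p.2 k * u i k := hmg p.2 i
    have h3 : z i = r * d i + s * dM i + ∑ k, mz k * u i k := hmz i
    have h4 : ∑ k, q p k * u i k = r * P * ∑ k, mα p.1 k * u i k
        + s * e p.2 * ∑ k, mg p.2 k * u i k - P * ∑ k, mz k * u i k := by
      simp only [q, Finset.mul_sum]
      rw [← Finset.sum_add_distrib, ← Finset.sum_sub_distrib]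
      exact Finset.sum_congr rfl fun k _ => by ring
    rw [h4, h1, h2, h3]
    linear_combination -(s : ℤ) * dM i * he' p.2
  have hTne : T.Nonempty := by
    obtain ⟨α, hα, -⟩ := hw (fun _ => 0) (by simpa using hS.empty_mem)
    exact ⟨α, hα⟩
  have : Nonempty (T × {τ : Set ι // τ ∈ S}) := ⟨⟨_, hTne.choose_spec⟩, ⟨∅, hS.empty_mem⟩⟩
  have hhull : (0 : Fin n → ℝ) ∈ convexHull ℝ (Set.range fun j => fun k => (q j k : ℝ)) := by
    by_contra hcon
    obtain ⟨w, hwpos⟩ := sep_of_not_hull q hcon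
    obtain ⟨a, ⟨haS, ha⟩, -⟩ := hS.rep w
    obtain ⟨α, hα, hle⟩ := hw a haS
    have h1 := hwpos ⟨⟨α, hα⟩, ⟨_, haS⟩⟩
    have h2 : ∑ k, q ⟨⟨α, hα⟩, ⟨_, haS⟩⟩ k * w k
        = ∑ i, (a i : ℤ) * (r * P * (α i : ℤ) + s * e ⟨_, haS⟩ * g {i | a i ≠ 0} i - P * z i) := by
      calc ∑ k, q ⟨⟨α, hα⟩, ⟨_, haS⟩⟩ k * w k
          = ∑ k, ∑ i, (a i : ℤ) * (q ⟨⟨α, hα⟩, ⟨_, haS⟩⟩ k * u i k) := by
            refine Finset.sum_congr rfl fun k _ => ?_
            rw [← ha k, Finset.mul_sum]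
            exact Finset.sum_congr rfl fun i _ => by ring
        _ = ∑ i, (a i : ℤ) * ∑ k, q ⟨⟨α, hα⟩, ⟨_, haS⟩⟩ k * u i k := by
            rw [Finset.sum_comm]
            exact Finset.sum_congr rfl fun i _ => (Finset.mul_sum _ _ _).symm
        _ = _ := Finset.sum_congr rfl fun i _ => by rw [← hq ⟨⟨α, hα⟩, ⟨_, haS⟩⟩ i]
    rw [h2] at h1
    have h3 : ∑ i, (a i : ℤ) * (r * P * (α i : ℤ) + s * e ⟨_, haS⟩ * g {i | a i ≠ 0} i - P * z i)
        = P * (r * ∑ i, (a i : ℤ) * α i - ∑ i, (a i : ℤ) * z i) := by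
      rw [Finset.mul_sum, ← Finset.sum_sub_distrib, Finset.mul_sum]
      refine Finset.sum_congr rfl fun i _ => ?_
      by_cases hi : a i = 0
      · rw [hi]
        push_cast
        ring
      · rw [hg0 _ haS i hi]
        push_cast
        ring
    rw [h3] at h1
    have h4 : (0 : ℤ) < P := by exact_mod_cast hP1
    have h5 := pos_of_mul_pos_right h1 h4.le
    linarith
  obtain ⟨r', gg, b, hb1, hb⟩ := int_of_hull q hhull
  refine ⟨r', P * ∑ k, b k, fun k => (gg k).1, fun k => (gg k).2, fun k => b k * (r * P),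
    fun k => b k * (s * e (gg k).2), Nat.mul_pos hP1 hb1, fun k => (gg k).1.2,
    fun k => (gg k).2.2, ?_, ?_, fun i => ?_⟩
  · rw [← Finset.sum_mul]
    ring
  · rw [mul_assoc, Finset.sum_mul, Finset.mul_sum]
    refine Finset.sum_congr rfl fun k _ => ?_
    have := he (gg k).2
    calc b k * (s * e (gg k).2) * l (gg k).2 = b k * s * (l (gg k).2 * e (gg k).2) := by ring
      _ = b k * s * P := by rw [← this]
      _ = _ := by ring
  · have h1 : ∑ k, (b k : ℤ) * (r * P * (((gg k).1 : ι →₀ ℕ) i : ℤ)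
        + s * e (gg k).2 * g (gg k).2 i - P * z i) = 0 := by
      calc ∑ k, (b k : ℤ) * (r * P * (((gg k).1 : ι →₀ ℕ) i : ℤ)
            + s * e (gg k).2 * g (gg k).2 i - P * z i)
          = ∑ k, (b k : ℤ) * ∑ l, q (gg k) l * u i l :=
            Finset.sum_congr rfl fun k _ => by rw [hq]
        _ = ∑ l, (∑ k, (b k : ℤ) * q (gg k) l) * u i l := by
            simp only [Finset.mul_sum, Finset.sum_mul]
            rw [Finset.sum_comm]
            exact Finset.sum_congr rfl fun _ _ => Finset.sum_congr rfl fun _ _ => by ring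
        _ = 0 := by simp [hb]
    have h2 : ∑ k, (b k : ℤ) * (r * P * (((gg k).1 : ι →₀ ℕ) i : ℤ)
        + s * e (gg k).2 * g (gg k).2 i - P * z i)
        = ∑ k, ((b k * (r * P) : ℕ) : ℤ) * (((gg k).1 : ι →₀ ℕ) i : ℤ)
          + ∑ k, ((b k * (s * e (gg k).2) : ℕ) : ℤ) * g (gg k).2 i
          - ((P * ∑ k, b k : ℕ) : ℤ) * z i := by
      push_cast
      rw [mul_assoc, Finset.sum_mul, Finset.mul_sum, ← Finset.sum_add_distrib,
        ← Finset.sum_sub_distrib]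
      exact Finset.sum_congr rfl fun k _ => by ring
    linarith

/-- The log discrepancies of the pair `(Y, Δ)`, `m Δ = div F`, at the torus invariant prime divisors
over the general fibre of `Y → X` are bounded from below by a positive multiple of those of `(Y, 0)`
(this is so if `(Y, Δ)` is klt: `(Y, Δ + ε ∑ D_i)` is still klt for small `ε > 0`). -/
def ToricKlt {V : Type*} (S : Set (Set ι)) (m : ℕ) (F : V → MvPolynomial ι ℂ) : Prop :=
  ∃ N : ℕ, 1 ≤ N ∧ ∀ a : ι → ℕ, {i | a i ≠ 0} ∈ S →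
    ∃ α : ι →₀ ℕ, (∃ v, coeff α (F v) ≠ 0) ∧
      N * ∑ i, a i * α i + ∑ i, a i ≤ N * (m * ∑ i, a i)

theorem ToricKlt.lc {V : Type*} {S : Set (Set ι)} {m : ℕ} {F : V → MvPolynomial ι ℂ}
    (h : ToricKlt S m F) : ToricLC S m F := by
  obtain ⟨N, hN, h⟩ := h
  intro a ha
  obtain ⟨α, hα, hle⟩ := h a ha
  exact ⟨α, hα, Nat.le_of_mul_le_mul_left ((Nat.le_add_right _ _).trans hle) hN⟩

/-- In the klt case each exponent occurs. -/
theorem comb_pos {u : ι → Fin n → ℤ} {S : Set (Set ι)} (hS : IsSmoothFan u S)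
    (T : Finset (ι →₀ ℕ)) {d dM : ι → ℤ} (hT : ∀ α ∈ T, LinEquiv u (fun i => (α i : ℤ)) d)
    (g : Set ι → ι → ℕ) (l : Set ι → ℕ)
    (hg : ∀ σ ∈ S, 1 ≤ l σ ∧ (∀ i ∈ σ, g σ i = 0) ∧
      LinEquiv u (fun i => (g σ i : ℤ)) (fun i => l σ * dM i))
    {m N : ℕ} (hN : 1 ≤ N) (hw : ∀ a : ι → ℕ, {i | a i ≠ 0} ∈ S → ∃ α ∈ T,
      N * ∑ i, a i * α i + ∑ i, a i ≤ N * (m * ∑ i, a i))
    {k s : ℕ} (hk : 1 ≤ k) {z : ι → ℤ} (hz : LinEquiv u z (fun i => k * d i + s * dM i))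
    (hzm : ∀ i, (k * m : ℤ) ≤ z i) {α₀ : ι →₀ ℕ} (hα₀ : α₀ ∈ T) :
    ∃ (r' K K' : ℕ) (A : Fin r' → (ι →₀ ℕ)) (σ : Fin r' → Set ι) (w t : Fin r' → ℕ),
      1 ≤ K ∧ 1 ≤ K' ∧
      (∀ j, A j ∈ T) ∧ (∀ j, σ j ∈ S) ∧ ∑ j, w j + K' = K * k ∧ ∑ j, t j * l (σ j) = K * s ∧
      ∀ i, (K : ℤ) * z i = K' * α₀ i + ∑ j, (w j : ℤ) * A j i + ∑ j, (t j : ℤ) * g (σ j) i := by
  classical
  obtain ⟨C, hC⟩ : ∃ C : ℕ, ∀ i, α₀ i ≤ C :=
    ⟨∑ i, α₀ i, fun i => Finset.single_le_sum (f := fun i => α₀ i) (fun _ _ => Nat.zero_le _)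
      (Finset.mem_univ i)⟩
  obtain ⟨N', hN'⟩ : ∃ N', N' = N * C + 1 := ⟨_, rfl⟩
  have hN'k : 1 ≤ N' * k := Nat.mul_pos (by omega) hk
  have hr : ((N' * k - 1 : ℕ) : ℤ) = N' * k - 1 := by
    rw [Nat.cast_sub hN'k]
    push_cast
    ring
  obtain ⟨r', K, A, σ, w, t, hK, hA, hσ, hw1, ht1, h⟩ := comb2 hS T hT g l hg
    (r := N' * k - 1) (s := N' * s) (z := fun i => N' * z i - α₀ i) (by
      obtain ⟨q, hq⟩ := hz
      obtain ⟨q', hq'⟩ := hT α₀ hα₀
      refine ⟨fun j => N' * q j - q' j, fun i => ?_⟩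
      have h1 : z i = k * d i + s * dM i + ∑ j, q j * u i j := hq i
      have h2 : (α₀ i : ℤ) = d i + ∑ j, q' j * u i j := hq' i
      simp only
      rw [h1, h2, hr]
      have h3 : ∑ j, ((N' : ℤ) * q j - q' j) * u i j
          = N' * ∑ j, q j * u i j - ∑ j, q' j * u i j := by
        rw [Finset.mul_sum, ← Finset.sum_sub_distrib]
        exact Finset.sum_congr rfl fun j _ => by ring
      rw [h3]
      push_cast
      ring) (by
      intro a ha
      obtain ⟨α, hα, hle⟩ := hw a ha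
      refine ⟨α, hα, ?_⟩
      rw [hr]
      have e1 : ∑ i, (a i : ℤ) * (N' * z i - α₀ i)
          = N' * ∑ i, (a i : ℤ) * z i - ∑ i, (a i : ℤ) * α₀ i := by
        rw [Finset.mul_sum, ← Finset.sum_sub_distrib]
        exact Finset.sum_congr rfl fun i _ => by ring
      rw [e1]
      obtain ⟨sa, hsa⟩ : ∃ sa : ℤ, sa = ∑ i, (a i : ℤ) := ⟨_, rfl⟩
      obtain ⟨Aa, hAa⟩ : ∃ Aa : ℤ, Aa = ∑ i, (a i : ℤ) * α i := ⟨_, rfl⟩
      have hle' : (N : ℤ) * Aa + sa ≤ N * (m * sa) := by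
        rw [hAa, hsa]
        exact_mod_cast hle
      have hsa0 : 0 ≤ sa := hsa ▸ Finset.sum_nonneg fun i _ => Int.natCast_nonneg _
      have hZ : (k * m : ℤ) * sa ≤ ∑ i, (a i : ℤ) * z i := by
        rw [hsa, Finset.mul_sum]
        refine Finset.sum_le_sum fun i _ => ?_
        rw [mul_comm]
        exact mul_le_mul_of_nonneg_left (hzm i) (Int.natCast_nonneg _)
      have hB : ∑ i, (a i : ℤ) * α₀ i ≤ C * sa := by
        rw [hsa, Finset.mul_sum]
        refine Finset.sum_le_sum fun i _ => ?_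
        rw [mul_comm]
        exact mul_le_mul_of_nonneg_right (by exact_mod_cast hC i) (Int.natCast_nonneg _)
      rw [← hAa]
      have hN0 : (0 : ℤ) < N := by exact_mod_cast hN
      have hN'' : (N' : ℤ) = N * C + 1 := by exact_mod_cast hN'
      have hk1 : (1 : ℤ) ≤ k := by exact_mod_cast hk
      have hC0 : (0 : ℤ) ≤ C := Int.natCast_nonneg _
      have hm0 : (0 : ℤ) ≤ m := Int.natCast_nonneg _
      have hN'0 : (1 : ℤ) ≤ N' := by
        rw [hN'']
        have := mul_nonneg hN0.le hC0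
        linarith
      have hN'k0 : (0 : ℤ) ≤ N' * k - 1 := by
        have := mul_le_mul hN'0 hk1 (by norm_num) (by linarith)
        linarith
      have s1 : (N' * k - 1 : ℤ) * (N * Aa) ≤ (N' * k - 1) * (N * (m * sa) - sa) :=
        mul_le_mul_of_nonneg_left (by linarith) hN'k0
      have s2 : (N : ℤ) * (N' * ∑ i, (a i : ℤ) * z i - ∑ i, (a i : ℤ) * α₀ i)
          ≥ N * (N' * ((k * m) * sa) - C * sa) := by
        refine mul_le_mul_of_nonneg_left ?_ hN0.le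
        have := mul_le_mul_of_nonneg_left hZ (by linarith : (0 : ℤ) ≤ N')
        linarith
      have s3 : (0 : ℤ) ≤ (N' * k + N * m - 1 - N * C) * sa := by
        refine mul_nonneg ?_ hsa0
        have h1 : (N' : ℤ) * 1 ≤ N' * k := mul_le_mul_of_nonneg_left hk1 (by linarith)
        have h2 : (0 : ℤ) ≤ N * m := mul_nonneg hN0.le hm0
        rw [hN''] at h1 ⊢
        linarith
      have s4 : (N : ℤ) * ((N' * k - 1) * Aa)
          ≤ N * (N' * ∑ i, (a i : ℤ) * z i - ∑ i, (a i : ℤ) * α₀ i) := by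
        nlinarith [s1, s2, s3]
      exact le_of_mul_le_mul_left s4 hN0)
  refine ⟨r', K * N', K, A, σ, w, t, Nat.mul_pos hK (by omega), hK, hA, hσ, ?_, ?_, fun i => ?_⟩
  · rw [hw1]
    obtain ⟨x, hx⟩ : ∃ x, N' * k = x + 1 := ⟨N' * k - 1, by omega⟩
    rw [hx, mul_assoc, hx, Nat.add_sub_cancel]
    ring
  · rw [ht1]
    ring
  · have h1 := h i
    push_cast
    linear_combination h1

/-- In the klt case, if the class has a multiple with an effective divisor, the differences of the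
exponents span. -/
theorem comb_diff {u : ι → Fin n → ℤ} {S : Set (Set ι)} (hS : IsSmoothFan u S)
    (T : Finset (ι →₀ ℕ)) {d : ι → ℤ} (hT : ∀ α ∈ T, LinEquiv u (fun i => (α i : ℤ)) d)
    {m N : ℕ} (hN : 1 ≤ N) (hw : ∀ a : ι → ℕ, {i | a i ≠ 0} ∈ S → ∃ α ∈ T,
      N * ∑ i, a i * α i + ∑ i, a i ≤ N * (m * ∑ i, a i))
    {k : ℕ} (hk : 1 ≤ k) {z : ι → ℤ} (hz : LinEquiv u z (fun i => k * d i))
    (hzm : ∀ i, (k * m : ℤ) ≤ z i) (p : Fin n → ℤ) :
    ∃ (r' : ℕ) (K : ℕ) (A : Fin r' → (ι →₀ ℕ)) (w : Fin r' → ℤ), 1 ≤ K ∧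
      (∀ j, A j ∈ T) ∧ ∑ j, w j = 0 ∧
      ∀ i, (K : ℤ) * ∑ l, p l * u i l = ∑ j, w j * A j i := by
  classical
  obtain ⟨C, hC⟩ : ∃ C : ℕ, ∀ i, |∑ l, p l * u i l| ≤ C := by
    refine ⟨(∑ i, |∑ l, p l * u i l|).toNat, fun i => ?_⟩
    have h1 : |∑ l, p l * u i l| ≤ ∑ i, |∑ l, p l * u i l| :=
      Finset.single_le_sum (f := fun i => |∑ l, p l * u i l|) (fun _ _ => abs_nonneg _)
        (Finset.mem_univ i)
    exact h1.trans (Int.self_le_toNat _)
  obtain ⟨N', hN'⟩ : ∃ N', N' = N * C + 1 := ⟨_, rfl⟩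
  -- the two points
  have key : ∀ p' : Fin n → ℤ, (∀ i, |∑ l, p' l * u i l| ≤ C) →
      ∃ (r' : ℕ) (K : ℕ) (A : Fin r' → (ι →₀ ℕ)) (w : Fin r' → ℕ), 1 ≤ K ∧
      (∀ j, A j ∈ T) ∧ ∑ j, w j = K * (N' * k) ∧
      ∀ i, (K : ℤ) * (N' * z i + ∑ l, p' l * u i l) = ∑ j, (w j : ℤ) * A j i := by
    intro p' hp'
    obtain ⟨r', K, A, σ, w, t, hK, hA, hσ, hw1, ht1, h⟩ := comb2 hS T hT (fun _ _ => 0)
      (fun _ => 1) (dM := fun _ => 0) (fun σ _ => ⟨le_rfl, fun _ _ => rfl, ⟨0, fun i => by simp⟩⟩)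
      (r := N' * k) (s := 0) (z := fun i => N' * z i + ∑ l, p' l * u i l) (by
        obtain ⟨q, hq⟩ := hz
        refine ⟨fun j => N' * q j + p' j, fun i => ?_⟩
        have h1 : z i = k * d i + ∑ j, q j * u i j := hq i
        simp only
        rw [h1]
        have h3 : ∑ j, ((N' : ℤ) * q j + p' j) * u i j
            = N' * ∑ j, q j * u i j + ∑ j, p' j * u i j := by
          rw [Finset.mul_sum, ← Finset.sum_add_distrib]
          exact Finset.sum_congr rfl fun j _ => by ring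
        rw [h3]
        push_cast
        ring) (by
        intro a ha
        obtain ⟨α, hα, hle⟩ := hw a ha
        refine ⟨α, hα, ?_⟩
        have e1 : ∑ i, (a i : ℤ) * (N' * z i + ∑ l, p' l * u i l)
            = N' * ∑ i, (a i : ℤ) * z i + ∑ i, (a i : ℤ) * ∑ l, p' l * u i l := by
          rw [Finset.mul_sum, ← Finset.sum_add_distrib]
          exact Finset.sum_congr rfl fun i _ => by ring
        rw [e1]
        obtain ⟨sa, hsa⟩ : ∃ sa : ℤ, sa = ∑ i, (a i : ℤ) := ⟨_, rfl⟩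
        obtain ⟨Aa, hAa⟩ : ∃ Aa : ℤ, Aa = ∑ i, (a i : ℤ) * α i := ⟨_, rfl⟩
        have hle' : (N : ℤ) * Aa + sa ≤ N * (m * sa) := by
          rw [hAa, hsa]
          exact_mod_cast hle
        have hsa0 : 0 ≤ sa := hsa ▸ Finset.sum_nonneg fun i _ => Int.natCast_nonneg _
        have hZ : (k * m : ℤ) * sa ≤ ∑ i, (a i : ℤ) * z i := by
          rw [hsa, Finset.mul_sum]
          refine Finset.sum_le_sum fun i _ => ?_
          rw [mul_comm]
          exact mul_le_mul_of_nonneg_left (hzm i) (Int.natCast_nonneg _)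
        have hB : -(C * sa) ≤ ∑ i, (a i : ℤ) * ∑ l, p' l * u i l := by
          rw [hsa, Finset.mul_sum, ← Finset.sum_neg_distrib]
          refine Finset.sum_le_sum fun i _ => ?_
          rw [mul_comm (C : ℤ), ← mul_neg]
          exact mul_le_mul_of_nonneg_left (neg_le_of_abs_le (hp' i)) (Int.natCast_nonneg _)
        rw [← hAa]
        have hN0 : (0 : ℤ) < N := by exact_mod_cast hN
        have hN'' : (N' : ℤ) = N * C + 1 := by exact_mod_cast hN'
        have hk1 : (1 : ℤ) ≤ k := by exact_mod_cast hk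
        have hC0 : (0 : ℤ) ≤ C := Int.natCast_nonneg _
        have hN'0 : (1 : ℤ) ≤ N' := by
          rw [hN'']
          have := mul_nonneg hN0.le hC0
          linarith
        have hN'k0 : (0 : ℤ) ≤ N' * k := by positivity
        have s1 : (N' * k : ℤ) * (N * Aa) ≤ (N' * k) * (N * (m * sa) - sa) :=
          mul_le_mul_of_nonneg_left (by linarith) hN'k0
        have s2 : (N : ℤ) * (N' * ∑ i, (a i : ℤ) * z i + ∑ i, (a i : ℤ) * ∑ l, p' l * u i l)
            ≥ N * (N' * ((k * m) * sa) - C * sa) := by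
          refine mul_le_mul_of_nonneg_left ?_ hN0.le
          have := mul_le_mul_of_nonneg_left hZ (by linarith : (0 : ℤ) ≤ N')
          linarith
        have s3 : (0 : ℤ) ≤ (N' * k - N * C) * sa := by
          refine mul_nonneg ?_ hsa0
          have h1 : (N' : ℤ) * 1 ≤ N' * k := mul_le_mul_of_nonneg_left hk1 (by linarith)
          rw [hN''] at h1 ⊢
          linarith
        have s4 : (N : ℤ) * ((N' * k) * Aa)
            ≤ N * (N' * ∑ i, (a i : ℤ) * z i + ∑ i, (a i : ℤ) * ∑ l, p' l * u i l) := by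
          nlinarith [s1, s2, s3]
        push_cast
        exact le_of_mul_le_mul_left s4 hN0)
    refine ⟨r', K, A, w, hK, hA, hw1, fun i => ?_⟩
    rw [h i]
    simp
  obtain ⟨r1, K1, A1, w1, hK1, hA1, hs1, h1⟩ := key p hC
  obtain ⟨r2, K2, A2, w2, hK2, hA2, hs2, h2⟩ := key 0 (fun i => by simp)
  refine ⟨r1 + r2, K1 * K2, Fin.append A1 A2,
    Fin.append (fun j => (K2 : ℤ) * w1 j) (fun j => -((K1 : ℤ) * w2 j)), Nat.mul_pos hK1 hK2,
    fun j => ?_, ?_, fun i => ?_⟩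
  · refine Fin.addCases (fun j => ?_) (fun j => ?_) j
    · rw [Fin.append_left]
      exact hA1 j
    · rw [Fin.append_right]
      exact hA2 j
  · rw [Fin.sum_univ_add]
    simp only [Fin.append_left, Fin.append_right]
    rw [← Finset.mul_sum, Finset.sum_neg_distrib, ← Finset.mul_sum]
    have e1 : ∑ j, (w1 j : ℤ) = K1 * (N' * k) := by exact_mod_cast hs1
    have e2 : ∑ j, (w2 j : ℤ) = K2 * (N' * k) := by exact_mod_cast hs2
    rw [e1, e2]
    ring
  · rw [Fin.sum_univ_add]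
    simp only [Fin.append_left, Fin.append_right]
    have e1 := h1 i
    have e2 := h2 i
    simp only [Pi.zero_apply, zero_mul, Finset.sum_const_zero, add_zero] at e2
    have e3 : ∑ j, (K2 : ℤ) * w1 j * A1 j i = K2 * ∑ j, (w1 j : ℤ) * A1 j i := by
      rw [Finset.mul_sum]
      exact Finset.sum_congr rfl fun j _ => by ring
    have e4 : ∑ j, -((K1 : ℤ) * w2 j) * A2 j i = -(K1 * ∑ j, (w2 j : ℤ) * A2 j i) := by
      rw [Finset.mul_sum, ← Finset.sum_neg_distrib]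
      exact Finset.sum_congr rfl fun j _ => by ring
    rw [e3, e4, ← e1, ← e2]
    push_cast
    ring

end Pool.Agent.U976.TBd
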