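import Pool.Agent.U976.TBd.GA1
import Pool.Agent.U976.TBd.E

/-!
# Twists by integral powers of the line bundles `c i`, and the characters on the kernel lattices
-/

set_option autoImplicit false

namespace Pool.Agent.U976.TBd

open Pool.Agent.W594.SYZ2 Pool.Agent.W594.SYZ2.TQ Pool.Agent.TH735.AQ Q47.MM Q47.TB Q47.EB
open MvPolynomial

variable {V : Type*} [NormedAddCommGroup V] [NormedSpace ℂ V] {Γ : Subgroup (V ≃ᵃ[ℂ] V)}
  {ι : Type*} [Fintype ι] {n : ℕ}

/-- The line bundle `L ⊗ ∏ c_i ^ z_i`. -/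
noncomputable def twz (L : LineBundle Γ) (c : ι → LineBundle Γ) (z : ι → ℤ) : LineBundle Γ where
  e := fun γ v => L.e γ v * ∏ i, (c i).e γ v ^ z i
  holo := fun γ => (L.holo γ).mul (prod_diff Finset.univ (fun i v => (c i).e γ v ^ z i)
    (fun i v => ((c i).holo γ v).zpow (Or.inl ((c i).ne_zero γ v))))
  ne_zero := fun γ v => mul_ne_zero (L.ne_zero γ v)
    (Finset.prod_ne_zero_iff.2 fun i _ => zpow_ne_zero _ ((c i).ne_zero γ v))
  mul := fun γ δ v => by
    rw [L.mul]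
    simp only [(c _).mul, mul_zpow, Finset.prod_mul_distrib]
    ring
  stab := fun γ v h => by
    rw [L.stab γ v h]
    simp only [(c _).stab γ v h, one_zpow, Finset.prod_const_one, mul_one]

/-- The form `H + ∑ z_i H_i`. -/
def zf (Hc : ι → V → V → ℂ) (H : V → V → ℂ) (z : ι → ℤ) (v w : V) : ℂ :=
  H v w + ∑ i, (z i : ℂ) * Hc i v w

/-- The potential. -/
def zp (Fc : ι → V → ℂ) (F : V → ℂ) (z : ι → ℤ) (v : V) : ℂ := F v + ∑ i, (z i : ℂ) * Fc i v

theorem int_re (K : ℤ) (z : ℂ) : ((K : ℂ) * z).re = K * z.re := by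
  have : ((K : ℤ) : ℂ) = ((K : ℝ) : ℂ) := by push_cast; rfl
  rw [this, Complex.re_ofReal_mul]

omit [NormedAddCommGroup V] [NormedSpace ℂ V] in
theorem zf_re (Hc : ι → V → V → ℂ) (H : V → V → ℂ) (z : ι → ℤ) (v w : V) :
    (zf Hc H z v w).re = (H v w).re + ∑ i, (z i : ℝ) * (Hc i v w).re := by
  rw [zf, Complex.add_re, Complex.re_sum]
  congr 1
  exact Finset.sum_congr rfl fun i _ => int_re _ _

omit [NormedAddCommGroup V] [NormedSpace ℂ V] in
theorem zp_re (Fc : ι → V → ℂ) (F : V → ℂ) (z : ι → ℤ) (v : V) :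
    (zp Fc F z v).re = (F v).re + ∑ i, (z i : ℝ) * (Fc i v).re := by
  rw [zp, Complex.add_re, Complex.re_sum]
  congr 1
  exact Finset.sum_congr rfl fun i _ => int_re _ _

theorem herm_zf {H : V → V → ℂ} {Hc : ι → V → V → ℂ} (hH : IsHermitian H)
    (hc : ∀ i, IsHermitian (Hc i)) (z : ι → ℤ) : IsHermitian (zf Hc H z) := by
  refine ⟨fun u v w => ?_, fun a v w => ?_, fun v w => ?_⟩
  · simp only [zf, hH.add_left, (hc _).add_left, mul_add, Finset.sum_add_distrib]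
    ring
  · simp only [zf, hH.smul_left, (hc _).smul_left, mul_add, Finset.mul_sum]
    congr 1
    exact Finset.sum_congr rfl fun i _ => by ring
  · simp only [zf, map_add, map_mul, map_sum, map_intCast, ← hH.symm, ← (hc _).symm]

theorem pot_twz {L : LineBundle Γ} {c : ι → LineBundle Γ} {H : V → V → ℂ}
    {Hc : ι → V → V → ℂ} {F : V → ℂ} {Fc : ι → V → ℂ} (hL : IsPot L H F)
    (hc : ∀ i, IsPot (c i) (Hc i) (Fc i)) (z : ι → ℤ) :
    IsPot (twz L c z) (zf Hc H z) (zp Fc F z) := by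
  refine ⟨?_, fun γ v => ?_⟩
  · have : zp Fc F z = fun v => F v + ∑ i, (z i : ℂ) * Fc i v := rfl
    rw [this]
    exact hL.1.add (Differentiable.fun_sum fun i _ => (hc i).1.const_mul _)
  · have h1 : ‖(twz L c z).e γ v‖ ^ 2 = ‖L.e γ v‖ ^ 2 * ∏ i, (‖(c i).e γ v‖ ^ 2) ^ z i := by
      change ‖L.e γ v * ∏ i, (c i).e γ v ^ z i‖ ^ 2 = _
      rw [norm_mul, norm_prod, mul_pow, ← Finset.prod_pow]
      congr 1
      exact Finset.prod_congr rfl fun i _ => by
        rw [norm_zpow, ← zpow_natCast, ← zpow_natCast, ← zpow_mul, ← zpow_mul, mul_comm]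
    have h2 : ∀ i, (‖(c i).e γ v‖ ^ 2) ^ z i = Real.exp ((z i : ℝ) * (Real.pi *
        (Hc i ((γ : V ≃ᵃ[ℂ] V) v) ((γ : V ≃ᵃ[ℂ] V) v)).re
        + 2 * (Fc i ((γ : V ≃ᵃ[ℂ] V) v)).re - (Real.pi * (Hc i v v).re + 2 * (Fc i v).re))) :=
      fun i => by rw [(hc i).2, mul_comm ((z i : ℝ)), Real.exp_mul, Real.rpow_intCast]
    rw [h1, Finset.prod_congr rfl fun i _ => h2 i, ← Real.exp_sum, hL.2, ← Real.exp_add]
    congr 1
    simp only [zf_re, zp_re, mul_add, mul_sub, Finset.sum_add_distrib, Finset.sum_sub_distrib,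
      Finset.mul_sum]
    have e1 : ∀ x : V, ∑ i, (z i : ℝ) * (Real.pi * (Hc i x x).re)
        = ∑ i, Real.pi * ((z i : ℝ) * (Hc i x x).re) := fun x =>
      Finset.sum_congr rfl fun i _ => by ring
    have e2 : ∀ x : V, ∑ i, (z i : ℝ) * (2 * (Fc i x).re)
        = ∑ i, 2 * ((z i : ℝ) * (Fc i x).re) := fun x =>
      Finset.sum_congr rfl fun i _ => by ring
    rw [e1, e1, e2, e2]
    ring

/-- The character of a twist. -/
theorem chi_twz (L : LineBundle Γ) (c : ι → LineBundle Γ) (F : V → ℂ) (Fc : ι → V → ℂ)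
    (z : ι → ℤ) (b : V) :
    chi (twz L c z) (zp Fc F z) b = chi L F b * ∏ i, chi (c i) (Fc i) b ^ z i := by
  by_cases hb : b ∈ latt Γ
  · rw [chi_eq hb, chi_eq hb]
    simp only [chi_eq (L := c _) hb]
    simp only [TQ.tw, mul_zpow, Finset.prod_mul_distrib]
    have h1 : Complex.exp (zp Fc F z 0 - zp Fc F z (((tr b hb : Γ) : V ≃ᵃ[ℂ] V) 0))
        = Complex.exp (F 0 - F (((tr b hb : Γ) : V ≃ᵃ[ℂ] V) 0)) *
          ∏ i, Complex.exp (Fc i 0 - Fc i (((tr b hb : Γ) : V ≃ᵃ[ℂ] V) 0)) ^ z i := by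
      simp only [← Complex.exp_int_mul]
      rw [← Complex.exp_sum, ← Complex.exp_add]
      congr 1
      simp only [zp, mul_sub, Finset.sum_sub_distrib]
      ring
    rw [h1]
    change (L.e (tr b hb) 0 * ∏ i, (c i).e (tr b hb) 0 ^ z i) * _ = _
    ring
  · have h0 : ∀ (M : LineBundle Γ) (G : V → ℂ), chi M G b = 1 := fun M G => dif_neg hb
    rw [h0, h0]
    simp only [h0, one_zpow, Finset.prod_const_one, mul_one]

omit [Fintype ι] in
theorem chi_ne_zero (L : LineBundle Γ) (F : V → ℂ) (b : V) : chi L F b ≠ 0 := by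
  by_cases hb : b ∈ latt Γ
  · rw [chi_eq hb]
    exact tw_ne_zero _ _
  · have h0 : chi L F b = 1 := dif_neg hb
    rw [h0]
    exact one_ne_zero

theorem line_ext {L M : LineBundle Γ} (h : ∀ γ v, L.e γ v = M.e γ v) : L = M := by
  have : L.e = M.e := by
    funext γ v
    exact h γ v
  cases L
  cases M
  simp only [LineBundle.mk.injEq]
  exact this

/-- The twists of `Q47.TB.tw`. -/
theorem tw_eq_twz (L : LineBundle Γ) (c : ι → LineBundle Γ) (β : ι → ℕ) :
    Q47.TB.tw L c 1 β = twz L c (fun i => -(β i : ℤ)) := by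
  refine line_ext fun γ v => ?_
  change L.e γ v ^ 1 * (∏ i, (c i).e γ v ^ (1 * β i))⁻¹ = L.e γ v * ∏ i, (c i).e γ v ^ (-(β i : ℤ))
  rw [pow_one, ← Finset.prod_inv_distrib]
  congr 1
  exact Finset.prod_congr rfl fun i _ => by rw [zpow_neg, zpow_natCast, one_mul]

variable [FiniteDimensional ℂ V]

/-- The lattice vectors which are invariant under the linear parts and in the kernel of a nef form
span the space of all such vectors. -/
theorem span_inv (hΓ : IsTorusQuotient Γ) {L : LineBundle Γ} {H : V → V → ℂ} {F : V → ℂ}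
    (hH : IsHermitian H) (hpot : IsPot L H F) (hn : IsNefForm H) {x : V} (hx : x ∈ ker hH)
    (hxG : ∀ g ∈ Lin Γ, g x = x) :
    x ∈ Submodule.span ℝ {b : V | b ∈ latt Γ ∧ b ∈ ker hH ∧ ∀ g ∈ Lin Γ, g b = b} := by
  classical
  obtain ⟨k, P, -, -, n, Δ, π, hker, hfib, -⟩ := numerical hΓ ⟨hH, F, hpot⟩ hn
  have : FiniteDimensional ℝ V := FiniteDimensional.complexToReal V
  have := finite_Lin hΓ
  have : Fintype (Lin Γ) := Fintype.ofFinite _
  -- the lattice vectors in `K` span `K`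
  let T : AddSubgroup (Fin n → ℂ) := (latt Γ).map π.toAddMonoidHom
  have hT : (T : Set (Fin n → ℂ)) ⊆ (latt Δ : Set (Fin n → ℂ)) := by
    rintro _ ⟨b, hb, rfl⟩
    obtain ⟨δ, hδ, h⟩ := hfib.maps _ (mem_latt.1 hb)
    change AffineEquiv.constVAdd ℂ (Fin n → ℂ) (π b) ∈ Δ
    have h1 : AffineEquiv.constVAdd ℂ (Fin n → ℂ) (π b) = δ := by
      apply AffineEquiv.ext
      intro w
      obtain ⟨v, rfl⟩ := hfib.surj w
      rw [h v]
      change π b + π v = π (b + v)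
      rw [map_add]
    rw [h1]
    exact hδ
  have hTd : DiscreteTopology T := by
    have h1 : DiscreteTopology (latt Δ : Set (Fin n → ℂ)) := hfib.base.discrete
    exact DiscreteTopology.of_subset h1 hT
  have hsp := span_ker (V := V) (W := Fin n → ℂ) (latt Γ) hΓ.discrete hΓ.span_top T hTd
    (π.restrictScalars ℝ) hfib.surj (fun w => Iff.rfl)
  let A : V →ₗ[ℝ] V := ∑ g : Lin Γ, ((g.1 : V →ₗ[ℂ] V).restrictScalars ℝ)
  have hA : ∀ v, A v = ∑ g : Lin Γ, g.1 v := by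
    intro v
    simp only [A, LinearMap.sum_apply]
    rfl
  have hAK : ∀ b ∈ latt Γ, b ∈ ker hH →
      A b ∈ latt Γ ∧ A b ∈ ker hH ∧ ∀ g ∈ Lin Γ, g (A b) = A b := by
    intro b hb hbK
    rw [hA]
    obtain ⟨h1, h2, -⟩ := chi_sum hΓ hH hpot hb hbK
    refine ⟨h1, h2, fun g hg => ?_⟩
    rw [map_sum]
    refine Fintype.sum_equiv (Equiv.mulLeft (⟨g, hg⟩ : Lin Γ)) _ _ ?_
    intro g'
    rfl
  have h1 : x ∈ Submodule.span ℝ {b | b ∈ latt Γ ∧ π b = 0} := by
    have h2 : x ∈ LinearMap.ker (π.restrictScalars ℝ) := (hker x).2 hx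
    rw [← hsp] at h2
    exact h2
  have h2 : A x ∈ Submodule.span ℝ {b : V | b ∈ latt Γ ∧ b ∈ ker hH ∧ ∀ g ∈ Lin Γ, g b = b} := by
    have h3 : A x ∈ (Submodule.span ℝ {b | b ∈ latt Γ ∧ π b = 0}).map A :=
      Submodule.mem_map_of_mem h1
    rw [Submodule.map_span] at h3
    refine Submodule.span_mono ?_ h3
    rintro _ ⟨b, ⟨hb, hb0⟩, rfl⟩
    exact hAK b hb ((hker b).1 hb0)
  have h3 : A x = (Fintype.card (Lin Γ) : ℝ) • x := by
    rw [hA, Finset.sum_congr rfl fun g _ => hxG g.1 g.2, Finset.sum_const,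
      ← Nat.cast_smul_eq_nsmul ℝ, Finset.card_univ]
  have hc0 : (0 : ℝ) < Fintype.card (Lin Γ) := by exact_mod_cast Fintype.card_pos
  have h4 : x = ((Fintype.card (Lin Γ) : ℝ)⁻¹) • A x := by
    rw [h3, smul_smul, inv_mul_cancel₀ hc0.ne', one_smul]
  rw [h4]
  exact Submodule.smul_mem _ _ h2

/-- The character of the line bundle of `m (K_X + B)`, `B` effective, is trivial on the lattice
vectors in a subspace which is spanned by lattice vectors, parallel to the mirrors, and in the kernel of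
the Chern form. -/
theorem chi_one {ρ P : V → ℂ} {m : ℕ} {L : LineBundle Γ} {H : V → V → ℂ} {F : V → ℂ}
    (hΓ : IsTorusQuotient Γ) (hρ : IsRamification Γ ρ)
    (hP : Differentiable ℂ P) (hP0 : ∃ v, P v ≠ 0)
    (hL : Pool.Agent.TH735.AQ.IsLogPluricanonical L m ρ P)
    (hH : IsHermitian H) (hpot : IsPot L H F) (K : Submodule ℂ V)
    (hK : ∀ x ∈ K, x ∈ Submodule.span ℝ {b : V | b ∈ latt Γ ∧ b ∈ K})
    (hKf : ∀ x ∈ K, IsFixed Γ x) (hKH : ∀ x ∈ K, x ∈ ker hH) {b : V} (hb : b ∈ latt Γ)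
    (hbK : b ∈ K) : chi L F b = 1 := by
  classical
  obtain ⟨v₀, hv₀, hv₀'⟩ := exists_common hP hρ.holo hP0 (ram_ne_zero hρ)
  have hmir : ¬ OnMirror Γ v₀ := fun h => hv₀' ((hρ.zero_iff v₀).2 h)
  have hF := hpot.1
  have : FiniteDimensional ℝ V := FiniteDimensional.complexToReal V
  let SK : AddSubgroup K := (latt Γ).comap K.subtype.toAddMonoidHom
  have hmap : (Submodule.span ℝ (SK : Set K)).map (K.subtype.restrictScalars ℝ)
      = Submodule.span ℝ {b | b ∈ latt Γ ∧ b ∈ K} := by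
    rw [Submodule.map_span]
    congr 1
    ext x
    constructor
    · rintro ⟨y, hy, rfl⟩
      exact ⟨hy, y.2⟩
    · rintro ⟨hx, hx0⟩
      exact ⟨⟨x, hx0⟩, hx, rfl⟩
  have hspan : Submodule.span ℝ (SK : Set K) = ⊤ := by
    rw [eq_top_iff]
    rintro ⟨x, hx⟩ -
    have h1 := hK x hx
    rw [← hmap] at h1
    obtain ⟨y, hy, hyx⟩ := h1
    have h2 : y = ⟨x, hx⟩ := Subtype.ext hyx
    rwa [← h2]
  have : ProperSpace K := FiniteDimensional.proper ℂ K
  have hsne : ∀ x : K, ρ (v₀ + x) ^ m ≠ 0 := fun x => pow_ne_zero _ fun h =>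
    not_onMirror_add hΓ hmir (hKf x x.2) ((hρ.zero_iff _).1 h)
  obtain ⟨u, hud⟩ : ∃ u : K → ℂ, ∀ x : K,
      u x = P (v₀ + x) * (ρ (v₀ + x) ^ m)⁻¹ * Complex.exp (-F (v₀ + x)) := ⟨_, fun _ => rfl⟩
  have hu : Differentiable ℂ u := by
    have h2 : Differentiable ℂ fun x : K => v₀ + (x : V) := K.subtypeL.differentiable.const_add v₀
    have h3 : Differentiable ℂ fun x : K => P (v₀ + (x : V)) := hP.comp h2
    have h4 : Differentiable ℂ fun x : K => (ρ (v₀ + (x : V)) ^ m)⁻¹ :=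
      Differentiable.inv ((hρ.holo.comp h2).pow m) hsne
    have h5 : Differentiable ℂ fun x : K => Complex.exp (-F (v₀ + (x : V))) :=
      (hF.comp h2).neg.cexp
    rw [funext hud]
    exact (h3.mul h4).mul h5
  have hueq : ∀ (b : K) (_ : (b : V) ∈ latt Γ) (x : K), u (b + x) = chi L F b * u x := by
    intro b hb x
    have h1 := hL (tr (b : V) hb) (v₀ + x)
    have h2 : LinearMap.det (((tr (b : V) hb : Γ) : V ≃ᵃ[ℂ] V).linear : V →ₗ[ℂ] V) = 1 := by
      have h3 : (((tr (b : V) hb : Γ) : V ≃ᵃ[ℂ] V).linear : V →ₗ[ℂ] V) = LinearMap.id := by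
        ext w
        exact tr_linear (b : V) hb w
      rw [h3, LinearMap.det_id]
    rw [h2, one_pow, mul_one, tr_apply] at h1
    have hs1 : ρ ((b : V) + (v₀ + x)) ^ m ≠ 0 := by
      have := hsne (b + x)
      rwa [Submodule.coe_add, add_left_comm] at this
    have hs2 := hsne x
    have h3 : P ((b : V) + (v₀ + x)) * (ρ ((b : V) + (v₀ + x)) ^ m)⁻¹
        = L.e (tr (b : V) hb) (v₀ + x) * (P (v₀ + x) * (ρ (v₀ + x) ^ m)⁻¹) := by
      field_simp
      linear_combination h1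
    have h2' := tw_tr_ker hH hpot hb (hKH b b.2) (v₀ + (x : V))
    rw [hud, hud, Submodule.coe_add, add_left_comm v₀ (b : V) (x : V), h3, ← h2', TQ.tw, tr_apply]
    have h4 : Complex.exp (-F ((b : V) + (v₀ + x)))
        = Complex.exp (F (v₀ + x) - F ((b : V) + (v₀ + x))) * Complex.exp (-F (v₀ + x)) := by
      rw [← Complex.exp_add]
      congr 1
      ring
    rw [h4]
    ring
  obtain ⟨C, hC⟩ := cobounded SK hspan
  have hbd : Bornology.IsBounded (Set.range u) := by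
    have hK : IsCompact (Metric.closedBall (0 : K) C) := isCompact_closedBall _ _
    obtain ⟨R, hR⟩ := (isBounded_iff_forall_norm_le.1 (hK.image hu.continuous).isBounded)
    rw [isBounded_iff_forall_norm_le]
    refine ⟨R, ?_⟩
    rintro _ ⟨v, rfl⟩
    obtain ⟨b, hb, hbC⟩ := hC v
    have hb' : (b : V) ∈ latt Γ := hb
    have h1 : ‖u (b + v)‖ = ‖u v‖ := by
      rw [hueq b hb' v, norm_mul, chi_norm hH hpot hb' (hKH b b.2), one_mul]
    rw [← h1]
    exact hR _ ⟨b + v, by rwa [mem_closedBall_zero_iff], rfl⟩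
  have h1 := hueq ⟨b, hbK⟩ hb 0
  have h2 : u (⟨b, hbK⟩ + 0) = u 0 := hu.apply_eq_apply_of_bounded hbd _ _
  rw [h2] at h1
  have h3 : u 0 ≠ 0 := by
    rw [hud, Submodule.coe_zero, add_zero]
    exact mul_ne_zero (mul_ne_zero hv₀ (inv_ne_zero (pow_ne_zero _ hv₀')))
      (Complex.exp_ne_zero _)
  exact (mul_right_cancel₀ h3 ((one_mul _).trans h1)).symm

end Pool.Agent.U976.TBd
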