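import Pool.Agent.U976.TBd.GA2

/-!
# The kernels of nef forms on toric bundles with pseudo-effective log canonical class
-/

set_option autoImplicit false

namespace Pool.Agent.U976.TBd

open Pool.Agent.W594.SYZ2 Pool.Agent.W594.SYZ2.TQ Pool.Agent.TH735.AQ Q47.MM Q47.TB Q47.EB
open MvPolynomial

variable {V : Type*} [NormedAddCommGroup V] [NormedSpace ℂ V] {Γ : Subgroup (V ≃ᵃ[ℂ] V)}
  {ι : Type*} [Fintype ι] {n : ℕ}

/-- Isotropic invariant vectors of an invariant form which is nonnegative on the invariant vectors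
are in the kernel. -/
theorem iso_inv [FiniteDimensional ℂ V] (hΓ : IsTorusQuotient Γ) {H : V → V → ℂ} (hI : Inv Γ H)
    (hn : ∀ y, (∀ g ∈ Lin Γ, g y = y) → 0 ≤ (H y y).re) {x : V} (hx : ∀ g ∈ Lin Γ, g x = x)
    (h0 : (H x x).re = 0) (y : V) : H x y = 0 := by
  classical
  have := finite_Lin hΓ
  have : Fintype (Lin Γ) := Fintype.ofFinite _
  have hH := hI.herm
  let A : V →ₗ[ℂ] V := ∑ g : Lin Γ, (g.1 : V →ₗ[ℂ] V)
  have hA : ∀ v, A v = ∑ g : Lin Γ, g.1 v := by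
    intro v
    simp only [A, LinearMap.sum_apply]
    rfl
  have hAG : ∀ v, ∀ g ∈ Lin Γ, g (A v) = A v := by
    intro v g hg
    rw [hA, map_sum]
    refine Fintype.sum_equiv (Equiv.mulLeft (⟨g, hg⟩ : Lin Γ)) _ _ ?_
    intro g'
    rfl
  have hsum : ∀ (s : Finset (Lin Γ)) (f : Lin Γ → V) (v : V),
      H v (∑ g ∈ s, f g) = ∑ g ∈ s, H v (f g) := by
    intro s f v
    induction s using Finset.induction_on with
    | empty => rw [Finset.sum_empty, Finset.sum_empty, h_zero_right hH]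
    | insert g s hg ih => rw [Finset.sum_insert hg, Finset.sum_insert hg, h_add_right hH, ih]
  have hHA : ∀ v w, (∀ g ∈ Lin Γ, g v = v) → H v (A w) = (Fintype.card (Lin Γ) : ℂ) * H v w := by
    intro v w hv
    rw [hA, hsum]
    have h1 : ∀ g : Lin Γ, H v (g.1 w) = H v w := fun g => by
      have h2 := hI.inv g.1 g.2 v w
      rwa [hv g.1 g.2] at h2
    rw [Finset.sum_congr rfl fun g _ => h1 g, Finset.sum_const, Finset.card_univ, nsmul_eq_mul]
  have hc0 : (Fintype.card (Lin Γ) : ℂ) ≠ 0 := by exact_mod_cast Fintype.card_ne_zero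
  let H' : V → V → ℂ := fun v w => H (A v) (A w)
  have hH' : IsHermitian H' := by
    refine ⟨fun u v w => ?_, fun a v w => ?_, fun v w => hH.symm _ _⟩
    · simp only [H', map_add, hH.add_left]
    · simp only [H', map_smul, hH.smul_left]
  have hn' : IsNefForm H' := fun v => hn _ (hAG v)
  have hAx : A x = (Fintype.card (Lin Γ) : ℂ) • x := by
    rw [hA, Finset.sum_congr rfl fun g _ => hx g.1 g.2, Finset.sum_const,
      ← Nat.cast_smul_eq_nsmul ℂ, Finset.card_univ]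
  have h1 : (H' x x).re = 0 := by
    simp only [H']
    rw [hAx, h_diag_smul hH, h0, mul_zero]
  have h2 := h_isotropic hH' hn' x h1 y
  simp only [H'] at h2
  rw [hAx, hH.smul_left, hHA x y hx, mul_eq_zero, mul_eq_zero] at h2
  rcases h2 with h2 | h2 | h2
  · exact absurd h2 hc0
  · exact absurd h2 hc0
  · exact h2

/-- The coefficients of `F` give log pluricanonical divisors on the base. -/
theorem coef_pluri {u : ι → Fin n → ℤ} {c : ι → LineBundle Γ} {m : ℕ} {ρ : V → ℂ} {d : ι → ℤ}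
    {F : V → MvPolynomial ι ℂ} {L : LineBundle Γ}
    (hF : Q47.TB.IsLogPluricanonical u c m ρ d F L) (α : ι →₀ ℕ) :
    Pool.Agent.TH735.AQ.IsLogPluricanonical (twz L c fun i => (m : ℤ) - α i) m ρ
      (fun v => coeff α (F v)) := by
  intro γ v
  have h1 := coeff_of_eval (t := fun i => (c i).e γ v) (p := F ((γ : V ≃ᵃ[ℂ] V) v)) (q := F v)
    (a := ρ v ^ m) (b := L.e γ v * (LinearMap.det ((γ : V ≃ᵃ[ℂ] V).linear : V →ₗ[ℂ] V) *
      ∏ i, (c i).e γ v) ^ m * ρ ((γ : V ≃ᵃ[ℂ] V) v) ^ m) (fun x => by rw [hF.eq γ v x]; ring) α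
  have h2 : ∏ i, (c i).e γ v ^ ((m : ℤ) - α i)
      = (∏ i, (c i).e γ v) ^ m * (∏ i, (c i).e γ v ^ α i)⁻¹ := by
    rw [← Finset.prod_pow, ← Finset.prod_inv_distrib, ← Finset.prod_mul_distrib]
    exact Finset.prod_congr rfl fun i _ => by
      rw [zpow_sub₀ ((c i).ne_zero γ v), zpow_natCast, zpow_natCast, div_eq_mul_inv]
  have h3 : (∏ i, (c i).e γ v ^ α i) ≠ 0 :=
    Finset.prod_ne_zero_iff.2 fun i _ => pow_ne_zero _ ((c i).ne_zero γ v)
  change coeff α (F ((γ : V ≃ᵃ[ℂ] V) v)) * ρ v ^ m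
    = L.e γ v * (∏ i, (c i).e γ v ^ ((m : ℤ) - α i)) * _ * coeff α (F v) * _
  rw [h2]
  field_simp
  rw [mul_pow] at h1
  linear_combination h1

omit [NormedAddCommGroup V] [NormedSpace ℂ V] in
theorem frm_re (Hc : ι → V → V → ℂ) (H : V → V → ℂ) (k : ℕ) (β : ι → ℕ) (v w : V) :
    (frm Hc H k β v w).re = k * (H v w).re - ∑ i, (β i : ℝ) * (Hc i v w).re := by
  rw [frm, Complex.sub_re, Complex.re_sum, nat_re]
  congr 1
  exact Finset.sum_congr rfl fun i _ => nat_re _ _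

/-- The exponents of `F`. -/
theorem exists_expts {u : ι → Fin n → ℤ} {S : Set (Set ι)} (hS : IsSmoothFan u S)
    {c : ι → LineBundle Γ} {m : ℕ} {ρ : V → ℂ} {d : ι → ℤ}
    {F : V → MvPolynomial ι ℂ} {L : LineBundle Γ}
    (hF : Q47.TB.IsLogPluricanonical u c m ρ d F L) :
    ∃ T : Finset (ι →₀ ℕ), ∀ α, α ∈ T ↔ ∃ v, coeff α (F v) ≠ 0 := by
  have hfin : {α : ι →₀ ℕ | ∃ v, coeff α (F v) ≠ 0}.Finite := by
    refine (finite_class hS d).subset ?_
    rintro α ⟨v, hv⟩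
    exact hF.deg v α (mem_support_iff.2 hv)
  exact ⟨hfin.toFinset, fun α => by simp⟩

/-- The kernel of a nef form on the invariant vectors is in the kernels of the forms of the
coefficients of `F`, and of the forms of the line bundles of the characters. -/
theorem forms_zero [FiniteDimensional ℂ V] (hΓ : IsTorusQuotient Γ) {ρ : V → ℂ}
    (hρ : IsRamification Γ ρ) {u : ι → Fin n → ℤ} {S : Set (Set ι)} (hS : IsSmoothFan u S)
    {c : ι → LineBundle Γ} {Hc : ι → V → V → ℂ} {Fc : ι → V → ℂ}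
    (hc : ∀ i, IsHermitian (Hc i)) (hcp : ∀ i, IsPot (c i) (Hc i) (Fc i)) {m : ℕ} {d : ι → ℤ}
    {F : V → MvPolynomial ι ℂ} {L₀ : LineBundle Γ} {H₀ : V → V → ℂ} {F₀ : V → ℂ}
    (hH₀ : IsHermitian H₀) (hL₀ : IsPot L₀ H₀ F₀)
    (hF : Q47.TB.IsLogPluricanonical u c m ρ d F L₀) (hw : ToricKlt S m F)
    {kp : ℕ} (hkp : 1 ≤ kp) {b0 : ι → ℕ}
    (hb0 : LinEquiv u (fun i => (b0 i : ℤ)) (fun i => kp * (d i - m)))
    {D : ι → ℤ} {H : V → V → ℂ} {t : ℕ}
    (hn : Nef u S Hc (fun i => t * D i - (d i - m)) (fun v w => t * H v w - H₀ v w))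
    {k : ℕ} (hk : 1 ≤ k) {β : ι → ℕ} (hβ : LinEquiv u (fun i => (β i : ℤ)) (fun i => k * D i))
    {x : V} (hx : ∀ g ∈ Lin Γ, g x = x) (hQ : (frm Hc H k β x x).re = 0) :
    (∀ α : ι →₀ ℕ, (∃ v, coeff α (F v) ≠ 0) → ∀ y, zf Hc H₀ (fun i => (m : ℤ) - α i) x y = 0) ∧
      ∀ (p : Fin n → ℤ) (y : V), ∑ i, ((∑ l, p l * u i l : ℤ) : ℂ) * Hc i x y = 0 := by
  classical
  obtain ⟨T, hT⟩ := exists_expts hS hF
  obtain ⟨N, hN, hNw⟩ := hw
  have hTd : ∀ α ∈ T, LinEquiv u (fun i => (α i : ℤ)) d := by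
    intro α hα
    obtain ⟨v, hv⟩ := (hT α).1 hα
    exact hF.deg v α (mem_support_iff.2 hv)
  have hTw : ∀ a : ι → ℕ, {i | a i ≠ 0} ∈ S → ∃ α ∈ T,
      N * ∑ i, a i * α i + ∑ i, a i ≤ N * (m * ∑ i, a i) := by
    intro a ha
    obtain ⟨α, hα, hle⟩ := hNw a ha
    exact ⟨α, (hT α).2 hα, hle⟩
  -- the forms of the coefficients
  have hα : ∀ α ∈ T, (∀ y, (∀ g ∈ Lin Γ, g y = y) →
      0 ≤ (zf Hc H₀ (fun i => (m : ℤ) - α i) y y).re) ∧
      Inv Γ (zf Hc H₀ (fun i => (m : ℤ) - α i)) := by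
    intro α hα
    have hch : IsChernForm (twz L₀ c fun i => (m : ℤ) - α i)
        (zf Hc H₀ (fun i => (m : ℤ) - α i)) :=
      ⟨herm_zf hH₀ hc _, _, (pot_twz hL₀ hcp _).1, (pot_twz hL₀ hcp _).2⟩
    exact ⟨fun y hy => pair_fixed hΓ hρ (hF.holo α) ((hT α).1 hα) (coef_pluri hF α) hch
      fun g hg _ => hy g hg, inv_of_chern hch⟩
  -- the vertices
  choose! l hl g hg0 hg hgn using hn
  have key : ∀ α₀ ∈ T, (zf Hc H₀ (fun i => (m : ℤ) - α₀ i) x x).re = 0 := by
    intro α₀ hα₀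
    obtain ⟨r', K, K', A, σ, w, s, hK, hK', hA, hσ, hw1, hs1, h⟩ := comb_pos hS T
      (d := d) (dM := fun i => t * D i - (d i - m)) hTd g l
      (fun σ hσ => ⟨hl σ hσ, hg0 σ hσ, hg σ hσ⟩) hN hTw (k := k) (s := k) hk
      (z := fun i => t * β i + k * m) (by
        obtain ⟨q, hq⟩ := hβ
        refine ⟨fun j => t * q j, fun i => ?_⟩
        have h1 : (β i : ℤ) = k * D i + ∑ j, q j * u i j := hq i
        simp only
        rw [h1]
        have h3 : ∑ j, (t : ℤ) * q j * u i j = t * ∑ j, q j * u i j := by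
          rw [Finset.mul_sum]
          exact Finset.sum_congr rfl fun j _ => by ring
        rw [h3]
        ring) (fun i => by
        have : (0 : ℤ) ≤ t * β i := by positivity
        linarith) hα₀
    obtain ⟨h0, hh0⟩ : ∃ h0, h0 = (H₀ x x).re := ⟨_, rfl⟩
    obtain ⟨hL, hhL⟩ : ∃ hL, hL = (H x x).re := ⟨_, rfl⟩
    obtain ⟨e, he⟩ : ∃ e : ι → ℝ, ∀ i, (Hc i x x).re = e i := ⟨_, fun i => rfl⟩
    have hzα : ∀ α : ι →₀ ℕ, (zf Hc H₀ (fun i => (m : ℤ) - α i) x x).re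
        = h0 + m * ∑ i, e i - ∑ i, (α i : ℝ) * e i := by
      intro α
      rw [zf_re, ← hh0]
      simp only [he]
      push_cast
      simp only [sub_mul, Finset.sum_sub_distrib, Finset.mul_sum]
      ring
    have hGτ : ∀ τ, (frm Hc (fun v w => (t : ℂ) * H v w - H₀ v w) (l τ) (g τ) x x).re
        = l τ * (t * hL - h0) - ∑ i, (g τ i : ℝ) * e i := by
      intro τ
      rw [frm_re]
      simp only [he, Complex.sub_re, nat_re, ← hh0, ← hhL]
    have hGn : ∀ j, 0 ≤ (l (σ j) : ℝ) * (t * hL - h0) - ∑ i, (g (σ j) i : ℝ) * e i := by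
      intro j
      rw [← hGτ]
      exact hgn (σ j) (hσ j) x
    have hAn : ∀ j, 0 ≤ h0 + m * ∑ i, e i - ∑ i, (A j i : ℝ) * e i := by
      intro j
      rw [← hzα]
      exact (hα _ (hA j)).1 x hx
    have h0n : 0 ≤ h0 + m * ∑ i, e i - ∑ i, (α₀ i : ℝ) * e i := by
      rw [← hzα]
      exact (hα _ hα₀).1 x hx
    have hQ' : (k : ℝ) * hL - ∑ i, (β i : ℝ) * e i = 0 := by
      rw [frm_re] at hQ
      simpa only [he, ← hhL] using hQ
    have hr : ∀ i, (K : ℝ) * (t * β i + k * m) = K' * α₀ i + ∑ j, (w j : ℝ) * A j i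
        + ∑ j, (s j : ℝ) * g (σ j) i := by
      intro i
      have h1 := h i
      have h2 : (((K : ℤ) * (t * β i + k * m) : ℤ) : ℝ) = ((K' * α₀ i + ∑ j, (w j : ℤ) * A j i
          + ∑ j, (s j : ℤ) * g (σ j) i : ℤ) : ℝ) := by rw [h1]
      push_cast at h2
      exact h2
    have hw1' : ∑ j, (w j : ℝ) + K' = K * k := by exact_mod_cast hw1
    have hs1' : ∑ j, (s j : ℝ) * l (σ j) = K * k := by exact_mod_cast hs1
    -- the identity
    have hid : (K : ℝ) * t * (k * hL - ∑ i, (β i : ℝ) * e i)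
        = K' * (h0 + m * ∑ i, e i - ∑ i, (α₀ i : ℝ) * e i)
          + ∑ j, (w j : ℝ) * (h0 + m * ∑ i, e i - ∑ i, (A j i : ℝ) * e i)
          + ∑ j, (s j : ℝ) * (l (σ j) * (t * hL - h0) - ∑ i, (g (σ j) i : ℝ) * e i) := by
      have e1 : ∑ j, (w j : ℝ) * (h0 + m * ∑ i, e i - ∑ i, (A j i : ℝ) * e i)
          = (∑ j, (w j : ℝ)) * (h0 + m * ∑ i, e i)
            - ∑ i, (∑ j, (w j : ℝ) * A j i) * e i := by
        simp only [mul_sub, Finset.sum_sub_distrib, Finset.sum_mul, Finset.mul_sum]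
        congr 1
        rw [Finset.sum_comm]
        exact Finset.sum_congr rfl fun i _ => Finset.sum_congr rfl fun j _ => by ring
      have e2 : ∑ j, (s j : ℝ) * (l (σ j) * (t * hL - h0) - ∑ i, (g (σ j) i : ℝ) * e i)
          = (∑ j, (s j : ℝ) * l (σ j)) * (t * hL - h0)
            - ∑ i, (∑ j, (s j : ℝ) * g (σ j) i) * e i := by
        simp only [mul_sub, Finset.sum_sub_distrib, Finset.sum_mul, Finset.mul_sum]
        have e3 : ∑ j, ∑ i, (s j : ℝ) * ((g (σ j) i : ℝ) * e i)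
            = ∑ i, ∑ j, (s j : ℝ) * (g (σ j) i : ℝ) * e i := by
          rw [Finset.sum_comm]
          exact Finset.sum_congr rfl fun i _ => Finset.sum_congr rfl fun j _ => by ring
        rw [e3]
        congr 1
        congr 1
        · exact Finset.sum_congr rfl fun j _ => by ring
        · exact Finset.sum_congr rfl fun j _ => by ring
      have e4 : (K : ℝ) * t * ∑ i, (β i : ℝ) * e i = K' * ∑ i, (α₀ i : ℝ) * e i
          + ∑ i, (∑ j, (w j : ℝ) * A j i) * e i + ∑ i, (∑ j, (s j : ℝ) * g (σ j) i) * e i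
          - K * k * m * ∑ i, e i := by
        have e5 : ∀ i, (K : ℝ) * t * ((β i : ℝ) * e i) = K' * ((α₀ i : ℝ) * e i)
            + (∑ j, (w j : ℝ) * A j i) * e i + (∑ j, (s j : ℝ) * g (σ j) i) * e i
            - K * k * m * e i := by
          intro i
          have := hr i
          linear_combination e i * this
        simp only [Finset.mul_sum]
        rw [← Finset.sum_add_distrib, ← Finset.sum_add_distrib, ← Finset.sum_sub_distrib]
        exact Finset.sum_congr rfl fun i _ => e5 i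
      rw [e1, e2, hs1', mul_sub (K * t : ℝ), e4]
      have : ∑ j, (w j : ℝ) = K * k - K' := by linarith
      rw [this]
      ring
    rw [hQ', mul_zero] at hid
    have p1 : 0 ≤ ∑ j, (w j : ℝ) * (h0 + m * ∑ i, e i - ∑ i, (A j i : ℝ) * e i) :=
      Finset.sum_nonneg fun j _ => mul_nonneg (Nat.cast_nonneg _) (hAn j)
    have p2 : 0 ≤ ∑ j, (s j : ℝ) * (l (σ j) * (t * hL - h0) - ∑ i, (g (σ j) i : ℝ) * e i) :=
      Finset.sum_nonneg fun j _ => mul_nonneg (Nat.cast_nonneg _) (hGn j)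
    have hK'0 : (0 : ℝ) < K' := by exact_mod_cast hK'
    have p3 : (K' : ℝ) * (h0 + m * ∑ i, e i - ∑ i, (α₀ i : ℝ) * e i) ≤ 0 := by linarith
    rw [hzα]
    nlinarith [mul_nonneg hK'0.le h0n]
  have key2 : ∀ α ∈ T, ∀ y, zf Hc H₀ (fun i => (m : ℤ) - α i) x y = 0 := fun α h y =>
    iso_inv hΓ (hα α h).2 (hα α h).1 hx (key α h) y
  refine ⟨fun α h y => key2 α ((hT α).2 h) y, fun p y => ?_⟩
  obtain ⟨r', K, A, w, hK, hA, hw0, h⟩ := comb_diff hS T hTd hN hTw (k := kp) hkp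
    (z := fun i => b0 i + kp * m) (by
      obtain ⟨q, hq⟩ := hb0
      refine ⟨q, fun i => ?_⟩
      have h1 : (b0 i : ℤ) = kp * (d i - m) + ∑ j, q j * u i j := hq i
      simp only
      rw [h1]
      ring) (fun i => by
      have : (0 : ℤ) ≤ b0 i := Int.natCast_nonneg _
      linarith) p
  have hK0 : (K : ℂ) ≠ 0 := by
    have : K ≠ 0 := by omega
    exact_mod_cast this
  have h1 : (K : ℂ) * ∑ i, ((∑ l, p l * u i l : ℤ) : ℂ) * Hc i x y = 0 := by
    have h2 : (K : ℂ) * ∑ i, ((∑ l, p l * u i l : ℤ) : ℂ) * Hc i x y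
        = ∑ j, (w j : ℂ) * ∑ i, (A j i : ℂ) * Hc i x y := by
      simp only [Finset.mul_sum]
      rw [Finset.sum_comm (s := Finset.univ) (t := Finset.univ)
        (f := fun j i => (w j : ℂ) * ((A j i : ℂ) * Hc i x y))]
      refine Finset.sum_congr rfl fun i _ => ?_
      have h3 := h i
      have h4 : (((K : ℤ) * ∑ l, p l * u i l : ℤ) : ℂ) = ((∑ j, w j * A j i : ℤ) : ℂ) := by rw [h3]
      rw [Int.cast_mul, Int.cast_natCast] at h4
      rw [← mul_assoc, h4]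
      push_cast
      rw [Finset.sum_mul]
      exact Finset.sum_congr rfl fun j _ => by ring
    rw [h2]
    have h5 : ∀ j, ∑ i, (A j i : ℂ) * Hc i x y = H₀ x y + m * ∑ i, Hc i x y := by
      intro j
      have h6 := key2 (A j) (hA j) y
      rw [zf] at h6
      push_cast at h6
      simp only [sub_mul, Finset.sum_sub_distrib] at h6
      rw [← Finset.mul_sum] at h6
      linear_combination -h6
    rw [Finset.sum_congr rfl fun j _ => by rw [h5 j], ← Finset.sum_mul]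
    have h7 : ∑ j, (w j : ℂ) = 0 := by exact_mod_cast hw0
    rw [h7, zero_mul]
  exact (mul_eq_zero.1 h1).resolve_left hK0

end Pool.Agent.U976.TBd
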