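import Pool.Agent.U976.TBd.K2
import Pool.Agent.U976.TBd.G4

/-!
# Kummer covers of toric bundles over torus quotients: nonvanishing and good minimal models
-/

set_option autoImplicit false

namespace Pool.Agent.U976.TBd

open Pool.Agent.W594.SYZ2 Pool.Agent.W594.SYZ2.TQ Pool.Agent.TH735.AQ Q47.MM Q47.TB Q47.EB
open MvPolynomial

variable {V : Type*} [NormedAddCommGroup V] [NormedSpace ℂ V]
  {Γ : Subgroup (V ≃ᵃ[ℂ] V)} {ι : Type*} [Fintype ι] {n : ℕ}
  {u : ι → Fin n → ℤ} {S : Set (Set ι)} {c : ι → LineBundle Γ} {k : ℕ}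
  {e : Fin k → ι → ℤ} {A : Fin k → LineBundle Γ} {m : Fin k → ℕ}
  {F : Fin k → V → MvPolynomial ι ℂ}

/-- The section `G` on `Y'` is not zero. -/
def NonzeroOn (S : Set (Set ι)) (m : Fin k → ℕ) (F : Fin k → V → MvPolynomial ι ℂ)
    (G : V → MvPolynomial (ι ⊕ Fin k) ℂ) : Prop :=
  ∃ (v : V) (x : ι → ℂ) (y : Fin k → ℂ), {i | x i = 0} ∈ S ∧
    (∀ j, y j ^ m j = eval x (F j v)) ∧ eval (Sum.elim x y) (G v) ≠ 0

/-- Some positive power of the pullback of `O_Y(D; L)` to `Y'` has a nonzero section. -/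
def CoverEffective (u : ι → Fin n → ℤ) (S : Set (Set ι)) (c : ι → LineBundle Γ)
    (e : Fin k → ι → ℤ) (A : Fin k → LineBundle Γ) (m : Fin k → ℕ)
    (F : Fin k → V → MvPolynomial ι ℂ) (D : ι → ℤ) (L : LineBundle Γ) : Prop :=
  ∃ q : ℕ, 1 ≤ q ∧ ∃ G, IsCoverSection u c e A m (fun i => q * D i) (fun γ v => L.e γ v ^ q) G ∧
    NonzeroOn S m F G

/-- The pullback `N` of `O_Y(D; L)` to `Y'` is pseudo-effective: for some line bundle
`B = O_Y(dB; LB)`, and for all `a ≥ 1`, some positive power of `N ^ a ⊗ B` has a nonzero section on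
`Y'`, so that the class of `N` is the limit of the classes `(1 / a) (a c_1(N) + c_1(B))` of
`ℚ`-effective divisors. (If `Y'` is projective then each pseudo-effective line bundle has this
property, for the pullback `B` of each ample line bundle.) -/
def CoverPsef (u : ι → Fin n → ℤ) (S : Set (Set ι)) (c : ι → LineBundle Γ)
    (e : Fin k → ι → ℤ) (A : Fin k → LineBundle Γ) (m : Fin k → ℕ)
    (F : Fin k → V → MvPolynomial ι ℂ) (D : ι → ℤ) (L : LineBundle Γ) : Prop :=
  ∃ (dB : ι → ℤ) (LB : LineBundle Γ) (HB : V → V → ℂ), IsChernForm LB HB ∧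
    ∀ a : ℕ, 1 ≤ a → ∃ j : ℕ, 1 ≤ j ∧ ∃ G,
      IsCoverSection u c e A m (fun i => j * (a * D i + dB i))
        (fun γ v => (L.e γ v ^ a * LB.e γ v) ^ j) G ∧ NonzeroOn S m F G

/-- The norm of a monomial of a nonzero section. -/
theorem exists_norm
    (hF : ∀ j, IsSection u c (fun i => m j * e j i) (fun γ v => (A j).e γ v ^ m j) (F j))
    {d : ι → ℤ} {f : Γ → V → ℂ} {G : V → MvPolynomial (ι ⊕ Fin k) ℂ}
    (hG : IsCoverSection u c e A m d f G) (h0 : NonzeroOn S m F G) :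
    ∃ G' : V → MvPolynomial ι ℂ,
      IsSection u c (fun i => deg' m * d i) (fun γ v => f γ v ^ deg' m) G' ∧ ∃ v, G' v ≠ 0 := by
  obtain ⟨v, x, y, hx, hy, hG0⟩ := h0
  obtain ⟨α, hα, hα1, hα2⟩ := exists_cover_coef hG0
  have h1 := section_of_cover hG hF α ⟨v, hα⟩ (M := deg' m)
    (r := fun j => ∏ l ∈ Finset.univ.erase j, m l) (deg_eq m)
  refine ⟨_, h1, v, fun h => ?_⟩
  have h2 := congrArg (eval x) h
  rw [map_zero, map_mul, eval_monomial, Finsupp.prod_fintype _ _ fun i => pow_zero _,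
    map_prod] at h2
  revert h2
  refine mul_ne_zero (mul_ne_zero (pow_ne_zero _ hα)
    (Finset.prod_ne_zero_iff.2 fun i _ => ?_)) (Finset.prod_ne_zero_iff.2 fun j _ => ?_)
  · by_cases hi : x i = 0
    · rw [Finsupp.equivFunOnFinite_symm_apply_apply, hα1 i hi, mul_zero, pow_zero]
      exact one_ne_zero
    · exact pow_ne_zero _ hi
  · rw [map_pow]
    by_cases hj : y j = 0
    · rw [hα2 j hj, mul_zero, pow_zero]
      exact one_ne_zero
    · refine pow_ne_zero _ ?_
      rw [← hy j]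
      exact pow_ne_zero _ hj

omit [NormedAddCommGroup V] [NormedSpace ℂ V] in
/-- The pullback of a nonzero section is not zero. -/
theorem pull_nonzero (hS : IsSmoothFan u S) (hm : ∀ j, 1 ≤ m j) {G : V → MvPolynomial ι ℂ}
    {v : V} (h0 : G v ≠ 0) : NonzeroOn S m F fun v => rename Sum.inl (G v) := by
  classical
  obtain ⟨x, hx⟩ : ∃ x : ι → ℂ, eval x (G v * ∏ i, X i) ≠ 0 := by
    by_contra hcon
    push Not at hcon
    have h1 : (G v * ∏ i, X i : MvPolynomial ι ℂ) = 0 :=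
      MvPolynomial.funext fun x => by rw [hcon x, map_zero]
    exact mul_ne_zero h0 (Finset.prod_ne_zero_iff.2 fun i _ => X_ne_zero i) h1
  rw [map_mul, map_prod] at hx
  have hx2 : ∀ i, x i ≠ 0 := fun i => by
    have := Finset.prod_ne_zero_iff.1 (right_ne_zero_of_mul hx) i (Finset.mem_univ i)
    rwa [eval_X] at this
  choose y hy using fun j => IsAlgClosed.exists_pow_nat_eq (eval x (F j v))
    (lt_of_lt_of_le Nat.zero_lt_one (hm j))
  refine ⟨v, x, y, ?_, hy, ?_⟩
  · have : {i | x i = 0} = ∅ := by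
      ext i
      simp [hx2 i]
    rw [this]
    exact Q47.TB.IsSmoothFan.empty_mem hS
  · rw [eval_rename]
    exact left_ne_zero_of_mul hx

omit [NormedSpace ℂ V] [NormedAddCommGroup V] in
theorem frm_re_mul (Hc : ι → V → V → ℂ) (H : V → V → ℂ) (T q : ℕ) (β : ι → ℕ) (v : V) :
    (q : ℂ) * (((T : ℕ) : ℂ) * H v v) - ∑ i, (β i : ℂ) * Hc i v v
      = ((q * T : ℕ) : ℂ) * H v v - ∑ i, (β i : ℂ) * Hc i v v := by
  push_cast
  ring

variable [FiniteDimensional ℂ V]

/-- `κ (Y') ≥ 0` if and only if `K_{Y'}` is pseudo-effective, and a criterion. -/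
theorem kummer_psef (hΓ : IsTorusQuotient Γ) {ρ : V → ℂ} (hρ : IsRamification Γ ρ)
    (hS : IsSmoothFan u S) {Hc : ι → V → V → ℂ} (hc : ∀ i, IsChernForm (c i) (Hc i))
    (hm : ∀ j, 1 ≤ m j)
    (hF : ∀ j, IsSection u c (fun i => m j * e j i) (fun γ v => (A j).e γ v ^ m j) (F j))
    (hnc : GenNormalCrossing S F) {p : ℕ} {L : LineBundle Γ}
    (hL : IsCoverCanonical c A m p ρ L) {H : V → V → ℂ} (hH : IsChernForm L H) :
    (CoverPsef u S c e A m F (canClass e m p) L → ∃ q : ℕ, 1 ≤ q ∧ ∃ β : ι → ℕ,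
      LinEquiv u (fun i => (β i : ℤ)) (fun i => q * canClass e m p i) ∧
        IsNefForm fun v w => (q : ℂ) * H v w - ∑ i, (β i : ℂ) * Hc i v w) ∧
    ((∃ q : ℕ, 1 ≤ q ∧ ∃ β : ι → ℕ,
      LinEquiv u (fun i => (β i : ℤ)) (fun i => q * canClass e m p i) ∧
        IsNefForm fun v w => (q : ℂ) * H v w - ∑ i, (β i : ℂ) * Hc i v w) →
      CoverEffective u S c e A m F (canClass e m p) L) ∧
    (CoverEffective u S c e A m F (canClass e m p) L →
      CoverPsef u S c e A m F (canClass e m p) L) := by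
  have hT := deg_pos hm
  have h2 : (fun i => (deg' m : ℤ) * canClass e m p i)
      = fun i => totClass e m p i - ((p * deg' m : ℕ) : ℤ) :=
    funext fun i => (totClass_eq hm p i).symm
  refine ⟨?_, ?_, ?_⟩
  · rintro ⟨dB, LB, HB, hB, h⟩
    have h1 : Psef u c (fun i => totClass e m p i - ((p * deg' m : ℕ) : ℤ)) (L.pow (deg' m)) := by
      refine ⟨dB, LB, HB, hB, fun a ha => ?_⟩
      obtain ⟨j, hj, G, hG, hG0⟩ := h (a * deg' m) (Nat.mul_pos ha hT)
      obtain ⟨G', hG', hG0'⟩ := exists_norm hF hG hG0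
      refine ⟨j * deg' m, Nat.mul_pos hj hT, G', isSection_congr hG' (fun i => ?_)
        (fun γ v => ?_) fun v => rfl, hG0'⟩
      · simp only [totClass_eq hm]
        push_cast
        ring
      · change ((L.e γ v ^ (a * deg' m) * LB.e γ v) ^ j) ^ deg' m
          = ((L.e γ v ^ deg' m) ^ a * LB.e γ v) ^ (j * deg' m)
        rw [← pow_mul, ← pow_mul, mul_comm a]
    have h3 := eff_of_psef hΓ hρ hS hc (chern_pow' hH (deg' m)) (total_pair hF hL)
      (total_lc hS hF hnc p) h1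
    obtain ⟨q, hq, β, hβ, hn⟩ := nef_of_eff hΓ hc (chern_pow' hH (deg' m)) h3
    refine ⟨q * deg' m, Nat.mul_pos hq hT, β, ?_, fun v => ?_⟩
    · have h4 : (fun i => (q : ℤ) * (totClass e m p i - ((p * deg' m : ℕ) : ℤ)))
          = fun i => ((q * deg' m : ℕ) : ℤ) * canClass e m p i := by
        funext i
        rw [totClass_eq hm]
        push_cast
        ring
      rwa [h4] at hβ
    · have h5 := hn v
      rw [frm, frm_re_mul] at h5
      exact h5
  · rintro ⟨q, hq, β, ⟨r, hr⟩, hn⟩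
    have h3 : QEffective u c (fun i => totClass e m p i - ((p * deg' m : ℕ) : ℤ))
        (L.pow (deg' m)) := by
      refine eff_of_nef hΓ hρ hS hc (chern_pow' hH (deg' m)) (total_pair hF hL)
        (total_lc hS hF hnc p) hq (β := fun i => deg' m * β i) ⟨fun l => deg' m * r l,
          fun i => ?_⟩ fun v => ?_
      · have h1 : (β i : ℤ) = q * canClass e m p i + ∑ l, r l * u i l := hr i
        simp only
        rw [totClass_eq hm]
        push_cast
        rw [h1, mul_add, Finset.mul_sum]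
        have h2 : ∑ l, (deg' m : ℤ) * r l * u i l = ∑ l, (deg' m : ℤ) * (r l * u i l) :=
          Finset.sum_congr rfl fun l _ => by ring
        rw [h2]
        ring
      · have h3 : frm Hc (fun v w => ((deg' m : ℕ) : ℂ) * H v w) q (fun i => deg' m * β i) v v
            = ((deg' m : ℕ) : ℂ) * ((q : ℂ) * H v v - ∑ i, (β i : ℂ) * Hc i v v) := by
          rw [frm, mul_sub, Finset.mul_sum]
          congr 1
          · ring
          · exact Finset.sum_congr rfl fun i _ => by push_cast; ring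
        rw [h3, nat_re]
        exact mul_nonneg (Nat.cast_nonneg _) (hn v)
    obtain ⟨q', hq', G, hG, v, hv⟩ := h3
    refine ⟨q' * deg' m, Nat.mul_pos hq' hT, _, cover_of_section hm (isSection_congr hG
      (fun i => ?_) (fun γ v => ?_) fun v => rfl), pull_nonzero hS hm hv⟩
    · simp only [totClass_eq hm]
      push_cast
      ring
    · change (L.e γ v ^ deg' m) ^ q' = _
      rw [← pow_mul, mul_comm]
  · rintro ⟨q, hq, G, hG, hG0⟩
    -- pass to a section of a multiple which comes from `Y`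
    obtain ⟨G', hG', v, hv⟩ := exists_norm hF hG hG0
    let T : LineBundle Γ := ⟨fun _ _ => 1, fun _ => differentiable_const 1, fun _ _ => one_ne_zero,
      fun _ _ _ => (mul_one 1).symm, fun _ _ _ => rfl⟩
    have hT' : IsChernForm T fun _ _ => 0 := by
      refine ⟨⟨fun _ _ _ => (add_zero _).symm, fun _ _ _ => (mul_zero _).symm,
        fun _ _ => by simp⟩, fun _ => 0, differentiable_const 0, fun γ v => ?_⟩
      change ‖(1 : ℂ)‖ ^ 2 = _
      simp
    refine ⟨fun _ => 0, T, fun _ _ => 0, hT', fun a ha => ⟨q * deg' m, Nat.mul_pos hq hT, _,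
      cover_of_section hm (isSection_congr (isSection_pow hG' a) (fun i => ?_) (fun γ v => ?_)
        fun v => rfl), pull_nonzero hS hm (v := v) (pow_ne_zero a hv)⟩⟩
    · push_cast
      ring
    · change ((L.e γ v ^ q) ^ deg' m) ^ a = (L.e γ v ^ a * 1) ^ (q * deg' m)
      rw [mul_one, ← pow_mul, ← pow_mul, ← pow_mul]
      congr 1
      ring

/-- If `V → X` is unramified in codimension one then the class condition suffices. -/
theorem kummer_unram (hΓ : IsTorusQuotient Γ) {ρ : V → ℂ} (hρ : IsRamification Γ ρ)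
    (h0 : ∀ v, ρ v ≠ 0)
    (hS : IsSmoothFan u S) {Hc : ι → V → V → ℂ} (hc : ∀ i, IsChernForm (c i) (Hc i))
    (hm : ∀ j, 1 ≤ m j)
    (hF : ∀ j, IsSection u c (fun i => m j * e j i) (fun γ v => (A j).e γ v ^ m j) (F j))
    (hnc : GenNormalCrossing S F) {p : ℕ} {L : LineBundle Γ}
    (hL : IsCoverCanonical c A m p ρ L) {H : V → V → ℂ} (hH : IsChernForm L H)
    {q : ℕ} (hq : 1 ≤ q) {β : ι → ℕ}
    (hβ : LinEquiv u (fun i => (β i : ℤ)) (fun i => q * canClass e m p i)) :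
    IsNefForm fun v w => (q : ℂ) * H v w - ∑ i, (β i : ℂ) * Hc i v w := by
  intro v
  have hd := deg_pos hm
  have h1 : LinEquiv u (fun i => ((deg' m * β i : ℕ) : ℤ))
      (fun i => q * (totClass e m p i - ((p * deg' m : ℕ) : ℤ))) := by
    obtain ⟨r, hr⟩ := hβ
    refine ⟨fun l => deg' m * r l, fun i => ?_⟩
    have h1 : (β i : ℤ) = q * canClass e m p i + ∑ l, r l * u i l := hr i
    simp only
    rw [totClass_eq hm]
    push_cast
    rw [h1, mul_add, Finset.mul_sum]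
    have h2 : ∑ l, (deg' m : ℤ) * r l * u i l = ∑ l, (deg' m : ℤ) * (r l * u i l) :=
      Finset.sum_congr rfl fun l _ => by ring
    rw [h2]
    ring
  have h2 := frm_unram hΓ hρ h0 hS hc (chern_pow' hH (deg' m)) (total_pair hF hL)
      (total_lc hS hF hnc p) hq h1 v
  have h3 : frm Hc (fun v w => ((deg' m : ℕ) : ℂ) * H v w) q (fun i => deg' m * β i) v v
      = ((deg' m : ℕ) : ℂ) * ((q : ℂ) * H v v - ∑ i, (β i : ℂ) * Hc i v v) := by
    rw [frm, mul_sub, Finset.mul_sum]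
    congr 1
    · ring
    · exact Finset.sum_congr rfl fun i _ => by push_cast; ring
  rw [h3, nat_re] at h2
  have h4 : (0 : ℝ) < deg' m := by exact_mod_cast hd
  exact nonneg_of_mul_nonneg_right h2 h4

/-- The exponents of the sections on `Y'`. -/
theorem finite_cover (hS : IsSmoothFan u S) (d : ι → ℤ) :
    {α : (ι ⊕ Fin k) →₀ ℕ | (∀ j, α (Sum.inr j) < m j) ∧
      LinEquiv u (fun i => (α (Sum.inl i) : ℤ) + ∑ j, (α (Sum.inr j) : ℤ) * e j i) d}.Finite := by
  classical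
  let B : Set (Fin k → ℕ) := {b | ∀ j, b j < m j}
  have hB : B.Finite := (Set.finite_Icc (0 : Fin k → ℕ) m).subset fun b hb =>
    ⟨fun j => Nat.zero_le _, fun j => (hb j).le⟩
  have h1 : (⋃ b ∈ B, {α : ι →₀ ℕ | LinEquiv u (fun i => (α i : ℤ))
      fun i => d i - ∑ j, (b j : ℤ) * e j i} : Set (ι →₀ ℕ)).Finite :=
    hB.biUnion fun b _ => finite_class hS _
  have h2 := h1.prod hB
  refine (h2.preimage (f := fun α : (ι ⊕ Fin k) →₀ ℕ =>
    (Finsupp.equivFunOnFinite.symm fun i => α (Sum.inl i), fun j => α (Sum.inr j))) ?_).subset ?_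
  · intro α _ α' _ h
    ext i
    rcases i with i | j
    · have h3 := congrArg (fun z : (ι →₀ ℕ) × (Fin k → ℕ) => z.1 i) h
      simpa using h3
    · have h3 := congrArg (fun z : (ι →₀ ℕ) × (Fin k → ℕ) => z.2 j) h
      simpa using h3
  · rintro α ⟨hα1, r, hr⟩
    refine ⟨?_, hα1⟩
    rw [Set.mem_iUnion₂]
    refine ⟨fun j => α (Sum.inr j), hα1, r, fun i => ?_⟩
    have h3 : (α (Sum.inl i) : ℤ) + ∑ j, (α (Sum.inr j) : ℤ) * e j i = d i + ∑ l, r l * u i l :=
      hr i
    simp only [Finsupp.equivFunOnFinite_symm_apply_apply]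
    linarith

/-- Finitely many sections of one multiple of `K_{Y'}` compute the asymptotic orders of the sections
of `q K_{Y'} + B`, for all `B`. -/
theorem kummer_sigma (hΓ : IsTorusQuotient Γ) {ρ : V → ℂ} (hρ : IsRamification Γ ρ)
    (hS : IsSmoothFan u S) {Hc : ι → V → V → ℂ} (hc : ∀ i, IsChernForm (c i) (Hc i))
    (hm : ∀ j, 1 ≤ m j)
    (hF : ∀ j, IsSection u c (fun i => m j * e j i) (fun γ v => (A j).e γ v ^ m j) (F j))
    (hnc : GenNormalCrossing S F) {p : ℕ} {L : LineBundle Γ}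
    (hL : IsCoverCanonical c A m p ρ L) {H : V → V → ℂ} (hH : IsChernForm L H) :
    ∃ (M n0 : ℕ) (G : Fin n0 → V → MvPolynomial ι ℂ), 1 ≤ M ∧
      (∀ j, SecPow u c (canClass e m p) L M (G j)) ∧
      (CoverPsef u S c e A m F (canClass e m p) L → ∃ j v, G j v ≠ 0) ∧
      ∀ (dB : ι → ℤ) (LB : LineBundle Γ) (HB : V → V → ℂ), IsChernForm LB HB →
        ∃ (K0 : ℕ) (B : V × (ι → ℂ) → ℝ), Continuous B ∧
          ∀ (q : ℕ) (G' : V → MvPolynomial (ι ⊕ Fin k) ℂ),
            IsCoverSection u c e A m (fun i => q * canClass e m p i + dB i)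
              (fun γ v => L.e γ v ^ q * LB.e γ v) G' →
            ∃ C : ℝ, 0 ≤ C ∧ ∀ (v : V) (x : ι → ℂ) (y : Fin k → ℂ),
              (∀ j, y j ^ m j = eval x (F j v)) →
              ‖eval (Sum.elim x y) (G' v)‖ ^ M
                ≤ C * B (v, x) * (∑ j, ‖eval x (G j v)‖) ^ (q - K0) := by
  classical
  have hT := deg_pos hm
  obtain ⟨M1, n0, G, hM1, hG, hps, hA⟩ := sigma_sections hΓ hρ hS hc (chern_pow' hH (deg' m))
    (total_pair hF hL) (total_lc hS hF hnc p)
  refine ⟨deg' m * M1, n0, G, Nat.mul_pos hT hM1, fun j => isSection_congr (hG j)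
    (fun i => ?_) (fun γ v => ?_) fun v => rfl, fun hp => hps ?_, fun dB LB HB hB => ?_⟩
  · simp only [totClass_eq hm]
    push_cast
    ring
  · change (L.e γ v ^ deg' m) ^ M1 = _
    rw [← pow_mul]
  · obtain ⟨dB, LB, HB, hB, h⟩ := hp
    refine ⟨dB, LB, HB, hB, fun a ha => ?_⟩
    obtain ⟨j, hj, G, hG, hG0⟩ := h (a * deg' m) (Nat.mul_pos ha hT)
    obtain ⟨G', hG', hG0'⟩ := exists_norm hF hG hG0
    refine ⟨j * deg' m, Nat.mul_pos hj hT, G', isSection_congr hG' (fun i => ?_)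
      (fun γ v => ?_) fun v => rfl, hG0'⟩
    · simp only [totClass_eq hm]
      push_cast
      ring
    · change ((L.e γ v ^ (a * deg' m) * LB.e γ v) ^ j) ^ deg' m
        = ((L.e γ v ^ deg' m) ^ a * LB.e γ v) ^ (j * deg' m)
      rw [← pow_mul, ← pow_mul, mul_comm a]
  obtain ⟨K0, B, hBc, hB'⟩ := hA (fun i => deg' m * dB i) (LB.pow (deg' m)) _
    (chern_pow' hB (deg' m))
  refine ⟨K0, B, hBc, fun q G' hG' => ?_⟩
  have hone : ∀ α : (ι ⊕ Fin k) →₀ ℕ, ∃ D : ℝ, 0 ≤ D ∧ ∀ (v : V) (x : ι → ℂ) (y : Fin k → ℂ),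
      (∀ j, y j ^ m j = eval x (F j v)) →
      (‖coeff α (G' v)‖ * ((∏ i, ‖x i‖ ^ α (Sum.inl i)) * ∏ j, ‖y j‖ ^ α (Sum.inr j)))
        ^ (deg' m * M1)
        ≤ D * B (v, x) * (∑ j, ‖eval x (G j v)‖) ^ (q - K0) := by
    intro α
    by_cases hα : ∃ v, coeff α (G' v) ≠ 0
    · have h1 := section_of_cover hG' hF α hα (M := deg' m)
        (r := fun j => ∏ l ∈ Finset.univ.erase j, m l) (deg_eq m)
      obtain ⟨D, hD, hb⟩ := hB' q _ (isSection_congr h1 (fun i => by
          rw [totClass_eq hm]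
          ring) (fun γ v => by
          change (L.e γ v ^ q * LB.e γ v) ^ deg' m = (L.e γ v ^ deg' m) ^ q * LB.e γ v ^ deg' m
          rw [mul_pow, ← pow_mul, ← pow_mul, mul_comm q]) fun v => rfl)
      refine ⟨D, hD, fun v x y hy => ?_⟩
      refine le_trans (le_of_eq ?_) (hb v x)
      rw [pow_mul, map_mul, map_prod, norm_mul, norm_prod]
      congr 1
      have h2 : ‖eval x (monomial (Finsupp.equivFunOnFinite.symm fun i => deg' m * α (Sum.inl i))
          (coeff α (G' v) ^ deg' m))‖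
          = (‖coeff α (G' v)‖ * ∏ i, ‖x i‖ ^ α (Sum.inl i)) ^ deg' m := by
        rw [norm_eval_monomial, norm_pow, mul_pow, ← Finset.prod_pow]
        congr 1
        exact Finset.prod_congr rfl fun i _ => by rw [← pow_mul, mul_comm]
      have h3 : ∏ j, ‖eval x (F j v ^ ((∏ l ∈ Finset.univ.erase j, m l) * α (Sum.inr j)))‖
          = (∏ j, ‖y j‖ ^ α (Sum.inr j)) ^ deg' m := by
        rw [← Finset.prod_pow]
        refine Finset.prod_congr rfl fun j _ => ?_
        rw [map_pow, norm_pow, ← hy j, norm_pow, ← pow_mul, ← pow_mul, deg_eq m j]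
        congr 1
        ring
      rw [h2, h3, ← mul_pow, mul_assoc]
    · push Not at hα
      refine ⟨0, le_rfl, fun v x y _ => ?_⟩
      rw [hα v, norm_zero, zero_mul, zero_mul, zero_mul,
        zero_pow (Nat.one_le_iff_ne_zero.1 (Nat.mul_pos hT hM1))]
  choose D hD0 hD using hone
  let P : Finset ((ι ⊕ Fin k) →₀ ℕ) := (finite_cover (m := m) (e := e) hS
    fun i => (q : ℤ) * canClass e m p i + dB i).toFinset
  refine ⟨(P.card : ℝ) ^ (deg' m * M1) * ∑ α ∈ P, D α, mul_nonneg (by positivity)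
    (Finset.sum_nonneg fun α _ => hD0 α), fun v x y hy => ?_⟩
  have h1 : ‖eval (Sum.elim x y) (G' v)‖ ≤ ∑ α ∈ P, ‖coeff α (G' v)‖ *
      ((∏ i, ‖x i‖ ^ α (Sum.inl i)) * ∏ j, ‖y j‖ ^ α (Sum.inr j)) := by
    rw [eval_eq']
    refine (norm_sum_le _ _).trans ?_
    have h2 : (G' v).support ⊆ P := fun α hα => by
      simp only [P, Set.Finite.mem_toFinset]
      exact ⟨fun j => hG'.red v α hα j, hG'.deg v α hα⟩
    refine le_trans (le_of_eq (Finset.sum_congr rfl fun α _ => ?_))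
      (Finset.sum_le_sum_of_subset_of_nonneg h2 fun α _ _ => mul_nonneg (norm_nonneg _)
        (mul_nonneg (Finset.prod_nonneg fun i _ => pow_nonneg (norm_nonneg _) _)
          (Finset.prod_nonneg fun i _ => pow_nonneg (norm_nonneg _) _)))
    rw [norm_mul, norm_prod, Fintype.prod_sum_type]
    simp only [norm_pow, Sum.elim_inl, Sum.elim_inr]
  have hnn : ∀ α : (ι ⊕ Fin k) →₀ ℕ, 0 ≤ ‖coeff α (G' v)‖ *
      ((∏ i, ‖x i‖ ^ α (Sum.inl i)) * ∏ j, ‖y j‖ ^ α (Sum.inr j)) := fun α =>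
    mul_nonneg (norm_nonneg _)
        (mul_nonneg (Finset.prod_nonneg fun i _ => pow_nonneg (norm_nonneg _) _)
          (Finset.prod_nonneg fun i _ => pow_nonneg (norm_nonneg _) _))
  calc ‖eval (Sum.elim x y) (G' v)‖ ^ (deg' m * M1)
      ≤ (∑ α ∈ P, ‖coeff α (G' v)‖ *
        ((∏ i, ‖x i‖ ^ α (Sum.inl i)) * ∏ j, ‖y j‖ ^ α (Sum.inr j))) ^ (deg' m * M1) :=
        pow_le_pow_left₀ (norm_nonneg _) h1 _
    _ ≤ (P.card : ℝ) ^ (deg' m * M1) * ∑ α ∈ P, (‖coeff α (G' v)‖ *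
        ((∏ i, ‖x i‖ ^ α (Sum.inl i)) * ∏ j, ‖y j‖ ^ α (Sum.inr j))) ^ (deg' m * M1) :=
        sum_pow_le P _ hnn (Nat.mul_pos hT hM1)
    _ ≤ (P.card : ℝ) ^ (deg' m * M1) * ∑ α ∈ P,
          D α * B (v, x) * (∑ j, ‖eval x (G j v)‖) ^ (q - K0) :=
        mul_le_mul_of_nonneg_left (Finset.sum_le_sum fun α _ => hD α v x y hy) (by positivity)
    _ = _ := by
        rw [← Finset.sum_mul, ← Finset.sum_mul]
        ring

end Pool.Agent.U976.TBd
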