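import Pool.Agent.U976.TBd.GA4
import Pool.Agent.U976.TBd.K3
import Pool.Agent.R893.TQ.Semi

/-!
# Generalised abundance for Kummer covers of toric bundles over torus quotients
-/

set_option autoImplicit false

namespace Pool.Agent.U976.TBd

open Pool.Agent.W594.SYZ2 Pool.Agent.W594.SYZ2.TQ Pool.Agent.TH735.AQ Q47.MM Q47.TB Q47.EB
open MvPolynomial

variable {V : Type*} [NormedAddCommGroup V] [NormedSpace ℂ V]
  {Γ : Subgroup (V ≃ᵃ[ℂ] V)} {ι : Type*} [Fintype ι] {n : ℕ}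
  {u : ι → Fin n → ℤ} {S : Set (Set ι)} {c : ι → LineBundle Γ}

omit [Fintype ι] in
/-- Twists by torsion line bundles. -/
theorem semiample_of_twist {D : ι → ℤ} {L R : LineBundle Γ} {a : ℕ} (ha : 1 ≤ a)
    (hR : (R.pow a).IsTrivial) (h : Semiample u S c D (tensor L R)) : Semiample u S c D L := by
  obtain ⟨k, hk, h⟩ := h
  obtain ⟨h0, ⟨hh, heq⟩, hne⟩ := hR
  refine ⟨k * a, Nat.mul_pos hk ha, fun v x hx => ?_⟩
  obtain ⟨G, hG, hG0⟩ := h v x hx
  have hGa := isSection_pow hG a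
  have heq' : ∀ (γ : Γ) (v : V), h0 ((γ : V ≃ᵃ[ℂ] V) v) = R.e γ v ^ a * h0 v := heq
  refine ⟨fun v => C ((h0 v ^ k)⁻¹) * G v ^ a, ⟨fun α => ?_, fun v α hα => ?_, fun γ v x => ?_⟩, ?_⟩
  · simp only [coeff_C_mul]
    exact ((hh.pow k).inv fun v => pow_ne_zero _ (hne v)).mul (hGa.holo α)
  · have h1 : α ∈ (G v ^ a).support := by
      rw [mem_support_iff, coeff_C_mul] at hα
      exact mem_support_iff.2 (right_ne_zero_of_mul hα)
    obtain ⟨q, hq⟩ := hGa.deg v α h1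
    refine ⟨q, fun i => ?_⟩
    have h2 := hq i
    simp only at h2 ⊢
    rw [h2]
    push_cast
    ring
  · rw [map_mul, map_mul, eval_C, eval_C]
    have h1 := hGa.eq γ v x
    change _ = ((L.e γ v * R.e γ v) ^ k) ^ a * _ at h1
    rw [h1, heq']
    have h3 := pow_ne_zero k (hne v)
    have h2 : (R.e γ v ^ a) ^ k ≠ 0 := pow_ne_zero _ (pow_ne_zero _ (R.ne_zero γ v))
    have h4 : ((L.e γ v * R.e γ v) ^ k) ^ a = L.e γ v ^ (k * a) * (R.e γ v ^ a) ^ k := by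
      rw [← pow_mul, mul_pow, ← pow_mul, mul_comm a k]
    rw [h4, mul_pow]
    field_simp
  · change eval x (C ((h0 v ^ k)⁻¹) * G v ^ a) ≠ 0
    rw [map_mul, eval_C, map_pow]
    exact mul_ne_zero (inv_ne_zero (pow_ne_zero _ (hne v))) (pow_ne_zero _ hG0)

/-- Numerically semiample line bundles are nef. -/
theorem nef_of_numsemi [FiniteDimensional ℂ V] (hΓ : IsTorusQuotient Γ) {Hc : ι → V → V → ℂ}
    (hc : ∀ i, IsChernForm (c i) (Hc i)) {D : ι → ℤ} {L : LineBundle Γ} {H : V → V → ℂ}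
    (hL : IsChernForm L H) {N : ℕ} (hN : 1 ≤ N) {R : LineBundle Γ} (hR : IsFlat R)
    (h : Semiample u S c (fun i => N * D i) (tensor (L.pow N) R)) : Nef u S Hc D H := by
  have h1 := nef_of_semiample hΓ hc (chern_tensor hL hR N) h
  intro σ hσ
  obtain ⟨k, hk, β, hβ0, ⟨q, hq⟩, hn⟩ := h1 σ hσ
  refine ⟨k * N, Nat.mul_pos hk hN, β, hβ0, ⟨q, fun i => ?_⟩, fun v => ?_⟩
  · have h2 := hq i
    simp only at h2 ⊢
    rw [h2]
    push_cast
    ring
  · have h2 := hn v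
    change 0 ≤ (((k * N : ℕ) : ℂ) * H v v - ∑ i, (β i : ℂ) * Hc i v v).re
    have h3 : (((k * N : ℕ) : ℂ) * H v v - ∑ i, (β i : ℂ) * Hc i v v)
        = (k : ℂ) * ((N : ℂ) * H v v) - ∑ i, (β i : ℂ) * Hc i v v := by
      push_cast
      ring
    rw [h3]
    exact h2

omit [Fintype ι] in
/-- If `H^1(X, O_X) = 0`, numerically semiample line bundles are semiample. -/
theorem semiample_of_numsemi [FiniteDimensional ℂ V] (hΓ : IsTorusQuotient Γ)
    (h01 : HOneZero Γ) {D : ι → ℤ} {L : LineBundle Γ} {N : ℕ} (hN : 1 ≤ N) {R : LineBundle Γ}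
    (hR : IsFlat R) (h : Semiample u S c (fun i => N * D i) (tensor (L.pow N) R)) :
    Semiample u S c D L := by
  obtain ⟨a, ha, hRa⟩ := Pool.Agent.R893.TQ.torsion hΓ h01 (chern_of_flat hR)
  exact semiample_of_pow hN (semiample_of_twist ha hRa h)

/-- Generalised abundance for klt pairs on toric bundles. -/
theorem gen_pairs [FiniteDimensional ℂ V] (hΓ : IsTorusQuotient Γ) {ρ : V → ℂ}
    (hρ : IsRamification Γ ρ) (hS : IsSmoothFan u S) {Hc : ι → V → V → ℂ}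
    (hc : ∀ i, IsChernForm (c i) (Hc i))
    {m : ℕ} {d : ι → ℤ} {F : V → MvPolynomial ι ℂ} {L₀ : LineBundle Γ} {H₀ : V → V → ℂ}
    (hL₀ : IsChernForm L₀ H₀)
    (hF : Q47.TB.IsLogPluricanonical u c m ρ d F L₀) (hw : ToricKlt S m F)
    (hp : Psef u c (fun i => d i - m) L₀)
    {D : ι → ℤ} {L : LineBundle Γ} {H : V → V → ℂ} (hL : IsChernForm L H)
    (hDn : Nef u S Hc D H) {t : ℕ}
    (hn : Nef u S Hc (fun i => t * D i - (d i - m)) (fun v w => t * H v w - H₀ v w)) :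
    ∃ (N : ℕ) (R : LineBundle Γ), 1 ≤ N ∧ IsFlat R ∧
      Semiample u S c (fun i => N * D i) (tensor (L.pow N) R) := by
  obtain ⟨kp, hkp, b0, hb0, -⟩ := nef_of_eff hΓ hc hL₀
    (eff_of_psef hΓ hρ hS hc hL₀ hF hw.lc hp)
  exact gen_abundance hΓ hρ hS hc hL₀ hF hw hkp hb0 hL hDn hn

section Kummer

variable {k : ℕ} {e : Fin k → ι → ℤ} {A : Fin k → LineBundle Γ} {m : Fin k → ℕ}
  {F : Fin k → V → MvPolynomial ι ℂ}

theorem total_klt (hS : IsSmoothFan u S) (hm : ∀ j, 1 ≤ m j)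
    (hF : ∀ j, IsSection u c (fun i => m j * e j i) (fun γ v => (A j).e γ v ^ m j) (F j))
    (hnc : GenNormalCrossing S F) {p : ℕ} (hp : 1 ≤ p) :
    ToricKlt S (p * deg' m) (fun v => ∏ j, F j v ^ wt' m p j) := by
  have hpd : 1 ≤ p * deg' m := Nat.mul_pos hp (deg_pos hm)
  have hle : ∀ j, wt' m p j ≤ p * deg' m - 1 := by
    intro j
    have h1 : wt' m p j + p * (∏ l ∈ Finset.univ.erase j, m l) = p * deg' m := by
      rw [wt', deg_eq m j]
      obtain ⟨a, ha⟩ : ∃ a, m j = a + 1 := ⟨m j - 1, by have := hm j; omega⟩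
      rw [ha, Nat.add_sub_cancel]
      ring
    have h2 : 1 ≤ p * (∏ l ∈ Finset.univ.erase j, m l) :=
      Nat.mul_pos hp (Finset.one_le_prod' fun l _ => hm l)
    omega
  refine ⟨1, le_rfl, fun a ha => ?_⟩
  obtain ⟨α, hα, h1⟩ := toricLC_of_nc hS hF hnc hle a ha
  refine ⟨α, hα, ?_⟩
  rw [one_mul, one_mul]
  obtain ⟨x, hx⟩ : ∃ x, p * deg' m = x + 1 := ⟨p * deg' m - 1, by omega⟩
  rw [hx, Nat.add_sub_cancel] at h1
  rw [hx]
  calc ∑ i, a i * α i + ∑ i, a i ≤ x * ∑ i, a i + ∑ i, a i := Nat.add_le_add_right h1 _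
    _ = _ := by ring

/-- Generalised abundance for Kummer covers. -/
theorem gen_kummer [FiniteDimensional ℂ V] (hΓ : IsTorusQuotient Γ) {ρ : V → ℂ}
    (hρ : IsRamification Γ ρ)
    (hS : IsSmoothFan u S) {Hc : ι → V → V → ℂ} (hc : ∀ i, IsChernForm (c i) (Hc i))
    (hm : ∀ j, 1 ≤ m j)
    (hF : ∀ j, IsSection u c (fun i => m j * e j i) (fun γ v => (A j).e γ v ^ m j) (F j))
    (hnc : GenNormalCrossing S F) {p : ℕ} (hp : 1 ≤ p) {L₀ : LineBundle Γ}
    (hL₀ : IsCoverCanonical c A m p ρ L₀) {H₀ : V → V → ℂ} (hH₀ : IsChernForm L₀ H₀)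
    (hpsef : CoverPsef u S c e A m F (canClass e m p) L₀)
    {D : ι → ℤ} {L : LineBundle Γ} {H : V → V → ℂ} (hL : IsChernForm L H)
    (hDn : Nef u S Hc D H) {t : ℕ}
    (hn : Nef u S Hc (fun i => t * D i - canClass e m p i) (fun v w => t * H v w - H₀ v w)) :
    ∃ (N : ℕ) (R : LineBundle Γ), 1 ≤ N ∧ IsFlat R ∧
      CoverSemiample u S c e A m F (fun i => N * D i) (tensor (L.pow N) R) := by
  obtain ⟨q, hq, β, ⟨r, hr⟩, -⟩ := (kummer_psef hΓ hρ hS hc hm hF hnc hL₀ hH₀).1 hpsef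
  have hb0 : LinEquiv u (fun i => ((deg' m * β i : ℕ) : ℤ))
      (fun i => q * (totClass e m p i - ((p * deg' m : ℕ) : ℤ))) := by
    refine ⟨fun l => deg' m * r l, fun i => ?_⟩
    have h1 : (β i : ℤ) = q * canClass e m p i + ∑ l, r l * u i l := hr i
    simp only
    rw [totClass_eq hm]
    push_cast
    rw [h1, mul_add, Finset.mul_sum]
    have h2 : ∑ l, (deg' m : ℤ) * r l * u i l = ∑ l, (deg' m : ℤ) * (r l * u i l) :=
      Finset.sum_congr rfl fun l _ => by ring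
    rw [h2]
    ring
  have h1 := nef_mul hn (deg' m)
  have h2 : (fun i => (deg' m : ℤ) * (t * D i - canClass e m p i))
      = fun i => ((deg' m * t : ℕ) : ℤ) * D i - (totClass e m p i - ((p * deg' m : ℕ) : ℤ)) := by
    funext i
    rw [totClass_eq hm]
    push_cast
    ring
  have h3 : (fun v w => ((deg' m : ℕ) : ℂ) * ((t : ℂ) * H v w - H₀ v w))
      = fun v w => ((deg' m * t : ℕ) : ℂ) * H v w - ((deg' m : ℕ) : ℂ) * H₀ v w := by
    funext v w
    push_cast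
    ring
  rw [h2, h3] at h1
  obtain ⟨N, R, hN, hR, hs⟩ := gen_abundance hΓ hρ hS hc (chern_pow' hH₀ (deg' m))
    (total_pair hF hL₀) (total_klt hS hm hF hnc hp) hq hb0 hL hDn h1
  exact ⟨N, R, hN, hR, (cover_semiample_iff hF hm _ _).2 hs⟩

end Kummer

end Pool.Agent.U976.TBd
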