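import Pool.Agent.U976.TBd.K1

/-!
# Numerically semiample line bundles on Kummer covers of toric bundles
-/

set_option autoImplicit false

namespace Pool.Agent.U976.TBd

open Pool.Agent.W594.SYZ2 Pool.Agent.TH735.AQ MvPolynomial

variable {V : Type*} [NormedAddCommGroup V] [NormedSpace ℂ V]
  {Γ : Subgroup (V ≃ᵃ[ℂ] V)} {ι : Type*} [Fintype ι] {n : ℕ}

/-- The pullback `M` of `O_Y(D; L)` to `Y'` is numerically semiample: for some `N ≥ 1` and some flat
line bundle `R` on `X` (given by a unitary character of `Γ`) some positive power of `M ^ N ⊗ R` is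
generated by its global sections on `Y'`. -/
def CoverNumSemiample (u : ι → Fin n → ℤ) (S : Set (Set ι)) (c : ι → LineBundle Γ) {k : ℕ}
    (e : Fin k → ι → ℤ) (A : Fin k → LineBundle Γ) (m : Fin k → ℕ)
    (F : Fin k → V → MvPolynomial ι ℂ) (D : ι → ℤ) (L : LineBundle Γ) : Prop :=
  ∃ (N q : ℕ) (R : LineBundle Γ), 1 ≤ N ∧ 1 ≤ q ∧ IsFlat R ∧
    ∀ (v : V) (x : ι → ℂ) (y : Fin k → ℂ), {i | x i = 0} ∈ S →
      (∀ j, y j ^ m j = eval x (F j v)) →
      ∃ G, IsCoverSection u c e A m (fun i => q * (N * D i))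
        (fun γ v => (L.e γ v ^ N * R.e γ v) ^ q) G ∧ eval (Sum.elim x y) (G v) ≠ 0

end Pool.Agent.U976.TBd
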