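import Pool.Agent.U976.TBd.GA5
import Pool.Agent.U976.TBd.GADefs

/-!
# Nef line bundles on Kummer covers with numerically trivial canonical bundle
-/

set_option autoImplicit false

namespace Pool.Agent.U976.TBd

open Pool.Agent.W594.SYZ2 Pool.Agent.W594.SYZ2.TQ Pool.Agent.TH735.AQ Q47.MM Q47.TB Q47.EB
open MvPolynomial

variable {V : Type*} [NormedAddCommGroup V] [NormedSpace ℂ V]
  {Γ : Subgroup (V ≃ᵃ[ℂ] V)} {ι : Type*} [Fintype ι] {n : ℕ}
  {u : ι → Fin n → ℤ} {S : Set (Set ι)} {c : ι → LineBundle Γ}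

omit [NormedAddCommGroup V] [NormedSpace ℂ V] in
/-- Sums of nef classes. -/
theorem nef_add {Hc : ι → V → V → ℂ} {D D' : ι → ℤ} {H H' : V → V → ℂ}
    (h : Nef u S Hc D H) (h' : Nef u S Hc D' H') :
    Nef u S Hc (fun i => D i + D' i) fun v w => H v w + H' v w := by
  intro σ hσ
  obtain ⟨q, hq, β, hβ0, ⟨r, hr⟩, hf⟩ := h σ hσ
  obtain ⟨q', hq', β', hβ0', ⟨r', hr'⟩, hf'⟩ := h' σ hσ
  refine ⟨q * q', Nat.mul_pos hq hq', fun i => q' * β i + q * β' i, fun i hi => by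
    simp only [hβ0 i hi, hβ0' i hi, mul_zero, add_zero], ⟨fun l => q' * r l + q * r' l,
    fun i => ?_⟩, fun v => ?_⟩
  · have h1 : (β i : ℤ) = q * D i + ∑ l, r l * u i l := hr i
    have h2 : (β' i : ℤ) = q' * D' i + ∑ l, r' l * u i l := hr' i
    simp only
    push_cast
    have h3 : ∑ l, ((q' : ℤ) * r l + q * r' l) * u i l
        = q' * ∑ l, r l * u i l + q * ∑ l, r' l * u i l := by
      rw [Finset.mul_sum, Finset.mul_sum, ← Finset.sum_add_distrib]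
      exact Finset.sum_congr rfl fun l _ => by ring
    rw [h1, h2, h3]
    ring
  · have h1 : ((q * q' : ℕ) : ℂ) * (H v v + H' v v)
        - ∑ i, ((q' * β i + q * β' i : ℕ) : ℂ) * Hc i v v
        = (q' : ℂ) * ((q : ℂ) * H v v - ∑ i, (β i : ℂ) * Hc i v v)
          + (q : ℂ) * ((q' : ℂ) * H' v v - ∑ i, (β' i : ℂ) * Hc i v v) := by
      rw [mul_sub, mul_sub, Finset.mul_sum, Finset.mul_sum]
      have h2 : ∑ i, ((q' * β i + q * β' i : ℕ) : ℂ) * Hc i v v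
          = ∑ i, (q' : ℂ) * ((β i : ℂ) * Hc i v v) + ∑ i, (q : ℂ) * ((β' i : ℂ) * Hc i v v) := by
        rw [← Finset.sum_add_distrib]
        exact Finset.sum_congr rfl fun i _ => by push_cast; ring
      rw [h2]
      push_cast
      ring
    change 0 ≤ (((q * q' : ℕ) : ℂ) * (H v v + H' v v)
        - ∑ i, ((q' * β i + q * β' i : ℕ) : ℂ) * Hc i v v).re
    rw [h1, Complex.add_re, nat_re, nat_re]
    exact add_nonneg (mul_nonneg (Nat.cast_nonneg _) (hf v)) (mul_nonneg (Nat.cast_nonneg _)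
      (hf' v))

/-- If `H^1(X, O_X) = 0` then all nef line bundles on `Y` are semiample. -/
theorem semiample_of_hone [FiniteDimensional ℂ V] (hΓ : IsTorusQuotient Γ) (h01 : HOneZero Γ)
    {Hc : ι → V → V → ℂ} (hc : ∀ i, IsChernForm (c i) (Hc i)) {D : ι → ℤ} {L : LineBundle Γ}
    {H : V → V → ℂ} (hL : IsChernForm L H) (hn : Nef u S Hc D H) : Semiample u S c D L := by
  refine semiample_of_gg fun σ hσ => ?_
  obtain ⟨k, hk, β, hβ0, hβ, hf⟩ := hn σ hσ
  refine ⟨k, hk, β, hβ0, hβ, expo (Module.finrank ℂ V), expo_pos _, ?_⟩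
  obtain ⟨hH, F, hF, hFe⟩ := chern_frm hL hc 1 k β
  refine gg_of_hone hΓ h01 hH ⟨hF, hFe⟩ fun v => ?_
  rw [nat_re]
  exact mul_nonneg (Nat.cast_nonneg _) (hf v)

section Kummer

variable {k : ℕ} {e : Fin k → ι → ℤ} {A : Fin k → LineBundle Γ} {m : Fin k → ℕ}
  {F : Fin k → V → MvPolynomial ι ℂ}

omit [Fintype ι] in
theorem numsemi_iff {D : ι → ℤ} {L : LineBundle Γ} : CoverNumSemiample u S c e A m F D L ↔
    ∃ (N : ℕ) (R : LineBundle Γ), 1 ≤ N ∧
      IsFlat R ∧ CoverSemiample u S c e A m F (fun i => N * D i) (tensor (L.pow N) R) :=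
  ⟨fun ⟨N, q, R, hN, hq, hR, h⟩ => ⟨N, R, hN, hR, q, hq, h⟩,
    fun ⟨N, R, hN, hR, q, hq, h⟩ => ⟨N, q, R, hN, hq, hR, h⟩⟩

/-- Nef line bundles on Kummer covers with numerically trivial canonical bundle. -/
theorem kummer_cy [FiniteDimensional ℂ V] (hΓ : IsTorusQuotient Γ) {ρ : V → ℂ}
    (hρ : IsRamification Γ ρ)
    (hS : IsSmoothFan u S) {Hc : ι → V → V → ℂ} (hc : ∀ i, IsChernForm (c i) (Hc i))
    (hm : ∀ j, 1 ≤ m j)
    (hF : ∀ j, IsSection u c (fun i => m j * e j i) (fun γ v => (A j).e γ v ^ m j) (F j))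
    (hnc : GenNormalCrossing S F) {p : ℕ} (hp : 1 ≤ p) {L₀ : LineBundle Γ}
    (hL₀ : IsCoverCanonical c A m p ρ L₀) {H₀ : V → V → ℂ} (hH₀ : IsChernForm L₀ H₀)
    (hn : Nef u S Hc (canClass e m p) H₀)
    (hn' : Nef u S Hc (fun i => -canClass e m p i) fun v w => -H₀ v w)
    {D : ι → ℤ} {L : LineBundle Γ} {H : V → V → ℂ} (hL : IsChernForm L H) :
    (Nef u S Hc D H ↔ CoverNumSemiample u S c e A m F D L) ∧
    (HOneZero Γ → (Nef u S Hc D H ↔ CoverSemiample u S c e A m F D L)) := by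
  have hpsef : CoverPsef u S c e A m F (canClass e m p) L₀ := by
    obtain ⟨-, h2, h3⟩ := kummer_psef hΓ hρ hS hc hm hF hnc hL₀ hH₀
    obtain ⟨q, hq, β, -, hβ, hf⟩ := hn ∅ hS.empty_mem
    exact h3 (h2 ⟨q, hq, β, hβ, hf⟩)
  have hadj : Nef u S Hc D H → Nef u S Hc (fun i => ((1 : ℕ) : ℤ) * D i - canClass e m p i)
      fun v w => ((1 : ℕ) : ℂ) * H v w - H₀ v w := by
    intro h
    have h1 := nef_add h hn'
    have e1 : (fun i => D i + -canClass e m p i)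
        = fun i => ((1 : ℕ) : ℤ) * D i - canClass e m p i := by
      funext i
      push_cast
      ring
    have e2 : (fun v w => H v w + -H₀ v w) = fun v w => ((1 : ℕ) : ℂ) * H v w - H₀ v w := by
      funext v w
      push_cast
      ring
    rwa [e1, e2] at h1
  rw [numsemi_iff]
  refine ⟨⟨fun h => gen_kummer hΓ hρ hS hc hm hF hnc hp hL₀ hH₀ hpsef hL h (hadj h), ?_⟩,
    fun h01 => ⟨fun h => ?_, fun h => ?_⟩⟩
  · rintro ⟨N, R, hN, hR, h⟩
    exact nef_of_numsemi hΓ hc hL hN hR ((cover_semiample_iff hF hm _ _).1 h)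
  · obtain ⟨N, R, hN, hR, h1⟩ := gen_kummer hΓ hρ hS hc hm hF hnc hp hL₀ hH₀ hpsef hL h (hadj h)
    exact (cover_semiample_iff hF hm _ _).2
      (semiample_of_numsemi hΓ h01 hN hR ((cover_semiample_iff hF hm _ _).1 h1))
  · exact nef_of_semiample hΓ hc hL ((cover_semiample_iff hF hm _ _).1 h)

end Kummer

end Pool.Agent.U976.TBd
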