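import Pool.Agent.U976.TBd.CU5
import Pool.Agent.H575R2.Farkas

/-!
# Dual certificates: classes of Gauduchon metrics on toric bundles
-/

set_option autoImplicit false

namespace Pool.Agent.U976.TBd

open Q47.TB Filter Topology

section Poly

variable {ι : Type*} [Fintype ι] {n : ℕ}

/-- Infeasible systems of linear inequalities on the polytope have finite infeasible subsystems. -/
theorem finite_infeasible {u : ι → Fin n → ℤ} {S : Set (Set ι)} (hS : IsSmoothFan u S) (D : ι → ℝ)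
    {W : Type*} (h : W → ι → ℝ) (hL : W → ℝ)
    (hno : ¬ ∃ q : Fin n → ℝ, (∀ i, 0 ≤ D i + ∑ l, q l * (u i l : ℝ)) ∧
      ∀ w, ∑ i, (D i + ∑ l, q l * (u i l : ℝ)) * h w i ≤ hL w) :
    ∃ T : Finset W, ¬ ∃ q : Fin n → ℝ, (∀ i, 0 ≤ D i + ∑ l, q l * (u i l : ℝ)) ∧
      ∀ w ∈ T, ∑ i, (D i + ∑ l, q l * (u i l : ℝ)) * h w i ≤ hL w := by
  classical
  obtain ⟨C, hC, hb⟩ := real_bound hS
  obtain ⟨B, hB0, hB⟩ : ∃ B : ℝ, 0 ≤ B ∧ ∀ i, |D i| ≤ B :=
    ⟨∑ i, |D i|, Finset.sum_nonneg fun i _ => abs_nonneg _, fun i =>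
      Finset.single_le_sum (f := fun i => |D i|) (fun i _ => abs_nonneg _) (Finset.mem_univ i)⟩
  have hcont : ∀ i, Continuous fun q : Fin n → ℝ => D i + ∑ l, q l * (u i l : ℝ) := fun i => by
    fun_prop
  let K : Set (Fin n → ℝ) := {q | ∀ i, 0 ≤ D i + ∑ l, q l * (u i l : ℝ)}
  have hKc : IsCompact K := by
    refine (isCompact_closedBall (0 : Fin n → ℝ) (C * B)).of_isClosed_subset ?_ ?_
    · have : K = ⋂ i, {q : Fin n → ℝ | 0 ≤ D i + ∑ l, q l * (u i l : ℝ)} := by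
        ext q
        simp [K]
      rw [this]
      exact isClosed_iInter fun i => isClosed_le continuous_const (hcont i)
    · intro q hq
      rw [mem_closedBall_zero_iff, pi_norm_le_iff_of_nonneg (by positivity)]
      intro l
      rw [Real.norm_eq_abs]
      refine hb q B hB0 (fun i => ?_) l
      have h1 := hq i
      have h2 := hB i
      have h3 := le_abs_self (D i)
      linarith
  obtain ⟨T, hT⟩ := hKc.elim_finite_subfamily_closed
    (fun w => {q : Fin n → ℝ | ∑ i, (D i + ∑ l, q l * (u i l : ℝ)) * h w i ≤ hL w})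
    (fun w => isClosed_le (continuous_finsetSum _ fun i _ => (hcont i).mul_const _)
      continuous_const)
    (by
      rw [Set.eq_empty_iff_forall_notMem]
      rintro q ⟨hq1, hq2⟩
      rw [Set.mem_iInter] at hq2
      exact hno ⟨q, hq1, hq2⟩)
  refine ⟨T, ?_⟩
  rintro ⟨q, hq1, hq2⟩
  have : q ∈ K ∩ ⋂ w ∈ T, {q : Fin n → ℝ | ∑ i, (D i + ∑ l, q l * (u i l : ℝ)) * h w i ≤ hL w} :=
    ⟨hq1, Set.mem_iInter₂.2 hq2⟩
  rw [hT] at this
  exact this

/-- Dual certificates of infeasible systems. -/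
theorem dual_cert {u : ι → Fin n → ℤ} {S : Set (Set ι)} (hS : IsSmoothFan u S) (D : ι → ℝ)
    {W : Type*} (h : W → ι → ℝ) (hL : W → ℝ)
    (hno : ¬ ∃ q : Fin n → ℝ, (∀ i, 0 ≤ D i + ∑ l, q l * (u i l : ℝ)) ∧
      ∀ w, ∑ i, (D i + ∑ l, q l * (u i l : ℝ)) * h w i ≤ hL w) :
    ∃ (r : ℕ) (w : Fin r → W) (ν : Fin r → ℝ) (a : ι → ℝ), (∀ s, 0 ≤ ν s) ∧
      (∀ l, ∑ i, a i * (u i l : ℝ) = 0) ∧ (∀ i, 0 ≤ a i + ∑ s, ν s * h (w s) i) ∧
      ∑ s, ν s * hL (w s) + ∑ i, a i * D i < 0 := by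
  classical
  obtain ⟨T, hT⟩ := finite_infeasible hS D h hL hno
  let w : Fin T.card → W := fun s => (T.equivFin.symm s : W)
  have hw : ∀ x ∈ T, ∃ s, w s = x := fun x hx => ⟨T.equivFin ⟨x, hx⟩, by simp [w]⟩
  let β : ι → ((Fin n → ℝ) × ℝ) →ₗ[ℝ] ℝ := fun i => (D i) • LinearMap.snd ℝ (Fin n → ℝ) ℝ +
    ∑ l, (u i l : ℝ) • ((LinearMap.proj l : (Fin n → ℝ) →ₗ[ℝ] ℝ) ∘ₗ LinearMap.fst ℝ (Fin n → ℝ) ℝ)
  have hβ : ∀ i q t, β i (q, t) = D i * t + ∑ l, q l * (u i l : ℝ) := by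
    intro i q t
    simp only [β, LinearMap.add_apply, LinearMap.smul_apply, LinearMap.snd_apply, smul_eq_mul,
      LinearMap.sum_apply, LinearMap.comp_apply, LinearMap.fst_apply, LinearMap.proj_apply]
    congr 1
    exact Finset.sum_congr rfl fun l _ => mul_comm _ _
  let ℓ : ι ⊕ Fin T.card → ((Fin n → ℝ) × ℝ) →ₗ[ℝ] ℝ := Sum.elim (fun i => -β i)
    (fun s => ∑ i, (h (w s) i) • β i - (hL (w s)) • LinearMap.snd ℝ (Fin n → ℝ) ℝ)
  have hl1 : ∀ i x, ℓ (Sum.inl i) x = -β i x := fun i x => rfl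
  have hl2 : ∀ s x, ℓ (Sum.inr s) x = ∑ i, h (w s) i * β i x - hL (w s) * x.2 := by
    intro s x
    simp only [ℓ, Sum.elim_inr, LinearMap.sub_apply, LinearMap.sum_apply, LinearMap.smul_apply,
      smul_eq_mul, LinearMap.snd_apply]
  let e := Fintype.equivFin (ι ⊕ Fin T.card)
  obtain ⟨μ, hμ, hf⟩ := H575R2.farkas_lin (Fintype.card (ι ⊕ Fin T.card)) (fun j => ℓ (e.symm j))
    (LinearMap.snd ℝ (Fin n → ℝ) ℝ) (by
    rintro ⟨q, t⟩ hx
    have hx' : ∀ j, ℓ j (q, t) ≤ 0 := fun j => by simpa using hx (e j)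
    rw [LinearMap.snd_apply]
    by_contra ht
    push Not at ht
    change 0 < t at ht
    have hs : ∀ i, D i + ∑ l, (t⁻¹ * q l) * (u i l : ℝ) = t⁻¹ * β i (q, t) := by
      intro i
      rw [hβ, mul_add, Finset.mul_sum]
      congr 1
      · field_simp
      · exact Finset.sum_congr rfl fun l _ => by ring
    refine hT ⟨fun l => t⁻¹ * q l, fun i => ?_, fun x hx => ?_⟩
    · rw [hs]
      have h1 := hx' (Sum.inl i)
      rw [hl1] at h1
      exact mul_nonneg (inv_pos.2 ht).le (by linarith)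
    · obtain ⟨s, rfl⟩ := hw x hx
      have h1 := hx' (Sum.inr s)
      rw [hl2] at h1
      have h2 : ∑ i, (D i + ∑ l, (t⁻¹ * q l) * (u i l : ℝ)) * h (w s) i
          = t⁻¹ * ∑ i, h (w s) i * β i (q, t) := by
        rw [Finset.mul_sum]
        exact Finset.sum_congr rfl fun i _ => by rw [hs]; ring
      rw [h2, inv_mul_le_iff₀ ht]
      change ∑ i, h (w s) i * β i (q, t) - hL (w s) * t ≤ 0 at h1
      linarith)
  have hf' : ∀ x : (Fin n → ℝ) × ℝ, x.2 = ∑ i, μ (e (Sum.inl i)) * -β i x +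
      ∑ s, μ (e (Sum.inr s)) * (∑ i, h (w s) i * β i x - hL (w s) * x.2) := by
    intro x
    have h1 := hf x
    rw [LinearMap.snd_apply] at h1
    refine h1.trans ?_
    rw [show (∑ i, μ i * (ℓ (e.symm i)) x) = ∑ j, μ (e j) * ℓ j x from
      (Fintype.sum_equiv e _ _ (fun j => by simp)).symm, Fintype.sum_sum_type]
    congr 1
    exact Finset.sum_congr rfl fun s _ => by rw [hl2]
  obtain ⟨a, ha⟩ : ∃ a : ι → ℝ, ∀ i, a i = μ (e (Sum.inl i)) -
    ∑ s, μ (e (Sum.inr s)) * h (w s) i := ⟨_, fun i => rfl⟩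
  have hmain : ∀ x : (Fin n → ℝ) × ℝ, ∑ i, a i * β i x +
      (∑ s, μ (e (Sum.inr s)) * hL (w s)) * x.2 = -x.2 := by
    intro x
    have h1 := hf' x
    have h2 : ∑ i, a i * β i x = ∑ i, μ (e (Sum.inl i)) * β i x -
        ∑ s, μ (e (Sum.inr s)) * ∑ i, h (w s) i * β i x := by
      simp only [ha, sub_mul, Finset.sum_sub_distrib, Finset.sum_mul, Finset.mul_sum]
      congr 1
      rw [Finset.sum_comm]
      exact Finset.sum_congr rfl fun s _ => Finset.sum_congr rfl fun i _ => by ring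
    have h3 : ∑ s, μ (e (Sum.inr s)) * (∑ i, h (w s) i * β i x - hL (w s) * x.2)
        = ∑ s, μ (e (Sum.inr s)) * ∑ i, h (w s) i * β i x -
          (∑ s, μ (e (Sum.inr s)) * hL (w s)) * x.2 := by
      rw [Finset.sum_mul, ← Finset.sum_sub_distrib]
      exact Finset.sum_congr rfl fun s _ => by ring
    have h4 : ∑ i, μ (e (Sum.inl i)) * -β i x = -∑ i, μ (e (Sum.inl i)) * β i x := by
      rw [← Finset.sum_neg_distrib]
      exact Finset.sum_congr rfl fun i _ => by ring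
    rw [h2]
    rw [h3, h4] at h1
    linarith
  refine ⟨T.card, w, fun s => μ (e (Sum.inr s)), a, fun s => hμ _, fun l => ?_, fun i => ?_, ?_⟩
  · have h1 := hmain (Pi.single l 1, 0)
    simp only [mul_zero, add_zero, neg_zero] at h1
    rw [← h1]
    refine Finset.sum_congr rfl fun i _ => ?_
    rw [hβ]
    simp [Pi.single_apply]
  · rw [ha]
    have := hμ (e (Sum.inl i))
    linarith
  · have h1 := hmain (0, 1)
    simp only [mul_one] at h1
    have h2 : ∑ i, a i * β i (0, 1) = ∑ i, a i * D i := by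
      refine Finset.sum_congr rfl fun i _ => ?_
      rw [hβ]
      simp
    rw [h2] at h1
    linarith

/-- A positive relation between the rays. -/
theorem pos_relation {u : ι → Fin n → ℤ} {S : Set (Set ι)} (hS : IsSmoothFan u S) :
    ∃ a : ι → ℝ, (∀ i, 1 ≤ a i) ∧ ∀ l, ∑ i, a i * (u i l : ℝ) = 0 := by
  obtain ⟨b, -, hb⟩ := (hS.rep fun l => -∑ i, u i l).exists
  refine ⟨fun i => 1 + b i, fun i => by have : (0 : ℝ) ≤ b i := Nat.cast_nonneg _; linarith,
    fun l => ?_⟩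
  have h1 : ((∑ i, (b i : ℤ) * u i l : ℤ) : ℝ) = ((-∑ i, u i l : ℤ) : ℝ) := by rw [hb l]
  push_cast at h1
  simp only [add_mul, one_mul, Finset.sum_add_distrib]
  linarith

end Poly

end Pool.Agent.U976.TBd
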