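import Pool.Agent.U976.TBd.GC1

/-!
# Classes of Gauduchon metrics on Kummer covers of toric bundles
-/

set_option autoImplicit false

namespace Pool.Agent.U976.TBd

open Pool.Agent.W594.SYZ2 Pool.Agent.W594.SYZ2.TQ Pool.Agent.TH735.AQ Q47.MM Q47.TB Q47.EB
open MvPolynomial Filter Topology Metric

/-- The degree of the class of the line bundle `O_Y(D; L)`, where `H` is the Chern form of `L`, with
respect to the class `(w, a)`. -/
def classDegree {V : Type*} {ι : Type*} [Fintype ι] {r : ℕ} (w : Fin r → V) (a : ι → ℝ)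
    (D : ι → ℤ) (H : V → V → ℂ) : ℝ :=
  ∑ s, (H (w s) (w s)).re + ∑ i, a i * (D i : ℝ)

/-- `(w, a)` gives a linear form on the real classes of type `(1, 1)` on the toric bundle `Y`: it is
zero on the classes `(D, 0)`, `D` the divisor of a character, so that the degree is well defined; it is
positive on the class of the divisor `D_i = {x_i = 0}`, a section of `O_Y(D_i; c_i)`, for all `i`; and
the vectors `w s` span `V`, so that the degree is positive for all semipositive forms `H ≠ 0` on the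
base. -/
structure IsGauduchonClass {V : Type*} [AddCommGroup V] [Module ℂ V] {ι : Type*} [Fintype ι] {n : ℕ}
    (u : ι → Fin n → ℤ) (Hc : ι → V → V → ℂ) {r : ℕ} (w : Fin r → V) (a : ι → ℝ) : Prop where
  rel : ∀ l, ∑ i, a i * (u i l : ℝ) = 0
  span : Submodule.span ℂ (Set.range w) = ⊤
  pos : ∀ i, 0 < a i + ∑ s, (Hc i (w s) (w s)).re

variable {V : Type*} [NormedAddCommGroup V] [NormedSpace ℂ V] {Γ : Subgroup (V ≃ᵃ[ℂ] V)}
  {ι : Type*} [Fintype ι] {n k : ℕ} {u : ι → Fin n → ℤ} {S : Set (Set ι)} {c : ι → LineBundle Γ}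
  {e : Fin k → ι → ℤ} {A : Fin k → LineBundle Γ} {m : Fin k → ℕ}
  {F : Fin k → V → MvPolynomial ι ℂ} {D : ι → ℤ} {L : LineBundle Γ}

omit [NormedAddCommGroup V] [NormedSpace ℂ V] in
/-- The degree in terms of an effective divisor in the class. -/
theorem degree_eq {Hc : ι → V → V → ℂ} {H : V → V → ℂ} {r : ℕ} {w : Fin r → V} {a : ι → ℝ}
    (ha : ∀ l, ∑ i, a i * (u i l : ℝ) = 0) (q : Fin n → ℝ) :
    classDegree w a D H =
      ∑ s, ((H (w s) (w s)).re -
        ∑ i, ((D i : ℝ) + ∑ l, q l * (u i l : ℝ)) * (Hc i (w s) (w s)).re) +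
      ∑ i, ((D i : ℝ) + ∑ l, q l * (u i l : ℝ)) * (a i + ∑ s, (Hc i (w s) (w s)).re) := by
  have h1 : ∑ i, ((D i : ℝ) + ∑ l, q l * (u i l : ℝ)) * a i = ∑ i, a i * (D i : ℝ) := by
    have h2 : ∀ i, ((D i : ℝ) + ∑ l, q l * (u i l : ℝ)) * a i
        = a i * D i + ∑ l, q l * (a i * (u i l : ℝ)) := by
      intro i
      rw [add_mul, Finset.sum_mul, mul_comm]
      congr 1
      exact Finset.sum_congr rfl fun l _ => by ring
    simp only [h2, Finset.sum_add_distrib]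
    rw [Finset.sum_comm]
    have h3 : ∀ l, ∑ i, q l * (a i * (u i l : ℝ)) = 0 := fun l => by
      rw [← Finset.mul_sum, ha l, mul_zero]
    simp only [h3, Finset.sum_const_zero, add_zero]
  have h4 : ∑ i, ((D i : ℝ) + ∑ l, q l * (u i l : ℝ)) * ∑ s, (Hc i (w s) (w s)).re
      = ∑ s, ∑ i, ((D i : ℝ) + ∑ l, q l * (u i l : ℝ)) * (Hc i (w s) (w s)).re := by
    simp only [Finset.mul_sum]
    rw [Finset.sum_comm]
  simp only [mul_add, Finset.sum_add_distrib, Finset.sum_sub_distrib, classDegree]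
  rw [h4, h1]
  ring

/-- The degree of line bundles with semipositively curved metrics is nonnegative. -/
theorem degree_nonneg [FiniteDimensional ℂ V] (hΓ : IsTorusQuotient Γ) (hS : IsSmoothFan u S)
    {Hc : ι → V → V → ℂ} (hc : ∀ i, IsChernForm (c i) (Hc i)) (hm : ∀ j, 1 ≤ m j)
    (hF : ∀ j, IsSection u c (fun i => m j * e j i) (fun γ v => (A j).e γ v ^ m j) (F j))
    {H : V → V → ℂ} (hH : IsChernForm L H) (h : CoverCurrentPsef u S c e A m F D L)
    {r : ℕ} {w : Fin r → V} {a : ι → ℝ} (ha : IsGauduchonClass u Hc w a) :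
    0 ≤ classDegree w a D H := by
  obtain ⟨W, hW⟩ := h
  obtain ⟨q, hq1, hq2⟩ := real_of_metric hΓ hS hc hm hF hH hW
  rw [degree_eq (Hc := Hc) ha.rel q]
  refine add_nonneg (Finset.sum_nonneg fun s _ => ?_) (Finset.sum_nonneg fun i _ => ?_)
  · have := hq2 (w s)
    linarith
  · exact mul_nonneg (hq1 i) (ha.pos i).le

/-- If no real exponent exists, then the degree is negative for a Gauduchon class. -/
theorem exists_neg_class [FiniteDimensional ℂ V] (hS : IsSmoothFan u S)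
    {Hc : ι → V → V → ℂ} (hc : ∀ i, IsHermitian (Hc i)) {H : V → V → ℂ} (hH : IsHermitian H)
    (hno : ¬ ∃ q : Fin n → ℝ, (∀ i, 0 ≤ (D i : ℝ) + ∑ l, q l * (u i l : ℝ)) ∧
      ∀ v : V, ∑ i, ((D i : ℝ) + ∑ l, q l * (u i l : ℝ)) * (Hc i v v).re ≤ (H v v).re) :
    ∃ (r : ℕ) (w : Fin r → V) (a : ι → ℝ), IsGauduchonClass u Hc w a ∧ classDegree w a D H < 0 := by
  classical
  obtain ⟨r, w, ν, a, hν, ha, hpos, hneg⟩ := dual_cert hS (fun i => (D i : ℝ))
    (fun v i => (Hc i v v).re) (fun v => (H v v).re) hno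
  obtain ⟨a0, ha0, hr0⟩ := pos_relation hS
  let b := Module.finBasis ℂ V
  obtain ⟨d, hd⟩ : ∃ d, d = Module.finrank ℂ V := ⟨_, rfl⟩
  let w0 : Fin (Module.finrank ℂ V) → V := b
  have hspan : Submodule.span ℂ (Set.range w0) = ⊤ := b.span_eq
  -- a large multiple of the positive relation
  obtain ⟨N, hN0, hN⟩ : ∃ N : ℝ, 0 ≤ N ∧ ∀ i, 0 < N * a0 i + ∑ s, (Hc i (w0 s) (w0 s)).re := by
    refine ⟨1 + ∑ i, |∑ s, (Hc i (w0 s) (w0 s)).re|, by positivity, fun i => ?_⟩
    have h1 : |∑ s, (Hc i (w0 s) (w0 s)).re| ≤ ∑ i, |∑ s, (Hc i (w0 s) (w0 s)).re| :=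
      Finset.single_le_sum (f := fun i => |∑ s, (Hc i (w0 s) (w0 s)).re|)
        (fun i _ => abs_nonneg _) (Finset.mem_univ i)
    have h2 := neg_abs_le (∑ s, (Hc i (w0 s) (w0 s)).re)
    have h3 : 1 + ∑ i, |∑ s, (Hc i (w0 s) (w0 s)).re|
        ≤ (1 + ∑ i, |∑ s, (Hc i (w0 s) (w0 s)).re|) * a0 i :=
      le_mul_of_one_le_right (by positivity) (ha0 i)
    linarith
  obtain ⟨δ, hδ⟩ : ∃ δ, δ = ∑ s, (H (w0 s) (w0 s)).re + ∑ i, N * a0 i * (D i : ℝ) := ⟨_, rfl⟩
  obtain ⟨ε, hε0, hε⟩ : ∃ ε : ℝ, 0 < ε ∧ ∑ s, ν s * (H (w s) (w s)).re + ∑ i, a i * (D i : ℝ)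
      + ε * δ < 0 := by
    obtain ⟨η, hη⟩ : ∃ η, η = ∑ s, ν s * (H (w s) (w s)).re + ∑ i, a i * (D i : ℝ) := ⟨_, rfl⟩
    rw [← hη]
    have hη0 : η < 0 := by rw [hη]; exact hneg
    refine ⟨-η / (2 * (|δ| + 1)), div_pos (by linarith) (by positivity), ?_⟩
    have h1 : -η / (2 * (|δ| + 1)) * δ ≤ -η / 2 := by
      have h2 : δ ≤ |δ| + 1 := (le_abs_self δ).trans (by linarith)
      calc -η / (2 * (|δ| + 1)) * δ ≤ -η / (2 * (|δ| + 1)) * (|δ| + 1) :=
            mul_le_mul_of_nonneg_left h2 (div_pos (by linarith) (by positivity)).le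
        _ = -η / 2 := by
            have : |δ| + 1 ≠ 0 := by positivity
            field_simp
    linarith
  have hdiag : ∀ {Q : V → V → ℂ}, IsHermitian Q → ∀ (t : ℝ), 0 ≤ t → ∀ v,
      (Q (((Real.sqrt t : ℝ) : ℂ) • v) (((Real.sqrt t : ℝ) : ℂ) • v)).re = t * (Q v v).re := by
    intro Q hQ t ht v
    rw [h_diag_smul hQ, Complex.norm_real, Real.norm_eq_abs, sq_abs, Real.sq_sqrt ht]
  let w1 : Fin (r + Module.finrank ℂ V) → V :=
    Fin.append (fun s => ((Real.sqrt (ν s) : ℝ) : ℂ) • w s)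
      (fun s => ((Real.sqrt ε : ℝ) : ℂ) • w0 s)
  have hsum : ∀ {Q : V → V → ℂ}, IsHermitian Q → ∑ s, (Q (w1 s) (w1 s)).re
      = ∑ s, ν s * (Q (w s) (w s)).re + ε * ∑ s, (Q (w0 s) (w0 s)).re := by
    intro Q hQ
    rw [Fin.sum_univ_add]
    simp only [w1, Fin.append_left, Fin.append_right]
    rw [Finset.mul_sum]
    congr 1
    · exact Finset.sum_congr rfl fun s _ => hdiag hQ _ (hν s) _
    · exact Finset.sum_congr rfl fun s _ => hdiag hQ _ hε0.le _
  refine ⟨_, w1, fun i => a i + ε * (N * a0 i), ⟨fun l => ?_, ?_, fun i => ?_⟩, ?_⟩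
  · have h1 : ∀ i, (a i + ε * (N * a0 i)) * (u i l : ℝ)
        = a i * (u i l : ℝ) + ε * N * (a0 i * (u i l : ℝ)) := fun i => by ring
    simp only [h1, Finset.sum_add_distrib, ← Finset.mul_sum, ha l, hr0 l, mul_zero, add_zero]
  · rw [eq_top_iff, ← hspan, Submodule.span_le]
    rintro _ ⟨s, rfl⟩
    have h1 : w1 (Fin.natAdd r s) ∈ Submodule.span ℂ (Set.range w1) :=
      Submodule.subset_span ⟨_, rfl⟩
    have h2 : w1 (Fin.natAdd r s) = ((Real.sqrt ε : ℝ) : ℂ) • w0 s := by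
      simp only [w1, Fin.append_right]
    have h3 : ((Real.sqrt ε : ℝ) : ℂ) ≠ 0 := by
      exact_mod_cast (Real.sqrt_pos.2 hε0).ne'
    have h4 : w0 s = ((Real.sqrt ε : ℝ) : ℂ)⁻¹ • w1 (Fin.natAdd r s) := by
      rw [h2, inv_smul_smul₀ h3]
    change w0 s ∈ Submodule.span ℂ (Set.range w1)
    rw [h4]
    exact Submodule.smul_mem _ _ h1
  · rw [hsum (hc i)]
    have h1 := hpos i
    have h2 := mul_pos hε0 (hN i)
    nlinarith
  · rw [classDegree, hsum hH]
    have h1 : ∑ i, (a i + ε * (N * a0 i)) * (D i : ℝ)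
        = ∑ i, a i * (D i : ℝ) + ε * ∑ i, N * a0 i * (D i : ℝ) := by
      rw [Finset.mul_sum, ← Finset.sum_add_distrib]
      exact Finset.sum_congr rfl fun i _ => by ring
    rw [h1]
    rw [hδ] at hε
    linarith

variable [FiniteDimensional ℂ V]

/-- Real exponents give sections of multiples of the canonical bundle of the Kummer cover. -/
theorem kummer_eff_of_real (hΓ : IsTorusQuotient Γ) {ρ : V → ℂ} (hρ : IsRamification Γ ρ)
    (hS : IsSmoothFan u S) {Hc : ι → V → V → ℂ} (hc : ∀ i, IsChernForm (c i) (Hc i))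
    (hm : ∀ j, 1 ≤ m j)
    (hF : ∀ j, IsSection u c (fun i => m j * e j i) (fun γ v => (A j).e γ v ^ m j) (F j))
    (hnc : GenNormalCrossing S F) {p : ℕ} {L : LineBundle Γ}
    (hL : IsCoverCanonical c A m p ρ L) {H : V → V → ℂ} (hH : IsChernForm L H)
    {q : Fin n → ℝ} (hq1 : ∀ i, 0 ≤ (canClass e m p i : ℝ) + ∑ l, q l * (u i l : ℝ))
    (hq2 : ∀ v : V, ∑ i, ((canClass e m p i : ℝ) + ∑ l, q l * (u i l : ℝ)) * (Hc i v v).re
      ≤ (H v v).re) :
    CoverEffective u S c e A m F (canClass e m p) L := by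
  classical
  have hT : (0 : ℝ) < deg' m := by exact_mod_cast deg_pos hm
  have hcl : ∀ i, ((totClass e m p i - ((p * deg' m : ℕ) : ℤ) : ℤ) : ℝ)
      + ∑ l, ((deg' m : ℝ) * q l) * (u i l : ℝ)
      = deg' m * ((canClass e m p i : ℝ) + ∑ l, q l * (u i l : ℝ)) := by
    intro i
    rw [totClass_eq hm, mul_add, Finset.mul_sum]
    push_cast
    congr 1
    exact Finset.sum_congr rfl fun l _ => by ring
  obtain ⟨q', hq', G, hG, v, hv⟩ := eff_of_real hΓ hρ hS hc (chern_pow' hH (deg' m))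
    (total_pair hF hL) (total_lc hS hF hnc p) (q := fun l => (deg' m : ℝ) * q l)
    (fun i => by
      rw [hcl i]
      exact mul_nonneg hT.le (hq1 i))
    (fun v => by
      simp only [hcl]
      rw [nat_re]
      have h1 : ∑ i, (deg' m : ℝ) * ((canClass e m p i : ℝ) + ∑ l, q l * (u i l : ℝ)) * (Hc i v v).re
          = deg' m * ∑ i, ((canClass e m p i : ℝ) + ∑ l, q l * (u i l : ℝ)) * (Hc i v v).re := by
        rw [Finset.mul_sum]
        exact Finset.sum_congr rfl fun i _ => by ring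
      rw [h1]
      exact mul_le_mul_of_nonneg_left (hq2 v) hT.le)
  refine ⟨q' * deg' m, Nat.mul_pos hq' (deg_pos hm), _, cover_of_section hm (isSection_congr hG
    (fun i => ?_) (fun γ v => ?_) fun v => rfl), pull_nonzero hS hm hv⟩
  · simp only [totClass_eq hm]
    push_cast
    ring
  · change (L.e γ v ^ deg' m) ^ q' = _
    rw [← pow_mul, mul_comm]

end Pool.Agent.U976.TBd
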