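import Pool.Agent.U976.TBd.GC2

/-!
# Real exponents give metrics with semipositive curvature
-/

set_option autoImplicit false

namespace Pool.Agent.U976.TBd

open Pool.Agent.W594.SYZ2 Pool.Agent.W594.SYZ2.TQ Pool.Agent.TH735.AQ Q47.MM Q47.TB Q47.EB
open MvPolynomial Filter Topology Metric

/-- The maximum principle for products of real powers. -/
theorem real_max {ι : Type*} [Fintype ι] {g : ι → ℂ → ℂ}
    (hg : ∀ i, AnalyticOnNhd ℂ (g i) (closedBall 0 1)) {P : ℂ → ℂ}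
    (hP : AnalyticOnNhd ℂ P (closedBall 0 1)) {β : ι → ℝ} (hβ : ∀ i, 0 ≤ β i)
    (h : ∀ z, ‖z‖ = 1 → ∏ i, ‖g i z‖ ^ β i ≤ Real.exp (P z).re) :
    ∏ i, ‖g i 0‖ ^ β i ≤ Real.exp (P 0).re := by
  classical
  -- a common bound
  obtain ⟨M, hM1, hM⟩ : ∃ M : ℝ, 1 ≤ M ∧ ∀ i, ∀ z ∈ closedBall (0 : ℂ) 1, ‖g i z‖ ≤ M := by
    have h1 : ∀ i, ∃ B : ℝ, ∀ z ∈ closedBall (0 : ℂ) 1, ‖g i z‖ ≤ B := fun i =>
      (isCompact_closedBall (0 : ℂ) 1).exists_bound_of_continuousOn (hg i).continuousOn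
    choose B hB using h1
    refine ⟨1 + ∑ i, |B i|, by
      have : 0 ≤ ∑ i, |B i| := Finset.sum_nonneg fun i _ => abs_nonneg _
      linarith, fun i z hz => ?_⟩
    have h2 : |B i| ≤ ∑ i, |B i| :=
      Finset.single_le_sum (f := fun i => |B i|) (fun i _ => abs_nonneg _) (Finset.mem_univ i)
    have h3 := hB i z hz
    have h4 := le_abs_self (B i)
    linarith
  have hM0 : 0 < M := by linarith
  rcases (Finset.prod_nonneg fun i (_ : i ∈ Finset.univ) =>
    Real.rpow_nonneg (norm_nonneg (g i 0)) (β i)).eq_or_lt with h0 | hpos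
  · rw [← h0]
    exact (Real.exp_pos _).le
  have hne : ∀ i, ‖g i 0‖ ^ β i ≠ 0 := fun i =>
    Finset.prod_ne_zero_iff.1 hpos.ne' i (Finset.mem_univ i)
  -- the fractional parts
  obtain ⟨cc, hcc0, hcc⟩ : ∃ cc : ℝ, 0 < cc ∧ ∀ N : ℕ,
      cc * (∏ i, ‖g i 0‖ ^ β i) ^ N ≤ ∏ i, ‖g i 0‖ ^ ⌈(N : ℝ) * β i⌉₊ := by
    have h1 : ∀ i, ∃ c : ℝ, 0 < c ∧ ∀ N : ℕ, c * (‖g i 0‖ ^ β i) ^ N ≤ ‖g i 0‖ ^ ⌈(N : ℝ) * β i⌉₊ := by
      intro i
      rcases (hβ i).eq_or_lt with hb | hb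
      · refine ⟨1, one_pos, fun N => ?_⟩
        rw [← hb]
        simp
      · have ht : 0 < ‖g i 0‖ := by
          refine lt_of_le_of_ne (norm_nonneg _) fun h2 => hne i ?_
          rw [← h2, Real.zero_rpow hb.ne']
        refine ⟨min ‖g i 0‖ 1, lt_min ht one_pos, fun N => ?_⟩
        have h2 : (0 : ℝ) ≤ (N : ℝ) * β i := mul_nonneg (Nat.cast_nonneg _) hb.le
        have h3 : (N : ℝ) * β i ≤ ⌈(N : ℝ) * β i⌉₊ := Nat.le_ceil _
        have h4 : (⌈(N : ℝ) * β i⌉₊ : ℝ) < (N : ℝ) * β i + 1 := Nat.ceil_lt_add_one h2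
        have h5 : ‖g i 0‖ ^ ⌈(N : ℝ) * β i⌉₊ = (‖g i 0‖ ^ β i) ^ N *
            ‖g i 0‖ ^ ((⌈(N : ℝ) * β i⌉₊ : ℝ) - N * β i) := by
          rw [← Real.rpow_natCast (‖g i 0‖ ^ β i) N, ← Real.rpow_mul ht.le, mul_comm (β i),
            ← Real.rpow_add ht, add_sub_cancel, Real.rpow_natCast]
        rw [h5, mul_comm]
        refine mul_le_mul_of_nonneg_left ?_ (pow_nonneg (Real.rpow_nonneg ht.le _) _)
        rcases le_total ‖g i 0‖ 1 with h6 | h6
        · refine (min_le_left _ _).trans ?_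
          calc ‖g i 0‖ = ‖g i 0‖ ^ (1 : ℝ) := (Real.rpow_one _).symm
            _ ≤ _ := Real.rpow_le_rpow_of_exponent_ge ht h6 (by linarith)
        · exact (min_le_right _ _).trans (Real.one_le_rpow h6 (by linarith))
    choose c hc0 hc using h1
    refine ⟨∏ i, c i, Finset.prod_pos fun i _ => hc0 i, fun N => ?_⟩
    rw [← Finset.prod_pow, ← Finset.prod_mul_distrib]
    exact Finset.prod_le_prod (fun i _ => mul_nonneg (hc0 i).le
      (pow_nonneg (Real.rpow_nonneg (norm_nonneg _) _) _)) fun i _ => hc i N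
  -- the maximum principle
  have hmax : ∀ N : ℕ, ∏ i, ‖g i 0‖ ^ ⌈(N : ℝ) * β i⌉₊
      ≤ M ^ Fintype.card ι * Real.exp (P 0).re ^ N := by
    intro N
    have h1 : ∀ z ∈ closedBall (0 : ℂ) 1,
        AnalyticAt ℂ (fun z => (∏ i, g i z ^ ⌈(N : ℝ) * β i⌉₊) * Complex.exp (-((N : ℂ) * P z))) z := by
      intro z hz
      refine AnalyticAt.mul ?_ (AnalyticAt.cexp (analyticAt_const.mul (hP z hz)).neg)
      exact Finset.analyticAt_fun_prod _ fun i _ => (hg i z hz).pow _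
    have h2 : DiffContOnCl ℂ (fun z => (∏ i, g i z ^ ⌈(N : ℝ) * β i⌉₊) *
        Complex.exp (-((N : ℂ) * P z))) (ball (0 : ℂ) 1) := by
      refine DifferentiableOn.diffContOnCl fun z hz => ?_
      rw [closure_ball _ one_ne_zero] at hz
      exact (h1 z hz).differentiableAt.differentiableWithinAt
    have hre : ∀ z, ‖(∏ i, g i z ^ ⌈(N : ℝ) * β i⌉₊) * Complex.exp (-((N : ℂ) * P z))‖
        = (∏ i, ‖g i z‖ ^ ⌈(N : ℝ) * β i⌉₊) * Real.exp (-(N * (P z).re)) := by
      intro z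
      rw [norm_mul, Complex.norm_exp, norm_prod]
      simp only [norm_pow]
      congr 2
      have : ((N : ℂ)) = ((N : ℝ) : ℂ) := by push_cast; rfl
      rw [Complex.neg_re, this, Complex.re_ofReal_mul]
    have h3 := Complex.norm_le_of_forall_mem_frontier_norm_le (C := M ^ Fintype.card ι)
      isBounded_ball h2
      (fun z hz => by
        rw [frontier_ball _ one_ne_zero, mem_sphere_zero_iff_norm] at hz
        rw [hre z]
        have hzb : z ∈ closedBall (0 : ℂ) 1 := by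
          rw [mem_closedBall_zero_iff, hz]
        have h4 : ∏ i, ‖g i z‖ ^ ⌈(N : ℝ) * β i⌉₊ ≤ M ^ Fintype.card ι * (∏ i, ‖g i z‖ ^ β i) ^ N := by
          rw [← Finset.prod_pow, ← Finset.card_univ, ← Finset.prod_const,
            ← Finset.prod_mul_distrib]
          refine Finset.prod_le_prod (fun i _ => pow_nonneg (norm_nonneg _) _) fun i _ => ?_
          have h2 : (0 : ℝ) ≤ (N : ℝ) * β i := mul_nonneg (Nat.cast_nonneg _) (hβ i)
          have h3 : (N : ℝ) * β i ≤ ⌈(N : ℝ) * β i⌉₊ := Nat.le_ceil _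
          have h4 : (⌈(N : ℝ) * β i⌉₊ : ℝ) < (N : ℝ) * β i + 1 := Nat.ceil_lt_add_one h2
          have h5 : ‖g i z‖ ^ ⌈(N : ℝ) * β i⌉₊ = (‖g i z‖ ^ β i) ^ N *
              ‖g i z‖ ^ ((⌈(N : ℝ) * β i⌉₊ : ℝ) - N * β i) := by
            rw [← Real.rpow_natCast (‖g i z‖ ^ β i) N, ← Real.rpow_mul (norm_nonneg _),
              mul_comm (β i), ← Real.rpow_add_of_nonneg (norm_nonneg _) h2 (by linarith),
              add_sub_cancel, Real.rpow_natCast]
          rw [h5, mul_comm]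
          refine mul_le_mul_of_nonneg_right ?_
            (pow_nonneg (Real.rpow_nonneg (norm_nonneg _) _) _)
          calc ‖g i z‖ ^ ((⌈(N : ℝ) * β i⌉₊ : ℝ) - N * β i)
              ≤ M ^ ((⌈(N : ℝ) * β i⌉₊ : ℝ) - N * β i) :=
                Real.rpow_le_rpow (norm_nonneg _) (hM i z hzb) (by linarith)
            _ ≤ M ^ (1 : ℝ) := Real.rpow_le_rpow_of_exponent_le hM1 (by linarith)
            _ = M := Real.rpow_one _
        have h5 : (∏ i, ‖g i z‖ ^ β i) ^ N ≤ Real.exp (N * (P z).re) := by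
          rw [Real.exp_nat_mul]
          exact pow_le_pow_left₀ (Finset.prod_nonneg fun i _ =>
            Real.rpow_nonneg (norm_nonneg _) _) (h z hz) _
        calc (∏ i, ‖g i z‖ ^ ⌈(N : ℝ) * β i⌉₊) * Real.exp (-(N * (P z).re))
            ≤ (M ^ Fintype.card ι * Real.exp (N * (P z).re)) * Real.exp (-(N * (P z).re)) :=
              mul_le_mul_of_nonneg_right (h4.trans (mul_le_mul_of_nonneg_left h5
                (pow_nonneg hM0.le _))) (Real.exp_pos _).le
          _ = M ^ Fintype.card ι := by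
              rw [mul_assoc, ← Real.exp_add, add_neg_cancel, Real.exp_zero, mul_one])
      (z := 0) (subset_closure (mem_ball_self one_pos))
    rw [hre 0] at h3
    calc ∏ i, ‖g i 0‖ ^ ⌈(N : ℝ) * β i⌉₊
        = (∏ i, ‖g i 0‖ ^ ⌈(N : ℝ) * β i⌉₊) * Real.exp (-(N * (P 0).re)) *
          Real.exp (N * (P 0).re) := by
          rw [mul_assoc, ← Real.exp_add, neg_add_cancel, Real.exp_zero, mul_one]
      _ ≤ M ^ Fintype.card ι * Real.exp (N * (P 0).re) :=
          mul_le_mul_of_nonneg_right h3 (Real.exp_pos _).le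
      _ = _ := by rw [Real.exp_nat_mul]
  by_contra hcon
  push Not at hcon
  have hE := Real.exp_pos (P 0).re
  have hr : 1 < (∏ i, ‖g i 0‖ ^ β i) / Real.exp (P 0).re := (one_lt_div hE).2 hcon
  obtain ⟨N, hN⟩ := pow_unbounded_of_one_lt (M ^ Fintype.card ι / cc) hr
  have h1 := (hcc N).trans (hmax N)
  rw [div_pow, div_lt_div_iff₀ hcc0 (pow_pos hE N)] at hN
  linarith

variable {V : Type*} [NormedAddCommGroup V] [NormedSpace ℂ V] {Γ : Subgroup (V ≃ᵃ[ℂ] V)}
  {ι : Type*} [Fintype ι] {n k : ℕ} {u : ι → Fin n → ℤ} {S : Set (Set ι)} {c : ι → LineBundle Γ}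
  {e : Fin k → ι → ℤ} {A : Fin k → LineBundle Γ} {m : Fin k → ℕ}
  {F : Fin k → V → MvPolynomial ι ℂ} {D : ι → ℤ} {L : LineBundle Γ}

/-- The weight of real powers. -/
noncomputable def rw' (β : ι → ℝ) (Ψ : V → ℝ) (p : V × (ι → ℂ) × (Fin k → ℂ)) : ℝ :=
  (∏ i, ‖p.2.1 i‖ ^ β i) * Real.exp (Ψ p.1)

/-- A real exponent gives a metric with semipositive curvature. -/
theorem metric_of_real [FiniteDimensional ℂ V] (hS : IsSmoothFan u S)
    {Hc : ι → V → V → ℂ} (hc : ∀ i, IsChernForm (c i) (Hc i)) (hm : ∀ j, 1 ≤ m j)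
    {H : V → V → ℂ} (hH : IsChernForm L H) {q : Fin n → ℝ}
    (hq1 : ∀ i, 0 ≤ (D i : ℝ) + ∑ l, q l * (u i l : ℝ))
    (hq2 : ∀ v : V, ∑ i, ((D i : ℝ) + ∑ l, q l * (u i l : ℝ)) * (Hc i v v).re ≤ (H v v).re) :
    CoverCurrentPsef u S c e A m F D L := by
  classical
  have hcomp := FiniteDimensional.complete ℂ V
  obtain ⟨hHh, G, hG, hGe⟩ := hH
  choose hHc Gc hGc hGce using hc
  obtain ⟨β, hβ⟩ : ∃ β : ι → ℝ, ∀ i, β i = (D i : ℝ) + ∑ l, q l * (u i l : ℝ) := ⟨_, fun i => rfl⟩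
  simp only [← hβ] at hq1 hq2
  -- the hermitian form and the holomorphic function
  obtain ⟨Q, hQ⟩ : ∃ Q : V → V → ℂ, Q = rform H (fun j : Fin 0 => fun _ _ => 0) Hc (fun _ => 0) β :=
    ⟨_, rfl⟩
  have hQh : IsHermitian Q := by
    rw [hQ]
    exact herm_rform hHh (fun j => j.elim0) hHc _ _
  have hQre : ∀ v, (Q v v).re = (H v v).re - ∑ i, β i * (Hc i v v).re := by
    intro v
    rw [hQ, rform_re]
    simp
  have hQ0 : ∀ v, 0 ≤ (Q v v).re := fun v => by
    rw [hQre]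
    linarith [hq2 v]
  obtain ⟨G', hG', hG're⟩ : ∃ G' : V → ℂ, Differentiable ℂ G' ∧
      ∀ v, (G' v).re = (G v).re - ∑ i, β i * (Gc i v).re := by
    refine ⟨fun v => G v - ∑ i, (β i : ℂ) * Gc i v, hG.sub (Differentiable.fun_sum fun i _ =>
      (hGc i).const_mul _), fun v => ?_⟩
    rw [Complex.sub_re, Complex.re_sum]
    congr 1
    exact Finset.sum_congr rfl fun i _ => Complex.re_ofReal_mul _ _
  let Ψ : V → ℝ := fun v => Real.pi / 2 * (Q v v).re + (G' v).re
  have hΨ : ∀ v, Ψ v = lw H G v - ∑ i, β i * lw (Hc i) (Gc i) v := by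
    intro v
    simp only [Ψ, lw, hQre, hG're, mul_add, Finset.sum_add_distrib, mul_sub, Finset.mul_sum]
    have : ∑ i, β i * (Real.pi / 2 * (Hc i v v).re) = ∑ i, Real.pi / 2 * (β i * (Hc i v v).re) :=
      Finset.sum_congr rfl fun i _ => by ring
    rw [this]
    ring
  have hΨc : Continuous Ψ :=
    ((diag_continuous hQh).const_mul (Real.pi / 2)).add (Complex.continuous_re.comp hG'.continuous)
  have hcont : Continuous (rw' (k := k) β Ψ) := by
    refine Continuous.mul (continuous_finsetProd _ fun i _ => ?_)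
      (Real.continuous_exp.comp (hΨc.comp continuous_fst))
    refine Continuous.rpow_const ?_ fun p => Or.inr (hq1 i)
    exact continuous_norm.comp ((continuous_apply i).comp (continuous_fst.comp continuous_snd))
  refine ⟨rw' β Ψ, ⟨⟨fun p _ => ?_, ?_, ?_⟩, ?_, ?_, ?_⟩⟩
  · exact mul_nonneg (Finset.prod_nonneg fun i _ => Real.rpow_nonneg (norm_nonneg _) _)
      (Real.exp_pos _).le
  · exact hcont.upperSemicontinuous.upperSemicontinuousOn _
  · intro f P hf hP _ hb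
    obtain ⟨a, ha⟩ : ∃ a, a = (f 0).1 := ⟨_, rfl⟩
    let lin : V →ₗ[ℂ] ℂ :=
      { toFun := fun v => Q v a
        map_add' := fun v w => hQh.add_left v w a
        map_smul' := fun t v => hQh.smul_left t v a }
    have hlin : Differentiable ℂ fun v => Q v a :=
      (LinearMap.toContinuousLinearMap lin).differentiable
    have hf1 : ∀ z ∈ closedBall (0 : ℂ) 1, AnalyticAt ℂ (fun z => (f z).1) z := fun z hz =>
      (ContinuousLinearMap.fst ℂ V ((ι → ℂ) × (Fin k → ℂ))).analyticAt _ |>.comp (hf z hz)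
    have hcompan : ∀ {g : V → ℂ}, Differentiable ℂ g → ∀ z ∈ closedBall (0 : ℂ) 1,
        AnalyticAt ℂ (fun z => g (f z).1) z := by
      intro g hg z hz
      rw [Complex.analyticAt_iff_eventually_differentiableAt]
      filter_upwards [(hf1 z hz).eventually_analyticAt] with ζ hζ
      exact (hg (f ζ).1).comp ζ hζ.differentiableAt
    have hin : ∀ v, (Q a a).re + 2 * ((Q v a).re - (Q a a).re) ≤ (Q v v).re := by
      intro v
      have h1 := hQ0 (v - a)
      have h2 : (Q v v).re = (Q ((v - a) + a) ((v - a) + a)).re := by rw [sub_add_cancel]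
      have h3 := h_diag_add hQh (v - a) a
      have h4 : (Q (v - a) a).re = (Q v a).re - (Q a a).re := by
        have : Q v a = Q (v - a) a + Q a a := by rw [← hQh.add_left, sub_add_cancel]
        rw [this, Complex.add_re]
        ring
      rw [h2, h3]
      linarith
    let P' : ℂ → ℂ := fun z => P z - ((Real.pi / 2 : ℝ) : ℂ) * (2 * Q (f z).1 a - Q a a) -
      G' (f z).1
    have hP're : ∀ z, (P' z).re = (P z).re - Real.pi / 2 * (2 * (Q (f z).1 a).re - (Q a a).re)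
        - (G' (f z).1).re := by
      intro z
      simp only [P']
      rw [Complex.sub_re, Complex.sub_re, Complex.re_ofReal_mul, Complex.sub_re]
      congr 4
      simp
    have hkey := real_max (g := fun i z => (f z).2.1 i) (P := P') (β := β) (fun i z hz => ?_)
      (fun z hz => ?_) hq1 (fun z hz => ?_)
    · change (∏ i, ‖(f 0).2.1 i‖ ^ β i) * Real.exp (Ψ (f 0).1) ≤ _
      rw [hP're 0, ← ha] at hkey
      have h1 : Real.exp (P 0).re = Real.exp ((P 0).re - Real.pi / 2 *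
          (2 * (Q a a).re - (Q a a).re) - (G' a).re) * Real.exp (Ψ a) := by
        rw [← Real.exp_add]
        congr 1
        simp only [Ψ]
        ring
      rw [h1, ← ha]
      exact mul_le_mul_of_nonneg_right hkey (Real.exp_pos _).le
    · have h1 : AnalyticAt ℂ (fun z => (f z).2.1) z :=
        ((ContinuousLinearMap.fst ℂ (ι → ℂ) (Fin k → ℂ)).comp
          (ContinuousLinearMap.snd ℂ V ((ι → ℂ) × (Fin k → ℂ)))).analyticAt _ |>.comp (hf z hz)
      exact ((ContinuousLinearMap.proj (R := ℂ) (φ := fun _ : ι => ℂ) i).analyticAt _).comp h1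
    · exact ((hP z hz).sub (analyticAt_const.mul ((analyticAt_const.mul
        (hcompan hlin z hz)).sub analyticAt_const))).sub (hcompan hG' z hz)
    · have h1 := hb z hz
      change (∏ i, ‖(f z).2.1 i‖ ^ β i) * Real.exp (Ψ (f z).1) ≤ _ at h1
      rw [hP're z]
      have h2 : ∏ i, ‖(f z).2.1 i‖ ^ β i ≤ Real.exp ((P z).re - Ψ (f z).1) := by
        rw [Real.exp_sub, le_div_iff₀ (Real.exp_pos _)]
        exact h1
      refine h2.trans (Real.exp_le_exp.2 ?_)
      have h3 := hin (f z).1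
      have h4 : 0 ≤ Real.pi / 2 := by positivity
      have h5 := mul_le_mul_of_nonneg_left h3 h4
      simp only [Ψ]
      linarith
  · have h1 : ∀ j, ∃ y : ℂ, y ^ m j = eval (fun _ => (1 : ℂ)) (F j 0) := fun j =>
      IsAlgClosed.exists_pow_nat_eq _ (hm j)
    choose y hy using h1
    refine ⟨(0, (fun _ => 1), y), mem_cover (t := fun _ => 0) hS (fun i => by simp) hy, ?_⟩
    simp only [rw', norm_one, Real.one_rpow, Finset.prod_const_one, one_mul]
    exact (Real.exp_pos _).ne'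
  · intro γ v x y _
    simp only [rw', norm_mul]
    rw [norm_e hGe γ v]
    have h1 : ∀ i, (‖(c i).e γ v‖ * ‖x i‖) ^ β i = Real.exp (β i *
        (lw (Hc i) (Gc i) ((γ : V ≃ᵃ[ℂ] V) v) - lw (Hc i) (Gc i) v)) * ‖x i‖ ^ β i := by
      intro i
      rw [Real.mul_rpow (norm_nonneg _) (norm_nonneg _), norm_e (hGce i) γ v, ← Real.exp_mul,
        mul_comm (β i)]
    simp only [h1, Finset.prod_mul_distrib]
    rw [← Real.exp_sum]
    have h2 : Real.exp (∑ i, β i * (lw (Hc i) (Gc i) ((γ : V ≃ᵃ[ℂ] V) v) - lw (Hc i) (Gc i) v)) *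
        (∏ i, ‖x i‖ ^ β i) * Real.exp (Ψ ((γ : V ≃ᵃ[ℂ] V) v))
        = (∏ i, ‖x i‖ ^ β i) * Real.exp (∑ i, β i * (lw (Hc i) (Gc i) ((γ : V ≃ᵃ[ℂ] V) v)
          - lw (Hc i) (Gc i) v) + Ψ ((γ : V ≃ᵃ[ℂ] V) v)) := by
      rw [Real.exp_add _ (Ψ _), ← mul_assoc, mul_comm (Real.exp (∑ i, _)) (∏ i, ‖x i‖ ^ β i)]
    rw [h2]
    have h3 : Real.exp (lw H G ((γ : V ≃ᵃ[ℂ] V) v) - lw H G v) * ((∏ i, ‖x i‖ ^ β i) *
        Real.exp (Ψ v)) = (∏ i, ‖x i‖ ^ β i) *
        Real.exp ((lw H G ((γ : V ≃ᵃ[ℂ] V) v) - lw H G v) + Ψ v) := by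
      rw [Real.exp_add _ (Ψ v), ← mul_assoc, ← mul_assoc,
        mul_comm (Real.exp _) (∏ i, ‖x i‖ ^ β i)]
    rw [h3]
    congr 2
    rw [hΨ, hΨ]
    simp only [mul_sub, Finset.sum_sub_distrib]
    ring
  · intro t ht0 ht1 v x y _
    simp only [rw', norm_mul]
    have h1 : ∀ i, (‖t i‖ * ‖x i‖) ^ β i = ‖t i‖ ^ β i * ‖x i‖ ^ β i := fun i =>
      Real.mul_rpow (norm_nonneg _) (norm_nonneg _)
    simp only [h1, Finset.prod_mul_distrib]
    have h2 : ∏ i, ‖t i‖ ^ β i = ‖∏ i, t i ^ D i‖ := by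
      have h3 : ∀ i, ‖t i‖ ^ β i = ‖t i‖ ^ (D i : ℝ) * ∏ l, (‖t i‖ ^ (u i l : ℝ)) ^ q l := by
        intro i
        have h4 : 0 < ‖t i‖ := norm_pos_iff.2 (ht0 i)
        rw [hβ i, Real.rpow_add h4, Real.rpow_sum_of_pos h4]
        congr 1
        refine Finset.prod_congr rfl fun l _ => ?_
        rw [mul_comm, Real.rpow_mul h4.le]
      simp only [h3, Finset.prod_mul_distrib]
      rw [Finset.prod_comm]
      have h5 : ∀ l, ∏ i, (‖t i‖ ^ (u i l : ℝ)) ^ q l = 1 := by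
        intro l
        rw [Real.finsetProd_rpow _ _ fun i _ => Real.rpow_nonneg (norm_nonneg _) _]
        have h6 : ∏ i, ‖t i‖ ^ (u i l : ℝ) = 1 := by
          have h7 := congrArg norm (ht1 l)
          rw [norm_prod, norm_one] at h7
          simp only [norm_zpow] at h7
          simp only [Real.rpow_intCast]
          exact h7
        rw [h6, Real.one_rpow]
      rw [Finset.prod_congr rfl fun l _ => h5 l, Finset.prod_const_one, mul_one]
      simp only [norm_prod, norm_zpow, Real.rpow_intCast]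
    rw [h2, mul_assoc]

end Pool.Agent.U976.TBd
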