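import Pool.Agent.U976.TBd.UF
import Pool.Agent.U976.TBd.CU3

/-!
# Generalised abundance with one multiple for all nef line bundles
-/

set_option autoImplicit false

namespace Pool.Agent.U976.TBd

open Pool.Agent.W594.SYZ2 Pool.Agent.W594.SYZ2.TQ Pool.Agent.TH735.AQ Q47.MM Q47.TB Q47.EB
open MvPolynomial

variable {V : Type*} [NormedAddCommGroup V] [NormedSpace ℂ V] {Γ : Subgroup (V ≃ᵃ[ℂ] V)}
  {ι : Type*} [Fintype ι] {n : ℕ}

/-- The characters of the torus, with one exponent. -/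
theorem chars_root_unif {u : ι → Fin n → ℤ} {S : Set (Set ι)} (hS : IsSmoothFan u S)
    {c : ι → LineBundle Γ} {Fc : ι → V → ℂ} {m : ℕ} {ρ : V → ℂ} {d : ι → ℤ}
    {F : V → MvPolynomial ι ℂ} {L₀ : LineBundle Γ} {F₀ : V → ℂ}
    (hF : Q47.TB.IsLogPluricanonical u c m ρ d F L₀) (hw : ToricKlt S m F)
    {kp : ℕ} (hkp : 1 ≤ kp) {b0 : ι → ℕ}
    (hb0 : LinEquiv u (fun i => (b0 i : ℤ)) (fun i => kp * (d i - m))) :
    ∃ K : ℕ, 1 ≤ K ∧ ∀ (p : Fin n → ℤ) (b : V), (∀ α : ι →₀ ℕ, (∃ v, coeff α (F v) ≠ 0) →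
      chi (twz L₀ c fun i => (m : ℤ) - α i) (zp Fc F₀ fun i => (m : ℤ) - α i) b = 1) →
      ∏ i, chi (c i) (Fc i) b ^ ((K : ℤ) * ∑ l, p l * u i l) = 1 := by
  classical
  choose K hK hroot using fun l : Fin n => chars_root (Fc := Fc) (F₀ := F₀) hS hF hw hkp hb0
    (Pi.single l (1 : ℤ))
  refine ⟨∏ l, K l, Finset.one_le_prod' fun l _ => hK l, fun p b hb => ?_⟩
  have hne : ∀ i, chi (c i) (Fc i) b ≠ 0 := fun i => chi_ne_zero _ _ _
  have hdvd : ∀ l, ∃ J : ℕ, ∏ l, K l = K l * J := fun l =>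
    Finset.dvd_prod_of_mem K (Finset.mem_univ l)
  choose J hJ using hdvd
  have h1 : ∀ l, ∏ i, chi (c i) (Fc i) b ^ ((K l : ℤ) * u i l) = 1 := by
    intro l
    have h2 := hroot l b hb
    simpa [Pi.single_apply] using h2
  have h2 : ∀ i, chi (c i) (Fc i) b ^ (((∏ l, K l : ℕ) : ℤ) * ∑ l, p l * u i l)
      = ∏ l, (chi (c i) (Fc i) b ^ ((K l : ℤ) * u i l)) ^ ((J l : ℤ) * p l) := by
    intro i
    rw [Finset.mul_sum, zpow_sum' _ _ (hne i)]
    refine Finset.prod_congr rfl fun l _ => ?_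
    rw [← zpow_mul]
    congr 1
    rw [hJ l]
    push_cast
    ring
  simp only [h2]
  rw [Finset.prod_comm]
  refine Finset.prod_eq_one fun l _ => ?_
  rw [Finset.prod_zpow, h1 l, one_zpow]

variable [FiniteDimensional ℂ V]

/-- Generalised abundance with one multiple for all nef line bundles. -/
theorem gen_unif (hΓ : IsTorusQuotient Γ) {ρ : V → ℂ}
    (hρ : IsRamification Γ ρ) {u : ι → Fin n → ℤ} {S : Set (Set ι)} (hS : IsSmoothFan u S)
    {c : ι → LineBundle Γ} {Hc : ι → V → V → ℂ} (hc : ∀ i, IsChernForm (c i) (Hc i))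
    {m : ℕ} {d : ι → ℤ} {F : V → MvPolynomial ι ℂ} {L₀ : LineBundle Γ} {H₀ : V → V → ℂ}
    (hL₀ : IsChernForm L₀ H₀)
    (hF : Q47.TB.IsLogPluricanonical u c m ρ d F L₀) (hw : ToricKlt S m F)
    {kp : ℕ} (hkp : 1 ≤ kp) {b0 : ι → ℕ}
    (hb0 : LinEquiv u (fun i => (b0 i : ℤ)) (fun i => kp * (d i - m))) :
    ∃ q₀ : ℕ, 1 ≤ q₀ ∧ ∀ {D : ι → ℤ} {L : LineBundle Γ} {H : V → V → ℂ}, IsChernForm L H →
      Nef u S Hc D H → ∀ {t : ℕ},
      Nef u S Hc (fun i => t * D i - (d i - m)) (fun v w => t * H v w - H₀ v w) →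
      ∃ R : LineBundle Γ, IsFlat R ∧ ∀ (v : V) (x : ι → ℂ), {i | x i = 0} ∈ S →
        ∃ G', SecPow u c (fun i => (Nat.card (Lin Γ) : ℤ) * D i)
          (tensor (L.pow (Nat.card (Lin Γ))) R) q₀ G' ∧ eval x (G' v) ≠ 0 := by
  classical
  obtain ⟨hH₀, F₀, hF₀, hFe₀⟩ := hL₀
  choose hHc Fc hFc hFce using hc
  have hp₀ : IsPot L₀ H₀ F₀ := ⟨hF₀, hFe₀⟩
  have hpc : ∀ i, IsPot (c i) (Hc i) (Fc i) := fun i => ⟨hFc i, hFce i⟩
  have := finite_Lin hΓ
  have : Fintype (Lin Γ) := Fintype.ofFinite _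
  have hG1 : 1 ≤ Nat.card (Lin Γ) := Nat.card_pos
  obtain ⟨K, hK, hroot'⟩ := chars_root_unif (Fc := Fc) (F₀ := F₀) hS hF hw hkp hb0
  refine ⟨Nat.card (Lin Γ) * K * expo (Module.finrank ℂ V),
    Nat.mul_pos (Nat.mul_pos hG1 hK) (expo_pos _), ?_⟩
  intro D L H hL hDn t hn
  obtain ⟨hH, FL, hFL, hFLe⟩ := hL
  have hpL : IsPot L H FL := ⟨hFL, hFLe⟩
  -- the flat line bundle
  have hHD : IsHermitian (zf Hc H fun i => -D i) := herm_zf hH hHc _
  obtain ⟨ℓ, hℓ, hχ⟩ := exists_inv_real hΓ hHD (pot_twz hpL hpc fun i => -D i)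
  obtain ⟨G, hG⟩ : ∃ G, G = Nat.card (Lin Γ) := ⟨_, rfl⟩
  rw [← hG] at hχ hG1
  have hℓ' : ∀ γ ∈ Γ, ∀ v, (-ℓ) (γ.linear v) = (-ℓ) v := fun γ hγ v => by
    rw [LinearMap.neg_apply, LinearMap.neg_apply, hℓ γ hγ]
  obtain ⟨R, hR⟩ : ∃ R, R = flat (-ℓ) hℓ' := ⟨_, rfl⟩
  have hRf : IsFlat R := hR ▸ flat_isFlat _ _
  rw [← hG]
  refine ⟨R, hRf, fun v x hx => ?_⟩
  obtain ⟨k, hk1⟩ : ∃ k : ℕ, k = 1 := ⟨_, rfl⟩
  have hk : 1 ≤ k := hk1.ge
  obtain ⟨β, hβ0, hβ1, hβn1⟩ := nef_one hS hDn _ hx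
  have hβ : LinEquiv u (fun i => (β i : ℤ)) (fun i => k * D i) := by
    rw [hk1]
    simpa only [Nat.cast_one, one_mul] using hβ1
  have hβn : IsNefForm (frm Hc H k β) := by
    intro w
    have h1 := hβn1 w
    rw [hk1]
    simpa only [frm, Nat.cast_one, one_mul] using h1
  obtain ⟨q, hq⟩ := id hβ
  have hq' : ∀ i, (β i : ℤ) = k * D i + ∑ l, q l * u i l := hq
  have hβG : LinEquiv u (fun i => ((G * β i : ℕ) : ℤ)) (fun i => k * ((G : ℤ) * D i)) := by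
    refine ⟨fun l => G * q l, fun i => ?_⟩
    have h1 := hq' i
    simp only
    rw [Nat.cast_mul, h1]
    have h2 : ∑ l, (G : ℤ) * q l * u i l = G * ∑ l, q l * u i l := by
      rw [Finset.mul_sum]
      exact Finset.sum_congr rfl fun l _ => by ring
    rw [h2]
    ring
  have hgg : GG ((Q47.TB.tw ((tensor (L.pow G) R).pow k) c 1 fun i => G * β i).pow
      (G * K * expo (Module.finrank ℂ V))) := ?_
  · obtain ⟨s, hs, hs0⟩ := hgg v
    refine ⟨_, secPow_monomial hβG hs (by rw [hk1]; ring), ?_⟩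
    rw [eval_monomial, Finsupp.prod_fintype _ _ fun i => pow_zero _]
    refine mul_ne_zero hs0 (Finset.prod_ne_zero_iff.2 fun i _ => ?_)
    by_cases hi : x i = 0
    · rw [Finsupp.equivFunOnFinite_symm_apply_apply, hβ0 i hi, mul_zero, mul_zero, pow_zero]
      exact one_ne_zero
    · exact pow_ne_zero _ hi
  -- the line bundle `B`
  rw [tw_eq_twz]
  obtain ⟨z, hz⟩ : ∃ z : ι → ℤ, z = fun i => -((G * β i : ℕ) : ℤ) := ⟨_, rfl⟩
  rw [← hz]
  obtain ⟨M₁, hM₁⟩ : ∃ M₁, M₁ = (tensor (L.pow G) R).pow k := ⟨_, rfl⟩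
  obtain ⟨H₁, hH₁⟩ : ∃ H₁ : V → V → ℂ, H₁ = fun v w => (k : ℂ) * ((G : ℂ) * H v w) := ⟨_, rfl⟩
  obtain ⟨F₁, hF₁⟩ : ∃ F₁ : V → ℂ, F₁ = fun v => (k : ℂ) * ((G : ℂ) * FL v) := ⟨_, rfl⟩
  have hp₁ : IsPot M₁ H₁ F₁ := by
    rw [hM₁, hH₁, hF₁]
    exact pot_pow (pot_flat (pot_pow hpL G) hRf) k
  have hherm₁ : IsHermitian H₁ := by
    rw [hH₁]
    exact herm_smul (herm_smul hH G) k
  rw [← hM₁]
  have hQ : IsHermitian (zf Hc H₁ z) := herm_zf hherm₁ hHc z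
  have hpQ := pot_twz hp₁ hpc z
  have hQfrm : ∀ x y, zf Hc H₁ z x y = (G : ℂ) * frm Hc H k β x y := by
    intro x y
    rw [zf, hH₁, hz, frm, mul_sub, Finset.mul_sum, sub_eq_add_neg, ← Finset.sum_neg_distrib]
    congr 1
    · ring
    · refine Finset.sum_congr rfl fun i _ => ?_
      push_cast
      ring
  have hG0 : (G : ℂ) ≠ 0 := by
    have : G ≠ 0 := by omega
    exact_mod_cast this
  have hk0 : (k : ℂ) ≠ 0 := by
    have : k ≠ 0 := by omega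
    exact_mod_cast this
  have hQn : IsNefForm (zf Hc H₁ z) := by
    intro x
    rw [hQfrm, nat_re]
    exact mul_nonneg (Nat.cast_nonneg _) (hβn x)
  -- the space
  let U : Submodule ℂ V :=
    { carrier := {x | x ∈ ker hQ ∧ ∀ g ∈ Lin Γ, g x = x}
      zero_mem' := ⟨(ker hQ).zero_mem, fun g _ => map_zero g⟩
      add_mem' := fun {a b} ha hb => ⟨(ker hQ).add_mem ha.1 hb.1, fun g hg => by
        rw [map_add, ha.2 g hg, hb.2 g hg]⟩
      smul_mem' := fun a x hx => ⟨(ker hQ).smul_mem a hx.1, fun g hg => by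
        rw [map_smul, hx.2 g hg]⟩ }
  have hUspan : ∀ x ∈ U, x ∈ Submodule.span ℝ {b : V | b ∈ latt Γ ∧ b ∈ U} := fun x hx =>
    span_inv hΓ hQ hpQ hQn hx.1 hx.2
  have hforms : ∀ x ∈ U, (∀ α : ι →₀ ℕ, (∃ v, coeff α (F v) ≠ 0) →
      ∀ y, zf Hc H₀ (fun i => (m : ℤ) - α i) x y = 0) ∧
      ∀ (p : Fin n → ℤ) (y : V), ∑ i, ((∑ l, p l * u i l : ℤ) : ℂ) * Hc i x y = 0 := by
    intro x hx
    refine forms_zero hΓ hρ hS hHc hpc hH₀ hp₀ hF hw hkp hb0 hn hk hβ hx.2 ?_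
    have h1 : zf Hc H₁ z x x = 0 := hx.1 x
    rw [hQfrm, mul_eq_zero] at h1
    rw [h1.resolve_left hG0, Complex.zero_re]
  have hUD : ∀ x ∈ U, x ∈ ker hHD := by
    intro x hx y
    have h1 : zf Hc H₁ z x y = 0 := hx.1 y
    rw [hQfrm, mul_eq_zero] at h1
    have h2 := h1.resolve_left hG0
    have h3 := (hforms x hx).2 q y
    have h4 : frm Hc H k β x y = k * zf Hc H (fun i => -D i) x y
        - ∑ i, ((∑ l, q l * u i l : ℤ) : ℂ) * Hc i x y := by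
      rw [frm, zf, mul_add, Finset.mul_sum, add_sub_assoc, ← Finset.sum_sub_distrib,
        sub_eq_add_neg, ← Finset.sum_neg_distrib]
      congr 1
      refine Finset.sum_congr rfl fun i _ => ?_
      have h5 : ((β i : ℤ) : ℂ) = ((k * D i + ∑ l, q l * u i l : ℤ) : ℂ) := by rw [hq' i]
      rw [Int.cast_add, Int.cast_mul, Int.cast_natCast, Int.cast_natCast] at h5
      rw [h5, Int.cast_neg]
      ring
    rw [h4, h3, sub_zero, mul_eq_zero] at h2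
    exact h2.resolve_left hk0
  -- the characters
  have hroot := hroot' q
  have hUone : ∀ b ∈ latt Γ, b ∈ U → chi (twz M₁ c z) (zp Fc F₁ z) b ^ K = 1 := by
    intro b hb hbU
    have h1 := hroot b fun α hα => chi_one hΓ hρ (hF.holo α) hα (coef_pluri hF α)
      (herm_zf hH₀ hHc _) (pot_twz hp₀ hpc _) U hUspan (fun x hx g hg _ => hx.2 g hg)
      (fun x hx y => (hforms x hx).1 α hα y) hb hbU
    have h2 := hχ b hb (hUD b hbU)
    rw [chi_twz] at h2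
    have h3 : R.e (tr b hb) 0 = Complex.exp (((-ℓ) b : ℝ) * Complex.I) := by
      rw [hR]
      change Complex.exp (((-ℓ) (((tr b hb : Γ) : V ≃ᵃ[ℂ] V) 0) : ℂ) * Complex.I) = _
      rw [tr_apply, add_zero]
    have h4 : Complex.exp ((ℓ b : ℂ) * Complex.I) * R.e (tr b hb) 0 = 1 := by
      rw [h3, ← Complex.exp_add, LinearMap.neg_apply]
      push_cast
      rw [neg_mul, add_neg_cancel, Complex.exp_zero]
    rw [h2] at h4
    have hne : ∀ i, chi (c i) (Fc i) b ≠ 0 := fun i => chi_ne_zero _ _ _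
    have h5 : chi M₁ F₁ b = (chi L FL b ^ G * R.e (tr b hb) 0) ^ k := by
      rw [hM₁, hF₁]
      rw [chi_pow' (tensor (L.pow G) R) (fun v => (G : ℂ) * FL v) k b, chi_tensor_flat _ _ _ hb,
        chi_pow']
    have h6 : chi L FL b ^ G * R.e (tr b hb) 0 = ∏ i, chi (c i) (Fc i) b ^ ((G : ℤ) * D i) := by
      have e1 : ∏ i, chi (c i) (Fc i) b ^ ((G : ℤ) * D i)
          = ((∏ i, chi (c i) (Fc i) b ^ (-D i)) ^ G)⁻¹ := by
        rw [← Finset.prod_pow, ← Finset.prod_inv_distrib]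
        refine Finset.prod_congr rfl fun i _ => ?_
        rw [← zpow_natCast, ← zpow_mul, ← zpow_neg]
        congr 1
        ring
      have e2 : (∏ i, chi (c i) (Fc i) b ^ (-D i)) ^ G ≠ 0 :=
        pow_ne_zero _ (Finset.prod_ne_zero_iff.2 fun i _ => zpow_ne_zero _ (hne i))
      rw [e1]
      refine eq_inv_of_mul_eq_one_left ?_
      rw [← h4, mul_pow]
      ring
    rw [chi_twz, h5, h6, ← Finset.prod_pow, ← Finset.prod_mul_distrib, ← Finset.prod_pow]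
    have h7 : ∏ i, chi (c i) (Fc i) b ^ ((K : ℤ) * ∑ l, q l * u i l) = 1 := h1
    have h8 : (∏ i, chi (c i) (Fc i) b ^ ((K : ℤ) * ∑ l, q l * u i l)) ^ (-(G : ℤ)) = 1 := by
      rw [h7, one_zpow]
    rw [← h8, ← Finset.prod_zpow]
    refine Finset.prod_congr rfl fun i _ => ?_
    rw [← zpow_natCast, ← zpow_natCast, ← zpow_mul, ← zpow_mul, ← zpow_add₀ (hne i), ← zpow_mul]
    congr 1
    rw [hz]
    simp only
    have := hq' i
    push_cast
    rw [this]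
    ring
  have hroot'' : ∀ b ∈ latt Γ, b ∈ ker hQ → chi (twz M₁ c z) (zp Fc F₁ z) b ^ (G * K) = 1 := by
    intro b hb hbK
    obtain ⟨h1, h2, h3⟩ := chi_sum hΓ hQ hpQ hb hbK
    rw [← hG] at h3
    rw [pow_mul, ← h3]
    refine hUone _ h1 ⟨h2, fun g hg => ?_⟩
    rw [map_sum]
    refine Fintype.sum_equiv (Equiv.mulLeft (⟨g, hg⟩ : Lin Γ)) _ _ ?_
    intro g'
    rfl
  have hGK : 1 ≤ G * K := Nat.mul_pos hG1 hK
  rw [← pow_pow']
  refine gg_of_root hΓ (herm_smul hQ (G * K)) (pot_pow hpQ (G * K)) ?_ (N := 1) le_rfl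
    (one_dvd _) ?_
  · intro x
    rw [nat_re]
    exact mul_nonneg (Nat.cast_nonneg _) (hQn x)
  · intro b hb hbK
    rw [pow_one, chi_pow']
    refine hroot'' b hb fun y => ?_
    have h1 : ((G * K : ℕ) : ℂ) * zf Hc H₁ z b y = 0 := hbK y
    have h2 : ((G * K : ℕ) : ℂ) ≠ 0 := by
      have : G * K ≠ 0 := by omega
      exact_mod_cast this
    exact (mul_eq_zero.1 h1).resolve_left h2

end Pool.Agent.U976.TBd
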