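import Pool.Agent.U976.TBd.GU1

/-!
# One multiple for all nef line bundles on Kummer covers with numerically trivial canonical bundle
-/

set_option autoImplicit false

namespace Pool.Agent.U976.TBd

open Pool.Agent.W594.SYZ2 Pool.Agent.W594.SYZ2.TQ Pool.Agent.TH735.AQ Q47.MM Q47.TB Q47.EB
open MvPolynomial

variable {V : Type*} [NormedAddCommGroup V] [NormedSpace ℂ V]
  {Γ : Subgroup (V ≃ᵃ[ℂ] V)} {ι : Type*} [Fintype ι] {n : ℕ}
  {u : ι → Fin n → ℤ} {S : Set (Set ι)} {c : ι → LineBundle Γ}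
  {k : ℕ} {e : Fin k → ι → ℤ} {A : Fin k → LineBundle Γ} {m : Fin k → ℕ}
  {F : Fin k → V → MvPolynomial ι ℂ}

omit [Fintype ι] in
/-- Powers of flat line bundles are flat. -/
theorem flat_pow {R : LineBundle Γ} (hR : IsFlat R) (q : ℕ) : IsFlat (R.pow q) := by
  obtain ⟨h1, h2⟩ := hR
  refine ⟨fun γ v w => ?_, fun γ v => ?_⟩
  · change R.e γ v ^ q = R.e γ w ^ q
    rw [h1 γ v w]
  · change ‖R.e γ v ^ q‖ = 1
    rw [norm_pow, h2 γ v, one_pow]

/-- Generalised abundance for Kummer covers, with one multiple for all line bundles. -/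
theorem gen_kummer_unif [FiniteDimensional ℂ V] (hΓ : IsTorusQuotient Γ) {ρ : V → ℂ}
    (hρ : IsRamification Γ ρ)
    (hS : IsSmoothFan u S) {Hc : ι → V → V → ℂ} (hc : ∀ i, IsChernForm (c i) (Hc i))
    (hm : ∀ j, 1 ≤ m j)
    (hF : ∀ j, IsSection u c (fun i => m j * e j i) (fun γ v => (A j).e γ v ^ m j) (F j))
    (hnc : GenNormalCrossing S F) {p : ℕ} (hp : 1 ≤ p) {L₀ : LineBundle Γ}
    (hL₀ : IsCoverCanonical c A m p ρ L₀) {H₀ : V → V → ℂ} (hH₀ : IsChernForm L₀ H₀)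
    (hpsef : CoverPsef u S c e A m F (canClass e m p) L₀) :
    ∃ N : ℕ, 1 ≤ N ∧ ∀ {D : ι → ℤ} {L : LineBundle Γ} {H : V → V → ℂ}, IsChernForm L H →
      Nef u S Hc D H → ∀ {t : ℕ},
      Nef u S Hc (fun i => t * D i - canClass e m p i) (fun v w => t * H v w - H₀ v w) →
      ∃ R : LineBundle Γ, IsFlat R ∧ ∀ (v : V) (x : ι → ℂ), {i | x i = 0} ∈ S →
        ∃ G', IsSection u c (fun i => N * D i) (fun γ v => L.e γ v ^ N * R.e γ v) G' ∧
          eval x (G' v) ≠ 0 := by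
  obtain ⟨q, hq, β, ⟨r, hr⟩, -⟩ := (kummer_psef hΓ hρ hS hc hm hF hnc hL₀ hH₀).1 hpsef
  have hb0 : LinEquiv u (fun i => ((deg' m * β i : ℕ) : ℤ))
      (fun i => q * (totClass e m p i - ((p * deg' m : ℕ) : ℤ))) := by
    refine ⟨fun l => deg' m * r l, fun i => ?_⟩
    have h1 : (β i : ℤ) = q * canClass e m p i + ∑ l, r l * u i l := hr i
    simp only
    rw [totClass_eq hm]
    push_cast
    rw [h1, mul_add, Finset.mul_sum]
    have h2 : ∑ l, (deg' m : ℤ) * r l * u i l = ∑ l, (deg' m : ℤ) * (r l * u i l) :=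
      Finset.sum_congr rfl fun l _ => by ring
    rw [h2]
    ring
  obtain ⟨q₀, hq₀, hmain⟩ := gen_unif hΓ hρ hS hc (chern_pow' hH₀ (deg' m))
    (total_pair hF hL₀) (total_klt hS hm hF hnc hp) hq hb0
  have hfin := finite_Lin hΓ
  have hG1 : 1 ≤ Nat.card (Lin Γ) := Nat.card_pos
  obtain ⟨g, hg⟩ : ∃ g, g = Nat.card (Lin Γ) := ⟨_, rfl⟩
  rw [← hg] at hG1 hmain
  refine ⟨q₀ * g, Nat.mul_pos hq₀ hG1, ?_⟩
  intro D L H hL hDn t hn
  have h1 := nef_mul hn (deg' m)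
  have h2 : (fun i => (deg' m : ℤ) * (t * D i - canClass e m p i))
      = fun i => ((deg' m * t : ℕ) : ℤ) * D i - (totClass e m p i - ((p * deg' m : ℕ) : ℤ)) := by
    funext i
    rw [totClass_eq hm]
    push_cast
    ring
  have h3 : (fun v w => ((deg' m : ℕ) : ℂ) * ((t : ℂ) * H v w - H₀ v w))
      = fun v w => ((deg' m * t : ℕ) : ℂ) * H v w - ((deg' m : ℕ) : ℂ) * H₀ v w := by
    funext v w
    push_cast
    ring
  rw [h2, h3] at h1
  obtain ⟨R, hR, hs⟩ := hmain hL hDn h1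
  refine ⟨R.pow q₀, flat_pow hR q₀, fun v x hx => ?_⟩
  obtain ⟨G', hG', h0⟩ := hs v x hx
  refine ⟨G', isSection_congr hG' (fun i => ?_) (fun γ w => ?_) fun w => rfl, h0⟩
  · push_cast
    ring
  · change (L.e γ w ^ g * R.e γ w) ^ q₀ = L.e γ w ^ (q₀ * g) * R.e γ w ^ q₀
    rw [mul_pow, ← pow_mul, mul_comm g q₀]

/-- Some multiple, up to a flat line bundle, is generated by global sections on the Kummer cover. -/
def CoverFreeUpToFlat (u : ι → Fin n → ℤ) (S : Set (Set ι)) (c : ι → LineBundle Γ)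
    (e : Fin k → ι → ℤ) (A : Fin k → LineBundle Γ) (m : Fin k → ℕ)
    (F : Fin k → V → MvPolynomial ι ℂ) (N : ℕ) (D : ι → ℤ) (L : LineBundle Γ) : Prop :=
  ∃ R : LineBundle Γ, IsFlat R ∧
    ∀ (v : V) (x : ι → ℂ) (y : Fin k → ℂ), {i | x i = 0} ∈ S →
      (∀ j, y j ^ m j = eval x (F j v)) →
      ∃ G, IsCoverSection u c e A m (fun i => N * D i) (fun γ v => L.e γ v ^ N * R.e γ v) G ∧
        eval (Sum.elim x y) (G v) ≠ 0

/-- Nef line bundles on Kummer covers with numerically trivial canonical bundle: one multiple. -/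
theorem kummer_cy_unif [FiniteDimensional ℂ V] (hΓ : IsTorusQuotient Γ) {ρ : V → ℂ}
    (hρ : IsRamification Γ ρ)
    (hS : IsSmoothFan u S) {Hc : ι → V → V → ℂ} (hc : ∀ i, IsChernForm (c i) (Hc i))
    (hm : ∀ j, 1 ≤ m j)
    (hF : ∀ j, IsSection u c (fun i => m j * e j i) (fun γ v => (A j).e γ v ^ m j) (F j))
    (hnc : GenNormalCrossing S F) {p : ℕ} (hp : 1 ≤ p) {L₀ : LineBundle Γ}
    (hL₀ : IsCoverCanonical c A m p ρ L₀) {H₀ : V → V → ℂ} (hH₀ : IsChernForm L₀ H₀)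
    (hn : Nef u S Hc (canClass e m p) H₀)
    (hn' : Nef u S Hc (fun i => -canClass e m p i) fun v w => -H₀ v w) :
    ∃ N : ℕ, 1 ≤ N ∧ ∀ (D : ι → ℤ) (L : LineBundle Γ) (H : V → V → ℂ), IsChernForm L H →
      (Nef u S Hc D H ↔ CoverFreeUpToFlat u S c e A m F N D L) := by
  have hpsef : CoverPsef u S c e A m F (canClass e m p) L₀ := by
    obtain ⟨-, h2, h3⟩ := kummer_psef hΓ hρ hS hc hm hF hnc hL₀ hH₀
    obtain ⟨q, hq, β, -, hβ, hf⟩ := hn ∅ hS.empty_mem
    exact h3 (h2 ⟨q, hq, β, hβ, hf⟩)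
  obtain ⟨N, hN, hmain⟩ := gen_kummer_unif hΓ hρ hS hc hm hF hnc hp hL₀ hH₀ hpsef
  refine ⟨N, hN, fun D L H hL => ⟨fun h => ?_, ?_⟩⟩
  · have h1 := nef_add h hn'
    have e1 : (fun i => D i + -canClass e m p i)
        = fun i => ((1 : ℕ) : ℤ) * D i - canClass e m p i := by
      funext i
      push_cast
      ring
    have e2 : (fun v w => H v w + -H₀ v w) = fun v w => ((1 : ℕ) : ℂ) * H v w - H₀ v w := by
      funext v w
      push_cast
      ring
    rw [e1, e2] at h1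
    obtain ⟨R, hR, hs⟩ := hmain hL h h1
    refine ⟨R, hR, fun v x y hx _ => ?_⟩
    obtain ⟨G', hG', h0⟩ := hs v x hx
    refine ⟨_, cover_of_section hm hG', ?_⟩
    rw [eval_rename]
    exact h0
  · rintro ⟨R, hR, h⟩
    have hsa : CoverSemiample u S c e A m F (fun i => N * D i) (tensor (L.pow N) R) := by
      refine ⟨1, le_rfl, fun v x y hx hy => ?_⟩
      obtain ⟨G, hG, h0⟩ := h v x y hx hy
      refine ⟨G, ?_, h0⟩
      have e1 : (fun i => ((1 : ℕ) : ℤ) * ((N : ℤ) * D i)) = fun i => (N : ℤ) * D i := by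
        funext i
        push_cast
        ring
      have e2 : (fun (γ : Γ) (v : V) => (tensor (L.pow N) R).e γ v ^ 1)
          = fun γ v => L.e γ v ^ N * R.e γ v := by
        funext γ v
        rw [pow_one]
        rfl
      rw [e1, e2]
      exact hG
    exact nef_of_numsemi hΓ hc hL hN hR ((cover_semiample_iff hF hm _ _).1 hsa)

end Pool.Agent.U976.TBd
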