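import Pool.Agent.U976.TBd.K1

/-!
# Kummer covers of toric bundles over torus quotients: nef canonical bundles are semiample
-/

set_option autoImplicit false

namespace Pool.Agent.U976.TBd

open Pool.Agent.W594.SYZ2 Pool.Agent.W594.SYZ2.TQ Pool.Agent.TH735.AQ Q47.MM Q47.TB Q47.EB
open MvPolynomial

variable {V : Type*} [NormedAddCommGroup V] [NormedSpace ℂ V]
  {Γ : Subgroup (V ≃ᵃ[ℂ] V)} {ι : Type*} [Fintype ι] {n : ℕ}
  {u : ι → Fin n → ℤ} {S : Set (Set ι)} {c : ι → LineBundle Γ} {k : ℕ}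
  {e : Fin k → ι → ℤ} {A : Fin k → LineBundle Γ} {m : Fin k → ℕ}
  {F : Fin k → V → MvPolynomial ι ℂ}

/-- The product of the degrees. -/
def deg' (m : Fin k → ℕ) : ℕ := ∏ j, m j

/-- The exponent `p M (1 - 1 / m_j)` of `F_j`. -/
def wt' (m : Fin k → ℕ) (p : ℕ) (j : Fin k) : ℕ := p * ((∏ l ∈ Finset.univ.erase j, m l) * (m j - 1))

theorem deg_eq (m : Fin k → ℕ) (j : Fin k) : deg' m = m j * ∏ l ∈ Finset.univ.erase j, m l :=
  (Finset.mul_prod_erase Finset.univ m (Finset.mem_univ j)).symm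

theorem mul_wt (m : Fin k → ℕ) (p : ℕ) (j : Fin k) :
    m j * wt' m p j = p * (m j - 1) * deg' m := by
  rw [wt', deg_eq m j]
  ring

theorem wt_le (m : Fin k → ℕ) (p : ℕ) (j : Fin k) : wt' m p j ≤ p * deg' m := by
  rw [wt', deg_eq m j, mul_comm (m j)]
  exact Nat.mul_le_mul_left _ (Nat.mul_le_mul_left _ (Nat.sub_le _ _))

theorem deg_pos (hm : ∀ j, 1 ≤ m j) : 1 ≤ deg' m := Finset.one_le_prod' fun j _ => hm j

/-- The class of the divisor `∑ (1 - 1 / m_j) D_j`, times `p M`. -/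
def totClass (e : Fin k → ι → ℤ) (m : Fin k → ℕ) (p : ℕ) (i : ι) : ℤ :=
  ∑ j, (wt' m p j : ℤ) * (m j * e j i)

omit [Fintype ι] in
theorem totClass_eq (hm : ∀ j, 1 ≤ m j) (p : ℕ) (i : ι) :
    totClass e m p i - ((p * deg' m : ℕ) : ℤ) = deg' m * canClass e m p i := by
  have h1 : ∀ j, (wt' m p j : ℤ) * (m j * e j i) = deg' m * (p * (((m j : ℤ) - 1) * e j i)) := by
    intro j
    have h2 : (m j : ℤ) * wt' m p j = p * (m j - 1) * deg' m := by
      have := mul_wt m p j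
      have h3 : ((m j * wt' m p j : ℕ) : ℤ) = ((p * (m j - 1) * deg' m : ℕ) : ℤ) := by rw [this]
      push_cast [Nat.cast_sub (hm j)] at h3
      exact h3
    linear_combination (e j i) * h2
  rw [totClass, Finset.sum_congr rfl fun j _ => h1 j, canClass, ← Finset.mul_sum, ← Finset.mul_sum]
  push_cast
  ring

/-- The pair `(Y, ∑ (1 - 1 / m_j) D_j)`. -/
theorem total_pair
    (hF : ∀ j, IsSection u c (fun i => m j * e j i) (fun γ v => (A j).e γ v ^ m j) (F j))
    {p : ℕ} {ρ : V → ℂ} {L : LineBundle Γ} (hL : IsCoverCanonical c A m p ρ L) :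
    Q47.TB.IsLogPluricanonical u c (p * deg' m) ρ (totClass e m p)
      (fun v => ∏ j, F j v ^ wt' m p j) (L.pow (deg' m)) := by
  have h := isSection_prod Finset.univ fun j _ => isSection_pow (hF j) (wt' m p j)
  refine ⟨h.holo, h.deg, fun γ v x => ?_⟩
  have h1 := h.eq γ v x
  have h2 : (L.pow (deg' m)).e γ v = L.e γ v ^ deg' m := rfl
  have h3 : ∏ j, ((A j).e γ v ^ m j) ^ wt' m p j
      = (∏ j, (A j).e γ v ^ (p * (m j - 1))) ^ deg' m := by
    rw [← Finset.prod_pow]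
    exact Finset.prod_congr rfl fun j _ => by rw [← pow_mul, ← pow_mul, mul_wt]
  rw [h3] at h1
  rw [h1, h2]
  have h4 := congrArg (· ^ deg' m) (hL γ v)
  simp only [mul_pow, ← pow_mul] at h4
  linear_combination -(eval x (∏ j, F j v ^ wt' m p j)) * h4

omit [Fintype ι] in
theorem total_lc [Fintype ι] (hS : IsSmoothFan u S)
    (hF : ∀ j, IsSection u c (fun i => m j * e j i) (fun γ v => (A j).e γ v ^ m j) (F j))
    (hnc : GenNormalCrossing S F) (p : ℕ) :
    ToricLC S (p * deg' m) (fun v => ∏ j, F j v ^ wt' m p j) :=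
  toricLC_of_nc hS hF hnc (wt_le m p)

omit [NormedAddCommGroup V] [NormedSpace ℂ V] in
/-- Multiples of nef line bundles. -/
theorem nef_mul {Hc : ι → V → V → ℂ} {D : ι → ℤ} {H : V → V → ℂ} (hn : Nef u S Hc D H) (M : ℕ) :
    Nef u S Hc (fun i => M * D i) fun v w => (M : ℂ) * H v w := by
  intro σ hσ
  obtain ⟨q, hq, β, hβ0, ⟨r, hr⟩, hf⟩ := hn σ hσ
  refine ⟨q, hq, fun i => M * β i, fun i hi => by simp only [hβ0 i hi, mul_zero],
    ⟨fun l => M * r l,
    fun i => ?_⟩, fun v => ?_⟩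
  · have h1 : (β i : ℤ) = q * D i + ∑ l, r l * u i l := hr i
    simp only
    push_cast
    rw [h1, mul_add, Finset.mul_sum]
    have h2 : ∑ l, (M : ℤ) * r l * u i l = ∑ l, (M : ℤ) * (r l * u i l) :=
      Finset.sum_congr rfl fun l _ => by ring
    rw [h2]
    ring
  · have h1 : (q : ℂ) * ((M : ℂ) * H v v) - ∑ i, ((M * β i : ℕ) : ℂ) * Hc i v v
        = (M : ℂ) * ((q : ℂ) * H v v - ∑ i, (β i : ℂ) * Hc i v v) := by
      rw [mul_sub, Finset.mul_sum]
      congr 1
      · ring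
      · exact Finset.sum_congr rfl fun i _ => by push_cast; ring
    change 0 ≤ ((q : ℂ) * ((M : ℂ) * H v v) - ∑ i, ((M * β i : ℕ) : ℂ) * Hc i v v).re
    rw [h1, nat_re]
    exact mul_nonneg (Nat.cast_nonneg M) (hf v)

omit [Fintype ι] in
/-- Roots of semiample line bundles. -/
theorem semiample_of_pow {D : ι → ℤ} {L : LineBundle Γ} {M : ℕ} (hM : 1 ≤ M)
    (h : Semiample u S c (fun i => M * D i) (L.pow M)) : Semiample u S c D L := by
  obtain ⟨q, hq, h⟩ := h
  refine ⟨q * M, Nat.mul_pos hq hM, fun v x hx => ?_⟩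
  obtain ⟨G, hG, hG0⟩ := h v x hx
  refine ⟨G, isSection_congr hG (fun i => ?_) (fun γ v => ?_) fun v => rfl, hG0⟩
  · push_cast
    ring
  · change (L.e γ v ^ M) ^ q = _
    rw [← pow_mul, mul_comm]

/-- `O_Y(D)` is nef on the fibres of `Y → X`. -/
def FibreNef (u : ι → Fin n → ℤ) (S : Set (Set ι)) (D : ι → ℤ) : Prop :=
  ∀ σ ∈ S, ∃ q : ℕ, 1 ≤ q ∧ ∃ β : ι → ℕ, (∀ i ∈ σ, β i = 0) ∧
    LinEquiv u (fun i => (β i : ℤ)) fun i => q * D i

variable [FiniteDimensional ℂ V]

/-- The canonical bundle of the Kummer cover is nef if and only if it is semiample. -/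
theorem kummer_semiample_iff (hΓ : IsTorusQuotient Γ) {ρ : V → ℂ} (hρ : IsRamification Γ ρ)
    (hS : IsSmoothFan u S) {Hc : ι → V → V → ℂ} (hc : ∀ i, IsChernForm (c i) (Hc i))
    (hm : ∀ j, 1 ≤ m j)
    (hF : ∀ j, IsSection u c (fun i => m j * e j i) (fun γ v => (A j).e γ v ^ m j) (F j))
    (hnc : GenNormalCrossing S F) {p : ℕ} {L : LineBundle Γ}
    (hL : IsCoverCanonical c A m p ρ L) {H : V → V → ℂ} (hH : IsChernForm L H) :
    CoverSemiample u S c e A m F (canClass e m p) L ↔ Nef u S Hc (canClass e m p) H := by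
  rw [cover_semiample_iff hF hm]
  constructor
  · exact nef_of_semiample hΓ hc hH
  · intro hn
    refine semiample_of_pow (deg_pos hm) ?_
    have h1 := nef_mul hn (deg' m)
    have h2 : (fun i => (deg' m : ℤ) * canClass e m p i)
        = fun i => totClass e m p i - ((p * deg' m : ℕ) : ℤ) :=
      funext fun i => (totClass_eq hm p i).symm
    rw [h2] at h1 ⊢
    exact semiample_of_nef hΓ hρ hS hc (chern_pow' hH (deg' m)) (total_pair hF hL)
      (total_lc hS hF hnc p) h1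

/-- If the base is not ramified in codimension one then it is enough that the canonical bundle is nef on
the fibres. -/
theorem kummer_nef_of_fibre (hΓ : IsTorusQuotient Γ) {ρ : V → ℂ} (hρ : IsRamification Γ ρ)
    (h0 : ∀ v, ρ v ≠ 0)
    (hS : IsSmoothFan u S) {Hc : ι → V → V → ℂ} (hc : ∀ i, IsChernForm (c i) (Hc i))
    (hm : ∀ j, 1 ≤ m j)
    (hF : ∀ j, IsSection u c (fun i => m j * e j i) (fun γ v => (A j).e γ v ^ m j) (F j))
    (hnc : GenNormalCrossing S F) {p : ℕ} {L : LineBundle Γ}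
    (hL : IsCoverCanonical c A m p ρ L) {H : V → V → ℂ} (hH : IsChernForm L H)
    (hn : FibreNef u S (canClass e m p)) : Nef u S Hc (canClass e m p) H := by
  intro σ hσ
  obtain ⟨q, hq, β, hβ0, hβ⟩ := hn σ hσ
  refine ⟨q, hq, β, hβ0, hβ, fun v => ?_⟩
  have hd := deg_pos hm
  have h1 : LinEquiv u (fun i => ((deg' m * β i : ℕ) : ℤ))
      (fun i => q * (totClass e m p i - ((p * deg' m : ℕ) : ℤ))) := by
    obtain ⟨r, hr⟩ := hβ
    refine ⟨fun l => deg' m * r l, fun i => ?_⟩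
    have h1 : (β i : ℤ) = q * canClass e m p i + ∑ l, r l * u i l := hr i
    simp only
    rw [totClass_eq hm]
    push_cast
    rw [h1, mul_add, Finset.mul_sum]
    have h2 : ∑ l, (deg' m : ℤ) * r l * u i l = ∑ l, (deg' m : ℤ) * (r l * u i l) :=
      Finset.sum_congr rfl fun l _ => by ring
    rw [h2]
    ring
  have h2 := frm_unram hΓ hρ h0 hS hc (chern_pow' hH (deg' m)) (total_pair hF hL)
      (total_lc hS hF hnc p) hq h1 v
  have h3 : frm Hc (fun v w => ((deg' m : ℕ) : ℂ) * H v w) q (fun i => deg' m * β i) v v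
      = ((deg' m : ℕ) : ℂ) * ((q : ℂ) * H v v - ∑ i, (β i : ℂ) * Hc i v v) := by
    rw [frm, mul_sub, Finset.mul_sum]
    congr 1
    · ring
    · exact Finset.sum_congr rfl fun i _ => by push_cast; ring
  rw [h3, nat_re] at h2
  have h4 : (0 : ℝ) < deg' m := by exact_mod_cast hd
  exact nonneg_of_mul_nonneg_right h2 h4

end Pool.Agent.U976.TBd
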