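import Pool.Agent.U976.TBd.CUDefs

/-!
# Pairs on Kummer covers of toric bundles over torus quotients
-/

set_option autoImplicit false

namespace Pool.Agent.U976.TBd

open Pool.Agent.W594.SYZ2 Pool.Agent.TH735.AQ MvPolynomial

variable {V : Type*} [NormedAddCommGroup V] [NormedSpace ℂ V] {Γ : Subgroup (V ≃ᵃ[ℂ] V)}
  {ι : Type*} [Fintype ι] {n k : ℕ}

/-- `O_{Y'}(p (K_{Y'} + Δ))`, where `p Δ` is the pullback to `Y'` of the divisor `B = 0` of a section
`B` of `O_Y(b; M)`, is the pullback of `O_Y(D; L)`, `D = p (∑ (m_j - 1) e_j - (1, ..., 1)) + b`: for a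
local section `G` of the pullback the `p`-canonical form
`G ρ ^ p / B (dv ∧ ω / ∏ y_j ^ (m_j - 1)) ^ p` is invariant under `Γ`, where `ω` is the form with values
in the canonical bundle of the toric variety, homogeneous of the class of `∑ D_i`. (`ρ` defines the
ramification divisor of `V → X`.) -/
def IsCoverAdjoint (c : ι → LineBundle Γ) (A : Fin k → LineBundle Γ) (m : Fin k → ℕ)
    (p : ℕ) (ρ : V → ℂ) (M L : LineBundle Γ) : Prop :=
  ∀ (γ : Γ) (v : V), L.e γ v * ρ ((γ : V ≃ᵃ[ℂ] V) v) ^ p *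
    (LinearMap.det ((γ : V ≃ᵃ[ℂ] V).linear : V →ₗ[ℂ] V) * ∏ i, (c i).e γ v) ^ p =
      ρ v ^ p * M.e γ v * ∏ j, (A j).e γ v ^ (p * (m j - 1))

/-- The class `D = p (∑ (m_j - 1) e_j - (1, ..., 1)) + b` of `p (K_{Y'} + Δ)`. -/
def adjClass (e : Fin k → ι → ℤ) (m : Fin k → ℕ) (p : ℕ) (b : ι → ℤ) (i : ι) : ℤ :=
  canClass e m p i + b i

/-- For all torus invariant prime divisors over the general fibre of `Y → X` the discrepancy of the pair
`(Y, ∑ (1 - 1 / m_j) div F_j + (1 / p) div B)`, whose pullback to `Y'` is `K_{Y'} + Δ`, is at least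
`-1` (this is so if the pair `(Y', Δ)` is log canonical): for the prime divisor given by the vector
`∑ a_i u_i` in the cone `{i | a_i ≠ 0}` the multiplicity of a divisor `G = 0` is the minimum of
`∑ a_i α_i` over the monomials `x ^ α` of `G`, and the log discrepancy of the toric variety is
`∑ a_i`; the condition is stated for the multiple `p ∏ m_j` of the pair. -/
def CoverLC (S : Set (Set ι)) (m : Fin k → ℕ) (p : ℕ) (F : Fin k → V → MvPolynomial ι ℂ)
    (B : V → MvPolynomial ι ℂ) : Prop :=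
  ∀ a : ι → ℕ, {i | a i ≠ 0} ∈ S → ∃ α : ι →₀ ℕ,
    (∃ v, coeff α ((∏ j, F j v ^ (p * ((∏ l ∈ Finset.univ.erase j, m l) * (m j - 1)))) *
      B v ^ ∏ j, m j) ≠ 0) ∧ ∑ i, a i * α i ≤ p * (∏ j, m j) * ∑ i, a i

end Pool.Agent.U976.TBd
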