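import Pool.Agent.U976.TBd.E

/-!
# Real exponents
-/

set_option autoImplicit false

namespace Pool.Agent.U976.TBd

open Q47.TB MvPolynomial

section Ev

variable {I : Type*} [Fintype I] {R : Type*} [CommRing R]

/-- The value of the integral linear form `n`. -/
def ev (n : I → ℤ) (x : I → R) : R := ∑ i, (n i : R) * x i

theorem ev_single [DecidableEq I] (i : I) (x : I → R) : ev (Pi.single i 1) x = x i := by
  rw [ev, Finset.sum_eq_single i]
  · rw [Pi.single_eq_same]
    push_cast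
    ring
  · intro j _ hj
    rw [Pi.single_eq_of_ne hj]
    push_cast
    ring
  · intro h
    exact absurd (Finset.mem_univ i) h

theorem ev_add (n n' : I → ℤ) (x : I → R) : ev (n + n') x = ev n x + ev n' x := by
  rw [ev, ev, ev, ← Finset.sum_add_distrib]
  refine Finset.sum_congr rfl fun i _ => ?_
  rw [Pi.add_apply]
  push_cast
  ring

theorem ev_neg (n : I → ℤ) (x : I → R) : ev (-n) x = -ev n x := by
  rw [ev, ev, ← Finset.sum_neg_distrib]
  refine Finset.sum_congr rfl fun i _ => ?_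
  rw [Pi.neg_apply]
  push_cast
  ring

theorem ev_sub (n n' : I → ℤ) (x : I → R) : ev (n - n') x = ev n x - ev n' x := by
  rw [sub_eq_add_neg, ev_add, ev_neg, sub_eq_add_neg]

theorem ev_smul (a : ℤ) (n : I → ℤ) (x : I → R) : ev (a • n) x = a * ev n x := by
  rw [ev, ev, Finset.mul_sum]
  refine Finset.sum_congr rfl fun i _ => ?_
  rw [Pi.smul_apply, smul_eq_mul]
  push_cast
  ring

theorem ev_zero (x : I → R) : ev 0 x = 0 := by
  rw [ev]
  exact Finset.sum_eq_zero fun i _ => by rw [Pi.zero_apply, Int.cast_zero, zero_mul]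

theorem ev_sum {K : Type*} (s : Finset K) (n : K → I → ℤ) (x : I → R) :
    ev (∑ k ∈ s, n k) x = ∑ k ∈ s, ev (n k) x := by
  classical
  induction s using Finset.induction_on with
  | empty => rw [Finset.sum_empty, Finset.sum_empty, ev_zero]
  | insert k s hk ih => rw [Finset.sum_insert hk, Finset.sum_insert hk, ev_add, ih]

end Ev

/-- Decomposition of real points of rational cones. -/
theorem cone_decomp' {I : Type*} [Fintype I] {J : Type*} [Finite J] (n : J → I → ℤ) (x : I → ℝ)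
    (hx : ∀ j, 0 ≤ ev (n j) x) :
    ∃ (κ : Type) (_ : Fintype κ) (c : κ → ℝ) (b : κ → I → ℤ), (∀ k, 0 < c k) ∧
      (∀ i, ∑ k, c k * b k i = x i) ∧ ∀ k j, 0 ≤ ev (n j) (b k) ∧
        (0 < ev (n j) x → 0 < ev (n j) (b k)) := by
  let e := Fintype.equivFin I
  have key : ∀ j, ∑ i, (n j (e.symm i) : ℝ) * x (e.symm i) = ev (n j) x := fun j =>
    (Fintype.sum_equiv e.symm _ (fun i => (n j i : ℝ) * x i) fun i => rfl)
  obtain ⟨κ, hκ, c, b, hc, hb, hbr⟩ := Q47.MM.cone_decomp (fun j i => n j (e.symm i))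
    (fun i => x (e.symm i)) (fun j => by rw [key]; exact hx j)
  refine ⟨κ, hκ, c, fun k i => b k (e i), hc, fun i => ?_, fun k j => ?_⟩
  · rw [hb (e i), e.symm_apply_apply]
  · have h1 : ∑ i, n j (e.symm i) * b k i = ev (n j) fun i => b k (e i) := by
      rw [ev]
      refine Fintype.sum_equiv e.symm _ _ fun i => ?_
      rw [e.apply_symm_apply]
      simp
    have h2 := hbr k j
    rw [h1, key] at h2
    exact h2

variable {ι : Type*} [Fintype ι] {n : ℕ}

/-- Separation by integral vectors. -/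
theorem real_sep {J : Type*} [Finite J] [Nonempty J] (p : J → Fin n → ℝ)
    (h : (0 : Fin n → ℝ) ∉ convexHull ℝ (Set.range p)) :
    ∃ w : Fin n → ℤ, ∀ j, 0 < ∑ k, p j k * w k := by
  classical
  have := Fintype.ofFinite J
  have hfin : (Set.range p).Finite := Set.finite_range _
  obtain ⟨f, t, hf0, hft⟩ := geometric_hahn_banach_point_closed
    (convex_convexHull ℝ _) (hfin.isClosed_convexHull (𝕜 := ℝ)) h
  rw [map_zero] at hf0
  let x : Fin n → ℝ := fun k => f (Pi.single k 1)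
  have hfx : ∀ y : Fin n → ℝ, f y = ∑ k, y k * x k := by
    intro y
    have h1 := LinearMap.pi_apply_eq_sum_univ (f : (Fin n → ℝ) →ₗ[ℝ] ℝ) y
    have h2 : f y = (f : (Fin n → ℝ) →ₗ[ℝ] ℝ) y := rfl
    rw [h2, h1]
    refine Finset.sum_congr rfl fun k _ => ?_
    rw [smul_eq_mul]
    congr 1
    change f (fun j => if k = j then 1 else 0) = f (Pi.single k 1)
    congr 1
    ext j
    rw [Pi.single_apply]
    simp only [eq_comm]
  have hx : ∀ j, 0 < ∑ k, p j k * x k := by
    intro j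
    rw [← hfx]
    exact hf0.trans (hft _ (subset_convexHull ℝ _ ⟨j, rfl⟩))
  obtain ⟨N, hN⟩ := exists_nat_gt (∑ j, (∑ k, |p j k|) / ∑ k, p j k * x k)
  refine ⟨fun k => ⌊(N : ℝ) * x k⌋, fun j => ?_⟩
  have h1 : (∑ k, |p j k|) / (∑ k, p j k * x k) < N := by
    refine lt_of_le_of_lt ?_ hN
    exact Finset.single_le_sum (f := fun j => (∑ k, |p j k|) / ∑ k, p j k * x k)
      (fun j _ => div_nonneg (Finset.sum_nonneg fun k _ => abs_nonneg _) (hx j).le)
      (Finset.mem_univ j)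
  rw [div_lt_iff₀ (hx j)] at h1
  have h2 : (N : ℝ) * ∑ k, p j k * x k - ∑ k, p j k * ((⌊(N : ℝ) * x k⌋ : ℤ) : ℝ)
      ≤ ∑ k, |p j k| := by
    rw [Finset.mul_sum, ← Finset.sum_sub_distrib]
    refine Finset.sum_le_sum fun k _ => ?_
    have h3 : (N : ℝ) * (p j k * x k) - p j k * ((⌊(N : ℝ) * x k⌋ : ℤ) : ℝ)
        = p j k * ((N : ℝ) * x k - ((⌊(N : ℝ) * x k⌋ : ℤ) : ℝ)) := by ring
    rw [h3]
    have h4 := Int.floor_le ((N : ℝ) * x k)
    have h5 := Int.lt_floor_add_one ((N : ℝ) * x k)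
    refine (le_abs_self _).trans ?_
    rw [abs_mul]
    refine mul_le_of_le_one_right (abs_nonneg _) ?_
    rw [abs_le]
    constructor <;> linarith
  linarith

/-- The weight inequalities put the real adjoint exponents into the sum of the Newton polytopes. -/
theorem real_comb {u : ι → Fin n → ℤ} {S : Set (Set ι)} (hS : IsSmoothFan u S) {r : ℕ}
    (T : Fin r → Finset (ι →₀ ℕ)) {d : Fin r → ι → ℤ}
    (hT : ∀ j, ∀ α ∈ T j, LinEquiv u (fun i => (α i : ℤ)) (d j)) {b : Fin r → ℝ}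
    (hb : ∀ j, 0 ≤ b j)
    (hw : ∀ a : ι → ℕ, {i | a i ≠ 0} ∈ S → ∃ α : Fin r → (ι →₀ ℕ), (∀ j, α j ∈ T j) ∧
      ∑ j, b j * ∑ i, (a i : ℝ) * α j i ≤ ∑ i, (a i : ℝ))
    {z : ι → ℝ} {q : Fin n → ℝ}
    (hz : ∀ i, z i = ∑ j, b j * d j i + ∑ l, q l * u i l) (hz1 : ∀ i, 1 ≤ z i) :
    ∃ lam : Fin r → (ι →₀ ℕ) → ℝ, (∀ j α, 0 ≤ lam j α) ∧ (∀ j, ∑ α ∈ T j, lam j α = b j) ∧
      ∀ i, z i = ∑ j, ∑ α ∈ T j, lam j α * α i := by
  classical
  choose mα hmα using fun (j : Fin r) (α : T j) => hT j α α.2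
  let J := (j : Fin r) → T j
  have hJ : Nonempty J := by
    obtain ⟨α, hα, -⟩ := hw (fun _ => 0) (by simpa using hS.empty_mem)
    exact ⟨fun j => ⟨α j, hα j⟩⟩
  let p : J → Fin n → ℝ := fun τ l => ∑ j, b j * mα j (τ j) l - q l
  have hp : ∀ (τ : J) (i : ι), ∑ l, p τ l * u i l = ∑ j, b j * ((τ j : ι →₀ ℕ) i : ℝ) - z i := by
    intro τ i
    have h1 : ∀ j, ((τ j : ι →₀ ℕ) i : ℝ) = d j i + ∑ l, (mα j (τ j) l : ℝ) * u i l := by
      intro j
      have h2 : ((τ j : ι →₀ ℕ) i : ℤ) = d j i + ∑ l, mα j (τ j) l * u i l := hmα j (τ j) i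
      have h3 : ((((τ j : ι →₀ ℕ) i : ℕ) : ℤ) : ℝ)
          = ((d j i + ∑ l, mα j (τ j) l * u i l : ℤ) : ℝ) := by rw [h2]
      push_cast at h3
      exact h3
    have h4 : ∑ l, p τ l * u i l
        = ∑ j, b j * ∑ l, (mα j (τ j) l : ℝ) * u i l - ∑ l, q l * u i l := by
      simp only [p, sub_mul, Finset.sum_sub_distrib, Finset.sum_mul, Finset.mul_sum]
      congr 1
      rw [Finset.sum_comm]
      exact Finset.sum_congr rfl fun _ _ => Finset.sum_congr rfl fun _ _ => by ring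
    rw [h4, hz i]
    simp only [h1, mul_add, Finset.sum_add_distrib]
    ring
  have hhull : (0 : Fin n → ℝ) ∈ convexHull ℝ (Set.range p) := by
    by_contra hcon
    obtain ⟨w, hwpos⟩ := real_sep p hcon
    obtain ⟨a, ⟨haS, ha⟩, -⟩ := hS.rep w
    obtain ⟨α, hα, hle⟩ := hw a haS
    have h1 := hwpos fun j => ⟨α j, hα j⟩
    have h2 : ∑ k, p (fun j => ⟨α j, hα j⟩) k * w k
        = ∑ i, (a i : ℝ) * (∑ j, b j * (α j i : ℝ) - z i) := by
      calc ∑ k, p (fun j => ⟨α j, hα j⟩) k * w k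
          = ∑ k, ∑ i, (a i : ℝ) * (p (fun j => ⟨α j, hα j⟩) k * u i k) := by
            refine Finset.sum_congr rfl fun k _ => ?_
            have e1 : ((∑ i, (a i : ℤ) * u i k : ℤ) : ℝ) = ((w k : ℤ) : ℝ) := by rw [ha k]
            rw [← e1]
            push_cast
            rw [Finset.mul_sum]
            exact Finset.sum_congr rfl fun i _ => by ring
        _ = ∑ i, (a i : ℝ) * ∑ k, p (fun j => ⟨α j, hα j⟩) k * u i k := by
            rw [Finset.sum_comm]
            exact Finset.sum_congr rfl fun i _ => (Finset.mul_sum _ _ _).symm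
        _ = _ := Finset.sum_congr rfl fun i _ => by rw [hp]
    rw [h2] at h1
    have h3 : ∑ i, (a i : ℝ) * (∑ j, b j * (α j i : ℝ) - z i)
        = ∑ j, b j * ∑ i, (a i : ℝ) * α j i - ∑ i, (a i : ℝ) * z i := by
      simp only [mul_sub, Finset.sum_sub_distrib, Finset.mul_sum]
      congr 1
      rw [Finset.sum_comm]
      exact Finset.sum_congr rfl fun _ _ => Finset.sum_congr rfl fun _ _ => by ring
    have h4 : ∑ i, (a i : ℝ) ≤ ∑ i, (a i : ℝ) * z i := Finset.sum_le_sum fun i _ =>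
      le_mul_of_one_le_right (Nat.cast_nonneg _) (hz1 i)
    rw [h3] at h1
    linarith
  rw [mem_convexHull_iff_exists_fintype] at hhull
  obtain ⟨κ, hκ, w, y, hw0, hw1, hy, hwy⟩ := hhull
  choose g hg using hy
  refine ⟨fun j α => b j * ∑ k, if ((g k j : T j) : ι →₀ ℕ) = α then w k else 0,
    fun j α => mul_nonneg (hb j) (Finset.sum_nonneg fun k _ => ?_), fun j => ?_, fun i => ?_⟩
  · split_ifs
    · exact hw0 k
    · exact le_rfl
  · rw [← Finset.mul_sum, Finset.sum_comm]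
    have h1 : ∀ k, (∑ α ∈ T j, if ((g k j : T j) : ι →₀ ℕ) = α then w k else 0) = w k := by
      intro k
      rw [Finset.sum_ite_eq, if_pos (g k j).2]
    simp only [h1, hw1, mul_one]
  · have h1 : ∀ j, ∑ α ∈ T j, (b j * ∑ k, if ((g k j : T j) : ι →₀ ℕ) = α then w k else 0)
        * (α i : ℝ) = ∑ k, w k * (b j * (((g k j : T j) : ι →₀ ℕ) i : ℝ)) := by
      intro j
      have h2 : ∀ α ∈ T j, (b j * ∑ k, if ((g k j : T j) : ι →₀ ℕ) = α then w k else 0)
          * (α i : ℝ) = ∑ k, if ((g k j : T j) : ι →₀ ℕ) = α then w k * (b j * (α i : ℝ))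
            else 0 := by
        intro α _
        rw [Finset.mul_sum, Finset.sum_mul]
        refine Finset.sum_congr rfl fun k _ => ?_
        split_ifs <;> ring
      rw [Finset.sum_congr rfl h2, Finset.sum_comm]
      refine Finset.sum_congr rfl fun k _ => ?_
      rw [Finset.sum_ite_eq, if_pos (g k j).2]
    rw [Finset.sum_congr rfl fun j _ => h1 j, Finset.sum_comm]
    have h3 : ∀ k, ∑ j, w k * (b j * (((g k j : T j) : ι →₀ ℕ) i : ℝ))
        = w k * ∑ l, p (g k) l * u i l + w k * z i := by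
      intro k
      rw [← Finset.mul_sum, hp]
      ring
    rw [Finset.sum_congr rfl fun k _ => h3 k, Finset.sum_add_distrib, ← Finset.sum_mul, hw1,
      one_mul]
    have h4 : ∑ k, w k * ∑ l, p (g k) l * u i l = 0 := by
      have h5 : ∀ l, ∑ k, w k * p (g k) l = 0 := by
        intro l
        have h6 := congrFun hwy l
        rw [Finset.sum_apply] at h6
        simp only [Pi.smul_apply, smul_eq_mul, Pi.zero_apply] at h6
        rw [← h6]
        exact Finset.sum_congr rfl fun k _ => by rw [hg k]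
      calc ∑ k, w k * ∑ l, p (g k) l * u i l = ∑ l, (∑ k, w k * p (g k) l) * u i l := by
            simp only [Finset.mul_sum, Finset.sum_mul]
            rw [Finset.sum_comm]
            exact Finset.sum_congr rfl fun _ _ => Finset.sum_congr rfl fun _ _ => by ring
        _ = 0 := Finset.sum_eq_zero fun l _ => by rw [h5 l, zero_mul]
    rw [h4, zero_add]

end Pool.Agent.U976.TBd
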