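import Pool.Agent.U976.TBd.RD1

/-!
# Rational pieces of real exponents
-/

set_option autoImplicit false

namespace Pool.Agent.U976.TBd

open Q47.TB MvPolynomial

variable {ι : Type*} [Fintype ι] {n : ℕ}

/-- Decomposition of real points of rational cones, for a finite set of integral linear forms. -/
theorem cone_decomp_set {I : Type*} [Fintype I] (A : Set (I → ℤ)) (hA : A.Finite) (x : I → ℝ)
    (hx : ∀ n ∈ A, 0 ≤ ev n x) :
    ∃ (κ : Type) (_ : Fintype κ) (c : κ → ℝ) (b : κ → I → ℤ), (∀ k, 0 < c k) ∧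
      (∀ i, ∑ k, c k * b k i = x i) ∧ ∀ k, ∀ n ∈ A, 0 ≤ ev n (b k) ∧
        (0 < ev n x → 0 < ev n (b k)) := by
  have : Finite A := hA
  obtain ⟨κ, hκ, c, b, h1, h2, h3⟩ := cone_decomp' (fun n : A => n.1) x fun n => hx n.1 n.2
  exact ⟨κ, hκ, c, b, h1, h2, fun k n hn => h3 k ⟨n, hn⟩⟩

/-- The index set of the variables. -/
abbrev Vars {r : ℕ} (T : Fin r → Finset (ι →₀ ℕ)) (P : Type*) (n : ℕ) :=
  Unit ⊕ (Fin r ⊕ ((P × Fin n) ⊕ (P × ((j : Fin r) × T j))))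

/-- Real exponents are positive combinations of rational exponents. -/
theorem rational_pieces {u : ι → Fin n → ℤ} {r : ℕ} (T : Fin r → Finset (ι →₀ ℕ))
    (d : Fin r → ι → ℤ) {P : Type*} [Fintype P] (Z : P → Set ι) {G : Type*} [Finite G]
    (nn : G → ℤ) (nj : Fin r → G → ℤ) (N : ι → G → ℤ) {b : Fin r → ℝ} (hb : ∀ j, 0 ≤ b j)
    (q : P → Fin n → ℝ) (lam : P → Fin r → (ι →₀ ℕ) → ℝ) (hlam0 : ∀ p j α, 0 ≤ lam p j α)
    (hlam : ∀ p j, ∑ α ∈ T j, lam p j α = b j) (β : P → ι → ℝ)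
    (hβ : ∀ p i, β p i = ∑ j, b j * d j i - 1 + ∑ l, q p l * u i l)
    (hβ0 : ∀ p i, 0 ≤ β p i) (hβZ : ∀ p, ∀ i ∈ Z p, β p i = 0)
    (hz : ∀ p i, β p i + 1 = ∑ j, ∑ α ∈ T j, lam p j α * α i)
    (ht : ∀ p g, 0 ≤ nn g + ∑ j, b j * nj j g - ∑ i, β p i * N i g) :
    ∃ (κ : Type) (_ : Fintype κ) (t : κ → ℝ) (m : κ → ℕ) (w : κ → Fin r → ℕ)
      (β' : κ → P → ι → ℕ) (lam' : κ → P → Fin r → (ι →₀ ℕ) → ℕ),
      (∀ k, 0 < t k) ∧ (∑ k, t k * m k = 1) ∧ (∀ j, ∑ k, t k * w k j = b j) ∧ (∀ k, 1 ≤ m k) ∧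
      ∀ k p, (∀ i ∈ Z p, β' k p i = 0) ∧
        LinEquiv u (fun i => (β' k p i : ℤ)) (fun i => ∑ j, (w k j : ℤ) * d j i - m k) ∧
        (∀ j, ∑ α ∈ T j, lam' k p j α = w k j) ∧
        (∀ i, β' k p i + m k = ∑ j, ∑ α ∈ T j, lam' k p j α * α i) ∧
        ∀ g, 0 ≤ (m k : ℤ) * nn g + ∑ j, (w k j : ℤ) * nj j g - ∑ i, (β' k p i : ℤ) * N i g := by
  classical
  let I := Vars T P n
  let vs : I → ℤ := Pi.single (Sum.inl ()) 1
  let vb : Fin r → I → ℤ := fun j => Pi.single (Sum.inr (Sum.inl j)) 1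
  let vq : P → Fin n → I → ℤ := fun p l => Pi.single (Sum.inr (Sum.inr (Sum.inl (p, l)))) 1
  let vl : P → (j : Fin r) → T j → I → ℤ := fun p j α =>
    Pi.single (Sum.inr (Sum.inr (Sum.inr (p, ⟨j, α⟩)))) 1
  let vβ : P → ι → I → ℤ := fun p i => ∑ j, d j i • vb j - vs + ∑ l, u i l • vq p l
  let f6 : P → Fin r → I → ℤ := fun p j => ∑ α : T j, vl p j α - vb j
  let f7 : P → ι → I → ℤ := fun p i => vβ p i + vs
    - ∑ j, ∑ α : T j, (((α : ι →₀ ℕ) i : ℕ) : ℤ) • vl p j α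
  let f8 : P → G → I → ℤ := fun p g => nn g • vs + ∑ j, nj j g • vb j - ∑ i, N i g • vβ p i
  let A : Set (I → ℤ) := ({vs} ∪ Set.range vb ∪ Set.range (fun x : P × ι => vβ x.1 x.2)) ∪
    (Set.range (fun x : {x : P × ι // x.2 ∈ Z x.1} => -vβ x.1.1 x.1.2) ∪
      Set.range (fun x : P × ((j : Fin r) × T j) => vl x.1 x.2.1 x.2.2)) ∪
    (Set.range (fun x : P × Fin r => f6 x.1 x.2) ∪ Set.range (fun x : P × Fin r => -f6 x.1 x.2)) ∪
    (Set.range (fun x : P × ι => f7 x.1 x.2) ∪ Set.range (fun x : P × ι => -f7 x.1 x.2)) ∪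
    Set.range (fun x : P × G => f8 x.1 x.2)
  have hA : A.Finite := by
    refine Set.Finite.union (Set.Finite.union (Set.Finite.union (Set.Finite.union
      (Set.Finite.union (Set.Finite.union ?_ ?_) ?_) (Set.Finite.union ?_ ?_))
      (Set.Finite.union ?_ ?_)) (Set.Finite.union ?_ ?_)) ?_
    all_goals first | exact Set.finite_singleton _ | exact Set.finite_range _
  -- values
  have evs : ∀ {R : Type} [CommRing R] (x : I → R), ev vs x = x (Sum.inl ()) := fun x =>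
    ev_single _ x
  have evb : ∀ {R : Type} [CommRing R] (j : Fin r) (x : I → R),
      ev (vb j) x = x (Sum.inr (Sum.inl j)) := fun j x => ev_single _ x
  have evq : ∀ {R : Type} [CommRing R] (p : P) (l : Fin n) (x : I → R),
      ev (vq p l) x = x (Sum.inr (Sum.inr (Sum.inl (p, l)))) := fun p l x => ev_single _ x
  have evl : ∀ {R : Type} [CommRing R] (p : P) (j : Fin r) (α : T j) (x : I → R),
      ev (vl p j α) x = x (Sum.inr (Sum.inr (Sum.inr (p, ⟨j, α⟩)))) := fun p j α x =>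
    ev_single _ x
  have evβ : ∀ {R : Type} [CommRing R] (p : P) (i : ι) (x : I → R),
      ev (vβ p i) x = ∑ j, (d j i : R) * x (Sum.inr (Sum.inl j)) - x (Sum.inl ())
        + ∑ l, (u i l : R) * x (Sum.inr (Sum.inr (Sum.inl (p, l)))) := by
    intro R _ p i x
    simp only [vβ, ev_add, ev_sub, ev_sum, ev_smul, evs, evb, evq]
  have ev6 : ∀ {R : Type} [CommRing R] (p : P) (j : Fin r) (x : I → R),
      ev (f6 p j) x = ∑ α : T j, x (Sum.inr (Sum.inr (Sum.inr (p, ⟨j, α⟩))))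
        - x (Sum.inr (Sum.inl j)) := by
    intro R _ p j x
    simp only [f6, ev_sub, ev_sum, evl, evb]
  have ev7 : ∀ {R : Type} [CommRing R] (p : P) (i : ι) (x : I → R),
      ev (f7 p i) x = ev (vβ p i) x + x (Sum.inl ())
        - ∑ j, ∑ α : T j, (((α : ι →₀ ℕ) i : ℕ) : R) *
          x (Sum.inr (Sum.inr (Sum.inr (p, ⟨j, α⟩)))) := by
    intro R _ p i x
    simp only [f7, ev_add, ev_sub, ev_sum, ev_smul, evs, evl, Int.cast_natCast]
  have ev8 : ∀ {R : Type} [CommRing R] (p : P) (g : G) (x : I → R),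
      ev (f8 p g) x = (nn g : R) * x (Sum.inl ()) + ∑ j, (nj j g : R) * x (Sum.inr (Sum.inl j))
        - ∑ i, (N i g : R) * ev (vβ p i) x := by
    intro R _ p g x
    simp only [f8, ev_add, ev_sub, ev_sum, ev_smul, evs, evb]
  -- the real point
  let X : I → ℝ := Sum.elim (fun _ => 1) (Sum.elim b (Sum.elim (fun x => q x.1 x.2)
    (fun x => lam x.1 x.2.1 x.2.2)))
  have hXs : X (Sum.inl ()) = 1 := rfl
  have hXb : ∀ j, X (Sum.inr (Sum.inl j)) = b j := fun j => rfl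
  have hXβ : ∀ p i, ev (vβ p i) X = β p i := by
    intro p i
    rw [evβ, hβ p i]
    change ∑ j, (d j i : ℝ) * b j - 1 + ∑ l, (u i l : ℝ) * q p l = _
    have e1 : ∑ j, (d j i : ℝ) * b j = ∑ j, b j * (d j i : ℝ) :=
      Finset.sum_congr rfl fun j _ => mul_comm _ _
    have e2 : ∑ l, (u i l : ℝ) * q p l = ∑ l, q p l * (u i l : ℝ) :=
      Finset.sum_congr rfl fun j _ => mul_comm _ _
    rw [e1, e2]
  have hX6 : ∀ p j, ev (f6 p j) X = 0 := by
    intro p j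
    rw [ev6]
    change ∑ α : T j, lam p j α - b j = 0
    rw [← hlam p j, Finset.sum_coe_sort (T j) (fun α => lam p j α), sub_self]
  have hX7 : ∀ p i, ev (f7 p i) X = 0 := by
    intro p i
    rw [ev7, hXβ, hXs, hz p i]
    have e1 : ∀ j, ∑ α : T j, (((α : ι →₀ ℕ) i : ℕ) : ℝ) *
          X (Sum.inr (Sum.inr (Sum.inr (p, ⟨j, α⟩)))) = ∑ α ∈ T j, lam p j α * α i := by
      intro j
      rw [← Finset.sum_coe_sort (T j) (fun α => lam p j α * (α i : ℝ))]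
      exact Finset.sum_congr rfl fun α _ => mul_comm _ _
    rw [Finset.sum_congr rfl fun j _ => e1 j, sub_self]
  have hX8 : ∀ p g, 0 ≤ ev (f8 p g) X := by
    intro p g
    rw [ev8]
    have e1 := ht p g
    have e2 : (nn g : ℝ) * X (Sum.inl ()) + ∑ j, (nj j g : ℝ) * X (Sum.inr (Sum.inl j))
        - ∑ i, (N i g : ℝ) * ev (vβ p i) X
        = nn g + ∑ j, b j * nj j g - ∑ i, β p i * N i g := by
      rw [hXs, mul_one]
      congr 1
      · congr 1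
        exact Finset.sum_congr rfl fun j _ => mul_comm _ _
      · exact Finset.sum_congr rfl fun i _ => by rw [hXβ, mul_comm]
    rw [e2]
    exact e1
  have hX : ∀ n ∈ A, 0 ≤ ev n X := by
    rintro n (((((((hn | hn) | hn) | (hn | hn)) | (hn | hn)) | (hn | hn))) | hn)
    · rw [Set.mem_singleton_iff] at hn
      rw [hn, evs, hXs]
      exact zero_le_one
    · obtain ⟨j, rfl⟩ := hn
      rw [evb, hXb]
      exact hb j
    · obtain ⟨x, rfl⟩ := hn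
      rw [hXβ]
      exact hβ0 _ _
    · obtain ⟨x, rfl⟩ := hn
      rw [ev_neg, hXβ, hβZ _ _ x.2, neg_zero]
    · obtain ⟨x, rfl⟩ := hn
      rw [evl]
      exact hlam0 _ _ _
    · obtain ⟨x, rfl⟩ := hn
      rw [hX6]
    · obtain ⟨x, rfl⟩ := hn
      rw [ev_neg, hX6, neg_zero]
    · obtain ⟨x, rfl⟩ := hn
      rw [hX7]
    · obtain ⟨x, rfl⟩ := hn
      rw [ev_neg, hX7, neg_zero]
    · obtain ⟨x, rfl⟩ := hn
      exact hX8 _ _
  obtain ⟨κ, hκ, c, y, hc, hy, hyA⟩ := cone_decomp_set A hA X hX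
  -- the memberships
  have m1 : vs ∈ A := Or.inl (Or.inl (Or.inl (Or.inl (Or.inl (Or.inl rfl)))))
  have m2 : ∀ j, vb j ∈ A := fun j =>
    Or.inl (Or.inl (Or.inl (Or.inl (Or.inl (Or.inr ⟨j, rfl⟩)))))
  have m3 : ∀ p i, vβ p i ∈ A := fun p i =>
    Or.inl (Or.inl (Or.inl (Or.inl (Or.inr ⟨(p, i), rfl⟩))))
  have m4 : ∀ p i, i ∈ Z p → -vβ p i ∈ A := fun p i hi =>
    Or.inl (Or.inl (Or.inl (Or.inr (Or.inl ⟨⟨(p, i), hi⟩, rfl⟩))))
  have m5 : ∀ p j (α : T j), vl p j α ∈ A := fun p j α =>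
    Or.inl (Or.inl (Or.inl (Or.inr (Or.inr ⟨(p, ⟨j, α⟩), rfl⟩))))
  have m6 : ∀ p j, f6 p j ∈ A := fun p j => Or.inl (Or.inl (Or.inr (Or.inl ⟨(p, j), rfl⟩)))
  have m6' : ∀ p j, -f6 p j ∈ A := fun p j => Or.inl (Or.inl (Or.inr (Or.inr ⟨(p, j), rfl⟩)))
  have m7 : ∀ p i, f7 p i ∈ A := fun p i => Or.inl (Or.inr (Or.inl ⟨(p, i), rfl⟩))
  have m7' : ∀ p i, -f7 p i ∈ A := fun p i => Or.inl (Or.inr (Or.inr ⟨(p, i), rfl⟩))
  have m8 : ∀ p g, f8 p g ∈ A := fun p g => Or.inr ⟨(p, g), rfl⟩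
  -- the integral points
  have p1 : ∀ k, 0 < y k (Sum.inl ()) := by
    intro k
    have := (hyA k vs m1).2 (by rw [evs, hXs]; exact one_pos)
    rwa [evs] at this
  have p2 : ∀ k j, 0 ≤ y k (Sum.inr (Sum.inl j)) := by
    intro k j
    have := (hyA k _ (m2 j)).1
    rwa [evb] at this
  have p3 : ∀ k p i, 0 ≤ ev (vβ p i) (y k) := fun k p i => (hyA k _ (m3 p i)).1
  have p4 : ∀ k p, ∀ i ∈ Z p, ev (vβ p i) (y k) = 0 := by
    intro k p i hi
    have h1 := (hyA k _ (m4 p i hi)).1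
    rw [ev_neg] at h1
    have h2 := p3 k p i
    omega
  have p5 : ∀ k p j (α : T j), 0 ≤ y k (Sum.inr (Sum.inr (Sum.inr (p, ⟨j, α⟩)))) := by
    intro k p j α
    have := (hyA k _ (m5 p j α)).1
    rwa [evl] at this
  have p6 : ∀ k p j, ∑ α : T j, y k (Sum.inr (Sum.inr (Sum.inr (p, ⟨j, α⟩))))
      = y k (Sum.inr (Sum.inl j)) := by
    intro k p j
    have h1 := (hyA k _ (m6 p j)).1
    have h2 := (hyA k _ (m6' p j)).1
    rw [ev_neg] at h2
    rw [ev6] at h1 h2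
    omega
  have p7 : ∀ k p i, ev (vβ p i) (y k) + y k (Sum.inl ())
      = ∑ j, ∑ α : T j, (((α : ι →₀ ℕ) i : ℕ) : ℤ) *
          y k (Sum.inr (Sum.inr (Sum.inr (p, ⟨j, α⟩)))) := by
    intro k p i
    have h1 := (hyA k _ (m7 p i)).1
    have h2 := (hyA k _ (m7' p i)).1
    rw [ev_neg] at h2
    rw [ev7] at h1 h2
    omega
  have p8 : ∀ k p g, 0 ≤ nn g * y k (Sum.inl ()) + ∑ j, nj j g * y k (Sum.inr (Sum.inl j))
        - ∑ i, N i g * ev (vβ p i) (y k) := by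
    intro k p g
    have h1 := (hyA k _ (m8 p g)).1
    rw [ev8] at h1
    exact h1
  have t1 : ∀ k, (((y k (Sum.inl ())).toNat : ℕ) : ℤ) = y k (Sum.inl ()) := fun k =>
    Int.toNat_of_nonneg (p1 k).le
  have t2 : ∀ k j, (((y k (Sum.inr (Sum.inl j))).toNat : ℕ) : ℤ) = y k (Sum.inr (Sum.inl j)) :=
    fun k j => Int.toNat_of_nonneg (p2 k j)
  have t3 : ∀ k p i, (((ev (vβ p i) (y k)).toNat : ℕ) : ℤ) = ev (vβ p i) (y k) := fun k p i =>
    Int.toNat_of_nonneg (p3 k p i)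
  refine ⟨κ, hκ, c, fun k => (y k (Sum.inl ())).toNat, fun k j => (y k (Sum.inr (Sum.inl j))).toNat,
    fun k p i => (ev (vβ p i) (y k)).toNat,
    fun k p j α => if h : α ∈ T j then (y k (Sum.inr (Sum.inr (Sum.inr (p, ⟨j, ⟨α, h⟩⟩))))).toNat
      else 0, hc, ?_, fun j => ?_, fun k => ?_, fun k p => ⟨fun i hi => ?_, ?_, fun j => ?_,
      fun i => ?_, fun g => ?_⟩⟩
  · have h1 := hy (Sum.inl ())
    rw [hXs] at h1
    rw [← h1]
    refine Finset.sum_congr rfl fun k _ => ?_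
    have h2 : (((y k (Sum.inl ())).toNat : ℕ) : ℝ) = ((y k (Sum.inl ()) : ℤ) : ℝ) := by
      rw [← Int.cast_natCast, t1 k]
    rw [h2]
  · have h1 := hy (Sum.inr (Sum.inl j))
    rw [hXb] at h1
    rw [← h1]
    refine Finset.sum_congr rfl fun k _ => ?_
    have h2 : (((y k (Sum.inr (Sum.inl j))).toNat : ℕ) : ℝ)
        = ((y k (Sum.inr (Sum.inl j)) : ℤ) : ℝ) := by
      rw [← Int.cast_natCast, t2 k j]
    rw [h2]
  · have h1 := p1 k
    have h2 := t1 k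
    change 1 ≤ (y k (Sum.inl ())).toNat
    omega
  · have h1 := p4 k p i hi
    change (ev (vβ p i) (y k)).toNat = 0
    rw [h1]
    rfl
  · refine ⟨fun l => y k (Sum.inr (Sum.inr (Sum.inl (p, l)))), fun i => ?_⟩
    simp only [t1, t2, t3]
    rw [evβ]
    have e1 : ∑ j, ((d j i : ℤ) : ℤ) * y k (Sum.inr (Sum.inl j))
        = ∑ j, y k (Sum.inr (Sum.inl j)) * d j i :=
      Finset.sum_congr rfl fun j _ => mul_comm _ _
    have e2 : ∑ l, ((u i l : ℤ) : ℤ) * y k (Sum.inr (Sum.inr (Sum.inl (p, l))))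
        = ∑ l, y k (Sum.inr (Sum.inr (Sum.inl (p, l)))) * u i l :=
      Finset.sum_congr rfl fun j _ => mul_comm _ _
    simp only [Int.cast_id] at e1 e2 ⊢
    rw [e1, e2]
  · have h1 : ∀ α ∈ (T j).attach, (if h : (α : ι →₀ ℕ) ∈ T j then
        (y k (Sum.inr (Sum.inr (Sum.inr (p, ⟨j, ⟨α, h⟩⟩))))).toNat else 0)
        = (y k (Sum.inr (Sum.inr (Sum.inr (p, ⟨j, α⟩))))).toNat := by
      intro α _
      rw [dif_pos α.2]
    have h2 : ((∑ α ∈ T j, (if h : α ∈ T j then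
        (y k (Sum.inr (Sum.inr (Sum.inr (p, ⟨j, ⟨α, h⟩⟩))))).toNat else 0) : ℕ) : ℤ)
        = (((y k (Sum.inr (Sum.inl j))).toNat : ℕ) : ℤ) := by
      rw [← Finset.sum_attach, Finset.sum_congr rfl h1, t2, ← p6 k p j, Nat.cast_sum]
      exact Finset.sum_congr rfl fun α _ => Int.toNat_of_nonneg (p5 k p j α)
    exact_mod_cast h2
  · have h1 : ∀ j, ∀ α ∈ (T j).attach, (if h : (α : ι →₀ ℕ) ∈ T j then
        (y k (Sum.inr (Sum.inr (Sum.inr (p, ⟨j, ⟨α, h⟩⟩))))).toNat else 0) * (α : ι →₀ ℕ) i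
        = (y k (Sum.inr (Sum.inr (Sum.inr (p, ⟨j, α⟩))))).toNat * (α : ι →₀ ℕ) i := by
      intro j α _
      rw [dif_pos α.2]
    have h2 : (((ev (vβ p i) (y k)).toNat + (y k (Sum.inl ())).toNat : ℕ) : ℤ)
        = ((∑ j, ∑ α ∈ T j, (if h : α ∈ T j then
        (y k (Sum.inr (Sum.inr (Sum.inr (p, ⟨j, ⟨α, h⟩⟩))))).toNat else 0) * α i : ℕ) : ℤ) := by
      rw [Nat.cast_add, t1, t3, p7 k p i, Nat.cast_sum]
      refine Finset.sum_congr rfl fun j _ => ?_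
      rw [← Finset.sum_attach (T j), Finset.sum_congr rfl (h1 j), Nat.cast_sum]
      refine Finset.sum_congr rfl fun α _ => ?_
      rw [Nat.cast_mul, Int.toNat_of_nonneg (p5 k p j α), mul_comm]
    exact_mod_cast h2
  · simp only [t1, t2, t3]
    have h1 := p8 k p g
    have e1 : ∑ j, nj j g * y k (Sum.inr (Sum.inl j)) = ∑ j, y k (Sum.inr (Sum.inl j)) * nj j g :=
      Finset.sum_congr rfl fun j _ => mul_comm _ _
    have e2 : ∑ i, N i g * ev (vβ p i) (y k) = ∑ i, ev (vβ p i) (y k) * N i g :=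
      Finset.sum_congr rfl fun j _ => mul_comm _ _
    rw [e1, e2, mul_comm (nn g)] at h1
    exact h1

end Pool.Agent.U976.TBd
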