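import Pool.Agent.TH735.AQ.MirDefs
import Pool.Agent.Q47.TB.Defs

/-!
# Pseudo-effective and effective divisors with real coefficients on toric bundles

Notation as in `Pool.Agent.U976.TBd.RDDefs`.
-/

set_option autoImplicit false

namespace Pool.Agent.U976.TBd

open Pool.Agent.W594.SYZ2 Q47.TB MvPolynomial

variable {V : Type*} [NormedAddCommGroup V] [NormedSpace ℂ V] {Γ : Subgroup (V ≃ᵃ[ℂ] V)}
  {ι : Type*} [Fintype ι] {n r : ℕ}

/-- The divisor `m K_Y + ∑ w_j D_j` is `ℚ`-effective: some positive multiple has a nonzero section. -/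
def PieceEffective (u : ι → Fin n → ℤ) (c : ι → LineBundle Γ)
    (K : LineBundle Γ) (d : Fin r → ι → ℤ) (M : Fin r → LineBundle Γ) (m : ℕ)
    (w : Fin r → ℕ) : Prop :=
  ∃ q : ℕ, 1 ≤ q ∧ ∃ G, IsSection u c (fun i => q * (∑ j, (w j : ℤ) * d j i - m))
    (fun γ v => (K.e γ v ^ m * ∏ j, (M j).e γ v ^ w j) ^ q) G ∧ ∃ v, G v ≠ 0

/-- The `ℝ`-divisor `K_Y + ∑ b_j D_j` is `ℝ`-linearly equivalent to an effective `ℝ`-divisor: it is a
sum `∑ t_k (m_k K_Y + ∑ w_{k j} D_j)` of positive real multiples of `ℚ`-effective divisors, with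
`m_k ≥ 1`. (So it is a convex combination of `ℚ`-effective `ℚ`-divisors `K_Y + B_k`, where
`B = ∑ s_k B_k`, `B_k ≥ 0`.) -/
def RealEffective (u : ι → Fin n → ℤ) (c : ι → LineBundle Γ)
    (K : LineBundle Γ) (d : Fin r → ι → ℤ) (M : Fin r → LineBundle Γ) (b : Fin r → ℝ) : Prop :=
  ∃ (N : ℕ) (t : Fin N → ℝ) (m : Fin N → ℕ) (w : Fin N → Fin r → ℕ),
    (∀ k, 0 < t k) ∧ (∀ k, 1 ≤ m k) ∧ (∑ k, t k * m k = 1) ∧ (∀ j, ∑ k, t k * w k j = b j) ∧
      ∀ k, PieceEffective u c K d M (m k) (w k)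

/-- The `ℝ`-divisor `K_Y + ∑ b_j D_j` is pseudo-effective: for some line bundle `A = O_Y(dA; LA)` and
all `k ≥ 1` the class `c_1(K_Y) + ∑ b_j c_1(D_j) + (1 / k) c_1(A)` is the class of an effective
`ℝ`-divisor `∑ s_l div G_l`, `s_l ≥ 0`, `G_l` a nonzero section of `O_Y(e_l; L_l)`. (On a projective
variety each pseudo-effective `ℝ`-divisor has this property, for each ample line bundle `A`.) Here the
class of `O_Y(e; L)` is given by the element `e` of `ℝ^ι`, modulo the elements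
`(∑_l q_l u_{i l})_i`, and by the Chern form of `L`. -/
def RealPsef (u : ι → Fin n → ℤ) (c : ι → LineBundle Γ) (HK : V → V → ℂ)
    (d : Fin r → ι → ℤ) (HM : Fin r → V → V → ℂ) (b : Fin r → ℝ) : Prop :=
  ∃ (dA : ι → ℤ) (LA : LineBundle Γ) (HA : V → V → ℂ), IsChernForm LA HA ∧
    ∀ k : ℕ, 1 ≤ k → ∃ (N : ℕ) (s : Fin N → ℝ) (e : Fin N → ι → ℤ) (L : Fin N → LineBundle Γ)
      (H : Fin N → V → V → ℂ) (G : Fin N → V → MvPolynomial ι ℂ),
      (∀ l, 0 ≤ s l) ∧ (∀ l, IsChernForm (L l) (H l)) ∧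
      (∀ l, IsSection u c (e l) (L l).e (G l) ∧ ∃ v, G l v ≠ 0) ∧
      (∃ q : Fin n → ℝ, ∀ i,
        ∑ l, s l * e l i = ∑ j, b j * d j i - 1 + (dA i : ℝ) / k + ∑ l, q l * u i l) ∧
      ∀ v w, ∑ l, (s l : ℂ) * H l v w = HK v w + ∑ j, (b j : ℂ) * HM j v w + HA v w / k

end Pool.Agent.U976.TBd
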