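import Pool.Agent.U976.TBd.RD3
import Pool.Agent.U976.TBd.RDDefs2

/-!
# Nonvanishing for real divisors on toric bundles
-/

set_option autoImplicit false

namespace Pool.Agent.U976.TBd

open Pool.Agent.W594.SYZ2 Pool.Agent.W594.SYZ2.TQ Pool.Agent.TH735.AQ Q47.MM Q47.TB Q47.EB
open MvPolynomial

variable {V : Type*} [NormedAddCommGroup V] [NormedSpace ℂ V] {Γ : Subgroup (V ≃ᵃ[ℂ] V)}
  {ι : Type*} [Fintype ι] {n r : ℕ}

omit [Fintype ι] in
theorem exists_exp {p : MvPolynomial ι ℂ} (h : p ≠ 0) : ∃ α, coeff α p ≠ 0 := by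
  by_contra hcon
  push Not at hcon
  exact h (MvPolynomial.ext _ _ fun α => by rw [hcon α, coeff_zero])

variable [FiniteDimensional ℂ V]

/-- Sections from the pieces. -/
theorem piece_effective {u : ι → Fin n → ℤ} {c : ι → LineBundle Γ} {K : LineBundle Γ}
    {d : Fin r → ι → ℤ} {M : Fin r → LineBundle Γ} {m : ℕ} {w : Fin r → ℕ} {β' : ι → ℕ}
    (hlin : LinEquiv u (fun i => (β' i : ℤ)) (fun i => ∑ j, (w j : ℤ) * d j i - m))
    (hgg : GG ((Q47.TB.tw ((adj K M m w).pow 1) c 1 β').pow (expo (Module.finrank ℂ V)))) :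
    PieceEffective u c K d M m w := by
  obtain ⟨s, hs, hs0⟩ := hgg 0
  have h1 := secPow_monomial (u := u) (c := c) (L := adj K M m w) (k := 1) (K := 1) (β := β')
    (d := fun i => ∑ j, (w j : ℤ) * d j i - m) (lin_one hlin) hs rfl
  refine ⟨1 * (1 * expo (Module.finrank ℂ V)), Nat.mul_pos one_pos (Nat.mul_pos one_pos
    (expo_pos _)), _, h1, 0, ?_⟩
  simpa using hs0

/-- Real exponents with nef forms give effective divisors. -/
theorem real_effective_of_nef (hΓ : IsTorusQuotient Γ) {ρ : V → ℂ} (hρ : IsRamification Γ ρ)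
    {u : ι → Fin n → ℤ} {S : Set (Set ι)} (hS : IsSmoothFan u S)
    {c : ι → LineBundle Γ} {Hc : ι → V → V → ℂ} (hc : ∀ i, IsChernForm (c i) (Hc i))
    {K : LineBundle Γ} (hK : IsCanonicalBundle c ρ K) {HK : V → V → ℂ} (hHK : IsChernForm K HK)
    {d : Fin r → ι → ℤ} {M : Fin r → LineBundle Γ} {HM : Fin r → V → V → ℂ}
    (hM : ∀ j, IsChernForm (M j) (HM j))
    {F : Fin r → V → MvPolynomial ι ℂ} (hF : ∀ j, IsSection u c (d j) (M j).e (F j))
    {b : Fin r → ℝ} (hb : ∀ j, 0 ≤ b j) (hlc : RealLC S F b)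
    (hn : ∃ (β : ι → ℝ) (q : Fin n → ℝ), (∀ i, 0 ≤ β i) ∧
      (∀ i, β i = ∑ j, b j * d j i - 1 + ∑ l, q l * u i l) ∧
      ∀ v, 0 ≤ (HK v v).re + ∑ j, b j * (HM j v v).re - ∑ i, β i * (Hc i v v).re) :
    RealEffective u c K d M b := by
  obtain ⟨β, q, hβ0, hβ, hn⟩ := hn
  obtain ⟨κ, hκ, t, m, w, ht, hm, h1, h2, h3⟩ := real_main hΓ hρ hS hc hK hHK hM hF hb hlc
    (P := Unit) (fun _ => ∅) (fun _ => β) (fun _ => q)
    (fun _ => hβ0) (fun _ i hi => absurd hi (Set.notMem_empty i)) (fun _ => hβ)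
    (fun _ a _ => by rw [rform_re]; exact hn a)
  refine reindex ht hm h1 h2 fun k => ?_
  obtain ⟨β', -, hlin, hgg⟩ := h3 k ()
  exact piece_effective hlin hgg

/-- The unramified case. -/
theorem real_effective_of_unram (hΓ : IsTorusQuotient Γ) {ρ : V → ℂ} (hρ : IsRamification Γ ρ)
    (h0 : ∀ v, ρ v ≠ 0)
    {u : ι → Fin n → ℤ} {S : Set (Set ι)} (hS : IsSmoothFan u S)
    {c : ι → LineBundle Γ} {Hc : ι → V → V → ℂ} (hc : ∀ i, IsChernForm (c i) (Hc i))
    {K : LineBundle Γ} (hK : IsCanonicalBundle c ρ K) {HK : V → V → ℂ} (hHK : IsChernForm K HK)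
    {d : Fin r → ι → ℤ} {M : Fin r → LineBundle Γ} {HM : Fin r → V → V → ℂ}
    (hM : ∀ j, IsChernForm (M j) (HM j))
    {F : Fin r → V → MvPolynomial ι ℂ} (hF : ∀ j, IsSection u c (d j) (M j).e (F j))
    {b : Fin r → ℝ} (hb : ∀ j, 0 ≤ b j) (hlc : RealLC S F b)
    (hn : ∃ (β : ι → ℝ) (q : Fin n → ℝ), (∀ i, 0 ≤ β i) ∧
      ∀ i, β i = ∑ j, b j * d j i - 1 + ∑ l, q l * u i l) :
    RealEffective u c K d M b := by
  obtain ⟨β, q, hβ0, hβ⟩ := hn
  obtain ⟨κ, hκ, t, m, w, ht, hm, h1, h2, h3⟩ := real_unram hΓ hρ h0 hS hc hK hHK hM hF hb hlc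
    (P := Unit) (fun _ => ∅) (fun _ => β) (fun _ => q)
    (fun _ => hβ0) (fun _ i hi => absurd hi (Set.notMem_empty i)) (fun _ => hβ)
  refine reindex ht hm h1 h2 fun k => ?_
  obtain ⟨β', -, hlin, hgg⟩ := h3 k ()
  exact piece_effective hlin hgg

/-- The exponents of effective divisors. -/
theorem real_nef_of_sections (hΓ : IsTorusQuotient Γ)
    {u : ι → Fin n → ℤ} {c : ι → LineBundle Γ} {Hc : ι → V → V → ℂ}
    (hc : ∀ i, IsChernForm (c i) (Hc i)) {N : ℕ} {s : Fin N → ℝ} {e : Fin N → ι → ℤ}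
    {L : Fin N → LineBundle Γ} {H : Fin N → V → V → ℂ} {G : Fin N → V → MvPolynomial ι ℂ}
    (hs : ∀ l, 0 ≤ s l) (hL : ∀ l, IsChernForm (L l) (H l))
    (hG : ∀ l, IsSection u c (e l) (L l).e (G l) ∧ ∃ v, G l v ≠ 0) :
    ∃ (β : ι → ℝ) (q : Fin n → ℝ), (∀ i, 0 ≤ β i) ∧
      (∀ i, β i = ∑ l, s l * e l i + ∑ l, q l * u i l) ∧
      ∀ v, 0 ≤ ∑ l, s l * (H l v v).re - ∑ i, β i * (Hc i v v).re := by
  have h1 : ∀ l, ∃ α, ∃ v, coeff α (G l v) ≠ 0 := by
    intro l
    obtain ⟨v, hv⟩ := (hG l).2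
    obtain ⟨α, hα⟩ := exists_exp hv
    exact ⟨α, v, hα⟩
  choose α v₀ hα using h1
  choose q hq using fun l => (hG l).1.deg (v₀ l) (α l) (mem_support_iff.2 (hα l))
  have hαr : ∀ l i, ((α l) i : ℝ) = e l i + ∑ k, (q l k : ℝ) * u i k := by
    intro l i
    have e1 : ((α l) i : ℤ) = e l i + ∑ k, q l k * u i k := hq l i
    have e2 : ((((α l) i : ℕ) : ℤ) : ℝ) = ((e l i + ∑ k, q l k * u i k : ℤ) : ℝ) := by rw [e1]
    push_cast at e2
    exact e2
  refine ⟨fun i => ∑ l, s l * (α l i : ℝ), fun k => ∑ l, s l * (q l k : ℝ), fun i => ?_,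
    fun i => ?_, fun v => ?_⟩
  · exact Finset.sum_nonneg fun l _ => mul_nonneg (hs l) (Nat.cast_nonneg _)
  · simp only [hαr, mul_add, Finset.sum_add_distrib]
    congr 1
    simp only [Finset.mul_sum, Finset.sum_mul]
    rw [Finset.sum_comm]
    exact Finset.sum_congr rfl fun _ _ => Finset.sum_congr rfl fun _ _ => by ring
  · have h2 : ∀ l, 0 ≤ (H l v v).re - ∑ i, (α l i : ℝ) * (Hc i v v).re := by
      intro l
      have h3 := nef_of_coef hΓ hc (hL l) (hG l).1 ⟨v₀ l, hα l⟩ v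
      rw [Complex.sub_re, Complex.re_sum] at h3
      simp only [nat_re] at h3
      exact h3
    have h3 : 0 ≤ ∑ l, s l * ((H l v v).re - ∑ i, (α l i : ℝ) * (Hc i v v).re) :=
      Finset.sum_nonneg fun l _ => mul_nonneg (hs l) (h2 l)
    have h4 : ∑ l, s l * ((H l v v).re - ∑ i, (α l i : ℝ) * (Hc i v v).re)
        = ∑ l, s l * (H l v v).re - ∑ i, (∑ l, s l * (α l i : ℝ)) * (Hc i v v).re := by
      simp only [mul_sub, Finset.sum_sub_distrib, Finset.mul_sum, Finset.sum_mul]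
      congr 1
      rw [Finset.sum_comm]
      exact Finset.sum_congr rfl fun _ _ => Finset.sum_congr rfl fun _ _ => by ring
    rw [h4] at h3
    exact h3

omit [Fintype ι] [FiniteDimensional ℂ V] in
/-- Effective real divisors. -/
theorem real_psef_of_effective
    {u : ι → Fin n → ℤ} {c : ι → LineBundle Γ} {K : LineBundle Γ} {HK : V → V → ℂ}
    (hHK : IsChernForm K HK) {d : Fin r → ι → ℤ} {M : Fin r → LineBundle Γ}
    {HM : Fin r → V → V → ℂ} (hM : ∀ j, IsChernForm (M j) (HM j)) {b : Fin r → ℝ}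
    (h : RealEffective u c K d M b) :
    ∃ (N : ℕ) (s : Fin N → ℝ) (e : Fin N → ι → ℤ) (L : Fin N → LineBundle Γ)
      (H : Fin N → V → V → ℂ) (G : Fin N → V → MvPolynomial ι ℂ),
      (∀ l, 0 ≤ s l) ∧ (∀ l, IsChernForm (L l) (H l)) ∧
      (∀ l, IsSection u c (e l) (L l).e (G l) ∧ ∃ v, G l v ≠ 0) ∧
      (∀ i, ∑ l, s l * e l i = ∑ j, b j * d j i - 1) ∧
      ∀ v w, ∑ l, (s l : ℂ) * H l v w = HK v w + ∑ j, (b j : ℂ) * HM j v w := by
  obtain ⟨N, t, m, w, ht, hm, h1, h2, h3⟩ := h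
  choose q hq G hG hG0 using h3
  have hq0 : ∀ k, (q k : ℝ) ≠ 0 := fun k => by
    have := hq k
    have : q k ≠ 0 := by omega
    exact_mod_cast this
  refine ⟨N, fun k => t k / q k, fun k i => q k * (∑ j, (w k j : ℤ) * d j i - m k),
    fun k => (adj K M (m k) (w k)).pow (q k),
    fun k v v' => (q k : ℂ) * cls HK HM (m k) (fun j => w k j) v v', G,
    fun k => div_nonneg (ht k).le (Nat.cast_nonneg _),
    fun k => chern_pow' (chern_adj hHK hM (m k) (w k)) (q k), fun k => ⟨hG k, hG0 k⟩,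
    fun i => ?_, fun v v' => ?_⟩
  · have e1 : ∀ k, t k / q k * ((q k * (∑ j, (w k j : ℤ) * d j i - m k) : ℤ) : ℝ)
        = t k * ∑ j, (w k j : ℝ) * d j i - t k * m k := by
      intro k
      have := hq0 k
      push_cast
      field_simp
    rw [Finset.sum_congr rfl fun k _ => e1 k, Finset.sum_sub_distrib, h1]
    congr 1
    have e2 : ∀ j, b j * (d j i : ℝ) = ∑ k, t k * (w k j * d j i) := by
      intro j
      rw [← h2 j, Finset.sum_mul]
      exact Finset.sum_congr rfl fun k _ => by ring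
    rw [Finset.sum_congr rfl fun j _ => e2 j, Finset.sum_comm]
    exact Finset.sum_congr rfl fun k _ => Finset.mul_sum _ _ _
  · have e1 : ∀ k, ((t k / q k : ℝ) : ℂ) * ((q k : ℂ) * cls HK HM (m k) (fun j => w k j) v v')
        = ((t k * m k : ℝ) : ℂ) * HK v v' + ∑ j, ((t k * w k j : ℝ) : ℂ) * HM j v v' := by
      intro k
      have h5 : ((q k : ℕ) : ℂ) ≠ 0 := by
        have := hq k
        have : q k ≠ 0 := by omega
        exact_mod_cast this
      rw [cls]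
      push_cast
      have e3 : ∑ j, (t k : ℂ) * (w k j : ℂ) * HM j v v'
          = (t k : ℂ) * ∑ j, (w k j : ℂ) * HM j v v' := by
        rw [Finset.mul_sum]
        exact Finset.sum_congr rfl fun j _ => by ring
      rw [e3]
      field_simp
    rw [Finset.sum_congr rfl fun k _ => e1 k, Finset.sum_add_distrib, ← Finset.sum_mul,
      ← Complex.ofReal_sum, h1, Complex.ofReal_one, one_mul, Finset.sum_comm]
    congr 1
    refine Finset.sum_congr rfl fun j _ => ?_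
    rw [← Finset.sum_mul, ← Complex.ofReal_sum, h2 j]

/-- Pseudo-effective real adjoint divisors are effective. -/
theorem real_effective_of_psef (hΓ : IsTorusQuotient Γ) {ρ : V → ℂ} (hρ : IsRamification Γ ρ)
    {u : ι → Fin n → ℤ} {S : Set (Set ι)} (hS : IsSmoothFan u S)
    {c : ι → LineBundle Γ} {Hc : ι → V → V → ℂ} (hc : ∀ i, IsChernForm (c i) (Hc i))
    {K : LineBundle Γ} (hK : IsCanonicalBundle c ρ K) {HK : V → V → ℂ} (hHK : IsChernForm K HK)
    {d : Fin r → ι → ℤ} {M : Fin r → LineBundle Γ} {HM : Fin r → V → V → ℂ}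
    (hM : ∀ j, IsChernForm (M j) (HM j))
    {F : Fin r → V → MvPolynomial ι ℂ} (hF : ∀ j, IsSection u c (d j) (M j).e (F j))
    {b : Fin r → ℝ} (hb : ∀ j, 0 ≤ b j) (hlc : RealLC S F b)
    (hp : RealPsef u c HK d HM b) : RealEffective u c K d M b := by
  classical
  have := finite_Lin hΓ
  -- the tests
  obtain ⟨x, y, hx, hy, hxy⟩ := exists_tests hΓ
  have h1 : ∀ g, ∃ n : ℤ, (HK (x g) (y g)).im = n := fun g => by
    obtain ⟨hH, F', hF', hFe⟩ := hHK
    obtain ⟨n, hn⟩ := im_int hH ⟨hF', hFe⟩ (hx g) (hy g)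
    exact ⟨n, hn⟩
  have h2 : ∀ j g, ∃ n : ℤ, (HM j (x g) (y g)).im = n := fun j g => by
    obtain ⟨hH, F', hF', hFe⟩ := hM j
    obtain ⟨n, hn⟩ := im_int hH ⟨hF', hFe⟩ (hx g) (hy g)
    exact ⟨n, hn⟩
  have h3 : ∀ i g, ∃ n : ℤ, (Hc i (x g) (y g)).im = n := fun i g => by
    obtain ⟨hH, F', hF', hFe⟩ := hc i
    obtain ⟨n, hn⟩ := im_int hH ⟨hF', hFe⟩ (hx g) (hy g)
    exact ⟨n, hn⟩
  choose nn hnn using h1
  choose nj hnj using h2
  choose N hN using h3
  -- the limit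
  obtain ⟨dA, LA, HA, hA, hpk⟩ := hp
  obtain ⟨q, hq0, hqt⟩ := limit_point (u := u) hS (fun i => ∑ j, b j * (d j i : ℝ) - 1)
    (fun i => (dA i : ℝ)) (fun g => (nn g : ℝ) + ∑ j, b j * nj j g)
    (fun g => (HA (x g) (y g)).im) (fun i g => (N i g : ℝ)) (fun k => by
    obtain ⟨N', s, e, L, H, G, hs, hL, hG, ⟨q, hq⟩, hH⟩ := hpk (k + 1) (Nat.le_add_left 1 k)
    obtain ⟨β, q', hβ0, hβ, hβn⟩ := real_nef_of_sections hΓ hc hs hL hG
    have hβ' : ∀ i, β i = ∑ j, b j * (d j i : ℝ) - 1 + (dA i : ℝ) / (k + 1)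
        + ∑ l, (q l + q' l) * (u i l : ℝ) := by
      intro i
      rw [hβ i, hq i]
      simp only [add_mul, Finset.sum_add_distrib]
      push_cast
      ring
    refine ⟨fun l => q l + q' l, fun i => ?_, fun g => ?_⟩
    · simp only
      rw [← hβ' i]
      exact hβ0 i
    · simp only [← hβ']
      -- the form
      let Q : V → V → ℂ := fun v w => rform HK HM Hc b β v w + ((1 / ((k : ℝ) + 1) : ℝ) : ℂ) * HA v w
      have hQ : IsHermitian Q := by
        have hr := herm_rform hHK.1 (fun j => (hM j).1) (fun i => (hc i).1) b β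
        refine ⟨fun u v w => ?_, fun a v w => ?_, fun v w => ?_⟩
        · simp only [Q, hr.add_left, hA.1.add_left]
          ring
        · simp only [Q, hr.smul_left, hA.1.smul_left]
          ring
        · simp only [Q, map_add, map_mul, Complex.conj_ofReal, ← hr.symm, ← hA.1.symm]
      have hQn : IsNefForm Q := by
        intro v
        have h4 := hβn v
        have h5 := congrArg Complex.re (hH v v)
        rw [Complex.re_sum, Complex.add_re, Complex.add_re, Complex.re_sum] at h5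
        simp only [Complex.re_ofReal_mul] at h5
        have h6 : (HA v v / ((k + 1 : ℕ) : ℂ)).re = (HA v v).re / (k + 1) := by
          have : ((k + 1 : ℕ) : ℂ) = (((k : ℝ) + 1 : ℝ) : ℂ) := by push_cast; rfl
          rw [this, Complex.div_ofReal_re]
        rw [h6] at h5
        simp only [Q]
        rw [Complex.add_re, Complex.re_ofReal_mul, rform_re]
        rw [h5] at h4
        have h7 : 1 / ((k : ℝ) + 1) * (HA v v).re = (HA v v).re / (k + 1) := by ring
        rw [h7]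
        linarith
      have h8 := (hxy Q hQ).1 (fun a _ => hQn a) g
      simp only [Q] at h8
      rw [Complex.add_im, Complex.im_ofReal_mul, rform_im, hnn] at h8
      simp only [hnj, hN] at h8
      have h9 : 1 / ((k : ℝ) + 1) * (HA (x g) (y g)).im = (HA (x g) (y g)).im / (k + 1) := by ring
      rw [h9] at h8
      linarith)
  obtain ⟨κ, hκ, t, m, w, ht, hm, h1, h2, h3⟩ := real_core hΓ hρ hS hc hK hHK hM hF hb hlc
    (P := Unit) (fun _ => ∅) (fun _ i => ∑ j, b j * (d j i : ℝ) - 1 + ∑ l, q l * (u i l : ℝ))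
    (fun _ => q) (fun _ => hq0) (fun _ i hi => absurd hi (Set.notMem_empty i)) (fun _ _ => rfl)
    nn nj N (fun _ g => hqt g) (fun m w β' Q hQ hQ0 hl htst => by
      have hch := chern_frm (chern_adj hHK hM m w) hc 1 1 β'
      have hI := inv_of_chern hch
      refine nef_of_roots hΓ hI (fun z hz => pair_fixed hΓ hρ hQ hQ0 hl hch hz)
        ((hxy _ hI.herm).2 fun g => ?_)
      rw [Nat.cast_one, one_mul, frm_im, cls_im, hnn]
      simp only [hnj, hN]
      have h6 := htst g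
      have h7 : ((0 : ℤ) : ℝ) ≤ (((m : ℤ) * nn g + ∑ j, (w j : ℤ) * nj j g
          - ∑ i, (β' i : ℤ) * N i g : ℤ) : ℝ) := by exact_mod_cast h6
      push_cast at h7 ⊢
      linarith)
  refine reindex ht hm h1 h2 fun k => ?_
  obtain ⟨β', -, hlin, hgg⟩ := h3 k ()
  exact piece_effective hlin hgg

/-- The criterion for real divisors. -/
theorem real_all (hΓ : IsTorusQuotient Γ) {ρ : V → ℂ} (hρ : IsRamification Γ ρ)
    {u : ι → Fin n → ℤ} {S : Set (Set ι)} (hS : IsSmoothFan u S)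
    {c : ι → LineBundle Γ} {Hc : ι → V → V → ℂ} (hc : ∀ i, IsChernForm (c i) (Hc i))
    {K : LineBundle Γ} (hK : IsCanonicalBundle c ρ K) {HK : V → V → ℂ} (hHK : IsChernForm K HK)
    {d : Fin r → ι → ℤ} {M : Fin r → LineBundle Γ} {HM : Fin r → V → V → ℂ}
    (hM : ∀ j, IsChernForm (M j) (HM j))
    {F : Fin r → V → MvPolynomial ι ℂ} (hF : ∀ j, IsSection u c (d j) (M j).e (F j))
    {b : Fin r → ℝ} (hb : ∀ j, 0 ≤ b j) (hlc : RealLC S F b) :
    (RealPsef u c HK d HM b ↔ RealEffective u c K d M b) ∧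
    (RealEffective u c K d M b ↔ ∃ (β : ι → ℝ) (q : Fin n → ℝ), (∀ i, 0 ≤ β i) ∧
      (∀ i, β i = ∑ j, b j * d j i - 1 + ∑ l, q l * u i l) ∧
      ∀ v, 0 ≤ (HK v v).re + ∑ j, b j * (HM j v v).re - ∑ i, β i * (Hc i v v).re) ∧
    ((∀ v, ρ v ≠ 0) → (RealEffective u c K d M b ↔ ∃ (β : ι → ℝ) (q : Fin n → ℝ),
      (∀ i, 0 ≤ β i) ∧ ∀ i, β i = ∑ j, b j * d j i - 1 + ∑ l, q l * u i l)) := by
  have key : RealEffective u c K d M b → ∃ (β : ι → ℝ) (q : Fin n → ℝ), (∀ i, 0 ≤ β i) ∧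
      (∀ i, β i = ∑ j, b j * d j i - 1 + ∑ l, q l * u i l) ∧
      ∀ v, 0 ≤ (HK v v).re + ∑ j, b j * (HM j v v).re - ∑ i, β i * (Hc i v v).re := by
    intro h
    obtain ⟨N, s, e, L, H, G, hs, hL, hG, h1, h2⟩ := real_psef_of_effective hHK hM h
    obtain ⟨β, q, hβ0, hβ, hβn⟩ := real_nef_of_sections hΓ hc hs hL hG
    refine ⟨β, q, hβ0, fun i => by rw [hβ i, h1 i], fun v => ?_⟩
    have h5 := congrArg Complex.re (h2 v v)
    rw [Complex.re_sum, Complex.add_re, Complex.re_sum] at h5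
    simp only [Complex.re_ofReal_mul] at h5
    rw [← h5]
    exact hβn v
  refine ⟨⟨real_effective_of_psef hΓ hρ hS hc hK hHK hM hF hb hlc, fun h => ?_⟩,
    ⟨key, real_effective_of_nef hΓ hρ hS hc hK hHK hM hF hb hlc⟩, fun h0 => ⟨fun h => ?_,
    real_effective_of_unram hΓ hρ h0 hS hc hK hHK hM hF hb hlc⟩⟩
  · obtain ⟨N, s, e, L, H, G, hs, hL, hG, h1, h2⟩ := real_psef_of_effective hHK hM h
    let T : LineBundle Γ := ⟨fun _ _ => 1, fun _ => differentiable_const 1, fun _ _ => one_ne_zero,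
      fun _ _ _ => (mul_one 1).symm, fun _ _ _ => rfl⟩
    have hT : IsChernForm T fun _ _ => 0 := by
      refine ⟨⟨fun _ _ _ => (add_zero _).symm, fun _ _ _ => (mul_zero _).symm,
        fun _ _ => by simp⟩, fun _ => 0, differentiable_const 0, fun γ v => ?_⟩
      change ‖(1 : ℂ)‖ ^ 2 = _
      simp
    refine ⟨fun _ => 0, T, fun _ _ => 0, hT, fun k _ => ⟨N, s, e, L, H, G, hs, hL, hG,
      ⟨0, fun i => ?_⟩, fun v w => ?_⟩⟩
    · rw [h1 i]
      simp
    · rw [h2 v w]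
      simp
  · obtain ⟨β, q, h1, h2, -⟩ := key h
    exact ⟨β, q, h1, h2⟩

end Pool.Agent.U976.TBd
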