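import Pool.Agent.U976.TBd.GA6
import Pool.Agent.Q47.FJ.Fan

/-!
# One multiple for all nef line bundles
-/

set_option autoImplicit false

namespace Pool.Agent.U976.TBd

open Pool.Agent.W594.SYZ2 Pool.Agent.W594.SYZ2.TQ Pool.Agent.TH735.AQ Q47.MM Q47.TB Q47.EB
open MvPolynomial

variable {V : Type*} [NormedAddCommGroup V] [NormedSpace ℂ V]
  {Γ : Subgroup (V ≃ᵃ[ℂ] V)} {ι : Type*} [Fintype ι] {n : ℕ}
  {u : ι → Fin n → ℤ} {S : Set (Set ι)} {c : ι → LineBundle Γ}

omit [NormedAddCommGroup V] [NormedSpace ℂ V] in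
/-- Nef classes have integral vertices. -/
theorem nef_one (hS : IsSmoothFan u S) {Hc : ι → V → V → ℂ} {D : ι → ℤ} {H : V → V → ℂ}
    (h : Nef u S Hc D H) : IsNef u S Hc D H := by
  classical
  intro σ hσ
  obtain ⟨τ, hτ, hστ⟩ := Q47.FJ.exists_max hσ
  obtain ⟨C, hC⟩ := Q47.FJ.exists_dual hS hτ
  let r : Fin n → ℤ := fun k => -∑ l, C k l * D l
  let b : ι → ℤ := fun i => D i + ∑ k, r k * u i k
  have hb0 : ∀ i ∈ τ, b i = 0 := by
    intro i hi
    have h1 : ∑ k, r k * u i k = -D i := by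
      have h2 : ∀ k, r k * u i k = -∑ l, D l * (C k l * u i k) := by
        intro k
        simp only [r]
        rw [neg_mul, Finset.sum_mul]
        congr 1
        exact Finset.sum_congr rfl fun l _ => by ring
      rw [Finset.sum_congr rfl fun k _ => h2 k, Finset.sum_neg_distrib, Finset.sum_comm]
      congr 1
      have h3 : ∀ l, ∑ k, D l * (C k l * u i k) = if l = i then D l else 0 := by
        intro l
        rw [← Finset.mul_sum]
        split_ifs with hli
        · subst hli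
          rw [hC.one l hi, mul_one]
        · rw [hC.dual i hi l hli, mul_zero]
      rw [Finset.sum_congr rfl fun l _ => h3 l]
      simp
    simp only [b, h1, add_neg_cancel]
  obtain ⟨k, hk, β, hβ0, hβ, hf⟩ := h τ hτ.1
  have hkb : (fun i => (β i : ℤ)) = fun i => k * b i := by
    refine hC.linEquiv_unique ?_ fun i hi => by rw [hβ0 i hi, hb0 i hi]; simp
    obtain ⟨q, hq⟩ := hβ
    refine ⟨fun l => q l - k * r l, fun i => ?_⟩
    have h1 : (β i : ℤ) = k * D i + ∑ l, q l * u i l := hq i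
    simp only [b]
    rw [h1]
    have h2 : ∑ l, (q l - k * r l) * u i l = ∑ l, q l * u i l - k * ∑ l, r l * u i l := by
      rw [Finset.mul_sum, ← Finset.sum_sub_distrib]
      exact Finset.sum_congr rfl fun l _ => by ring
    rw [h2]
    ring
  have hkb' : ∀ i, (β i : ℤ) = k * b i := fun i => congrFun hkb i
  have hk0 : (0 : ℤ) < k := by exact_mod_cast hk
  have hb : ∀ i, 0 ≤ b i := by
    intro i
    by_contra hneg
    rw [not_le] at hneg
    have h1 : (β i : ℤ) < 0 := by
      rw [hkb' i]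
      exact mul_neg_of_pos_of_neg hk0 hneg
    have h2 : (0 : ℤ) ≤ β i := Int.natCast_nonneg _
    linarith
  have hbn : ∀ i, (((b i).toNat : ℕ) : ℤ) = b i := fun i => Int.toNat_of_nonneg (hb i)
  refine ⟨fun i => (b i).toNat, fun i hi => ?_, ⟨r, fun i => ?_⟩, fun v => ?_⟩
  · change (b i).toNat = 0
    rw [hb0 i (hστ hi)]
    rfl
  · exact hbn i
  · have h1 := hf v
    have h2 : ∀ i, (β i : ℂ) = k * ((b i).toNat : ℂ) := by
      intro i
      have h3 : (β i : ℤ) = (k * (b i).toNat : ℕ) := by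
        push_cast
        rw [hkb' i]
        congr 1
        exact (hbn i).symm
      have h4 : β i = k * (b i).toNat := by exact_mod_cast h3
      rw [h4]
      push_cast
      ring
    have h3 : (k : ℂ) * H v v - ∑ i, (β i : ℂ) * Hc i v v
        = (k : ℂ) * (H v v - ∑ i, (((b i).toNat : ℕ) : ℂ) * Hc i v v) := by
      rw [mul_sub, Finset.mul_sum]
      congr 1
      exact Finset.sum_congr rfl fun i _ => by rw [h2 i]; ring
    change 0 ≤ ((k : ℂ) * H v v - ∑ i, (β i : ℂ) * Hc i v v).re at h1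
    rw [h3, nat_re] at h1
    have h4 : (0 : ℝ) < k := by exact_mod_cast hk
    exact nonneg_of_mul_nonneg_right h1 h4

/-- If `H^1(X, O_X) = 0` then one multiple of all nef line bundles on `Y` is generated by global
sections. -/
theorem free_of_hone [FiniteDimensional ℂ V] (hΓ : IsTorusQuotient Γ) (h01 : HOneZero Γ)
    (hS : IsSmoothFan u S)
    {Hc : ι → V → V → ℂ} (hc : ∀ i, IsChernForm (c i) (Hc i)) {D : ι → ℤ} {L : LineBundle Γ}
    {H : V → V → ℂ} (hL : IsChernForm L H) (hn : Nef u S Hc D H) (v : V) (x : ι → ℂ)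
    (hx : {i | x i = 0} ∈ S) :
    ∃ G, SecPow u c D L (expo (Module.finrank ℂ V)) G ∧ eval x (G v) ≠ 0 := by
  obtain ⟨β, hβ0, hβ, hf⟩ := nef_one hS hn _ hx
  have hβ' : LinEquiv u (fun i => (β i : ℤ)) fun i => ((1 : ℕ) : ℤ) * D i := by
    simpa only [Nat.cast_one, one_mul] using hβ
  obtain ⟨hH, F, hF, hFe⟩ := chern_frm hL hc 1 1 β
  have hgg : GG ((Q47.TB.tw (L.pow 1) c 1 β).pow (expo (Module.finrank ℂ V))) := by
    refine gg_of_hone hΓ h01 hH ⟨hF, hFe⟩ fun w => ?_
    rw [nat_re]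
    refine mul_nonneg (Nat.cast_nonneg _) ?_
    have h1 := hf w
    simpa [frm] using h1
  obtain ⟨s, hs, hs0⟩ := hgg v
  refine ⟨_, secPow_monomial hβ' hs (by ring), ?_⟩
  rw [eval_monomial, Finsupp.prod_fintype _ _ fun i => pow_zero _]
  refine mul_ne_zero hs0 (Finset.prod_ne_zero_iff.2 fun i _ => ?_)
  by_cases hi : x i = 0
  · rw [Finsupp.equivFunOnFinite_symm_apply_apply, hβ0 i hi, mul_zero, pow_zero]
    exact one_ne_zero
  · exact pow_ne_zero _ hi

end Pool.Agent.U976.TBd
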